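import Pool.Agent.Q74.SP.Mu

/-! Mean values twisted by `n ^ (2 π i ω)`. -/

set_option autoImplicit false

namespace Pool.Agent.Q74.SP

open Finset Filter Topology

theorem dz_of_tendsto {u : ℕ → ℂ} (h : Tendsto u atTop (𝓝 0)) : DZ u := by
  have hb : ∃ H : ℝ, ∀ n, ‖u n‖ ≤ H := by
    obtain ⟨H, hH⟩ := (Metric.isBounded_range_of_tendsto u h).exists_norm_le
    exact ⟨H, fun n => hH _ ⟨n, rfl⟩⟩
  obtain ⟨H, hH⟩ := hb
  refine dz_of_bad hH fun ε hε => ?_
  obtain ⟨n0, hn0⟩ := (Metric.tendsto_atTop.1 h) ε hε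
  refine ⟨fun _ => range n0, ?_, ?_⟩
  · simp only [card_range]
    exact tendsto_const_nhds.div_atTop tendsto_natCast_atTop_atTop
  · refine Eventually.of_forall fun N n _ hn => ?_
    rw [mem_range, not_lt] at hn
    have := hn0 n hn
    rw [dist_zero_right] at this
    exact this.le

theorem dz_mean {u : ℕ → ℂ} (h : DZ u) : Tendsto (mean u) atTop (𝓝 0) := by
  rw [tendsto_zero_iff_norm_tendsto_zero]
  refine squeeze_zero (fun _ => norm_nonneg _) (fun N => ?_) h
  unfold mean
  rw [norm_div, Complex.norm_natCast]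
  exact div_le_div_of_nonneg_right (norm_sum_le _ _) (Nat.cast_nonneg N)

theorem e_succ_sub {ω : ℝ} {n : ℕ} (hn : 1 ≤ n) :
    ‖e (ω * Real.log ((n + 1 : ℕ) : ℝ)) - e (ω * Real.log n)‖ ≤ 2 * Real.pi * |ω| / n := by
  have hn0 : (0 : ℝ) < n := by exact_mod_cast hn
  have hlog : Real.log ((n + 1 : ℕ) : ℝ) = Real.log n + Real.log (1 + 1 / n) := by
    rw [← Real.log_mul hn0.ne' (by positivity)]
    congr 1
    push_cast
    field_simp
  have e1 : e (ω * Real.log ((n + 1 : ℕ) : ℝ)) - e (ω * Real.log n)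
      = e (ω * Real.log n) * (e (ω * Real.log (1 + 1 / n)) - 1) := by
    rw [mul_sub, mul_one, ← e_add, hlog]
    congr 2
    ring
  rw [e1, norm_mul, norm_e, one_mul]
  refine (norm_e_sub_one_le _).trans ?_
  have h1 : 0 ≤ Real.log (1 + 1 / n) := Real.log_nonneg (by
    have : (0 : ℝ) ≤ 1 / n := by positivity
    linarith)
  have h2 : Real.log (1 + 1 / n) ≤ 1 / n := by
    have := Real.log_le_sub_one_of_pos (show (0 : ℝ) < 1 + 1 / n by positivity)
    linarith
  rw [abs_mul, abs_of_nonneg h1, ← mul_assoc]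
  calc 2 * Real.pi * |ω| * Real.log (1 + 1 / n) ≤ 2 * Real.pi * |ω| * (1 / n) :=
        mul_le_mul_of_nonneg_left h2 (by positivity)
    _ = 2 * Real.pi * |ω| / n := by ring

theorem abel (b E : ℕ → ℂ) (N : ℕ) :
    ∑ n ∈ Icc 1 (N + 1), b n * E n = (∑ n ∈ Icc 1 (N + 1), b n) * E (N + 1)
      - ∑ n ∈ Icc 1 N, (∑ k ∈ Icc 1 n, b k) * (E (n + 1) - E n) := by
  induction N with
  | zero => simp
  | succ N ih =>
    rw [sum_Icc_succ_top (by omega), ih, sum_Icc_succ_top (by omega : 1 ≤ N + 1 + 1),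
      sum_Icc_succ_top (by omega : 1 ≤ N + 1) (fun n => (∑ k ∈ Icc 1 n, b k) * (E (n + 1) - E n))]
    ring

theorem twist_zero {b : ℕ → ℂ} (h : Tendsto (mean b) atTop (𝓝 0)) (ω : ℝ) :
    Tendsto (mean fun n => b n * e (ω * Real.log n)) atTop (𝓝 0) := by
  have h1 := dz_of_tendsto h
  have h2 : Tendsto (fun N : ℕ => ‖mean b (N + 1)‖ + 2 * Real.pi * |ω| * ((∑ n ∈ Icc 1 N, ‖mean b n‖) / N))
      atTop (𝓝 (0 + 2 * Real.pi * |ω| * 0)) := by
    refine Tendsto.add ?_ (h1.const_mul _)
    have h3 := ((tendsto_add_atTop_iff_nat 1).2 h).norm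
    rwa [norm_zero] at h3
  rw [mul_zero, add_zero] at h2
  rw [← tendsto_add_atTop_iff_nat 1, tendsto_zero_iff_norm_tendsto_zero]
  refine squeeze_zero (fun _ => norm_nonneg _) (fun N => ?_) h2
  have hN : (0 : ℝ) < ((N + 1 : ℕ) : ℝ) := by positivity
  unfold mean
  rw [norm_div, Complex.norm_natCast, abel b (fun n => e (ω * Real.log n)) N]
  refine (div_le_div_of_nonneg_right (norm_sub_le _ _) hN.le).trans ?_
  rw [add_div]
  apply add_le_add
  · rw [norm_mul, norm_e, mul_one, norm_div, Complex.norm_natCast]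
  · rcases Nat.eq_zero_or_pos N with rfl | hN1
    · simp
    have hN0 : (0 : ℝ) < N := by exact_mod_cast hN1
    have h4 : ‖∑ n ∈ Icc 1 N, (∑ k ∈ Icc 1 n, b k) * (e (ω * Real.log ((n + 1 : ℕ) : ℝ)) - e (ω * Real.log n))‖
        ≤ 2 * Real.pi * |ω| * ∑ n ∈ Icc 1 N, ‖mean b n‖ := by
      refine (norm_sum_le _ _).trans ?_
      rw [mul_sum]
      apply sum_le_sum
      intro n hn
      have hn1 := (mem_Icc.1 hn).1
      have hn0 : (0 : ℝ) < n := by exact_mod_cast hn1
      rw [norm_mul]
      unfold mean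
      rw [norm_div, Complex.norm_natCast]
      calc ‖∑ k ∈ Icc 1 n, b k‖ * ‖e (ω * Real.log ((n + 1 : ℕ) : ℝ)) - e (ω * Real.log n)‖
          ≤ ‖∑ k ∈ Icc 1 n, b k‖ * (2 * Real.pi * |ω| / n) :=
            mul_le_mul_of_nonneg_left (e_succ_sub hn1) (norm_nonneg _)
        _ = _ := by ring
    refine (div_le_div_of_nonneg_right h4 hN.le).trans ?_
    unfold mean
    rw [mul_div_assoc]
    apply mul_le_mul_of_nonneg_left _ (by positivity)
    apply div_le_div_of_nonneg_left (sum_nonneg fun _ _ => norm_nonneg _) hN0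
    exact_mod_cast Nat.le_succ N

theorem twist_one (ω : ℝ) :
    Tendsto (fun N : ℕ => e (-(ω * Real.log N)) * mean (fun n => e (ω * Real.log n)) N) atTop
      (𝓝 (1 / (1 + 2 * Real.pi * ω * Complex.I))) := by
  set z : ℂ := 1 + 2 * Real.pi * ω * Complex.I with hz
  have hz0 : z ≠ 0 := by
    intro h0
    have := congrArg Complex.re h0
    simp [hz] at this
  set E : ℕ → ℂ := fun n => e (ω * Real.log n) with hE
  set c : ℕ → ℂ := fun n => n * E n - ((n - 1 : ℕ) : ℂ) * E (n - 1) with hc
  have hsum : ∀ N : ℕ, ∑ n ∈ Icc 1 N, c n = N * E N := by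
    intro N
    induction N with
    | zero => simp
    | succ N ih =>
      rw [sum_Icc_succ_top (by omega), ih, hc]
      simp only [Nat.add_sub_cancel]
      ring
  -- the increments
  have hinc : Tendsto (fun n => c n - z * E n) atTop (𝓝 0) := by
    rw [← tendsto_add_atTop_iff_nat 1]
    -- derivative
    have hd : HasDerivAt (fun y : ℝ => e (-(ω * Real.log (1 + y)))) (-(2 * Real.pi * ω * Complex.I)) 0 := by
      have h1 : HasDerivAt (fun y : ℝ => Real.log (1 + y)) 1 0 := by
        have h2 : HasDerivAt (fun y : ℝ => 1 + y) 1 0 := by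
          simpa using (hasDerivAt_id (0 : ℝ)).const_add 1
        have h3 := h2.log (by norm_num)
        simpa using h3
      have h2 : HasDerivAt (fun y : ℝ => ((2 * Real.pi * (-(ω * Real.log (1 + y))) : ℝ) : ℂ) * Complex.I)
          (((2 * Real.pi * (-(ω * 1)) : ℝ) : ℂ) * Complex.I) 0 := by
        have h3 := ((h1.const_mul ω).neg.const_mul (2 * Real.pi)).ofReal_comp
        exact h3.mul_const Complex.I
      have h3 := h2.cexp
      have e1 : (fun y : ℝ => e (-(ω * Real.log (1 + y))))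
          = fun y : ℝ => Complex.exp (((2 * Real.pi * (-(ω * Real.log (1 + y))) : ℝ) : ℂ) * Complex.I) := by
        funext y
        unfold e
        congr 1
        try ring
      rw [e1]
      refine h3.congr_deriv ?_
      rw [add_zero, Real.log_one, mul_zero, neg_zero, mul_zero, Complex.ofReal_zero, zero_mul, Complex.exp_zero]
      push_cast
      ring
    have h1 : Tendsto (fun n : ℕ => (n : ℝ)⁻¹) atTop (𝓝[≠] 0) := by
      rw [tendsto_nhdsWithin_iff]
      refine ⟨tendsto_inv_atTop_zero.comp tendsto_natCast_atTop_atTop, ?_⟩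
      filter_upwards [eventually_ge_atTop 1] with n hn
      have hn0 : (0 : ℝ) < n := by exact_mod_cast hn
      exact (inv_pos.2 hn0).ne'
    have h2 := (hasDerivAt_iff_tendsto_slope_zero.1 hd).comp h1
    have h3 := (h2.add_const (2 * Real.pi * ω * Complex.I)).norm
    rw [neg_add_cancel, norm_zero] at h3
    rw [tendsto_zero_iff_norm_tendsto_zero]
    refine h3.congr' ?_
    filter_upwards [eventually_ge_atTop 1] with n hn
    have hn0 : (0 : ℝ) < n := by exact_mod_cast hn
    have hlog : Real.log ((n + 1 : ℕ) : ℝ) = Real.log n + Real.log (1 + (n : ℝ)⁻¹) := by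
      rw [← Real.log_mul hn0.ne' (by positivity)]
      congr 1
      push_cast
      field_simp
    have e1 : c (n + 1) - z * E (n + 1)
        = -(E (n + 1) * (n * (e (-(ω * Real.log (1 + (n : ℝ)⁻¹))) - 1) + 2 * Real.pi * ω * Complex.I)) := by
      have e2 : E n = E (n + 1) * e (-(ω * Real.log (1 + (n : ℝ)⁻¹))) := by
        rw [hE]
        simp only
        rw [← e_add, hlog]
        congr 1
        ring
      rw [hc]
      simp only [Nat.add_sub_cancel]
      rw [hz]
      have e3 : ((n : ℂ)) * E n = n * (E (n + 1) * e (-(ω * Real.log (1 + (n : ℝ)⁻¹)))) := by rw [e2]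
      rw [e3]
      push_cast
      ring
    rw [e1, norm_neg, norm_mul, hE]
    simp only
    rw [norm_e, one_mul]
    simp only [Function.comp_apply, zero_add, add_zero, Real.log_one, mul_zero, neg_zero, e_zero, inv_inv]
    rw [Complex.real_smul]
    push_cast
    ring_nf
  have h1 := dz_mean (dz_of_tendsto hinc)
  have h2 : Tendsto (fun N : ℕ => 1 - z * (e (-(ω * Real.log N)) * mean E N)) atTop (𝓝 0) := by
    rw [tendsto_zero_iff_norm_tendsto_zero] at h1 ⊢
    refine h1.congr' ?_
    filter_upwards [eventually_ge_atTop 1] with N hN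
    have hN0 : (N : ℂ) ≠ 0 := by exact_mod_cast (by omega : N ≠ 0)
    have e1 : mean (fun n => c n - z * E n) N = E N * (1 - z * (e (-(ω * Real.log N)) * mean E N)) := by
      unfold mean
      rw [sum_sub_distrib, hsum, ← mul_sum, mul_sub, mul_one]
      have e2 : E N * (z * (e (-(ω * Real.log N)) * ((∑ n ∈ Icc 1 N, E n) / N)))
          = (E N * e (-(ω * Real.log N))) * (z * ((∑ n ∈ Icc 1 N, E n) / N)) := by ring
      have e3 : E N * e (-(ω * Real.log N)) = 1 := by
        rw [hE]
        simp only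
        rw [← e_add, add_neg_cancel, e_zero]
      rw [e2, e3, one_mul]
      field_simp
    rw [e1, norm_mul, hE]
    simp only
    rw [norm_e, one_mul]
  have h3 := (h2.const_sub 1).div_const z
  rw [sub_zero] at h3
  refine h3.congr fun N => ?_
  field_simp
  ring

/-- mean values twisted by `n ^ (2 π i ω)` -/
theorem twist {a : ℕ → ℂ} {L : ℂ} (h : Tendsto (mean a) atTop (𝓝 L)) (ω : ℝ) :
    Tendsto (fun N : ℕ => e (-(ω * Real.log N)) * mean (fun n => a n * e (ω * Real.log n)) N) atTop
      (𝓝 (L / (1 + 2 * Real.pi * ω * Complex.I))) := by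
  have h1 : Tendsto (mean fun n => a n + (-L)) atTop (𝓝 0) := by
    have h2 : Tendsto (mean fun _ => -L) atTop (𝓝 (-L)) := by
      refine (tendsto_congr' ?_).2 tendsto_const_nhds
      filter_upwards [eventually_ge_atTop 1] with N hN
      have hN0 : (N : ℂ) ≠ 0 := by exact_mod_cast (by omega : N ≠ 0)
      unfold mean
      rw [sum_const, Nat.card_Icc, Nat.add_sub_cancel, nsmul_eq_mul]
      field_simp
    have h3 := h.add h2
    rw [add_neg_cancel] at h3
    exact h3.congr fun N => (mean_add a _ N).symm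
  have h2 := twist_zero h1 ω
  have h3 : Tendsto (fun N : ℕ => e (-(ω * Real.log N)) * mean (fun n => (a n + (-L)) * e (ω * Real.log n)) N)
      atTop (𝓝 0) := by
    rw [tendsto_zero_iff_norm_tendsto_zero] at h2 ⊢
    refine h2.congr fun N => ?_
    rw [norm_mul, norm_e, one_mul]
  have h4 := h3.add ((twist_one ω).const_mul L)
  rw [zero_add, mul_one_div] at h4
  refine h4.congr fun N => ?_
  rw [mul_left_comm L, ← mean_mul L, ← mul_add, ← mean_add]
  congr 2
  funext n
  ring

end Pool.Agent.Q74.SP
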