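import Pool.Agent.Q74.SP.NA5
import Pool.Agent.Q74.SP.Twist

/-! The limit law of the residues has no atoms. -/

set_option autoImplicit false

namespace Pool.Agent.Q74.SP

open Finset Filter Topology MeasureTheory

open Pool.Agent.H499R2.LT (Hit FY PF od RF Hit_unique hit_sideF od_side ss)
open Pool.Agent.H499R2.ND (side_odd side_cop)

theorem near_side {s : ℤ} (hs : s = 1 ∨ s = -1) (F : Finset ℤ) (r η : ℝ) (n : ℤ) :
    n ∈ Near (s * 1) (F.image (fun a => s * a)) r η ↔ s * n ∈ Near 1 F r η := by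
  have hlog : Real.log ((s * n : ℤ) : ℝ) = Real.log (n : ℝ) := by
    rcases hs with rfl | rfl
    · rw [one_mul]
    · push_cast; rw [neg_one_mul, Real.log_neg_eq_log]
  constructor
  · rintro ⟨f, j, hH, hr⟩
    have h1 : Hit (s * 1) (F.image (fun a => s * a)) (s * (s * f)) n j := by rw [ss hs]; exact hH
    rw [hit_sideF odd_one hs] at h1
    refine ⟨s * f, j, h1, ?_⟩
    rw [od_side odd_one hs] at hr
    rw [hlog]
    exact hr
  · rintro ⟨f, j, hH, hr⟩
    refine ⟨s * f, j, (hit_sideF odd_one hs F f n j).2 hH, ?_⟩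
    rw [od_side odd_one hs, ← hlog]
    exact hr

theorem near_lr {F : Finset ℤ} {r η : ℝ} {x : ℤ} (hm : Meets F x) (h : |lr F x - r| ≤ η) :
    x ∈ Near 1 F r η := by
  refine ⟨_, _, hit_of_meets hm, ?_⟩
  rw [od_eq']
  unfold lr at h
  push_cast
  exact h

open Classical in
theorem lr_rare {s : ℤ} (hs : s = 1 ∨ s = -1) (F : Finset ℤ) {ε : ℝ} (hε : 0 < ε) :
    ∃ η : ℝ, 0 < η ∧ ∃ N0 : ℕ, ∀ r : ℝ, ∀ N : ℕ, N0 ≤ N →
      (((Icc 1 N).filter fun n : ℕ => Meets F (s * n) ∧ |lr F (s * n) - r| ≤ η).card : ℝ) ≤ ε * N := by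
  have hd : Odd (s * 1) := side_odd odd_one hs
  have hd3 : IsCoprime (s * 1) 3 := side_cop isCoprime_one_left hs
  obtain ⟨η, hη, N0, h⟩ := near_rare hd hd3 (F.image (fun a => s * a)) hε
  refine ⟨η, hη, N0, fun r N hN => ?_⟩
  refine le_trans ?_ (h r N hN)
  have hsub : ((Icc 1 N).filter fun n : ℕ => Meets F (s * n) ∧ |lr F (s * n) - r| ≤ η) ⊆
      ((Icc 1 N).filter fun n : ℕ => (n : ℤ) ∈ Near (s * 1) (F.image (fun a => s * a)) r η) := by
    intro n hn
    rw [mem_filter] at hn ⊢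
    exact ⟨hn.1, (near_side hs F r η n).2 (near_lr hn.2.1 hn.2.2)⟩
  exact_mod_cast card_le_card hsub

/-- a trapezoid -/
noncomputable def trap (r η : ℝ) (x : ℝ) : ℝ := max 0 (min 1 (2 - |x - r| / η))

theorem trap_cont (r η : ℝ) : Continuous (trap r η) := by
  unfold trap
  fun_prop

theorem trap_nonneg (r η x : ℝ) : 0 ≤ trap r η x := le_max_left _ _

theorem trap_le (r η x : ℝ) : trap r η x ≤ 1 := max_le zero_le_one (min_le_left _ _)

theorem trap_one {r η x : ℝ} (hη : 0 < η) (h : |x - r| ≤ η) : trap r η x = 1 := by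
  unfold trap
  have h1 : |x - r| / η ≤ 1 := (div_le_one hη).2 h
  rw [min_eq_left (by linarith), max_eq_right zero_le_one]

theorem trap_zero {r η x : ℝ} (hη : 0 < η) (h : 2 * η ≤ |x - r|) : trap r η x = 0 := by
  unfold trap
  have h1 : 2 ≤ |x - r| / η := (le_div_iff₀ hη).2 h
  rw [max_eq_left]
  exact (min_le_right _ _).trans (by linarith)

/-- integrability of continuous functions -/
theorem integrable_of_supp {E : Type*} [NormedAddCommGroup E] {ν : Measure ℝ} [IsFiniteMeasure ν] {A : ℝ}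
    (hA : ν (Set.Icc (-A) A)ᶜ = 0) {g : ℝ → E} (hg : Continuous g) : Integrable g ν := by
  obtain ⟨H, hH⟩ := (isCompact_Icc (a := -A) (b := A)).exists_bound_of_continuousOn hg.continuousOn
  refine Integrable.of_bound hg.aestronglyMeasurable H ?_
  rw [ae_iff]
  refine measure_mono_null (t := (Set.Icc (-A) A)ᶜ) ?_ hA
  intro x hx hx'
  exact hx (hH x hx')

/-- THE LIMIT LAW OF THE RESIDUES, without atoms -/
theorem law_cont {s : ℤ} (hs : s = 1 ∨ s = -1) (F : Finset ℤ) :
    ∃ (ν : Measure ℝ) (A : ℝ), IsFiniteMeasure ν ∧ ν (Set.Icc (-A) A)ᶜ = 0 ∧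
      (∀ ε : ℝ, 0 < ε → ∃ η : ℝ, 0 < η ∧ ∀ r : ℝ, ν.real (Set.Icc (r - η) (r + η)) ≤ ε) ∧
      ∀ h : ℝ → ℂ, Continuous h →
        Tendsto (mean fun n => GG F h 0 0 (s * n)) atTop (𝓝 (∫ x, h x ∂ν)) := by
  classical
  obtain ⟨ν, A, hν, hA, hlaw⟩ := exists_law hs F
  refine ⟨ν, A, hν, hA, ?_, hlaw⟩
  intro ε hε
  obtain ⟨η, hη, N0, h⟩ := lr_rare hs F hε
  refine ⟨η / 2, by positivity, fun r => ?_⟩
  have h2 : 0 < η / 2 := by positivity
  have hlim := hlaw (fun x => (trap r (η / 2) x : ℂ)) (Complex.continuous_ofReal.comp (trap_cont _ _))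
  have e1 : ∫ x, ((trap r (η / 2) x : ℝ) : ℂ) ∂ν = ((∫ x, trap r (η / 2) x ∂ν : ℝ) : ℂ) := integral_ofReal
  rw [e1] at hlim
  have hre : Tendsto (fun N => (mean (fun n => GG F (fun x => (trap r (η / 2) x : ℂ)) 0 0 (s * n)) N).re) atTop
      (𝓝 (∫ x, trap r (η / 2) x ∂ν)) := by
    have := (Complex.continuous_re.tendsto _).comp hlim
    rwa [Complex.ofReal_re] at this
  have hle : ∫ x, trap r (η / 2) x ∂ν ≤ ε := by
    refine le_of_tendsto hre ?_
    filter_upwards [eventually_ge_atTop (max N0 1)] with N hN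
    have hN1 : 1 ≤ N := (le_max_right _ _).trans hN
    have hNpos : (0 : ℝ) < N := by exact_mod_cast hN1
    unfold mean
    rw [Complex.div_natCast_re, Complex.re_sum, div_le_iff₀ hNpos]
    refine le_trans ?_ (h r N ((le_max_left _ _).trans hN))
    rw [Finset.card_filter]
    push_cast
    apply sum_le_sum
    intro n _
    unfold GG
    by_cases hm : Meets F (s * n)
    · rw [if_pos hm]
      simp only [zero_mul, add_zero, e_zero, mul_one, Complex.ofReal_re]
      by_cases hc : |lr F (s * n) - r| ≤ η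
      · rw [if_pos ⟨hm, hc⟩]
        exact trap_le _ _ _
      · rw [if_neg (fun h => hc h.2)]
        rw [trap_zero h2 (by linarith [not_le.1 hc])]
    · rw [if_neg hm, if_neg (fun h => hm h.1)]
      simp
  refine le_trans ?_ hle
  have h3 : ν.real (Set.Icc (r - η / 2) (r + η / 2)) =
      ∫ x, (Set.Icc (r - η / 2) (r + η / 2)).indicator (fun _ => (1 : ℝ)) x ∂ν := by
    rw [integral_indicator measurableSet_Icc, setIntegral_const, smul_eq_mul, mul_one]
  rw [h3]
  apply integral_mono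
  · exact (integrable_const (1 : ℝ)).indicator measurableSet_Icc
  · exact integrable_of_supp hA (trap_cont _ _)
  · intro x
    by_cases hx : x ∈ Set.Icc (r - η / 2) (r + η / 2)
    · rw [Set.indicator_of_mem hx, trap_one h2]
      rw [abs_le]
      constructor <;> linarith [hx.1, hx.2]
    · rw [Set.indicator_of_notMem hx]
      exact trap_nonneg _ _ _

end Pool.Agent.Q74.SP
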