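import Pool.Agent.Q74.SP.Per
import Pool.Agent.Q74.SP.NA6
import Pool.Agent.H499R2.NDWord

/-! The maximum excursion and functions which vary slowly in the mean. -/

set_option autoImplicit false

namespace Pool.Agent.Q74.SP

open Finset Filter Topology

open Pool.Agent.H499R2.ND (Dn cnt cnt_eq cnt_mono cnt_or Tn Bdd AK rK AK_mod AK_of_bound rK_anti)

theorem coc_shift {G : ℤ → ℂ} {θ φ : ℝ} (h : Coc G 1 θ φ) (j : ℕ) :
    DZ (fun n : ℕ => G ((n + j : ℕ) : ℤ) - G (n : ℤ)) := by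
  have h1 := h.aff 0 j
  unfold DZ at h1 ⊢
  refine h1.congr fun N => ?_
  congr 1
  apply sum_congr rfl
  intro n _
  rw [show (-((0 : ℕ) * φ) : ℝ) = 0 by push_cast; ring, e_zero, pow_zero]
  simp only [one_mul]
  push_cast
  rfl

/-- `t(n) ≤ lam n` -/
def Ex (lam : ℝ) (n : ℕ) : Prop := ∀ k, ((Tn^[k] n : ℕ) : ℝ) ≤ lam * n

theorem exc_tail : ∃ β : ℝ, 0 < β ∧ β ≤ 1 ∧ Dn Bdd β ∧ ∀ lam : ℝ, 1 ≤ lam → ∃ q : ℝ,
    1 - 1 / lam ≤ q ∧ q ≤ 1 ∧ Tendsto (fun K => rK K lam) atTop (𝓝 q) ∧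
      Dn (Ex lam) (β * q) ∧
      ∀ K, Dn (fun n => (AK K lam n ∧ Bdd n) ∧ ¬ Ex lam n) (rK K lam * β - β * q) := by
  obtain ⟨β, hβ0, hβ1, -, hβ⟩ := Pool.Agent.H499R2.ND.Bdd_density
  refine ⟨β, hβ0, hβ1, hβ, fun lam hl => ?_⟩
  obtain ⟨q, g1, g2, g3, g4⟩ := Pool.Agent.H499R2.ND.exc_law hβ hl
  refine ⟨q, g2, g3, g1, g4, fun K => ?_⟩
  have h1 := (Pool.Agent.H499R2.ND.dn_AK Pool.Agent.H499R2.ND.Bdd_inv hβ K lam).sub g4
  refine h1.congr fun N => ?_
  rw [← sub_div]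
  congr 1
  rw [sub_eq_iff_eq_add]
  unfold cnt
  have hf : ∀ R : ℕ → Prop, {n : ℕ | 1 ≤ n ∧ n ≤ N ∧ R n}.Finite := fun R =>
    (Set.finite_Icc 1 N).subset fun n hn => ⟨hn.1, hn.2.1⟩
  have e : {n : ℕ | 1 ≤ n ∧ n ≤ N ∧ (AK K lam n ∧ Bdd n)}
      = {n : ℕ | 1 ≤ n ∧ n ≤ N ∧ ((AK K lam n ∧ Bdd n) ∧ ¬ Ex lam n)}
        ∪ {n : ℕ | 1 ≤ n ∧ n ≤ N ∧ ∀ k, ((Tn^[k] n : ℕ) : ℝ) ≤ lam * n} := by
    ext n
    constructor
    · rintro ⟨h1, h2, h3⟩
      by_cases h5 : ∀ k, ((Tn^[k] n : ℕ) : ℝ) ≤ lam * n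
      · exact Or.inr ⟨h1, h2, h5⟩
      · exact Or.inl ⟨h1, h2, h3, h5⟩
    · rintro (⟨h1, h2, h3, _⟩ | ⟨h1, h2, h3⟩)
      · exact ⟨h1, h2, h3⟩
      · exact ⟨h1, h2, AK_of_bound hl h1 h3 K, ⌊lam * n⌋₊, fun k => Nat.le_floor (h3 k)⟩
  rw [e, Set.ncard_union_eq _ (hf _) (hf _)]
  · push_cast; ring
  · rw [Set.disjoint_left]
    rintro n ⟨_, _, _, h3⟩ ⟨_, _, h4⟩
    exact h3 h4

open Classical in
theorem exc_approx {lam : ℝ} (hl : 1 ≤ lam) {g : ℕ → ℂ} {H : ℝ} (hH : ∀ n, ‖g n‖ ≤ H)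
    (hB : ∀ n, 1 ≤ n → g n ≠ 0 → Bdd n) (K N : ℕ) :
    ‖mean (fun n => if Ex lam n then g n else 0) N - mean (fun n => if AK K lam n then g n else 0) N‖
      ≤ H * (cnt (fun n => (AK K lam n ∧ Bdd n) ∧ ¬ Ex lam n) N / N) := by
  have hH0 : 0 ≤ H := (norm_nonneg _).trans (hH 0)
  rw [← mean_sub, cnt_eq]
  unfold mean
  rw [norm_div, Complex.norm_natCast, ← mul_div_assoc]
  apply div_le_div_of_nonneg_right _ (Nat.cast_nonneg N)
  refine (norm_sum_le _ _).trans ?_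
  rw [Finset.card_filter]
  push_cast
  rw [mul_sum]
  apply sum_le_sum
  intro n hn
  have hn1 := (mem_Icc.1 hn).1
  by_cases h1 : Ex lam n
  · have h2 : AK K lam n := AK_of_bound hl hn1 h1 K
    rw [if_pos h1, if_pos h2, sub_self, norm_zero]
    split_ifs <;> simp [hH0]
  · rw [if_neg h1, zero_sub, norm_neg]
    by_cases h2 : AK K lam n
    · rw [if_pos h2]
      by_cases h3 : g n = 0
      · rw [h3, norm_zero]
        split_ifs <;> simp [hH0]
      · rw [if_pos ⟨⟨h2, hB n hn1 h3⟩, h1⟩, mul_one]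
        exact hH n
    · rw [if_neg h2, norm_zero]
      split_ifs <;> simp [hH0]

/-- transfer from the safe classes to the excursions -/
theorem exc_transfer {lam : ℝ} (hl : 1 ≤ lam) {g : ℕ → ℂ} {H : ℝ} (hH : ∀ n, ‖g n‖ ≤ H)
    (hB : ∀ n, 1 ≤ n → g n ≠ 0 → Bdd n) {m : ℕ → ℂ} {a : ℕ → ℂ} {c : ℂ} (ha : Tendsto a atTop (𝓝 c))
    {M : ℝ} (hM : ∀ N, ‖m N‖ ≤ M)
    (h : ∀ᶠ K : ℕ in atTop, Tendsto (fun N => (open Classical in
      mean (fun n => if AK K lam n then g n else 0)) N - a K * m N) atTop (𝓝 0)) :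
    Tendsto (fun N => (open Classical in mean (fun n => if Ex lam n then g n else 0)) N - c * m N)
      atTop (𝓝 0) := by
  classical
  have hH0 : 0 ≤ H := (norm_nonneg _).trans (hH 0)
  have hM0 : 0 ≤ M := (norm_nonneg _).trans (hM 0)
  obtain ⟨β, hβ0, hβ1, hβ, hq⟩ := exc_tail
  obtain ⟨q, -, -, g3, -, g5⟩ := hq lam hl
  rw [Metric.tendsto_atTop]
  intro ε hε
  have h1 : Tendsto (fun K => |rK K lam * β - β * q| * H + ‖a K - c‖ * M) atTop (𝓝 0) := by
    have h2 := (g3.mul_const β).sub_const (β * q)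
    rw [mul_comm q β, sub_self] at h2
    have h3 := (ha.sub_const c)
    rw [sub_self] at h3
    have h4 := (h2.abs.mul_const H).add (h3.norm.mul_const M)
    simpa using h4
  obtain ⟨K, hK, hKl⟩ := ((h1.eventually (gt_mem_nhds (show (0 : ℝ) < ε / 4 by positivity))).and h).exists
  have h5 : ∀ᶠ N : ℕ in atTop, cnt (fun n => (AK K lam n ∧ Bdd n) ∧ ¬ Ex lam n) N / N
      < (rK K lam * β - β * q) + ε / (4 * (H + 1)) :=
    (g5 K).eventually (gt_mem_nhds (by
      have : 0 < ε / (4 * (H + 1)) := by positivity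
      linarith))
  have h6 := (Metric.tendsto_atTop.1 hKl) (ε / 4) (by positivity)
  obtain ⟨N1, hN1⟩ := h6
  obtain ⟨N0, hN0⟩ := eventually_atTop.1 h5
  refine ⟨max N0 N1, fun N hN => ?_⟩
  have a1 := hN0 N ((le_max_left _ _).trans hN)
  have a2 := hN1 N ((le_max_right _ _).trans hN)
  rw [dist_zero_right] at a2 ⊢
  have a3 := exc_approx hl hH hB K N
  have e1 : mean (fun n => if Ex lam n then g n else 0) N - c * m N
      = (mean (fun n => if Ex lam n then g n else 0) N - mean (fun n => if AK K lam n then g n else 0) N)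
        + (mean (fun n => if AK K lam n then g n else 0) N - a K * m N) + (a K - c) * m N := by ring
  rw [e1]
  refine lt_of_le_of_lt ((norm_add_le _ _).trans (add_le_add (norm_add_le _ _) le_rfl)) ?_
  have a4 : ‖(a K - c) * m N‖ ≤ ‖a K - c‖ * M := by
    rw [norm_mul]
    exact mul_le_mul_of_nonneg_left (hM N) (norm_nonneg _)
  have a5 : H * (cnt (fun n => (AK K lam n ∧ Bdd n) ∧ ¬ Ex lam n) N / N)
      ≤ |rK K lam * β - β * q| * H + ε / 4 := by
    have b1 := le_abs_self (rK K lam * β - β * q)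
    have b2 : H * (cnt (fun n => (AK K lam n ∧ Bdd n) ∧ ¬ Ex lam n) N / N)
        ≤ H * (|rK K lam * β - β * q| + ε / (4 * (H + 1))) := by
      apply mul_le_mul_of_nonneg_left _ hH0
      linarith
    refine b2.trans ?_
    have b3 : H * (ε / (4 * (H + 1))) ≤ ε / 4 := by
      rw [mul_div_assoc', div_le_div_iff₀ (by positivity) (by norm_num)]
      nlinarith
    nlinarith
  linarith

/-- mean values of `e(β r)` over the safe residue classes -/
noncomputable def avg (K : ℕ) (lam β : ℝ) : ℂ := by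
  classical
  exact (∑ r ∈ range (2 ^ K), if AK K lam r then e (β * r) else 0) / (2 ^ K : ℕ)

theorem AK_mono {K K' : ℕ} (h : K ≤ K') {lam : ℝ} {n : ℕ} (hn : AK K' lam n) : AK K lam n :=
  fun k hk1 hk2 => hn k hk1 (hk2.trans h)

theorem AK_add (K : ℕ) (lam : ℝ) (n : ℕ) : AK K lam (n + 2 ^ K) ↔ AK K lam n := by
  rw [← AK_mod K lam (n + 2 ^ K), Nat.add_mod_right, AK_mod]

/-- dyadic rationals -/
def Dy (β : ℝ) : Prop := ∃ (a : ℤ) (j : ℕ), β * 2 ^ j = a

theorem dy_per {β : ℝ} {a : ℤ} {j : ℕ} (h : β * 2 ^ j = a) {K : ℕ} (hK : j ≤ K) (n : ℕ) :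
    e (β * ((n + 2 ^ K : ℕ) : ℝ)) = e (β * n) := by
  obtain ⟨d, rfl⟩ := Nat.exists_eq_add_of_le hK
  have e1 : β * ((n + 2 ^ (j + d) : ℕ) : ℝ) = β * n + ((a * 2 ^ d : ℤ) : ℝ) := by
    push_cast
    rw [pow_add, mul_add, ← mul_assoc β, h]
  rw [e1, e_add, e_int, mul_one]

theorem avg_zero (K : ℕ) (lam : ℝ) : avg K lam 0 = (rK K lam : ℂ) := by
  classical
  unfold avg rK
  push_cast
  congr 1
  rw [Finset.card_filter]
  push_cast
  apply sum_congr rfl
  intro r _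
  split_ifs
  · rw [zero_mul, e_zero]
  · rfl

theorem avg_lift {β : ℝ} {a : ℤ} {j : ℕ} (h : β * 2 ^ j = a) {K K' : ℕ} (hK : j ≤ K) (hK' : K ≤ K') (lam : ℝ) :
    avg K lam β = (open Classical in (∑ r ∈ range (2 ^ K'), if AK K lam r then e (β * r) else 0)) / (2 ^ K' : ℕ) := by
  classical
  obtain ⟨d, rfl⟩ := Nat.exists_eq_add_of_le hK'
  have h1 := sum_periods (p := fun r : ℕ => if AK K lam r then e (β * r) else 0) (Q := 2 ^ K) (by
    intro n
    simp only [AK_add, dy_per h hK]) (2 ^ d)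
  unfold avg
  rw [pow_add, h1]
  have h2 : ((2 ^ K : ℕ) : ℂ) ≠ 0 := by exact_mod_cast (by positivity : (2 ^ K : ℕ) ≠ 0)
  have h3 : ((2 ^ d : ℕ) : ℂ) ≠ 0 := by exact_mod_cast (by positivity : (2 ^ d : ℕ) ≠ 0)
  push_cast at h2 h3 ⊢
  field_simp

theorem avg_cauchy {β : ℝ} {a : ℤ} {j : ℕ} (h : β * 2 ^ j = a) {K K' : ℕ} (hK : j ≤ K) (hK' : K ≤ K') (lam : ℝ) :
    ‖avg K' lam β - avg K lam β‖ ≤ rK K lam - rK K' lam := by
  classical
  have h0 : (0 : ℝ) * 2 ^ 0 = ((0 : ℤ) : ℝ) := by norm_num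
  have hN : (0 : ℝ) < ((2 ^ K' : ℕ) : ℝ) := by positivity
  have e1 : rK K lam - rK K' lam = (∑ r ∈ range (2 ^ K'), ((if AK K lam r then (1 : ℝ) else 0)
      - (if AK K' lam r then (1 : ℝ) else 0))) / ((2 ^ K' : ℕ) : ℝ) := by
    have h1 := avg_lift h0 (Nat.zero_le K) hK' lam
    rw [avg_zero] at h1
    have h2 : ((rK K lam : ℝ) : ℂ) = (((∑ r ∈ range (2 ^ K'), (if AK K lam r then (1 : ℝ) else 0))
        / ((2 ^ K' : ℕ) : ℝ) : ℝ) : ℂ) := by
      rw [h1]
      push_cast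
      congr 1
      apply sum_congr rfl
      intro r _
      split_ifs
      · rw [zero_mul, e_zero]; simp
      · simp
    have h3 : rK K lam = (∑ r ∈ range (2 ^ K'), (if AK K lam r then (1 : ℝ) else 0)) / ((2 ^ K' : ℕ) : ℝ) := by
      exact_mod_cast h2
    have h4 : rK K' lam = (∑ r ∈ range (2 ^ K'), (if AK K' lam r then (1 : ℝ) else 0)) / ((2 ^ K' : ℕ) : ℝ) := by
      unfold rK
      rw [Finset.card_filter]
      push_cast
      rfl
    rw [h3, h4, sum_sub_distrib, sub_div]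
  rw [avg_lift h hK hK' lam, e1]
  unfold avg
  rw [← sub_div, norm_div, Complex.norm_natCast]
  apply div_le_div_of_nonneg_right _ hN.le
  rw [← sum_sub_distrib]
  refine (norm_sum_le _ _).trans (sum_le_sum fun r _ => ?_)
  by_cases h1 : AK K' lam r
  · rw [if_pos h1, if_pos (AK_mono hK' h1), sub_self, norm_zero, if_pos (AK_mono hK' h1), if_pos h1, sub_self]
  · rw [if_neg h1, zero_sub, norm_neg]
    by_cases h2 : AK K lam r
    · rw [if_pos h2, norm_e, if_pos h2, if_neg h1, sub_zero]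
    · rw [if_neg h2, norm_zero, if_neg h2, if_neg h1, sub_zero]

/-- the Fourier coefficients of the safe integers -/
theorem avg_lim {β : ℝ} (hβ : Dy β) (lam : ℝ) : ∃ q : ℂ, Tendsto (fun K => avg K lam β) atTop (𝓝 q) := by
  obtain ⟨a, j, h⟩ := hβ
  apply cauchySeq_tendsto_of_complete
  obtain ⟨q, hq⟩ : ∃ q : ℝ, Tendsto (fun K => rK K lam) atTop (𝓝 q) :=
    ⟨_, tendsto_atTop_ciInf (rK_anti lam) ⟨0, by
      rintro _ ⟨K, rfl⟩
      exact Pool.Agent.H499R2.ND.rK_nonneg K lam⟩⟩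
  have hc := hq.cauchySeq
  rw [Metric.cauchySeq_iff'] at hc ⊢
  intro ε hε
  obtain ⟨K0, hK0⟩ := hc ε hε
  refine ⟨max K0 j, fun K' hK' => ?_⟩
  have h1 : K0 ≤ K' := (le_max_left _ _).trans hK'
  have h2 := avg_cauchy h (le_max_right K0 j) hK' lam
  rw [dist_eq_norm]
  refine lt_of_le_of_lt h2 ?_
  have h3 := hK0 K' h1
  rw [Real.dist_eq, abs_lt] at h3
  have h4 : rK (max K0 j) lam ≤ rK K0 lam := rK_anti lam (le_max_left _ _)
  linarith [h3.1]

theorem exc_dyadic {lam : ℝ} (hl : 1 ≤ lam) {G : ℤ → ℂ} {θ φ : ℝ} (h : Coc G 1 θ φ)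
    (hB : ∀ n : ℕ, 1 ≤ n → G n ≠ 0 → Bdd n) {β : ℝ} (hβ : Dy β) {q : ℂ}
    (hq : Tendsto (fun K => avg K lam β) atTop (𝓝 q)) :
    Tendsto (fun N => (open Classical in mean (fun n => if Ex lam n then G n * e (β * n) else 0)) N
      - q * mean (fun n => G n) N) atTop (𝓝 0) := by
  classical
  obtain ⟨H, hH⟩ := h.bdd
  obtain ⟨a, j, hj⟩ := hβ
  refine exc_transfer hl (H := H) (fun n => ?_) (fun n hn hne => hB n hn fun h0 => hne (by rw [h0, zero_mul])) hq
    (fun N => mean_norm (fun n => hH (n : ℤ)) N) ?_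
  · rw [norm_mul, norm_e, mul_one]; exact hH _
  · filter_upwards [eventually_ge_atTop j] with K hK
    have h1 := mean_per (p := fun n : ℕ => if AK K lam n then e (β * n) else 0) (g := fun n : ℕ => G n)
      (Q := 2 ^ K) Nat.one_le_two_pow (fun n => by simp only [AK_add, dy_per hj hK]) (P := 1) (H := H)
      (fun n => by
        split_ifs
        · rw [norm_e]
        · rw [norm_zero]; exact zero_le_one) (fun n => hH _) (fun i => coc_shift h i)
    refine h1.congr fun N => ?_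
    congr 1
    · congr 1
      funext n
      split_ifs
      · ring
      · ring

theorem exc_null {lam : ℝ} (hl : 1 ≤ lam) {G : ℤ → ℂ} {θ φ : ℝ} (h : Coc G 1 θ φ)
    (hB : ∀ n : ℕ, 1 ≤ n → G n ≠ 0 → Bdd n) {β : ℝ} (hβ : ¬ Dy β) :
    Tendsto (open Classical in mean (fun n => if Ex lam n then G n * e (β * n) else 0)) atTop (𝓝 0) := by
  classical
  obtain ⟨H, hH⟩ := h.bdd
  have h0 : ∀ n : ℕ, ‖G n * e (β * n)‖ ≤ H := fun n => by rw [norm_mul, norm_e, mul_one]; exact hH _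
  have h1 := exc_transfer hl (g := fun n : ℕ => G n * e (β * n)) (H := H) h0
    (fun n hn hne => hB n hn fun h0 => hne (by simp only [h0, zero_mul])) (m := fun _ => 0) (a := fun _ => 0)
    tendsto_const_nhds (M := 0) (fun _ => by simp) (by
      refine Eventually.of_forall fun K => ?_
      simp only [mul_zero, sub_zero]
      have hc : e (β * (2 ^ K : ℕ)) ≠ 1 := by
        intro h2
        obtain ⟨n, hn⟩ := e_eq_one h2
        exact hβ ⟨n, K, by push_cast at hn; exact hn⟩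
      refine null_shift (H := H) (j := 2 ^ K) (c := e (β * (2 ^ K : ℕ))) (fun n => ?_) hc ?_
      · split_ifs
        · exact h0 n
        · rw [norm_zero]; exact (norm_nonneg _).trans (hH 0)
      · have h3 := dz_mul (u := fun n : ℕ => G ((n + 2 ^ K : ℕ) : ℤ) - G (n : ℤ))
          (v := fun n : ℕ => (if AK K lam n then e (β * n) else 0) * e (β * (2 ^ K : ℕ))) (H := 1)
          (fun n => by
            rw [norm_mul, norm_e, mul_one]
            split_ifs
            · rw [norm_e]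
            · rw [norm_zero]; exact zero_le_one) (coc_shift h (2 ^ K))
        unfold DZ at h3 ⊢
        refine h3.congr fun N => ?_
        congr 1
        apply sum_congr rfl
        intro n _
        congr 1
        simp only [AK_add]
        have e1 : e (β * ((n + 2 ^ K : ℕ) : ℝ)) = e (β * n) * e (β * (2 ^ K : ℕ)) := by
          rw [← e_add]
          congr 1
          push_cast
          ring
        rw [e1]
        split_ifs
        · ring
        · ring)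
  simpa using h1

end Pool.Agent.Q74.SP
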