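import Pool.Agent.Q74.SP.Null

/-! The functions attached to the first hit of a finite set. -/

set_option autoImplicit false

namespace Pool.Agent.Q74.SP

open Finset Filter Topology

open Classical in
/-- the function `h (lr x) e(θ k + φ o)` of the first hit of `F` -/
noncomputable def GG (F : Finset ℤ) (h : ℝ → ℂ) (θ φ : ℝ) (x : ℤ) : ℂ :=
  if Meets F x then h (lr F x) * e (θ * time F x + φ * odds (time F x) x) else 0

theorem exists_bound (F : Finset ℤ) : ∃ B : ℕ, ∀ f ∈ F, |f| ≤ (B : ℤ) := by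
  refine ⟨F.sum (fun f => f.natAbs), fun f hf => ?_⟩
  have h := Finset.single_le_sum (f := fun f : ℤ => f.natAbs) (fun _ _ => Nat.zero_le _) hf
  rw [Int.abs_eq_natAbs]
  exact_mod_cast h

/-- relation between `x` and `3 ^ a x + b` when the trajectories have met before hitting `F` -/
theorem gg_aff {F : Finset ℤ} {h : ℝ → ℂ} {θ φ : ℝ} {A : ℝ}
    (hA : ∀ x, x ≠ 0 → Meets F x → |lr F x| ≤ A) {δ ε : ℝ} (hε : 0 ≤ ε)
    (hu : ∀ u v : ℝ, |u| ≤ A → |v| ≤ A → |u - v| < δ → ‖h u - h v‖ ≤ ε)
    {B : ℕ} (hB : ∀ f ∈ F, |f| ≤ (B : ℤ)) {x b : ℤ} {a t : ℕ} (hx : x ≠ 0)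
    (heq : T^[t] x = T^[t] (3 ^ a * x + b)) (h1 : (2 * B + 8) * 2 ^ t ≤ |x|) (h2 : 8 * |b| ≤ |x|)
    (h3 : 2 * |(b : ℝ)| < δ * |(x : ℝ)|) :
    ‖GG F h θ φ (3 ^ a * x + b) - e (-(a * φ)) * GG F h θ φ x‖ ≤ ε := by
  set x' : ℤ := 3 ^ a * x + b with hx'
  have hax : (0 : ℤ) < |x| := abs_pos.2 hx
  have h3a : (1 : ℤ) ≤ 3 ^ a := one_le_pow₀ (by norm_num)
  have hx'1 : 7 * |x| ≤ 8 * |x'| := by
    have h4 : |3 ^ a * x| ≤ |x'| + |b| := by
      have e : 3 ^ a * x = x' + (-b) := by rw [hx']; ring
      rw [e]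
      refine (abs_add_le _ _).trans ?_
      rw [abs_neg]
    rw [abs_mul, abs_of_pos (by positivity : (0 : ℤ) < 3 ^ a)] at h4
    nlinarith
  have hx'0 : x' ≠ 0 := by
    intro h0
    rw [h0, abs_zero] at hx'1
    omega
  have h2t : (1 : ℤ) ≤ 2 ^ t := one_le_pow₀ (by norm_num)
  have hBx : (B : ℤ) * 2 ^ t < |x| := by nlinarith
  have hBx' : (B : ℤ) * 2 ^ t < |x'| := by nlinarith
  have n1 : ∀ i < t, T^[i] x ∉ F := fun i hi => no_hit hB hBx i hi.le
  have n2 : ∀ i < t, T^[i] x' ∉ F := fun i hi => no_hit hB hBx' i hi.le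
  have hodd := odds_eq hx heq (by nlinarith) h2
  have hm : Meets F x ↔ Meets F x' := by
    rw [meets_add n1, meets_add n2, heq]
  unfold GG
  by_cases hmx : Meets F x
  · have hmx' := hm.1 hmx
    rw [if_pos hmx, if_pos hmx']
    have t1 := time_add n1 hmx
    have t2 := time_add n2 hmx'
    have o1 := odds_time_add n1 hmx
    have o2 := odds_time_add n2 hmx'
    rw [← heq] at t2 o2
    have htime : time F x' = time F x := by rw [t1, t2]
    have hod : odds (time F x) x = odds (time F x') x' + a := by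
      rw [o1, o2, hodd]
      ring
    have hxR : (x : ℝ) ≠ 0 := by exact_mod_cast hx
    have haxR : 0 < |(x : ℝ)| := abs_pos.2 hxR
    have h2R : 8 * |(b : ℝ)| ≤ |(x : ℝ)| := by exact_mod_cast h2
    set u : ℝ := b / (3 ^ a * x) with hu'
    have h3aR : (1 : ℝ) ≤ 3 ^ a := one_le_pow₀ (by norm_num)
    have hu0 : |u| ≤ |(b : ℝ)| / |(x : ℝ)| := by
      rw [hu', abs_div, abs_mul, abs_of_pos (by positivity : (0 : ℝ) < 3 ^ a)]
      apply div_le_div_of_nonneg_left (abs_nonneg _) haxR
      nlinarith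
    have hu1 : |u| ≤ 1 / 8 := by
      refine hu0.trans ?_
      rw [div_le_div_iff₀ haxR (by norm_num)]
      linarith
    have hlog : Real.log (x' : ℝ) = a * Real.log 3 + Real.log (x : ℝ) + Real.log (1 + u) := by
      have e' : (x' : ℝ) = 3 ^ a * x * (1 + u) := by
        rw [hx', hu']
        push_cast
        field_simp
      have hpos : 0 < 1 + u := by
        have := (abs_le.1 hu1).1
        linarith
      rw [e', Real.log_mul (by positivity) hpos.ne', Real.log_mul (by positivity) hxR, Real.log_pow]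
    have h5 := log_one_add (u := u) (by linarith)
    have hlr : lr F x' - lr F x = -Real.log (1 + u) := by
      unfold lr
      rw [hlog, hod, htime]
      push_cast
      ring
    have hlr' : |lr F x' - lr F x| < δ := by
      rw [hlr, abs_neg]
      refine h5.trans_lt ?_
      have h6 : |(b : ℝ)| / |(x : ℝ)| < δ / 2 := by
        rw [div_lt_div_iff₀ haxR (by norm_num)]
        linarith
      linarith [abs_nonneg u, hu0]
    have hfin := hu _ _ (hA x' hx'0 hmx') (hA x hx hmx) hlr'
    have e1 : e (-(a * φ)) * (h (lr F x) * e (θ * time F x + φ * odds (time F x) x))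
        = h (lr F x) * e (θ * time F x' + φ * odds (time F x') x') := by
      rw [mul_left_comm, ← e_add, hod, htime]
      congr 2
      push_cast
      ring
    rw [e1, ← sub_mul, norm_mul, norm_e, mul_one]
    exact hfin
  · have hmx' : ¬ Meets F x' := fun h => hmx (hm.2 h)
    rw [if_neg hmx, if_neg hmx', mul_zero, sub_zero, norm_zero]
    exact hε

theorem unif {h : ℝ → ℂ} (hh : Continuous h) (A : ℝ) {ε : ℝ} (hε : 0 < ε) :
    ∃ δ : ℝ, 0 < δ ∧ ∀ u v : ℝ, |u| ≤ A → |v| ≤ A → |u - v| < δ → ‖h u - h v‖ ≤ ε := by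
  have h1 : UniformContinuousOn h (Set.Icc (-A) A) :=
    isCompact_Icc.uniformContinuousOn_of_continuous hh.continuousOn
  rw [Metric.uniformContinuousOn_iff] at h1
  obtain ⟨δ, hδ, h2⟩ := h1 ε hε
  refine ⟨δ, hδ, fun u v hu hv huv => ?_⟩
  have h3 := h2 u (abs_le.1 hu) v (abs_le.1 hv) (by rw [Real.dist_eq]; exact huv)
  rw [dist_eq_norm] at h3
  exact h3.le

theorem gg_bdd {F : Finset ℤ} {h : ℝ → ℂ} (hh : Continuous h) {A : ℝ}
    (hA : ∀ x, x ≠ 0 → Meets F x → |lr F x| ≤ A) : ∃ H : ℝ, ∀ (θ φ : ℝ) (x : ℤ), ‖GG F h θ φ x‖ ≤ H := by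
  obtain ⟨H, hH⟩ := (isCompact_Icc (a := -A) (b := A)).exists_bound_of_continuousOn hh.continuousOn
  refine ⟨max (max H 0) ‖h (lr F 0)‖, fun θ φ x => ?_⟩
  unfold GG
  split_ifs with hm
  · rw [norm_mul, norm_e, mul_one]
    by_cases hx : x = 0
    · rw [hx]
      exact le_max_right _ _
    · exact (hH _ (abs_le.1 (hA x hx hm))).trans ((le_max_left _ _).trans (le_max_left _ _))
  · rw [norm_zero]
    exact (le_max_right _ _).trans (le_max_left _ _)

theorem coc {F : Finset ℤ} {h : ℝ → ℂ} (hh : Continuous h) {A : ℝ}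
    (hA : ∀ x, x ≠ 0 → Meets F x → |lr F x| ≤ A) {s : ℤ} (hs : s = 1 ∨ s = -1) (θ φ : ℝ) :
    Coc (GG F h θ φ) s θ φ := by
  classical
  obtain ⟨B, hB⟩ := exists_bound F
  obtain ⟨H, hH⟩ := gg_bdd hh hA
  refine ⟨⟨H, hH θ φ⟩, ?_, ?_⟩
  · refine ⟨B + 1, fun n hn => ?_⟩
    have habs : |s * (2 * (n : ℤ))| = 2 * n := by
      rcases hs with rfl | rfl
      · rw [one_mul, abs_of_nonneg (by positivity)]
      · rw [neg_one_mul, abs_neg, abs_of_nonneg (by positivity)]
    have hne : s * (2 * (n : ℤ)) ≠ 0 := by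
      intro h0
      rw [h0, abs_zero] at habs
      omega
    have hT : T (s * (2 * (n : ℤ))) = s * n := by
      unfold T
      rcases hs with rfl | rfl
      · rw [if_pos (by omega)]; omega
      · rw [if_pos (by omega)]; omega
    have hno : ∀ i < 1, T^[i] (s * (2 * (n : ℤ))) ∉ F := by
      intro i hi
      have : i = 0 := by omega
      subst this
      intro hmem
      have h1 := hB _ hmem
      rw [Function.iterate_zero, id_eq, habs] at h1
      omega
    have hm : Meets F (s * (2 * (n : ℤ))) ↔ Meets F (s * n) := by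
      rw [meets_add hno, Function.iterate_one, hT]
    unfold GG
    by_cases hmx : Meets F (s * (2 * (n : ℤ)))
    · rw [if_pos hmx, if_pos (hm.1 hmx)]
      have t1 := time_add hno hmx
      have o1 := odds_time_add hno hmx
      rw [Function.iterate_one, hT] at t1 o1
      have hodd1 : odds 1 (s * (2 * (n : ℤ))) = 0 := by
        rw [show (1 : ℕ) = 0 + 1 from rfl, odds_succ, odds_zero, Function.iterate_zero, id_eq, if_neg]
        rcases hs with rfl | rfl <;> omega
      rw [hodd1, zero_add] at o1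
      have hlr : lr F (s * (2 * (n : ℤ))) = lr F (s * n) := by
        unfold lr
        rw [o1, t1]
        have hsn : ((s * n : ℤ) : ℝ) ≠ 0 := by
          have : s * (n : ℤ) ≠ 0 := by
            intro h0
            apply hne
            rw [mul_left_comm, h0, mul_zero]
          exact_mod_cast this
        have e1 : ((s * (2 * (n : ℤ)) : ℤ) : ℝ) = 2 * ((s * n : ℤ) : ℝ) := by push_cast; ring
        rw [e1, Real.log_mul (by norm_num) hsn]
        push_cast
        ring
      rw [hlr, o1, t1, mul_left_comm, ← e_add]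
      congr 2
      push_cast
      ring
    · rw [if_neg hmx, if_neg (fun h => hmx (hm.2 h)), mul_zero]
  · intro a b
    apply dz_of_bad (H := 2 * H)
    · intro n
      refine (norm_sub_le _ _).trans ?_
      rw [norm_mul, norm_e, one_mul]
      linarith [hH θ φ (3 ^ a * (s * n) + b), hH θ φ (s * n)]
    · intro ε hε
      obtain ⟨δ, hδ, hu⟩ := unif hh A hε
      obtain ⟨n1, hn1⟩ := exists_nat_gt (2 * |(b : ℝ)| / δ)
      set n2 : ℕ := n1 + 8 * b.natAbs + 1 with hn2
      refine ⟨fun N => bad s a b (2 * B + 8) N ∪ range n2, ?_, ?_⟩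
      · have h1 := bad_card hs a b (2 * B + 8)
        have h2 : Tendsto (fun N : ℕ => (n2 : ℝ) / N) atTop (𝓝 0) :=
          tendsto_const_nhds.div_atTop tendsto_natCast_atTop_atTop
        have h3 := h1.add h2
        rw [add_zero] at h3
        refine squeeze_zero (fun N => by positivity) (fun N => ?_) h3
        rw [← add_div]
        apply div_le_div_of_nonneg_right _ (Nat.cast_nonneg N)
        have h4 := card_union_le (bad s a b (2 * B + 8) N) (range n2)
        rw [card_range] at h4
        exact_mod_cast h4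
      · refine Eventually.of_forall fun N n hn hnb => ?_
        rw [mem_union, not_or, mem_range] at hnb
        obtain ⟨h1, h2⟩ := hnb
        have h3 : ¬ (n < (2 * B + 8) * 2 ^ tN N ∨ T^[tN N] (s * n) ≠ T^[tN N] (3 ^ a * (s * n) + b)) := by
          intro h3
          apply h1
          unfold bad
          rw [mem_filter]
          exact ⟨hn, h3⟩
        push Not at h3
        have habs : |s * (n : ℤ)| = n := by
          rcases hs with rfl | rfl
          · rw [one_mul, abs_of_nonneg (by positivity)]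
          · rw [neg_one_mul, abs_neg, abs_of_nonneg (by positivity)]
        have hn0 : 1 ≤ n := (mem_Icc.1 hn).1
        have hne : s * (n : ℤ) ≠ 0 := by
          intro h0
          rw [h0, abs_zero] at habs
          omega
        have habsR : |((s * n : ℤ) : ℝ)| = n := by exact_mod_cast habs
        refine gg_aff hA hε.le hu hB hne h3.2 ?_ ?_ ?_
        · rw [habs]
          exact_mod_cast h3.1
        · rw [habs, Int.abs_eq_natAbs b]
          omega
        · rw [habsR]
          rw [div_lt_iff₀ hδ] at hn1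
          have h5 : (n1 : ℝ) ≤ n := by exact_mod_cast (by omega : n1 ≤ n)
          nlinarith

end Pool.Agent.Q74.SP
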