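import Mathlib

/-! A Kronecker type lemma, by the Fejer kernel. -/

set_option autoImplicit false

namespace Pool.Agent.Q74.SP

open Finset Filter Topology

/-- `e(x) = exp(2 π i x)` -/
noncomputable def e (x : ℝ) : ℂ := Complex.exp ((2 * Real.pi * x : ℝ) * Complex.I)

theorem norm_e (x : ℝ) : ‖e x‖ = 1 := Complex.norm_exp_ofReal_mul_I _

theorem e_add (x y : ℝ) : e (x + y) = e x * e y := by
  unfold e
  rw [← Complex.exp_add]
  congr 1
  push_cast
  ring

theorem e_zero : e 0 = 1 := by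
  unfold e
  simp

theorem e_ne_zero (x : ℝ) : e x ≠ 0 := by
  intro h
  have := norm_e x
  rw [h, norm_zero] at this
  exact zero_ne_one this

theorem e_int (n : ℤ) : e n = 1 := by
  unfold e
  rw [Complex.exp_eq_one_iff]
  exact ⟨n, by push_cast; ring⟩

theorem e_eq_one {x : ℝ} (h : e x = 1) : ∃ n : ℤ, x = n := by
  unfold e at h
  rw [Complex.exp_eq_one_iff] at h
  obtain ⟨n, hn⟩ := h
  refine ⟨n, ?_⟩
  have h1 : ((2 * Real.pi * x : ℝ) : ℂ) = n * (2 * Real.pi) := by
    have h2 : ((2 * Real.pi * x : ℝ) : ℂ) * Complex.I = (n * (2 * Real.pi)) * Complex.I := by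
      rw [hn]; ring
    exact mul_right_cancel₀ Complex.I_ne_zero h2
  have h3 : 2 * Real.pi * x = n * (2 * Real.pi) := by exact_mod_cast h1
  have hpi := Real.pi_pos
  have h4 : (2 * Real.pi) * (x - n) = 0 := by ring_nf; ring_nf at h3; linarith
  rcases mul_eq_zero.1 h4 with h5 | h5
  · linarith
  · linarith

theorem e_neg (x : ℝ) : e (-x) = (e x)⁻¹ := by
  apply eq_inv_of_mul_eq_one_left
  rw [← e_add, neg_add_cancel, e_zero]

theorem e_conj (x : ℝ) : (starRingEnd ℂ) (e x) = e (-x) := by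
  unfold e
  rw [← Complex.exp_conj]
  congr 1
  rw [map_mul, Complex.conj_ofReal, Complex.conj_I]
  push_cast
  ring

theorem e_nat_mul (n : ℕ) (x : ℝ) : e (n * x) = e x ^ n := by
  induction n with
  | zero => simp [e_zero]
  | succ n ih =>
    rw [pow_succ, ← ih, ← e_add]
    congr 1
    push_cast
    ring

theorem norm_e_sub_one (x : ℝ) : ‖e x - 1‖ = 2 * |Real.sin (Real.pi * x)| := by
  have h := Complex.norm_exp_I_mul_ofReal_sub_one (2 * Real.pi * x)
  unfold e
  rw [mul_comm, h]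
  rw [show 2 * Real.pi * x / 2 = Real.pi * x by ring, norm_mul, Real.norm_eq_abs, Real.norm_eq_abs]
  norm_num

theorem sin_lower {x : ℝ} (p : ℤ) (hx : |x - p| ≤ 1 / 2) : 4 * |x - p| ≤ ‖e x - 1‖ := by
  have h1 : e x = e (x - p) := by
    have := e_add (x - p) p
    rw [e_int, mul_one, sub_add_cancel] at this
    exact this
  rw [h1, norm_e_sub_one]
  have hpi := Real.pi_pos
  have h2 : |Real.sin (Real.pi * (x - p))| = Real.sin (Real.pi * |x - p|) := by
    rcases abs_cases (x - p) with ⟨h, h'⟩ | ⟨h, h'⟩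
    · rw [h, abs_of_nonneg]
      apply Real.sin_nonneg_of_nonneg_of_le_pi (by positivity)
      rw [h] at hx
      nlinarith
    · rw [h, mul_neg, Real.sin_neg, abs_of_nonpos]
      have : 0 ≤ Real.sin (Real.pi * (-(x - p))) := by
        apply Real.sin_nonneg_of_nonneg_of_le_pi
        · nlinarith
        · rw [h] at hx
          nlinarith
      rw [mul_neg, Real.sin_neg] at this
      linarith
  rw [h2]
  have h3 := Real.mul_le_sin (x := Real.pi * |x - p|) (by positivity) (by nlinarith [abs_nonneg (x - p)])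
  have h4 : 2 / Real.pi * (Real.pi * |x - p|) = 2 * |x - p| := by field_simp
  rw [h4] at h3
  linarith

/-- mean values of exponentials -/
theorem mean_e {γ : ℝ} (hγ : ∀ n : ℤ, γ ≠ n) :
    Tendsto (fun A : ℕ => (∑ a ∈ range A, e (a * γ)) / A) atTop (𝓝 0) := by
  have h0 : e γ ≠ 1 := fun h => by
    obtain ⟨n, hn⟩ := e_eq_one h
    exact hγ n hn
  have hpos : 0 < ‖e γ - 1‖ := norm_pos_iff.2 (sub_ne_zero.2 h0)
  have hb : ∀ A : ℕ, ‖(∑ a ∈ range A, e (a * γ)) / A‖ ≤ (2 / ‖e γ - 1‖) / A := by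
    intro A
    rw [norm_div, Complex.norm_natCast]
    apply div_le_div_of_nonneg_right _ (Nat.cast_nonneg A)
    simp only [e_nat_mul]
    rw [geom_sum_eq h0, norm_div]
    apply div_le_div_of_nonneg_right _ hpos.le
    refine (norm_sub_le _ _).trans ?_
    rw [norm_pow, norm_e, one_pow, norm_one]
    norm_num
  refine squeeze_zero_norm hb ?_
  exact tendsto_const_nhds.div_atTop tendsto_natCast_atTop_atTop

theorem mean_e_int (n : ℤ) :
    Tendsto (fun A : ℕ => (∑ a ∈ range A, e (a * n)) / A) atTop (𝓝 1) := by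
  have h : ∀ᶠ A : ℕ in atTop, (1 : ℂ) = (∑ a ∈ range A, e (a * n)) / A := by
    filter_upwards [eventually_ge_atTop 1] with A hA
    have h1 : ∀ a ∈ range A, e (a * n) = 1 := by
      intro a _
      have := e_int (a * n)
      push_cast at this
      exact this
    rw [sum_congr rfl h1]
    simp only [sum_const, card_range, nsmul_eq_mul, mul_one]
    rw [div_self]
    exact_mod_cast (by omega : A ≠ 0)
  exact tendsto_const_nhds.congr' h

/-- Fejer kernel -/
noncomputable def fej (M : ℕ) (x : ℝ) : ℝ := ‖∑ j ∈ range M, e (j * x)‖ ^ 2 / M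

theorem fej_nonneg (M : ℕ) (x : ℝ) : 0 ≤ fej M x := by unfold fej; positivity

theorem fej_eq (M : ℕ) (x : ℝ) :
    (fej M x : ℂ) = (∑ j ∈ range M, ∑ l ∈ range M, e (((j : ℝ) - l) * x)) / M := by
  unfold fej
  push_cast
  congr 1
  have h1 : ((‖∑ j ∈ range M, e (j * x)‖ : ℂ)) ^ 2
      = (∑ j ∈ range M, e (j * x)) * (starRingEnd ℂ) (∑ j ∈ range M, e (j * x)) := by
    rw [Complex.mul_conj, Complex.normSq_eq_norm_sq]
    push_cast
    rfl
  rw [h1, map_sum, sum_mul_sum]
  refine sum_congr rfl fun j _ => sum_congr rfl fun l _ => ?_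
  rw [e_conj, ← e_add]
  congr 1
  ring

theorem fej_far {M : ℕ} (hM : 1 ≤ M) {x ε : ℝ} (hε : 0 < ε) (h : ∀ p : ℤ, ε ≤ |x - p|) :
    fej M x ≤ 1 / (4 * ε ^ 2 * M) := by
  have h1 : 4 * |x - round x| ≤ ‖e x - 1‖ := sin_lower _ (abs_sub_round x)
  have h2 := h (round x)
  have h3 : 4 * ε ≤ ‖e x - 1‖ := by linarith
  have h0 : e x ≠ 1 := by
    intro h'
    rw [h', sub_self, norm_zero] at h3
    linarith
  have hpos : 0 < ‖e x - 1‖ := by linarith
  have h4 : ‖∑ j ∈ range M, e (j * x)‖ ≤ 2 / ‖e x - 1‖ := by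
    simp only [e_nat_mul]
    rw [geom_sum_eq h0, norm_div]
    apply div_le_div_of_nonneg_right _ hpos.le
    refine (norm_sub_le _ _).trans ?_
    rw [norm_pow, norm_e, one_pow, norm_one]
    norm_num
  have h5 : 2 / ‖e x - 1‖ ≤ 1 / (2 * ε) := by
    rw [div_le_div_iff₀ hpos (by positivity)]
    linarith
  have hM' : (0 : ℝ) < M := by exact_mod_cast hM
  unfold fej
  rw [div_le_div_iff₀ hM' (by positivity)]
  have h6 : ‖∑ j ∈ range M, e (j * x)‖ ^ 2 ≤ (1 / (2 * ε)) ^ 2 :=
    pow_le_pow_left₀ (norm_nonneg _) (h4.trans h5) 2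
  calc ‖∑ j ∈ range M, e (j * x)‖ ^ 2 * (4 * ε ^ 2 * M) ≤ (1 / (2 * ε)) ^ 2 * (4 * ε ^ 2 * M) :=
        mul_le_mul_of_nonneg_right h6 (by positivity)
    _ = 1 * M := by field_simp; ring

theorem mean_double (M : ℕ) (g : ℕ → ℕ → ℝ) (w : ℕ → ℕ → ℂ)
    (h : ∀ j ∈ range M, ∀ l ∈ range M, Tendsto (fun A : ℕ => (∑ a ∈ range A, e (a * g j l)) / A) atTop (𝓝 (w j l))) :
    Tendsto (fun A : ℕ => (∑ a ∈ range A, (∑ j ∈ range M, ∑ l ∈ range M, e (a * g j l)) / M) / A)
      atTop (𝓝 ((∑ j ∈ range M, ∑ l ∈ range M, w j l) / M)) := by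
  have h1 : Tendsto (fun A : ℕ => (∑ j ∈ range M, ∑ l ∈ range M, (∑ a ∈ range A, e (a * g j l)) / A) / M)
      atTop (𝓝 ((∑ j ∈ range M, ∑ l ∈ range M, w j l) / M)) := by
    apply Tendsto.div_const
    apply tendsto_finsetSum
    intro j hj
    apply tendsto_finsetSum
    intro l hl
    exact h j hj l hl
  refine h1.congr fun A => ?_
  simp only [← sum_div]
  rw [div_right_comm]
  congr 2
  rw [sum_comm' (s := range A) (t := fun _ => range M) (t' := range M) (s' := fun _ => range A)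
    (by intro x y; tauto)]
  refine sum_congr rfl fun j _ => ?_
  rw [sum_comm]

/-- **Kronecker type lemma.** -/
theorem kron {β θ : ℝ} (hβ : Irrational β) (hθ : ∀ m l : ℤ, θ ≠ m * β + l) {ε : ℝ} (hε : 0 < ε) :
    ∃ a : ℕ, (∃ p : ℤ, |a * β - p| < ε) ∧ 1 / 8 ≤ ‖e (a * θ) - 1‖ := by
  by_contra hcon
  push Not at hcon
  obtain ⟨M, hM⟩ := exists_nat_gt (8 / (4 * ε ^ 2) * 2)
  have hM1 : 1 ≤ M := by
    rw [Nat.one_le_iff_ne_zero]
    rintro rfl
    have : (0 : ℝ) < 8 / (4 * ε ^ 2) * 2 := by positivity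
    simp at hM
    linarith
  have hMpos : (0 : ℝ) < M := by exact_mod_cast hM1
  -- the two mean values
  have hm1 : Tendsto (fun A : ℕ => (∑ a ∈ range A, (fej M (a * β) : ℂ)) / A) atTop (𝓝 1) := by
    have h1 := mean_double M (fun j l => ((j : ℝ) - l) * β) (fun j l => if j = l then 1 else 0) (by
      intro j _ l _
      by_cases hjl : j = l
      · subst hjl
        rw [if_pos rfl]
        have := mean_e_int 0
        simpa using this
      · rw [if_neg hjl]
        apply mean_e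
        intro n hn
        have hne : ((j : ℤ) - l) ≠ 0 := sub_ne_zero.2 (by exact_mod_cast hjl)
        have h2 : Irrational ((((j : ℤ) - l : ℤ) : ℝ) * β) := hβ.intCast_mul hne
        apply h2
        refine ⟨n, ?_⟩
        push_cast
        exact hn.symm)
    have h2 : (∑ j ∈ range M, ∑ l ∈ range M, (if j = l then (1 : ℂ) else 0)) / M = 1 := by
      have : ∀ j ∈ range M, ∑ l ∈ range M, (if j = l then (1 : ℂ) else 0) = 1 := by
        intro j hj
        rw [sum_ite_eq, if_pos hj]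
      rw [sum_congr rfl this]
      simp only [sum_const, card_range, nsmul_eq_mul, mul_one]
      exact div_self (by exact_mod_cast (by omega : M ≠ 0))
    rw [h2] at h1
    refine h1.congr fun A => ?_
    congr 1
    refine sum_congr rfl fun a _ => ?_
    rw [fej_eq]
    congr 1
    refine sum_congr rfl fun j _ => sum_congr rfl fun l _ => ?_
    congr 1
    ring
  have hm2 : Tendsto (fun A : ℕ => (∑ a ∈ range A, (fej M (a * β) : ℂ) * e (a * θ)) / A) atTop (𝓝 0) := by
    have h1 := mean_double M (fun j l => ((j : ℝ) - l) * β + θ) (fun j l => 0) (by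
      intro j _ l _
      apply mean_e
      intro n hn
      apply hθ (l - j) n
      push_cast
      linarith)
    have h2 : (∑ j ∈ range M, ∑ l ∈ range M, (0 : ℂ)) / M = 0 := by simp
    rw [h2] at h1
    refine h1.congr fun A => ?_
    congr 1
    refine sum_congr rfl fun a _ => ?_
    rw [fej_eq, div_mul_eq_mul_div]
    congr 1
    rw [sum_mul]
    refine sum_congr rfl fun j _ => ?_
    rw [sum_mul]
    refine sum_congr rfl fun l _ => ?_
    rw [← e_add]
    congr 1
    ring
  have hm3 := hm1.sub hm2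
  rw [sub_zero] at hm3
  have hm4 := hm3.norm
  rw [norm_one] at hm4
  have hm5 := hm1.norm
  rw [norm_one] at hm5
  -- upper bound
  have hub : ∀ A : ℕ, 1 ≤ A → ‖(∑ a ∈ range A, (fej M (a * β) : ℂ)) / A
      - (∑ a ∈ range A, (fej M (a * β) : ℂ) * e (a * θ)) / A‖ ≤
      1 / 8 * ‖(∑ a ∈ range A, (fej M (a * β) : ℂ)) / A‖ + 1 / 8 := by
    intro A hA
    have hA0 : (0 : ℝ) < A := by exact_mod_cast hA
    have e1 : (∑ a ∈ range A, (fej M (a * β) : ℂ)) / A
      - (∑ a ∈ range A, (fej M (a * β) : ℂ) * e (a * θ)) / A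
        = (∑ a ∈ range A, (fej M (a * β) : ℂ) * (1 - e (a * θ))) / A := by
      rw [← sub_div, ← sum_sub_distrib]
      congr 1
      refine sum_congr rfl fun a _ => ?_
      ring
    have e2 : ‖(∑ a ∈ range A, (fej M (a * β) : ℂ)) / A‖ = (∑ a ∈ range A, fej M (a * β)) / A := by
      rw [norm_div, Complex.norm_natCast, ← Complex.ofReal_sum, Complex.norm_real, Real.norm_eq_abs,
        abs_of_nonneg (sum_nonneg fun a _ => fej_nonneg _ _)]
    rw [e1, e2, norm_div, Complex.norm_natCast]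
    rw [← mul_div_assoc, ← sub_le_iff_le_add', ← sub_div, div_le_iff₀ hA0, sub_le_iff_le_add]
    refine (norm_sum_le _ _).trans ?_
    have h3 : ∀ a ∈ range A, ‖(fej M (a * β) : ℂ) * (1 - e (a * θ))‖ ≤ 1 / 8 * fej M (a * β) + 1 / 8 := by
      intro a _
      rw [norm_mul, Complex.norm_real, Real.norm_eq_abs, abs_of_nonneg (fej_nonneg _ _), norm_sub_rev]
      have hK := fej_nonneg M (a * β)
      by_cases hnear : ∃ p : ℤ, |a * β - p| < ε
      · have h4 := hcon a hnear
        nlinarith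
      · push Not at hnear
        have h4 := fej_far hM1 hε hnear
        have h5 : ‖e (a * θ) - 1‖ ≤ 2 := by
          refine (norm_sub_le _ _).trans ?_
          rw [norm_e, norm_one]; norm_num
        have h6 : 1 / (4 * ε ^ 2 * M) ≤ 1 / 16 := by
          rw [div_le_div_iff₀ (by positivity) (by norm_num)]
          have h7 : 8 / (4 * ε ^ 2) * 2 * (4 * ε ^ 2) < M * (4 * ε ^ 2) :=
            mul_lt_mul_of_pos_right hM (by positivity)
          have h8 : 8 / (4 * ε ^ 2) * 2 * (4 * ε ^ 2) = 16 := by field_simp; norm_num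
          rw [h8] at h7
          linarith
        nlinarith
    refine (sum_le_sum h3).trans ?_
    rw [sum_add_distrib, ← mul_sum]
    simp only [sum_const, card_range, nsmul_eq_mul]
    linarith
  have hlim : (1 : ℝ) ≤ 1 / 8 * 1 + 1 / 8 := by
    refine le_of_tendsto_of_tendsto hm4 ((hm5.const_mul (1 / 8)).add_const (1 / 8)) ?_
    filter_upwards [eventually_ge_atTop 1] with A hA
    exact hub A hA
  norm_num at hlim

end Pool.Agent.Q74.SP
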