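import Pool.Agent.Q74.SP.NA6

/-! Local limit theorem with residues: sequences, shifts; the constants. -/

set_option autoImplicit false

namespace Pool.Agent.Q74.SP

open Finset Filter Topology MeasureTheory

open Pool.Agent.H499R2.LT (Hit FY PF od RF SF Hit_unique hit_sideF od_side ss NN MM NNs NNs_eq GS mem_GS kap hi hi_spec
  cY gz gz_pos local_limit hd_exists dn_PF Dn_iff hit_split)
open Pool.Agent.H499R2.ND (side_odd side_cop Td Dn HD)

/-- sequences of indices -/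
structure Sq (k : ℕ → ℕ) (o : ℕ → ℤ) (z : ℝ) : Prop where
  top : Tendsto (fun i => (k i : ℝ)) atTop atTop
  lim : Tendsto (fun i => (2 * (o i : ℝ) - k i) / Real.sqrt (k i)) atTop (𝓝 z)

/-- the local limit theorem, along sequences -/
def LLT (N : ℕ → ℤ → ℝ) (u : ℝ) : Prop := ∀ (k : ℕ → ℕ) (o : ℕ → ℤ) (z : ℝ), Sq k o z →
  Tendsto (fun i => Real.sqrt (k i) * (N (k i) (o i) * (3 : ℝ) ^ (o i) / 2 ^ (k i))) atTop
    (𝓝 (u * Real.exp (-z ^ 2 / 2)))

theorem gauss_lim {k : ℕ → ℕ} {o : ℕ → ℤ} {z : ℝ} (h : Sq k o z) :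
    Tendsto (fun i => Real.exp (-(2 * (o i : ℝ) - k i) ^ 2 / (2 * k i))) atTop (𝓝 (Real.exp (-z ^ 2 / 2))) := by
  have h1 : Tendsto (fun i => Real.exp (-((2 * (o i : ℝ) - k i) / Real.sqrt (k i)) ^ 2 / 2)) atTop
      (𝓝 (Real.exp (-z ^ 2 / 2))) := by
    apply (Real.continuous_exp.tendsto _).comp
    apply Tendsto.div_const
    exact ((h.lim).pow 2).neg
  refine h1.congr' ?_
  filter_upwards [h.top.eventually (eventually_gt_atTop 0)] with i hi
  congr 1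
  rw [div_pow, Real.sq_sqrt hi.le]
  field_simp

theorem LLT_of_unif {N : ℕ → ℤ → ℝ} {u : ℝ}
    (h : ∀ K ε : ℝ, 0 < ε → ∃ k0 : ℕ, ∀ (k : ℕ) (o : ℤ), k0 ≤ k → |2 * (o : ℝ) - k| ≤ K * Real.sqrt k →
      |Real.sqrt k * (N k o * (3 : ℝ) ^ o / 2 ^ k) - u * Real.exp (-(2 * (o : ℝ) - k) ^ 2 / (2 * k))| ≤ ε) :
    LLT N u := by
  intro k o z hs
  have h1 := (gauss_lim hs).const_mul u
  have h2 : Tendsto (fun i => Real.sqrt (k i) * (N (k i) (o i) * (3 : ℝ) ^ (o i) / 2 ^ (k i))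
      - u * Real.exp (-(2 * (o i : ℝ) - k i) ^ 2 / (2 * k i))) atTop (𝓝 0) := by
    rw [Metric.tendsto_atTop']
    intro ε hε
    obtain ⟨k0, hk0⟩ := h (|z| + 1) (ε / 2) (by positivity)
    have e1 : ∀ᶠ i in atTop, |(2 * (o i : ℝ) - k i) / Real.sqrt (k i)| < |z| + 1 :=
      hs.lim.abs.eventually (gt_mem_nhds (by linarith))
    have e2 : ∀ᶠ i in atTop, ((k0 + 1 : ℕ) : ℝ) ≤ k i := hs.top.eventually_ge_atTop _
    obtain ⟨i0, hi0⟩ := eventually_atTop.1 (e1.and e2)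
    refine ⟨i0, fun i hi => ?_⟩
    obtain ⟨g1, g2⟩ := hi0 i hi.le
    have g3 : k0 + 1 ≤ k i := by exact_mod_cast g2
    have g4 : (0 : ℝ) < k i := by exact_mod_cast (by omega : 0 < k i)
    have g5 := Real.sqrt_pos.2 g4
    rw [abs_div, abs_of_pos g5, div_lt_iff₀ g5] at g1
    have g6 := hk0 (k i) (o i) (by omega) g1.le
    rw [dist_zero_right, Real.norm_eq_abs]
    linarith
  have h3 := h2.add h1
  rw [zero_add] at h3
  refine h3.congr fun i => ?_
  ring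

theorem sqrt_top' {k : ℕ → ℕ} (h : Tendsto (fun i => (k i : ℝ)) atTop atTop) :
    Tendsto (fun i => Real.sqrt (k i)) atTop atTop := Real.tendsto_sqrt_atTop.comp h

/-- shifts of sequences -/
theorem Sq.shift {k : ℕ → ℕ} {o : ℕ → ℤ} {z : ℝ} (h : Sq k o z) (t : ℕ) (q : ℤ) :
    Sq (fun i => k i - t) (fun i => o i - q) z ∧
      Tendsto (fun i => Real.sqrt (k i) / Real.sqrt ((k i - t : ℕ) : ℝ)) atTop (𝓝 1) := by
  have hev : ∀ᶠ i in atTop, t + 1 ≤ k i := by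
    filter_upwards [h.top.eventually_ge_atTop ((t + 1 : ℕ) : ℝ)] with i hi
    exact_mod_cast hi
  have hcast : ∀ᶠ i in atTop, ((k i - t : ℕ) : ℝ) = (k i : ℝ) - t := by
    filter_upwards [hev] with i hi
    rw [Nat.cast_sub (by omega)]
  have htop : Tendsto (fun i => ((k i - t : ℕ) : ℝ)) atTop atTop := by
    have h1 : Tendsto (fun i => (k i : ℝ) + (-t)) atTop atTop := tendsto_atTop_add_const_right _ _ h.top
    refine h1.congr' ?_
    filter_upwards [hcast] with i hi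
    rw [hi]; ring
  have hrat : Tendsto (fun i => (k i : ℝ) / ((k i - t : ℕ) : ℝ)) atTop (𝓝 1) := by
    have h1 : Tendsto (fun i => 1 + (t : ℝ) / ((k i - t : ℕ) : ℝ)) atTop (𝓝 (1 + 0)) :=
      tendsto_const_nhds.add (tendsto_const_nhds.div_atTop htop)
    rw [add_zero] at h1
    refine h1.congr' ?_
    filter_upwards [hcast, htop.eventually (eventually_gt_atTop 0)] with i hi hpos
    rw [eq_div_iff hpos.ne', add_mul, one_mul, div_mul_cancel₀ _ hpos.ne', hi]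
    ring
  have hsq : Tendsto (fun i => Real.sqrt (k i) / Real.sqrt ((k i - t : ℕ) : ℝ)) atTop (𝓝 1) := by
    have h1 := (Real.continuous_sqrt.tendsto 1).comp hrat
    rw [Real.sqrt_one] at h1
    refine h1.congr fun i => ?_
    simp only [Function.comp_apply]
    rw [Real.sqrt_div (Nat.cast_nonneg _)]
  refine ⟨⟨htop, ?_⟩, hsq⟩
  have h2 : Tendsto (fun i => ((2 * (o i : ℝ) - k i) / Real.sqrt (k i)) *
      (Real.sqrt (k i) / Real.sqrt ((k i - t : ℕ) : ℝ)) + (t - 2 * q) / Real.sqrt ((k i - t : ℕ) : ℝ))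
      atTop (𝓝 (z * 1 + 0)) := by
    apply Tendsto.add (h.lim.mul hsq)
    exact tendsto_const_nhds.div_atTop (sqrt_top' htop)
  rw [mul_one, add_zero] at h2
  refine h2.congr' ?_
  filter_upwards [hcast, htop.eventually (eventually_gt_atTop 0), h.top.eventually (eventually_gt_atTop 0)]
    with i hi hpos hpos'
  have s1 := Real.sqrt_pos.2 hpos
  have s2 := Real.sqrt_pos.2 hpos'
  rw [div_mul_div_cancel₀ s2.ne', ← add_div]
  congr 1
  rw [hi]
  push_cast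
  ring

/-- shifts of the indices -/
theorem LLT.shift {N : ℕ → ℤ → ℝ} {u : ℝ} (h : LLT N u) (t : ℕ) (q : ℤ) :
    LLT (fun k o => N (k - t) (o - q)) ((3 : ℝ) ^ q / 2 ^ t * u) := by
  intro k o z hs
  obtain ⟨hs', hr⟩ := hs.shift t q
  have h1 := (h _ _ _ hs').mul hr
  have h2 := h1.const_mul ((3 : ℝ) ^ q / 2 ^ t)
  rw [mul_one, ← mul_assoc] at h2
  refine h2.congr' ?_
  filter_upwards [hs'.top.eventually (eventually_gt_atTop 0)] with i hi
  have hk : t ≤ k i := by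
    have : 0 < k i - t := by exact_mod_cast hi
    omega
  have s1 := Real.sqrt_pos.2 hi
  have e1 : (2 : ℝ) ^ k i = 2 ^ t * 2 ^ (k i - t) := by rw [← pow_add]; congr 1; omega
  have e2 : (3 : ℝ) ^ (o i) = (3 : ℝ) ^ q * (3 : ℝ) ^ (o i - q) := by
    rw [← zpow_add₀ (by norm_num)]; congr 1; ring
  rw [e1, e2]
  have h2t : (2 : ℝ) ^ t ≠ 0 := by positivity
  have h2k : (2 : ℝ) ^ (k i - t) ≠ 0 := by positivity
  field_simp

theorem LLT.sum {ι : Type*} (I : Finset ι) (N : ι → ℕ → ℤ → ℝ) (u : ι → ℝ) (h : ∀ i ∈ I, LLT (N i) (u i)) :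
    LLT (fun k o => ∑ i ∈ I, N i k o) (∑ i ∈ I, u i) := by
  intro k o z hs
  have h1 := tendsto_finsetSum I fun i hi => h i hi k o z hs
  rw [← Finset.sum_mul] at h1
  refine h1.congr fun j => ?_
  rw [← Finset.mul_sum, ← Finset.sum_div, ← Finset.sum_mul]

theorem fy_image {s : ℤ} (hs : s = 1 ∨ s = -1) (Y : ℕ) : (FY Y).image (fun a => s * a) = FY Y := by
  ext x
  unfold FY
  rw [mem_image, mem_Icc]
  constructor
  · rintro ⟨a, ha, rfl⟩
    rw [mem_Icc] at ha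
    rcases hs with rfl | rfl <;> constructor <;> omega
  · intro hx
    refine ⟨s * x, ?_, ss hs x⟩
    rw [mem_Icc]
    rcases hs with rfl | rfl <;> constructor <;> omega

theorem pf_side {s : ℤ} (hs : s = 1 ∨ s = -1) (F : Finset ℤ) (f x : ℤ) :
    x ∈ PF (s * 1) (F.image (fun a => s * a)) (s * f) ↔ s * x ∈ PF 1 F f := by
  unfold PF
  rw [Set.mem_ofPred_eq, Set.mem_ofPred_eq]
  exact exists_congr fun j => hit_sideF odd_one hs F f x j

/-- levels with a small error, and the constants of the local limit theorem -/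
theorem consts {s : ℤ} (hs : s = 1 ∨ s = -1) {e : ℝ} (he : 0 < e) (he3 : 2 * e < Real.log 3) (Y0 : ℕ) :
    ∃ Y : ℕ, Y0 ≤ Y ∧ (∀ (x g : ℤ) (j : ℕ), x ≠ 0 → Hit 1 (FY Y) g x j →
      g ≠ 0 ∧ |Real.log (x : ℝ) + od 1 j x * Real.log 3 - j * Real.log 2 - Real.log (g : ℝ)| ≤ e) ∧
    ∀ g : ℤ, g ∈ FY Y → 0 < s * g → ∃ u δ : ℝ, 0 ≤ u ∧ 0 ≤ δ ∧ LLT (NNs 1 s (FY Y) g) u ∧
      Dn (fun n : ℕ => s * (n : ℤ) ∈ PF 1 (FY Y) g) δ ∧
      Real.exp (-e) * (Real.log 3 - 2 * e) * gz 0 * (|(g : ℝ)| * δ) ≤ u ∧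
      u ≤ Real.exp e * (Real.log 3 + 2 * e) * gz 0 * (|(g : ℝ)| * δ) := by
  have hd : Odd (s * 1) := side_odd odd_one hs
  have hd3 : IsCoprime (s * 1) 3 := side_cop isCoprime_one_left hs
  obtain ⟨C, Y1, hC, -, hp⟩ := Pool.Agent.H499R2.LT.path_log odd_one (isCoprime_one_left (x := (3 : ℤ)))
  obtain ⟨C', Y2, hC', -, hp'⟩ := Pool.Agent.H499R2.LT.path_log hd hd3
  have hlim : ∀ C : ℝ, Tendsto (fun Y : ℕ => C / (Y : ℝ) ^ (1 / 25 : ℝ)) atTop (𝓝 0) := fun C =>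
    Tendsto.div_atTop tendsto_const_nhds ((tendsto_rpow_atTop (by norm_num)).comp tendsto_natCast_atTop_atTop)
  obtain ⟨Y, ⟨h1, h2⟩, h3⟩ := ((((hlim C).eventually (gt_mem_nhds he)).and
    ((hlim C').eventually (gt_mem_nhds he))).and (eventually_ge_atTop (max (max Y1 Y2) Y0))).exists
  have hY1 : Y1 ≤ Y := ((le_max_left _ _).trans (le_max_left _ _)).trans h3
  have hY2 : Y2 ≤ Y := ((le_max_right _ _).trans (le_max_left _ _)).trans h3
  refine ⟨Y, (le_max_right _ _).trans h3, ?_, ?_⟩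
  · intro x g j hx hh
    obtain ⟨a, b⟩ := hp Y hY1 x g j hx hh
    exact ⟨a, b.trans h1.le⟩
  intro g hgY hg
  choose δ hδ using fun g => hd_exists hd hd3 (FY Y) g
  obtain ⟨u, hu0, hloc, hlev⟩ := local_limit hd hd3 (FY Y) (s * g)
  have hlev' := hlev (Y := Y) (fun _ h => h) he he3 (by
    intro x g j hx hh
    obtain ⟨a, b⟩ := hp' Y hY2 x g j hx hh
    exact ⟨a, b.trans h2.le⟩) hδ
  have hsgY : s * g ∈ FY Y := by
    rw [← fy_image hs Y]
    exact mem_image_of_mem _ hgY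
  -- the level sum
  have hGS : GS (s * 1) (FY Y) (s * g) Y = {s * g} := by
    ext x
    rw [mem_GS, mem_singleton]
    constructor
    · rintro ⟨hx, -, j, hj⟩
      rcases j with _ | j
      · exact hj.1
      · exact absurd hx (hj.2.2 0 (Nat.succ_pos j))
    · rintro rfl
      exact ⟨hsgY, by omega, 0, rfl, hsgY, fun i hi => absurd hi (Nat.not_lt_zero i)⟩
  have hcY : cY (s * 1) (FY Y) (s * g) Y δ = |(g : ℝ)| * δ (s * g) := by
    unfold cY
    rw [hGS, sum_singleton]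
    congr 1
    have hhit : Hit (s * 1) (FY Y) (s * g) (s * g) 0 :=
      ⟨rfl, hsgY, fun i hi => absurd hi (Nat.not_lt_zero i)⟩
    unfold kap
    rw [hi_spec hhit, od]
    have hpos : (0 : ℝ) < ((s * g : ℤ) : ℝ) := by exact_mod_cast hg
    rw [Nat.cast_zero, Int.cast_zero, zero_mul, zero_mul, sub_zero, zero_sub, neg_neg, Real.exp_log hpos]
    rcases hs with rfl | rfl
    · rw [one_mul] at hpos ⊢
      rw [abs_of_pos hpos]
    · push_cast at hpos ⊢
      rw [abs_of_neg (by linarith)]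
      ring
  rw [hcY] at hlev'
  have hδ0 : 0 ≤ δ (s * g) := Pool.Agent.H499R2.LT.hd_nonneg (hδ _)
  refine ⟨u, δ (s * g), hu0, hδ0, ?_, ?_, ?_, ?_⟩
  · have hN : NNs 1 s (FY Y) g = NN (s * 1) (FY Y) (s * g) := by
      funext k o
      rw [NNs_eq odd_one hs, fy_image hs]
    rw [hN]
    apply LLT_of_unif
    intro K ε hε
    exact hloc K ε hε
  · have h4 := dn_PF (hδ (s * g))
    refine Dn_iff (fun n _ => ?_) h4
    have h5 := pf_side hs (FY Y) g (n : ℤ)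
    rw [fy_image hs] at h5
    exact h5
  · refine le_trans (le_of_eq ?_) hlev'.1
    ring
  · refine le_trans hlev'.2 (le_of_eq ?_)
    ring

end Pool.Agent.Q74.SP
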