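import Pool.Agent.Q74.SP.LL1

/-! Local limit theorem with residues: comparison with a level. -/

set_option autoImplicit false

namespace Pool.Agent.Q74.SP

open Finset Filter Topology MeasureTheory

open Pool.Agent.H499R2.LT (Hit FY PF od RF SF Hit_unique NNs NNs_finite gz)
open Pool.Agent.H499R2.ND (Dn cnt cnt_eq)

theorem sign_T {s : ℤ} (hs : s = 1 ∨ s = -1) {x : ℤ} (hx : 0 < s * x) : 0 < s * T x := by
  unfold T
  rcases hs with rfl | rfl
  · split_ifs <;> omega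
  · split_ifs <;> omega

theorem sign_iter {s : ℤ} (hs : s = 1 ∨ s = -1) {x : ℤ} (hx : 0 < s * x) (i : ℕ) : 0 < s * T^[i] x := by
  induction i with
  | zero => exact hx
  | succ i ih => rw [Function.iterate_succ_apply']; exact sign_T hs ih

/-- the data of a level -/
structure Lev (s : ℤ) (F : Finset ℤ) (e : ℝ) (Y : ℕ) : Prop where
  sub : F ⊆ FY Y
  near : ∀ (x g : ℤ) (j : ℕ), x ≠ 0 → Hit 1 (FY Y) g x j →
    g ≠ 0 ∧ |Real.log (x : ℝ) + od 1 j x * Real.log 3 - j * Real.log 2 - Real.log (g : ℝ)| ≤ e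

theorem Lev.entr {s : ℤ} {F : Finset ℤ} {e : ℝ} {Y : ℕ} (h : Lev s F e Y) {x g : ℤ} {j : ℕ} (hx : x ≠ 0)
    (hh : Hit 1 (FY Y) g x j) : (Meets F x ↔ Meets F g) ∧ (Meets F x →
      time F x = j + time F g ∧ odds (time F x) x = odds j x + odds (time F g) g ∧ |lr F x - lr F g| ≤ e) := by
  obtain ⟨hg0, hlog⟩ := h.near x g j hx hh
  have hno : ∀ i < j, T^[i] x ∉ F := fun i hi hmem => hh.2.2 i hi (h.sub hmem)
  have hg : T^[j] x = g := hh.1
  have hm : Meets F x ↔ Meets F g := by rw [meets_add hno, hg]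
  refine ⟨hm, fun hmx => ?_⟩
  have t1 := time_add hno hmx
  have o1 := odds_time_add hno hmx
  rw [hg] at t1 o1
  refine ⟨t1, o1, ?_⟩
  have e1 : lr F x - lr F g = -(Real.log (x : ℝ) + od 1 j x * Real.log 3 - j * Real.log 2 - Real.log (g : ℝ)) := by
    unfold lr
    rw [o1, t1, od_eq']
    push_cast
    ring
  rw [e1, abs_neg]
  exact hlog

open Classical in
/-- the good elements of a level -/
noncomputable def GLv (s : ℤ) (F : Finset ℤ) (Y : ℕ) : Finset ℤ :=
  (FY Y).filter fun g => 0 < s * g ∧ Meets F g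

theorem mem_GLv {s : ℤ} {F : Finset ℤ} {Y : ℕ} {g : ℤ} : g ∈ GLv s F Y ↔ g ∈ FY Y ∧ 0 < s * g ∧ Meets F g := by
  classical
  unfold GLv
  rw [mem_filter]

theorem Lev.exists {s : ℤ} (hs : s = 1 ∨ s = -1) {F : Finset ℤ} {e : ℝ} {Y : ℕ} (h : Lev s F e Y) {x : ℤ}
    (hx : 0 < s * x) (hm : Meets F x) : ∃ g ∈ GLv s F Y, ∃ j, Hit 1 (FY Y) g x j := by
  have h3 : Meets (FY Y) x := ⟨time F x, h.sub (time_spec hm)⟩
  have h4 := hit_of_meets h3
  have hx0 : x ≠ 0 := by rintro rfl; simp at hx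
  refine ⟨_, mem_GLv.2 ⟨h4.2.1, sign_iter hs hx _, ((h.entr hx0 h4).1).1 hm⟩, _, h4⟩

/-- integers of the sign of `s` with hitting time `k`, `o` odd terms and logarithm of the residue at
least `a` -/
def RS (s : ℤ) (F : Finset ℤ) (k : ℕ) (o : ℤ) (a : ℝ) : Set ℤ :=
  {x : ℤ | 0 < s * x ∧ Meets F x ∧ time F x = k ∧ (odds k x : ℤ) = o ∧ a ≤ lr F x}

noncomputable def NR (s : ℤ) (F : Finset ℤ) (k : ℕ) (o : ℤ) (a : ℝ) : ℝ := ((RS s F k o a).ncard : ℝ)

/-- the number for one element of the level -/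
noncomputable def vg (s : ℤ) (F : Finset ℤ) (Y : ℕ) (g : ℤ) (k : ℕ) (o : ℤ) : ℝ :=
  NNs 1 s (FY Y) g (k - time F g) (o - odds (time F g) g)

/-- the set for one element of the level -/
def Sg (s : ℤ) (F : Finset ℤ) (Y : ℕ) (g : ℤ) (k : ℕ) (o : ℤ) : Set ℤ :=
  {x : ℤ | 0 < s * x ∧ x ∈ SF 1 (FY Y) g (k - time F g : ℕ) (o - odds (time F g) g)}

theorem Sg_fin {s : ℤ} (hs : s = 1 ∨ s = -1) (F : Finset ℤ) (Y : ℕ) (g : ℤ) (k : ℕ) (o : ℤ) :
    (Sg s F Y g k o).Finite := NNs_finite odd_one (by norm_num) hs _ _ _ _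

theorem vg_eq {s : ℤ} (hs : s = 1 ∨ s = -1) (F : Finset ℤ) (Y : ℕ) (g : ℤ) (k : ℕ) (o : ℤ) :
    vg s F Y g k o = ((Sg_fin hs F Y g k o).toFinset.card : ℝ) := by
  unfold vg NNs
  rw [← Set.ncard_eq_toFinset_card _ (Sg_fin hs F Y g k o)]
  rfl

theorem vg_nonneg (s : ℤ) (F : Finset ℤ) (Y : ℕ) (g : ℤ) (k : ℕ) (o : ℤ) : 0 ≤ vg s F Y g k o := by
  unfold vg NNs
  exact Nat.cast_nonneg _

theorem Lev.cover {s : ℤ} (hs : s = 1 ∨ s = -1) {F : Finset ℤ} {e : ℝ} {Y : ℕ} (h : Lev s F e Y) (k : ℕ)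
    (o : ℤ) (a : ℝ) {x : ℤ} (hx : x ∈ RS s F k o a) : ∃ g ∈ GLv s F Y, a - e ≤ lr F g ∧ x ∈ Sg s F Y g k o := by
  obtain ⟨h0, hm, ht, ho, ha⟩ := hx
  obtain ⟨g, hg, j, hj⟩ := h.exists hs h0 hm
  have hx0 : x ≠ 0 := by rintro rfl; simp at h0
  obtain ⟨e1, e2, e3⟩ := (h.entr hx0 hj).2 hm
  rw [ht] at e1 e2
  refine ⟨g, hg, ?_, h0, j, ?_, hj, ?_⟩
  · linarith [(abs_le.1 e3).2]
  · omega
  · rw [od_eq', ← ho, e2]
    push_cast
    ring

open Classical in
theorem Lev.upper {s : ℤ} (hs : s = 1 ∨ s = -1) {F : Finset ℤ} {e : ℝ} {Y : ℕ} (h : Lev s F e Y) (k : ℕ)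
    (o : ℤ) (a : ℝ) : NR s F k o a ≤ ∑ g ∈ (GLv s F Y).filter (fun g => a - e ≤ lr F g), vg s F Y g k o := by
  have hsub : RS s F k o a ⊆ (((GLv s F Y).filter (fun g => a - e ≤ lr F g)).biUnion
      fun g => (Sg_fin hs F Y g k o).toFinset : Finset ℤ) := by
    intro x hx
    obtain ⟨g, hg, hag, hxg⟩ := h.cover hs k o a hx
    rw [mem_coe, mem_biUnion]
    exact ⟨g, mem_filter.2 ⟨hg, hag⟩, (Set.Finite.mem_toFinset _).2 hxg⟩
  have h1 := Set.ncard_le_ncard hsub (Finset.finite_toSet _)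
  rw [Set.ncard_coe_finset] at h1
  have h2 := h1.trans card_biUnion_le
  unfold NR
  have h3 : ∑ g ∈ (GLv s F Y).filter (fun g => a - e ≤ lr F g), vg s F Y g k o
      = ((∑ g ∈ (GLv s F Y).filter (fun g => a - e ≤ lr F g), (Sg_fin hs F Y g k o).toFinset.card : ℕ) : ℝ) := by
    push_cast
    exact sum_congr rfl fun g _ => vg_eq hs F Y g k o
  rw [h3]
  exact_mod_cast h2

theorem RS_fin {s : ℤ} (hs : s = 1 ∨ s = -1) {F : Finset ℤ} {e : ℝ} {Y : ℕ} (h : Lev s F e Y) (k : ℕ)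
    (o : ℤ) (a : ℝ) : (RS s F k o a).Finite := by
  classical
  have hsub : RS s F k o a ⊆ (((GLv s F Y)).biUnion
      fun g => (Sg_fin hs F Y g k o).toFinset : Finset ℤ) := by
    intro x hx
    obtain ⟨g, hg, hag, hxg⟩ := h.cover hs k o a hx
    rw [mem_coe, mem_biUnion]
    exact ⟨g, hg, (Set.Finite.mem_toFinset _).2 hxg⟩
  exact (Finset.finite_toSet _).subset hsub

open Classical in
theorem Lev.lower {s : ℤ} (hs : s = 1 ∨ s = -1) {F : Finset ℤ} {e : ℝ} {Y : ℕ} (h : Lev s F e Y) (k : ℕ)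
    (o : ℤ) (a : ℝ) (hk : ∀ g ∈ GLv s F Y, time F g ≤ k) :
    ∑ g ∈ (GLv s F Y).filter (fun g => a + e ≤ lr F g), vg s F Y g k o ≤ NR s F k o a := by
  have hfin := RS_fin hs h k o a
  have hdis : ∀ g ∈ (GLv s F Y).filter (fun g => a + e ≤ lr F g), ∀ g' ∈ (GLv s F Y).filter (fun g => a + e ≤ lr F g),
      g ≠ g' → Disjoint (Sg_fin hs F Y g k o).toFinset (Sg_fin hs F Y g' k o).toFinset := by
    intro g _ g' _ hgg
    rw [Finset.disjoint_left]
    intro x hx hx'
    rw [Set.Finite.mem_toFinset] at hx hx'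
    obtain ⟨_, j, _, hh, _⟩ := hx
    obtain ⟨_, j', _, hh', _⟩ := hx'
    exact hgg (Hit_unique hh hh').1
  have hsub : ((GLv s F Y).filter (fun g => a + e ≤ lr F g)).biUnion
      (fun g => (Sg_fin hs F Y g k o).toFinset) ⊆ hfin.toFinset := by
    intro x hx
    rw [mem_biUnion] at hx
    obtain ⟨g, hg, hxg⟩ := hx
    rw [mem_filter] at hg
    rw [Set.Finite.mem_toFinset] at hxg ⊢
    obtain ⟨h0, j, hj, hh, ho⟩ := hxg
    have hx0 : x ≠ 0 := by rintro rfl; simp at h0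
    have hk' := hk g hg.1
    obtain ⟨hm, hrest⟩ := h.entr hx0 hh
    have hmx := hm.2 (mem_GLv.1 hg.1).2.2
    obtain ⟨e1, e2, e3⟩ := hrest hmx
    have hj' : j = k - time F g := by exact_mod_cast hj
    have ht : time F x = k := by omega
    refine ⟨h0, hmx, ht, ?_, ?_⟩
    · rw [ht] at e2
      rw [e2]
      rw [od_eq'] at ho
      push_cast
      linarith
    · linarith [(abs_le.1 e3).1, hg.2]
  have h1 := card_le_card hsub
  rw [card_biUnion hdis] at h1
  unfold NR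
  rw [Set.ncard_eq_toFinset_card _ hfin]
  have h3 : ∑ g ∈ (GLv s F Y).filter (fun g => a + e ≤ lr F g), vg s F Y g k o
      = ((∑ g ∈ (GLv s F Y).filter (fun g => a + e ≤ lr F g), (Sg_fin hs F Y g k o).toFinset.card : ℕ) : ℝ) := by
    push_cast
    exact sum_congr rfl fun g _ => vg_eq hs F Y g k o
  rw [h3]
  exact_mod_cast h1

/-! ### The masses -/

/-- real mean values -/
noncomputable def rmean (u : ℕ → ℝ) (N : ℕ) : ℝ := (∑ n ∈ Icc 1 N, u n) / N

theorem rmean_mono {u v : ℕ → ℝ} (h : ∀ n, 1 ≤ n → u n ≤ v n) (N : ℕ) : rmean u N ≤ rmean v N := by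
  unfold rmean
  apply div_le_div_of_nonneg_right _ (Nat.cast_nonneg N)
  exact sum_le_sum fun n hn => h n (mem_Icc.1 hn).1

open Classical in
theorem law_real {s : ℤ} {F : Finset ℤ} {ν : Measure ℝ}
    (hlaw : ∀ h : ℝ → ℂ, Continuous h → Tendsto (mean fun n => GG F h 0 0 (s * n)) atTop (𝓝 (∫ x, h x ∂ν)))
    {φ : ℝ → ℝ} (hφ : Continuous φ) :
    Tendsto (rmean fun n => if Meets F (s * n) then φ (lr F (s * n)) else 0) atTop (𝓝 (∫ x, φ x ∂ν)) := by
  have hlim := hlaw (fun x => (φ x : ℂ)) (Complex.continuous_ofReal.comp hφ)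
  have e1 : ∫ x, ((φ x : ℝ) : ℂ) ∂ν = ((∫ x, φ x ∂ν : ℝ) : ℂ) := integral_ofReal
  rw [e1] at hlim
  have h1 := (Complex.continuous_re.tendsto _).comp hlim
  rw [Complex.ofReal_re] at h1
  refine h1.congr fun N => ?_
  simp only [Function.comp_apply]
  unfold mean rmean
  rw [Complex.div_natCast_re, Complex.re_sum]
  congr 1
  apply sum_congr rfl
  intro n _
  unfold GG
  beta_reduce
  by_cases hm : Meets F (s * n)
  · rw [if_pos hm, if_pos hm]
    simp only [zero_mul, add_zero, e_zero, mul_one, Complex.ofReal_re]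
  · rw [if_neg hm, if_neg hm]
    rfl

open Classical in
theorem rmean_ind {P : ℕ → Prop} {δ : ℝ} (h : Dn P δ) (c : ℝ) :
    Tendsto (rmean fun n => if P n then c else 0) atTop (𝓝 (c * δ)) := by
  have h1 : (rmean fun n => if P n then c else 0) = fun N : ℕ => c * (cnt P N / N) := by
    funext N
    unfold rmean
    rw [cnt_eq, ← Finset.sum_filter, Finset.sum_const, nsmul_eq_mul]
    ring
  rw [h1]
  exact Tendsto.const_mul c h

theorem rmean_sum {ι : Type*} (I : Finset ι) (g : ι → ℕ → ℝ) (L : ι → ℝ)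
    (h : ∀ i ∈ I, Tendsto (rmean (g i)) atTop (𝓝 (L i))) :
    Tendsto (rmean fun n => ∑ i ∈ I, g i n) atTop (𝓝 (∑ i ∈ I, L i)) := by
  have h1 : (rmean fun n => ∑ i ∈ I, g i n) = fun N => ∑ i ∈ I, rmean (g i) N := by
    funext N
    unfold rmean
    rw [Finset.sum_comm, Finset.sum_div]
  rw [h1]
  exact tendsto_finsetSum I h

/-- a ramp: `0` up to `b`, `1` from `b + e` on -/
noncomputable def ramp (b e x : ℝ) : ℝ := max 0 (min 1 ((x - b) / e))

theorem ramp_cont (b e : ℝ) : Continuous (ramp b e) := by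
  unfold ramp
  fun_prop

theorem ramp_nonneg (b e x : ℝ) : 0 ≤ ramp b e x := le_max_left _ _

theorem ramp_le (b e x : ℝ) : ramp b e x ≤ 1 := max_le zero_le_one (min_le_left _ _)

theorem ramp_one {b e x : ℝ} (he : 0 < e) (h : b + e ≤ x) : ramp b e x = 1 := by
  unfold ramp
  have h1 : 1 ≤ (x - b) / e := (one_le_div he).2 (by linarith)
  rw [min_eq_left h1, max_eq_right zero_le_one]

theorem ramp_zero {b e x : ℝ} (he : 0 < e) (h : x ≤ b) : ramp b e x = 0 := by
  unfold ramp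
  have h1 : (x - b) / e ≤ 0 := div_nonpos_of_nonpos_of_nonneg (by linarith) he.le
  rw [max_eq_left]
  exact (min_le_right _ _).trans h1

/-- the tails `∫_{x ≥ a} e^{-x}` -/
noncomputable def RR (ν : Measure ℝ) (a : ℝ) : ℝ := ∫ x in Set.Ici a, Real.exp (-x) ∂ν

theorem exp_int {ν : Measure ℝ} [IsFiniteMeasure ν] {A : ℝ} (hA : ν (Set.Icc (-A) A)ᶜ = 0) :
    Integrable (fun x => Real.exp (-x)) ν := integrable_of_supp hA (by fun_prop)

theorem RR_eq {ν : Measure ℝ} (a : ℝ) :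
    RR ν a = ∫ x, (Set.Ici a).indicator (fun x => Real.exp (-x)) x ∂ν := by
  unfold RR
  rw [integral_indicator measurableSet_Ici]

open Classical in
/-- upper bound of the masses of a level -/
theorem mass_upper {s : ℤ} (hs : s = 1 ∨ s = -1) {F : Finset ℤ} {ν : Measure ℝ} [IsFiniteMeasure ν] {A : ℝ}
    (hA : ν (Set.Icc (-A) A)ᶜ = 0)
    (hlaw : ∀ h : ℝ → ℂ, Continuous h → Tendsto (mean fun n => GG F h 0 0 (s * n)) atTop (𝓝 (∫ x, h x ∂ν)))
    {e : ℝ} (he : 0 < e) {Y : ℕ} (h : Lev s F e Y) {δ : ℤ → ℝ}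
    (hδ : ∀ g ∈ GLv s F Y, Dn (fun n : ℕ => s * (n : ℤ) ∈ PF 1 (FY Y) g) (δ g)) (a : ℝ) :
    ∑ g ∈ (GLv s F Y).filter (fun g => a ≤ lr F g), Real.exp (-lr F g) * δ g ≤
      Real.exp e * RR ν (a - 2 * e) := by
  set φ : ℝ → ℝ := fun x => ramp (a - 2 * e) e x * Real.exp (-x) with hφ
  have hφc : Continuous φ := (ramp_cont _ _).mul (by fun_prop)
  have h1 := law_real hlaw hφc
  have h2 := rmean_sum ((GLv s F Y).filter (fun g => a ≤ lr F g))
    (fun g n => if s * (n : ℤ) ∈ PF 1 (FY Y) g then Real.exp (-e) * Real.exp (-lr F g) else 0)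
    (fun g => Real.exp (-e) * Real.exp (-lr F g) * δ g)
    (fun g hg => rmean_ind (hδ g (mem_filter.1 hg).1) _)
  have h3 : ∑ g ∈ (GLv s F Y).filter (fun g => a ≤ lr F g), Real.exp (-e) * Real.exp (-lr F g) * δ g
      ≤ ∫ x, φ x ∂ν := by
    refine le_of_tendsto_of_tendsto' h2 h1 fun N => rmean_mono ?_ N
    intro n hn
    have hn0 : 0 < s * (s * (n : ℤ)) := by rcases hs with rfl | rfl <;> omega
    have hx0 : s * (n : ℤ) ≠ 0 := by rcases hs with rfl | rfl <;> omega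
    have hφ0 : 0 ≤ (if Meets F (s * n) then φ (lr F (s * n)) else 0) := by
      split_ifs
      · exact mul_nonneg (ramp_nonneg _ _ _) (Real.exp_pos _).le
      · exact le_rfl
    by_cases hex : ∃ g ∈ (GLv s F Y).filter (fun g => a ≤ lr F g), s * (n : ℤ) ∈ PF 1 (FY Y) g
    · obtain ⟨g, hg, j, hj⟩ := hex
      rw [Finset.sum_eq_single_of_mem g hg]
      · rw [if_pos ⟨j, hj⟩]
        rw [mem_filter] at hg
        obtain ⟨hm, hrest⟩ := h.entr hx0 hj
        have hmx := hm.2 (mem_GLv.1 hg.1).2.2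
        obtain ⟨-, -, e3⟩ := hrest hmx
        rw [if_pos hmx]
        simp only [hφ]
        rw [ramp_one he (by linarith [(abs_le.1 e3).1, hg.2]), one_mul, ← Real.exp_add]
        apply Real.exp_le_exp.2
        linarith [(abs_le.1 e3).2]
      · rintro g' hg' hne
        rw [if_neg]
        rintro ⟨j', hj'⟩
        exact hne (Hit_unique hj' hj).1
    · rw [Finset.sum_eq_zero]
      · exact hφ0
      · intro g hg
        rw [if_neg fun h' => hex ⟨g, hg, h'⟩]
  have h4 : ∫ x, φ x ∂ν ≤ RR ν (a - 2 * e) := by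
    rw [RR_eq]
    apply integral_mono (integrable_of_supp hA hφc) ((exp_int hA).indicator measurableSet_Ici)
    intro x
    by_cases hx : x ∈ Set.Ici (a - 2 * e)
    · rw [Set.indicator_of_mem hx]
      simp only [hφ]
      have := ramp_le (a - 2 * e) e x
      have h5 := Real.exp_pos (-x)
      nlinarith
    · rw [Set.indicator_of_notMem hx]
      simp only [hφ]
      rw [ramp_zero he (not_le.1 hx).le, zero_mul]
  have h5 : ∑ g ∈ (GLv s F Y).filter (fun g => a ≤ lr F g), Real.exp (-e) * Real.exp (-lr F g) * δ g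
      = Real.exp (-e) * ∑ g ∈ (GLv s F Y).filter (fun g => a ≤ lr F g), Real.exp (-lr F g) * δ g := by
    rw [Finset.mul_sum]
    exact sum_congr rfl fun g _ => by ring
  rw [h5] at h3
  have h6 := mul_le_mul_of_nonneg_left (h3.trans h4) (Real.exp_pos e).le
  rw [← mul_assoc, ← Real.exp_add, add_neg_cancel, Real.exp_zero, one_mul] at h6
  exact h6

open Classical in
/-- lower bound of the masses of a level -/
theorem mass_lower {s : ℤ} (hs : s = 1 ∨ s = -1) {F : Finset ℤ} {ν : Measure ℝ} [IsFiniteMeasure ν] {A : ℝ}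
    (hA : ν (Set.Icc (-A) A)ᶜ = 0)
    (hlaw : ∀ h : ℝ → ℂ, Continuous h → Tendsto (mean fun n => GG F h 0 0 (s * n)) atTop (𝓝 (∫ x, h x ∂ν)))
    {e : ℝ} (he : 0 < e) {Y : ℕ} (h : Lev s F e Y) {δ : ℤ → ℝ}
    (hδ : ∀ g ∈ GLv s F Y, Dn (fun n : ℕ => s * (n : ℤ) ∈ PF 1 (FY Y) g) (δ g)) (a : ℝ) :
    Real.exp (-e) * RR ν (a + 2 * e) ≤
      ∑ g ∈ (GLv s F Y).filter (fun g => a ≤ lr F g), Real.exp (-lr F g) * δ g := by
  set φ : ℝ → ℝ := fun x => ramp (a + e) e x * Real.exp (-x) with hφ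
  have hφc : Continuous φ := (ramp_cont _ _).mul (by fun_prop)
  have h1 := law_real hlaw hφc
  have h2 := rmean_sum ((GLv s F Y).filter (fun g => a ≤ lr F g))
    (fun g n => if s * (n : ℤ) ∈ PF 1 (FY Y) g then Real.exp e * Real.exp (-lr F g) else 0)
    (fun g => Real.exp e * Real.exp (-lr F g) * δ g)
    (fun g hg => rmean_ind (hδ g (mem_filter.1 hg).1) _)
  have h3 : ∫ x, φ x ∂ν ≤
      ∑ g ∈ (GLv s F Y).filter (fun g => a ≤ lr F g), Real.exp e * Real.exp (-lr F g) * δ g := by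
    refine le_of_tendsto_of_tendsto' h1 h2 fun N => rmean_mono ?_ N
    intro n hn
    have hn0 : 0 < s * (s * (n : ℤ)) := by rcases hs with rfl | rfl <;> omega
    have hx0 : s * (n : ℤ) ≠ 0 := by rcases hs with rfl | rfl <;> omega
    have hS0 : 0 ≤ ∑ g ∈ (GLv s F Y).filter (fun g => a ≤ lr F g),
        (if s * (n : ℤ) ∈ PF 1 (FY Y) g then Real.exp e * Real.exp (-lr F g) else 0) := by
      apply sum_nonneg
      intro g _
      split_ifs
      · positivity
      · exact le_rfl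
    by_cases hmx : Meets F (s * n)
    · rw [if_pos hmx]
      rcases le_or_gt (lr F (s * n)) (a + e) with hlow | hhigh
      · simp only [hφ]
        rw [ramp_zero he hlow, zero_mul]
        exact hS0
      · obtain ⟨g, hg, j, hj⟩ := h.exists hs hn0 hmx
        obtain ⟨-, hrest⟩ := h.entr hx0 hj
        obtain ⟨-, -, e3⟩ := hrest hmx
        have hg' : g ∈ (GLv s F Y).filter (fun g => a ≤ lr F g) := by
          rw [mem_filter]
          exact ⟨hg, by linarith [(abs_le.1 e3).2]⟩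
        refine le_trans ?_ (Finset.single_le_sum (f := fun g =>
          if s * (n : ℤ) ∈ PF 1 (FY Y) g then Real.exp e * Real.exp (-lr F g) else 0)
          (fun g _ => by
            split_ifs
            · positivity
            · exact le_rfl) hg')
        rw [if_pos ⟨j, hj⟩]
        simp only [hφ]
        have h5 := ramp_le (a + e) e (lr F (s * n))
        have h6 := ramp_nonneg (a + e) e (lr F (s * n))
        have h7 : Real.exp (-lr F (s * n)) ≤ Real.exp e * Real.exp (-lr F g) := by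
          rw [← Real.exp_add]
          apply Real.exp_le_exp.2
          linarith [(abs_le.1 e3).1]
        have h8 := Real.exp_pos (-lr F (s * n))
        nlinarith
    · rw [if_neg hmx]
      exact hS0
  have h4 : RR ν (a + 2 * e) ≤ ∫ x, φ x ∂ν := by
    rw [RR_eq]
    apply integral_mono ((exp_int hA).indicator measurableSet_Ici) (integrable_of_supp hA hφc)
    intro x
    by_cases hx : x ∈ Set.Ici (a + 2 * e)
    · rw [Set.indicator_of_mem hx]
      simp only [hφ]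
      rw [ramp_one he (by linarith [Set.mem_Ici.1 hx]), one_mul]
    · rw [Set.indicator_of_notMem hx]
      exact mul_nonneg (ramp_nonneg _ _ _) (Real.exp_pos _).le
  have h5 : ∑ g ∈ (GLv s F Y).filter (fun g => a ≤ lr F g), Real.exp e * Real.exp (-lr F g) * δ g
      = Real.exp e * ∑ g ∈ (GLv s F Y).filter (fun g => a ≤ lr F g), Real.exp (-lr F g) * δ g := by
    rw [Finset.mul_sum]
    exact sum_congr rfl fun g _ => by ring
  rw [h5] at h3
  have h6 := mul_le_mul_of_nonneg_left (h4.trans h3) (Real.exp_pos (-e)).le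
  rw [← mul_assoc (Real.exp (-e)) (Real.exp e), ← Real.exp_add, neg_add_cancel, Real.exp_zero, one_mul] at h6
  exact h6

end Pool.Agent.Q74.SP
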