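import Pool.Agent.Q74.SP.LL2

/-! Local limit theorem with residues. -/

set_option autoImplicit false

namespace Pool.Agent.Q74.SP

open Finset Filter Topology MeasureTheory

open Pool.Agent.H499R2.LT (Hit FY PF od RF SF Hit_unique NNs NNs_finite gz gz_pos FY_sub)
open Pool.Agent.H499R2.ND (Dn cnt cnt_eq)

/-- no atoms, uniformly -/
def NoAtoms (ν : Measure ℝ) : Prop :=
  ∀ ε : ℝ, 0 < ε → ∃ η : ℝ, 0 < η ∧ ∀ r : ℝ, ν.real (Set.Icc (r - η) (r + η)) ≤ ε

theorem RR_anti {ν : Measure ℝ} [IsFiniteMeasure ν] {A : ℝ} (hA : ν (Set.Icc (-A) A)ᶜ = 0) : Antitone (RR ν) := by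
  intro a b hab
  rw [RR_eq, RR_eq]
  apply integral_mono ((exp_int hA).indicator measurableSet_Ici) ((exp_int hA).indicator measurableSet_Ici)
  intro x
  by_cases hx : x ∈ Set.Ici b
  · rw [Set.indicator_of_mem hx, Set.indicator_of_mem (Set.mem_Ici.2 (hab.trans hx))]
  · rw [Set.indicator_of_notMem hx]
    exact Set.indicator_nonneg (fun _ _ => (Real.exp_pos _).le) _

theorem RR_nonneg (ν : Measure ℝ) (a : ℝ) : 0 ≤ RR ν a :=
  setIntegral_nonneg measurableSet_Ici fun _ _ => (Real.exp_pos _).le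

theorem RR_le {ν : Measure ℝ} [IsFiniteMeasure ν] {A : ℝ} (hA : ν (Set.Icc (-A) A)ᶜ = 0) (a : ℝ) :
    RR ν a ≤ ∫ x, Real.exp (-x) ∂ν := by
  rw [RR_eq]
  apply integral_mono ((exp_int hA).indicator measurableSet_Ici) (exp_int hA)
  intro x
  exact Set.indicator_le_self' (fun _ _ => (Real.exp_pos _).le) x

theorem RR_close {ν : Measure ℝ} [IsFiniteMeasure ν] {A : ℝ} (hA : ν (Set.Icc (-A) A)ᶜ = 0)
    (hna : NoAtoms ν) {ε : ℝ} (hε : 0 < ε) : ∃ η : ℝ, 0 < η ∧ ∀ a : ℝ, RR ν (a - η) ≤ RR ν a + ε := by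
  obtain ⟨η, hη, h⟩ := hna (ε / Real.exp A) (by positivity)
  refine ⟨η, hη, fun a => ?_⟩
  rw [RR_eq, RR_eq]
  have h1 : ∫ x, (Set.Ici (a - η)).indicator (fun x => Real.exp (-x)) x ∂ν ≤
      ∫ x, ((Set.Ici a).indicator (fun x => Real.exp (-x)) x
        + (Set.Icc (a - η) (a + η)).indicator (fun _ => Real.exp A) x) ∂ν := by
    apply integral_mono_ae ((exp_int hA).indicator measurableSet_Ici)
      (((exp_int hA).indicator measurableSet_Ici).add
        ((integrable_const _).indicator measurableSet_Icc))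
    rw [Filter.EventuallyLE, ae_iff]
    refine measure_mono_null (t := (Set.Icc (-A) A)ᶜ) ?_ hA
    intro x hx hx'
    apply hx
    rw [Pi.add_apply]
    have h0 : 0 ≤ (Set.Icc (a - η) (a + η)).indicator (fun _ => Real.exp A) x :=
      Set.indicator_nonneg (fun _ _ => (Real.exp_pos _).le) _
    by_cases h2 : x ∈ Set.Ici a
    · rw [Set.indicator_of_mem h2, Set.indicator_of_mem
        (Set.mem_Ici.2 (by linarith [Set.mem_Ici.1 h2] : a - η ≤ x))]
      linarith
    · rw [Set.indicator_of_notMem h2, zero_add]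
      by_cases h3 : x ∈ Set.Ici (a - η)
      · rw [Set.indicator_of_mem h3, Set.indicator_of_mem]
        · apply Real.exp_le_exp.2
          linarith [hx'.1]
        · rw [Set.mem_Ici, not_le] at h2
          exact ⟨h3, by linarith⟩
      · rw [Set.indicator_of_notMem h3]
        exact h0
  refine h1.trans ?_
  rw [integral_add ((exp_int hA).indicator measurableSet_Ici)
        ((integrable_const _).indicator measurableSet_Icc), integral_indicator measurableSet_Icc,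
    setIntegral_const, smul_eq_mul]
  have h2 := h a
  rw [le_div_iff₀ (Real.exp_pos A)] at h2
  linarith

theorem wt_eq {F : Finset ℤ} {g : ℤ} (hg : g ≠ 0) :
    (3 : ℝ) ^ ((odds (time F g) g : ℕ) : ℤ) / 2 ^ (time F g) * |(g : ℝ)| = Real.exp (-lr F g) := by
  have hgR : (g : ℝ) ≠ 0 := by exact_mod_cast hg
  have h2 : Real.exp ((time F g : ℝ) * Real.log 2) = 2 ^ (time F g) := by
    rw [mul_comm, Real.exp_mul, Real.exp_log (by norm_num), Real.rpow_natCast]
  have h3 : Real.exp ((odds (time F g) g : ℝ) * Real.log 3) = 3 ^ (odds (time F g) g) := by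
    rw [mul_comm, Real.exp_mul, Real.exp_log (by norm_num), Real.rpow_natCast]
  unfold lr
  rw [show -((time F g : ℝ) * Real.log 2 - (odds (time F g) g : ℝ) * Real.log 3 - Real.log (g : ℝ))
    = (odds (time F g) g : ℝ) * Real.log 3 - (time F g : ℝ) * Real.log 2 + Real.log (g : ℝ) by ring,
    Real.exp_add, Real.exp_sub, h2, h3, Real.exp_log_eq_abs hgR, zpow_natCast]

/-- LOCAL LIMIT THEOREM WITH RESIDUES, along sequences -/
theorem LL_seq {s : ℤ} (hs : s = 1 ∨ s = -1) {F : Finset ℤ} {ν : Measure ℝ} [IsFiniteMeasure ν] {A : ℝ}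
    (hA : ν (Set.Icc (-A) A)ᶜ = 0) (hna : NoAtoms ν)
    (hlaw : ∀ h : ℝ → ℂ, Continuous h → Tendsto (mean fun n => GG F h 0 0 (s * n)) atTop (𝓝 (∫ x, h x ∂ν)))
    {k : ℕ → ℕ} {o : ℕ → ℤ} {z : ℝ} (hsq : Sq k o z) (a : ℕ → ℝ) :
    Tendsto (fun i => Real.sqrt (k i) * (NR s F (k i) (o i) (a i) * (3 : ℝ) ^ (o i) / 2 ^ (k i))
      - Real.log 3 * gz 0 * RR ν (a i) * Real.exp (-z ^ 2 / 2)) atTop (𝓝 0) := by
  classical
  rw [Metric.tendsto_atTop']
  intro ε hε
  set G0 : ℝ := gz 0 with hG0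
  have hG0pos : 0 < G0 := gz_pos 0
  set L3 : ℝ := Real.log 3 with hL3
  have hL3pos : 0 < L3 := Real.log_pos (by norm_num)
  set M : ℝ := ∫ x, Real.exp (-x) ∂ν with hM
  have hM0 : 0 ≤ M := integral_nonneg fun _ => (Real.exp_pos _).le
  set ε2 : ℝ := min 1 (ε / (8 * G0 * (M + 1))) with hε2
  have hε2pos : 0 < ε2 := lt_min one_pos (by positivity)
  set ε1 : ℝ := ε / (8 * G0 * (L3 + 1)) with hε1
  have hε1pos : 0 < ε1 := by positivity
  obtain ⟨η, hη, hclose⟩ := RR_close hA hna hε1pos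
  -- the choice of `e`
  have c1 : Tendsto (fun e : ℝ => Real.exp (2 * e) * (L3 + 2 * e)) (𝓝[>] 0) (𝓝 L3) := by
    have : Tendsto (fun e : ℝ => Real.exp (2 * e) * (L3 + 2 * e)) (𝓝 0) (𝓝 (Real.exp (2 * 0) * (L3 + 2 * 0))) := by
      apply Continuous.tendsto
      fun_prop
    rw [mul_zero, Real.exp_zero, one_mul, add_zero] at this
    exact this.mono_left nhdsWithin_le_nhds
  have c2 : Tendsto (fun e : ℝ => Real.exp (-(2 * e)) * (L3 - 2 * e)) (𝓝[>] 0) (𝓝 L3) := by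
    have : Tendsto (fun e : ℝ => Real.exp (-(2 * e)) * (L3 - 2 * e)) (𝓝 0)
        (𝓝 (Real.exp (-(2 * 0)) * (L3 - 2 * 0))) := by
      apply Continuous.tendsto
      fun_prop
    rw [mul_zero, neg_zero, Real.exp_zero, one_mul, sub_zero] at this
    exact this.mono_left nhdsWithin_le_nhds
  have c3 : ∀ᶠ e : ℝ in 𝓝[>] 0, e < min (η / 3) (L3 / 4) :=
    (Filter.Tendsto.mono_left tendsto_id nhdsWithin_le_nhds : Tendsto (fun e : ℝ => e) (𝓝[>] 0) (𝓝 0)).eventually
      (gt_mem_nhds (lt_min (by positivity) (by positivity)))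
  obtain ⟨e, ⟨⟨⟨he1, he2⟩, he3⟩, he0⟩⟩ := ((((c1.eventually (gt_mem_nhds (show L3 < L3 + ε2 by linarith))).and
    (c2.eventually (lt_mem_nhds (show L3 - ε2 < L3 by linarith)))).and c3).and self_mem_nhdsWithin).exists
  have he : 0 < e := he0
  have he4 : 3 * e ≤ η := by
    have := he3.le.trans (min_le_left _ _)
    linarith
  have he5 : 2 * e < L3 := by
    have := he3.le.trans (min_le_right _ _)
    linarith
  obtain ⟨Y1, hY1⟩ := FY_sub F
  obtain ⟨Y, hYY, hnear, hconst⟩ := consts hs he he5 Y1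
  have hlev : Lev s F e Y := ⟨hY1 Y hYY, hnear⟩
  choose! u δ hu0 hδ0 hLLT hDn hlo hup using hconst
  have hδ : ∀ g ∈ GLv s F Y, Dn (fun n : ℕ => s * (n : ℤ) ∈ PF 1 (FY Y) g) (δ g) :=
    fun g hg => hDn g (mem_GLv.1 hg).1 (mem_GLv.1 hg).2.1
  set w : ℤ → ℝ := fun g => (3 : ℝ) ^ ((odds (time F g) g : ℕ) : ℤ) / 2 ^ (time F g) * u g with hw
  have hw0 : ∀ g ∈ GLv s F Y, 0 ≤ w g := fun g hg => by
    have := hu0 g (mem_GLv.1 hg).1 (mem_GLv.1 hg).2.1
    simp only [hw]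
    positivity
  have hne : ∀ g ∈ GLv s F Y, g ≠ 0 := fun g hg => by
    rintro rfl
    have := (mem_GLv.1 hg).2.1
    simp at this
  have hwup : ∀ g ∈ GLv s F Y, w g ≤ Real.exp e * (L3 + 2 * e) * G0 * (Real.exp (-lr F g) * δ g) := by
    intro g hg
    have h1 := hup g (mem_GLv.1 hg).1 (mem_GLv.1 hg).2.1
    have h2 : (0 : ℝ) < (3 : ℝ) ^ ((odds (time F g) g : ℕ) : ℤ) / 2 ^ (time F g) := by positivity
    simp only [hw]
    rw [← wt_eq (hne g hg)]
    calc _ ≤ (3 : ℝ) ^ ((odds (time F g) g : ℕ) : ℤ) / 2 ^ (time F g) *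
          (Real.exp e * (L3 + 2 * e) * G0 * (|(g : ℝ)| * δ g)) := mul_le_mul_of_nonneg_left h1 h2.le
      _ = _ := by ring
  have hwlo : ∀ g ∈ GLv s F Y, Real.exp (-e) * (L3 - 2 * e) * G0 * (Real.exp (-lr F g) * δ g) ≤ w g := by
    intro g hg
    have h1 := hlo g (mem_GLv.1 hg).1 (mem_GLv.1 hg).2.1
    have h2 : (0 : ℝ) < (3 : ℝ) ^ ((odds (time F g) g : ℕ) : ℤ) / 2 ^ (time F g) := by positivity
    simp only [hw]
    rw [← wt_eq (hne g hg)]
    calc _ = (3 : ℝ) ^ ((odds (time F g) g : ℕ) : ℤ) / 2 ^ (time F g) *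
          (Real.exp (-e) * (L3 - 2 * e) * G0 * (|(g : ℝ)| * δ g)) := by ring
      _ ≤ _ := mul_le_mul_of_nonneg_left h1 h2.le
  set G : ℝ := Real.exp (-z ^ 2 / 2) with hG
  have hGpos : 0 < G := Real.exp_pos _
  have hG1 : G ≤ 1 := by
    rw [hG, ← Real.exp_zero]
    apply Real.exp_le_exp.2
    have := sq_nonneg z
    linarith
  -- the error
  set v : ℤ → ℕ → ℝ := fun g i => Real.sqrt (k i) * (vg s F Y g (k i) (o i) * (3 : ℝ) ^ (o i) / 2 ^ (k i)) with hv
  have hE : Tendsto (fun i => ∑ g ∈ GLv s F Y, |v g i - w g * G|) atTop (𝓝 0) := by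
    have h1 : ∀ g ∈ GLv s F Y, Tendsto (fun i => |v g i - w g * G|) atTop (𝓝 0) := by
      intro g hg
      have h2 := (hLLT g (mem_GLv.1 hg).1 (mem_GLv.1 hg).2.1).shift (time F g) (odds (time F g) g) k o z hsq
      have h3 := (h2.sub_const (w g * G)).abs
      rw [sub_self, abs_zero] at h3
      exact h3
    have h2 := tendsto_finsetSum (GLv s F Y) h1
    rw [Finset.sum_const_zero] at h2
    exact h2
  have hk : ∀ᶠ i in atTop, ∀ g ∈ GLv s F Y, time F g ≤ k i := by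
    rw [Filter.eventually_all_finset]
    intro g _
    filter_upwards [hsq.top.eventually_ge_atTop ((time F g : ℕ) : ℝ)] with i hi
    exact_mod_cast hi
  obtain ⟨i0, hi0⟩ := eventually_atTop.1 ((hE.eventually (gt_mem_nhds (show 0 < ε / 4 by positivity))).and hk)
  refine ⟨i0, fun i hi => ?_⟩
  obtain ⟨hEi, hki⟩ := hi0 i hi.le
  set Ei := ∑ g ∈ GLv s F Y, |v g i - w g * G| with hEidef
  have hfil : ∀ P : ℤ → Prop, |(∑ g ∈ (GLv s F Y).filter P, v g i) - G * ∑ g ∈ (GLv s F Y).filter P, w g| ≤ Ei := by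
    intro P
    rw [Finset.mul_sum, ← Finset.sum_sub_distrib]
    refine (Finset.abs_sum_le_sum_abs _ _).trans ?_
    have h1 : ∑ g ∈ (GLv s F Y).filter P, |v g i - G * w g| = ∑ g ∈ (GLv s F Y).filter P, |v g i - w g * G| :=
      sum_congr rfl fun g _ => by rw [mul_comm G]
    rw [h1]
    exact Finset.sum_le_sum_of_subset_of_nonneg (filter_subset _ _) fun g _ _ => abs_nonneg _
  have hvsum : ∀ P : ℤ → Prop, ∑ g ∈ (GLv s F Y).filter P, v g i
      = Real.sqrt (k i) * ((∑ g ∈ (GLv s F Y).filter P, vg s F Y g (k i) (o i)) * (3 : ℝ) ^ (o i) / 2 ^ (k i)) := by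
    intro P
    rw [Finset.sum_mul, Finset.sum_div, Finset.mul_sum]
  have hfac : (0 : ℝ) ≤ (3 : ℝ) ^ (o i) / 2 ^ (k i) := by positivity
  set R := RR ν (a i) with hR
  have hR0 : 0 ≤ R := RR_nonneg ν _
  have hRM : R ≤ M := RR_le hA _
  set V := Real.sqrt (k i) * (NR s F (k i) (o i) (a i) * (3 : ℝ) ^ (o i) / 2 ^ (k i)) with hV
  -- upper bound
  have U : V ≤ Ei + G * (G0 * ((L3 + ε2) * (R + ε1))) := by
    have h1 := hlev.upper hs (k i) (o i) (a i)
    have h2 : V ≤ ∑ g ∈ (GLv s F Y).filter (fun g => a i - e ≤ lr F g), v g i := by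
      rw [hvsum, hV]
      apply mul_le_mul_of_nonneg_left _ (Real.sqrt_nonneg _)
      rw [mul_div_assoc, mul_div_assoc]
      exact mul_le_mul_of_nonneg_right h1 hfac
    have h3 := (abs_le.1 (hfil (fun g => a i - e ≤ lr F g))).2
    have h4 : ∑ g ∈ (GLv s F Y).filter (fun g => a i - e ≤ lr F g), w g ≤
        Real.exp e * (L3 + 2 * e) * G0 * (Real.exp e * RR ν (a i - e - 2 * e)) := by
      have h5 := mass_upper hs hA hlaw he hlev hδ (a i - e)
      calc _ ≤ ∑ g ∈ (GLv s F Y).filter (fun g => a i - e ≤ lr F g),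
            Real.exp e * (L3 + 2 * e) * G0 * (Real.exp (-lr F g) * δ g) :=
            sum_le_sum fun g hg => hwup g (mem_filter.1 hg).1
        _ = Real.exp e * (L3 + 2 * e) * G0 *
            ∑ g ∈ (GLv s F Y).filter (fun g => a i - e ≤ lr F g), Real.exp (-lr F g) * δ g := by
            rw [Finset.mul_sum]
        _ ≤ _ := mul_le_mul_of_nonneg_left h5 (by positivity)
    have h5 : RR ν (a i - e - 2 * e) ≤ R + ε1 := by
      refine le_trans (RR_anti hA ?_) (hclose (a i))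
      linarith
    have h6 : Real.exp e * (L3 + 2 * e) * G0 * (Real.exp e * RR ν (a i - e - 2 * e))
        ≤ G0 * ((L3 + ε2) * (R + ε1)) := by
      have h7 : Real.exp e * (L3 + 2 * e) * G0 * (Real.exp e * RR ν (a i - e - 2 * e))
          = G0 * ((Real.exp (2 * e) * (L3 + 2 * e)) * RR ν (a i - e - 2 * e)) := by
        have : Real.exp (2 * e) = Real.exp e * Real.exp e := by rw [← Real.exp_add]; congr 1; ring
        rw [this]
        ring
      rw [h7]
      apply mul_le_mul_of_nonneg_left _ hG0pos.le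
      exact mul_le_mul he1.le h5 (RR_nonneg ν _) (by positivity)
    have h7 : G * ∑ g ∈ (GLv s F Y).filter (fun g => a i - e ≤ lr F g), w g ≤
        G * (G0 * ((L3 + ε2) * (R + ε1))) := mul_le_mul_of_nonneg_left (h4.trans h6) hGpos.le
    linarith
  have Lw : G * (G0 * ((L3 - ε2) * (R - ε1))) - Ei ≤ V := by
    have h1 := hlev.lower hs (k i) (o i) (a i) hki
    have h2 : ∑ g ∈ (GLv s F Y).filter (fun g => a i + e ≤ lr F g), v g i ≤ V := by
      rw [hvsum, hV]
      apply mul_le_mul_of_nonneg_left _ (Real.sqrt_nonneg _)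
      rw [mul_div_assoc, mul_div_assoc]
      exact mul_le_mul_of_nonneg_right h1 hfac
    have h3 := (abs_le.1 (hfil (fun g => a i + e ≤ lr F g))).1
    have h4 : Real.exp (-e) * (L3 - 2 * e) * G0 * (Real.exp (-e) * RR ν (a i + e + 2 * e)) ≤
        ∑ g ∈ (GLv s F Y).filter (fun g => a i + e ≤ lr F g), w g := by
      have h5 := mass_lower hs hA hlaw he hlev hδ (a i + e)
      have h6 : 0 ≤ L3 - 2 * e := by linarith
      calc _ ≤ Real.exp (-e) * (L3 - 2 * e) * G0 *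
            ∑ g ∈ (GLv s F Y).filter (fun g => a i + e ≤ lr F g), Real.exp (-lr F g) * δ g :=
            mul_le_mul_of_nonneg_left h5 (by positivity)
        _ = ∑ g ∈ (GLv s F Y).filter (fun g => a i + e ≤ lr F g),
            Real.exp (-e) * (L3 - 2 * e) * G0 * (Real.exp (-lr F g) * δ g) := by
            rw [Finset.mul_sum]
        _ ≤ _ := sum_le_sum fun g hg => hwlo g (mem_filter.1 hg).1
    have h5 : R - ε1 ≤ RR ν (a i + e + 2 * e) := by
      have h6 := hclose (a i + e + 2 * e)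
      have h7 : R ≤ RR ν (a i + e + 2 * e - η) := RR_anti hA (by linarith)
      linarith
    have h6 : G0 * ((L3 - ε2) * (R - ε1)) ≤
        Real.exp (-e) * (L3 - 2 * e) * G0 * (Real.exp (-e) * RR ν (a i + e + 2 * e)) := by
      have h7 : Real.exp (-e) * (L3 - 2 * e) * G0 * (Real.exp (-e) * RR ν (a i + e + 2 * e))
          = G0 * ((Real.exp (-(2 * e)) * (L3 - 2 * e)) * RR ν (a i + e + 2 * e)) := by
        have : Real.exp (-(2 * e)) = Real.exp (-e) * Real.exp (-e) := by rw [← Real.exp_add]; congr 1; ring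
        rw [this]
        ring
      rw [h7]
      apply mul_le_mul_of_nonneg_left _ hG0pos.le
      have h8 : 0 ≤ RR ν (a i + e + 2 * e) := RR_nonneg ν _
      have h9 : 0 ≤ L3 - 2 * e := by linarith
      have h10 : 0 ≤ Real.exp (-(2 * e)) * (L3 - 2 * e) := by positivity
      rcases le_or_gt 0 (R - ε1) with h11 | h11
      · exact mul_le_mul he2.le h5 h11 h10
      · have hL1 : 0 ≤ L3 - ε2 := by
          have h12 : 1 ≤ L3 := by
            rw [hL3, Real.le_log_iff_exp_le (by norm_num)]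
            linarith [Real.exp_one_lt_d9]
          have h13 : ε2 ≤ 1 := min_le_left _ _
          linarith
        have h14 : (L3 - ε2) * (R - ε1) ≤ 0 := mul_nonpos_of_nonneg_of_nonpos hL1 h11.le
        exact h14.trans (mul_nonneg h10 h8)
    have h7 : G * (G0 * ((L3 - ε2) * (R - ε1))) ≤
        G * ∑ g ∈ (GLv s F Y).filter (fun g => a i + e ≤ lr F g), w g :=
      mul_le_mul_of_nonneg_left (h6.trans h4) hGpos.le
    linarith
  -- conclusion
  have q1 : G0 * (ε2 * M) ≤ ε / 8 := by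
    have h1 : ε2 ≤ ε / (8 * G0 * (M + 1)) := min_le_right _ _
    calc G0 * (ε2 * M) ≤ G0 * (ε / (8 * G0 * (M + 1)) * (M + 1)) := by
          apply mul_le_mul_of_nonneg_left _ hG0pos.le
          exact mul_le_mul h1 (by linarith) hM0 (by positivity)
      _ = ε / 8 := by field_simp
  have q2 : G0 * ((L3 + 1) * ε1) = ε / 8 := by
    rw [hε1]
    field_simp
  have hε21 : ε2 ≤ 1 := min_le_left _ _
  have q3 : G0 * ((L3 + ε2) * (R + ε1)) ≤ G0 * (L3 * R) + ε / 4 := by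
    have h1 : (L3 + ε2) * (R + ε1) ≤ L3 * R + ε2 * M + (L3 + 1) * ε1 := by nlinarith
    have h2 := mul_le_mul_of_nonneg_left h1 hG0pos.le
    have h3 : G0 * (L3 * R + ε2 * M + (L3 + 1) * ε1) = G0 * (L3 * R) + G0 * (ε2 * M) + G0 * ((L3 + 1) * ε1) := by
      ring
    linarith
  have q4 : G0 * (L3 * R) - ε / 4 ≤ G0 * ((L3 - ε2) * (R - ε1)) := by
    have h1 : L3 * R - ε2 * M - (L3 + 1) * ε1 ≤ (L3 - ε2) * (R - ε1) := by nlinarith
    have h2 := mul_le_mul_of_nonneg_left h1 hG0pos.le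
    have h3 : G0 * (L3 * R - ε2 * M - (L3 + 1) * ε1) = G0 * (L3 * R) - G0 * (ε2 * M) - G0 * ((L3 + 1) * ε1) := by
      ring
    linarith
  have q5 := mul_le_mul_of_nonneg_left q3 hGpos.le
  have q6 := mul_le_mul_of_nonneg_left q4 hGpos.le
  have q7 : G * (ε / 4) ≤ ε / 4 := by nlinarith
  rw [dist_zero_right, Real.norm_eq_abs, abs_lt]
  have e9 : L3 * G0 * R * G = G * (G0 * (L3 * R)) := by ring
  rw [e9]
  constructor
  · nlinarith
  · nlinarith

/-- LOCAL LIMIT THEOREM WITH RESIDUES, uniformly -/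
theorem LL_unif {s : ℤ} (hs : s = 1 ∨ s = -1) {F : Finset ℤ} {ν : Measure ℝ} [IsFiniteMeasure ν] {A : ℝ}
    (hA : ν (Set.Icc (-A) A)ᶜ = 0) (hna : NoAtoms ν)
    (hlaw : ∀ h : ℝ → ℂ, Continuous h → Tendsto (mean fun n => GG F h 0 0 (s * n)) atTop (𝓝 (∫ x, h x ∂ν)))
    (K ε : ℝ) (hε : 0 < ε) : ∃ k0 : ℕ, ∀ (k : ℕ) (o : ℤ), k0 ≤ k → |2 * (o : ℝ) - k| ≤ K * Real.sqrt k →
      ∀ a : ℝ, |Real.sqrt k * (NR s F k o a * (3 : ℝ) ^ o / 2 ^ k)
        - Real.log 3 * gz 0 * RR ν a * Real.exp (-(2 * (o : ℝ) - k) ^ 2 / (2 * k))| ≤ ε := by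
  by_contra hcon
  push Not at hcon
  choose k o hk ho a hbad using hcon
  -- compactness
  have hcomp : IsCompact (Set.Icc (-K) K) := isCompact_Icc
  have hmem : ∀ i : ℕ, (2 * (o (i + 1) : ℝ) - k (i + 1)) / Real.sqrt (k (i + 1)) ∈ Set.Icc (-K) K := by
    intro i
    have h1 : (0 : ℝ) < k (i + 1) := by
      have := hk (i + 1)
      exact_mod_cast (by omega : 0 < k (i + 1))
    have hsq := Real.sqrt_pos.2 h1
    have h2 := abs_le.1 (ho (i + 1))
    constructor
    · rw [le_div_iff₀ hsq]; linarith [h2.1]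
    · rw [div_le_iff₀ hsq]; linarith [h2.2]
  obtain ⟨z, _, φ, hφ, hlim⟩ := hcomp.tendsto_subseq hmem
  have hsq : Sq (fun i => k (φ i + 1)) (fun i => o (φ i + 1)) z := by
    constructor
    · have h1 : Tendsto (fun i : ℕ => (i : ℝ)) atTop atTop := tendsto_natCast_atTop_atTop
      refine tendsto_atTop_mono (fun i => ?_) h1
      have h2 := hk (φ i + 1)
      have h3 := hφ.id_le i
      simp only [id] at h3
      exact_mod_cast (by omega : i ≤ k (φ i + 1))
    · exact hlim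
  have h1 := LL_seq hs hA hna hlaw hsq (fun i => a (φ i + 1))
  set M : ℝ := ∫ x, Real.exp (-x) ∂ν with hM
  have hM0 : 0 ≤ M := integral_nonneg fun _ => (Real.exp_pos _).le
  have hG0pos : 0 < gz 0 := gz_pos 0
  have hL3pos : 0 < Real.log 3 := Real.log_pos (by norm_num)
  have h2 := (gauss_lim hsq).sub_const (Real.exp (-z ^ 2 / 2))
  rw [sub_self] at h2
  have h3 : Tendsto (fun i => Real.log 3 * gz 0 * RR ν (a (φ i + 1)) *
      (Real.exp (-(2 * (o (φ i + 1) : ℝ) - k (φ i + 1)) ^ 2 / (2 * k (φ i + 1))) - Real.exp (-z ^ 2 / 2)))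
      atTop (𝓝 0) := by
    have h4 := h2.abs.const_mul (Real.log 3 * gz 0 * M)
    rw [abs_zero, mul_zero] at h4
    refine squeeze_zero_norm (fun i => ?_) h4
    rw [Real.norm_eq_abs, abs_mul]
    apply mul_le_mul_of_nonneg_right _ (abs_nonneg _)
    rw [abs_of_nonneg (mul_nonneg (by positivity) (RR_nonneg ν _))]
    exact mul_le_mul_of_nonneg_left (RR_le hA _) (by positivity)
  have h4 := (h1.sub h3).abs
  rw [sub_self, abs_zero] at h4
  obtain ⟨i, hi⟩ := (h4.eventually (gt_mem_nhds hε)).exists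
  have h5 := hbad (φ i + 1)
  have e1 : Real.sqrt (k (φ i + 1)) * (NR s F (k (φ i + 1)) (o (φ i + 1)) (a (φ i + 1)) *
        (3 : ℝ) ^ (o (φ i + 1)) / 2 ^ (k (φ i + 1)))
      - Real.log 3 * gz 0 * RR ν (a (φ i + 1)) * Real.exp (-z ^ 2 / 2)
      - Real.log 3 * gz 0 * RR ν (a (φ i + 1)) *
      (Real.exp (-(2 * (o (φ i + 1) : ℝ) - k (φ i + 1)) ^ 2 / (2 * k (φ i + 1))) - Real.exp (-z ^ 2 / 2))
      = Real.sqrt (k (φ i + 1)) * (NR s F (k (φ i + 1)) (o (φ i + 1)) (a (φ i + 1)) *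
        (3 : ℝ) ^ (o (φ i + 1)) / 2 ^ (k (φ i + 1)))
      - Real.log 3 * gz 0 * RR ν (a (φ i + 1)) *
        Real.exp (-(2 * (o (φ i + 1) : ℝ) - k (φ i + 1)) ^ 2 / (2 * k (φ i + 1))) := by ring
  rw [e1] at hi
  linarith

end Pool.Agent.Q74.SP
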