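import Pool.Agent.Q74.SP.Inst
import Pool.Agent.H499R2.LT.R5

/-! The functions attached to the first hit of a finite set: existence of the mean values. -/

set_option autoImplicit false

namespace Pool.Agent.Q74.SP

open Finset Filter Topology

open Pool.Agent.H499R2.LT (Hit FY PF od)
open Pool.Agent.H499R2.ND (Td)

theorem td_eq : Td 1 = T := rfl

theorem od_eq' (j : ℕ) : ∀ x : ℤ, od 1 j x = (odds j x : ℤ) := by
  induction j with
  | zero =>
    intro x
    rw [odds_zero]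
    rfl
  | succ j ih =>
    intro x
    have h1 : od 1 (j + 1) x = (if x % 2 = 0 then 0 else 1) + od 1 j (Td 1 x) := rfl
    rw [h1, ih, td_eq, Nat.add_comm j 1, odds_add, Function.iterate_one]
    have h2 : odds 1 x = if x % 2 = 1 then 1 else 0 := by
      rw [show (1 : ℕ) = 0 + 1 from rfl, odds_succ, odds_zero, Function.iterate_zero, id_eq, zero_add]
    rw [h2]
    push_cast
    congr 1
    split_ifs <;> omega

theorem hit_of_meets {F : Finset ℤ} {x : ℤ} (h : Meets F x) :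
    Hit 1 F (T^[time F x] x) x (time F x) :=
  ⟨rfl, time_spec h, fun _ hi => not_mem_of_lt_time hi⟩

theorem meets_of_hit {F : Finset ℤ} {f x : ℤ} {j : ℕ} (h : Hit 1 F f x j) :
    Meets F x ∧ time F x = j ∧ T^[j] x = f := by
  have h1 : T^[j] x = f := h.1
  have h2 : T^[j] x ∈ F := by rw [h1]; exact h.2.1
  exact ⟨⟨j, h2⟩, time_eq h2 (fun i hi => h.2.2 i hi), h1⟩

/-- the residues are bounded -/
theorem lr_bdd (F : Finset ℤ) : ∃ A : ℝ, 0 < A ∧ ∀ x, x ≠ 0 → Meets F x → |lr F x| ≤ A := by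
  classical
  choose C hC0 hC using fun f : ℤ => Pool.Agent.H499R2.LT.bres odd_one
    (show IsCoprime (1 : ℤ) 3 from isCoprime_one_left) F f
  refine ⟨1 + ∑ f ∈ F, C f, ?_, fun x hx hm => ?_⟩
  · have : 0 ≤ ∑ f ∈ F, C f := sum_nonneg fun f _ => (hC0 f).le
    linarith
  · have h1 := hC _ x _ hx (hit_of_meets hm)
    have h2 : |lr F x| = |Real.log (x : ℝ) + od 1 (time F x) x * Real.log 3 - time F x * Real.log 2| := by
      rw [← abs_neg]
      congr 1
      unfold lr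
      rw [od_eq']
      push_cast
      ring
    rw [h2]
    refine h1.trans ?_
    have h3 := Finset.single_le_sum (f := C) (fun f _ => (hC0 f).le) (time_spec hm)
    linarith

/-- comparison of the residue with the one of the entrance in a large window -/
theorem lr_split (F : Finset ℤ) {ε : ℝ} (hε : 0 < ε) : ∃ Y : ℕ, F ⊆ FY Y ∧
    ∀ (x g : ℤ) (j : ℕ), x ≠ 0 → Hit 1 (FY Y) g x j →
      g ≠ 0 ∧ (Meets F x ↔ Meets F g) ∧ (Meets F x → |lr F x - lr F g| ≤ ε) := by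
  obtain ⟨C, Y0, hC, hY0, hpl⟩ := Pool.Agent.H499R2.LT.path_log odd_one
    (show IsCoprime (1 : ℤ) 3 from isCoprime_one_left)
  obtain ⟨B, hB⟩ := exists_bound F
  have hlim : Tendsto (fun Y : ℕ => C / (Y : ℝ) ^ (1 / 25 : ℝ)) atTop (𝓝 0) :=
    tendsto_const_nhds.div_atTop ((tendsto_rpow_atTop (by norm_num)).comp tendsto_natCast_atTop_atTop)
  obtain ⟨Y, hY, hYY, hYB⟩ := ((hlim.eventually (gt_mem_nhds hε)).and
    ((eventually_ge_atTop Y0).and (eventually_ge_atTop B))).exists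
  have hsub : F ⊆ FY Y := by
    intro a ha
    have h1 := hB a ha
    have h2 : (B : ℤ) ≤ Y := by exact_mod_cast hYB
    unfold FY
    rw [mem_Icc]
    rw [abs_le] at h1
    constructor <;> omega
  refine ⟨Y, hsub, fun x g j hx hh => ?_⟩
  obtain ⟨hg0, hlog⟩ := hpl Y hYY x g j hx hh
  have hno : ∀ i < j, T^[i] x ∉ F := fun i hi hmem => hh.2.2 i hi (hsub hmem)
  have hg : T^[j] x = g := hh.1
  have hm : Meets F x ↔ Meets F g := by rw [meets_add hno, hg]
  refine ⟨hg0, hm, fun hmx => ?_⟩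
  have t1 := time_add hno hmx
  have o1 := odds_time_add hno hmx
  rw [hg] at t1 o1
  have e1 : lr F x - lr F g = -(Real.log (x : ℝ) + od 1 j x * Real.log 3 - j * Real.log 2 - Real.log (g : ℝ)) := by
    unfold lr
    rw [o1, t1, od_eq']
    push_cast
    ring
  rw [e1, abs_neg]
  exact hlog.trans hY.le

open Classical in
theorem gg_split (F : Finset ℤ) {h : ℝ → ℂ} (hh : Continuous h) {ε : ℝ} (hε : 0 < ε) :
    ∃ Y : ℕ, ∀ x : ℤ, x ≠ 0 →
      ‖GG F h 0 0 x - ∑ g ∈ FY Y, if x ∈ PF 1 (FY Y) g then GG F h 0 0 g else 0‖ ≤ ε := by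
  obtain ⟨A, hA0, hA⟩ := lr_bdd F
  obtain ⟨δ, hδ, hu⟩ := unif hh A hε
  obtain ⟨Y, hsub, hY⟩ := lr_split F (half_pos hδ)
  refine ⟨Y, fun x hx => ?_⟩
  by_cases hex : ∃ g j, Hit 1 (FY Y) g x j
  · obtain ⟨g, j, hg⟩ := hex
    have h1 : ∑ g' ∈ FY Y, (if x ∈ PF 1 (FY Y) g' then GG F h 0 0 g' else 0) = GG F h 0 0 g := by
      rw [Finset.sum_eq_single_of_mem g hg.2.1]
      · rw [if_pos ⟨j, hg⟩]
      · intro g' _ hne
        rw [if_neg]
        rintro ⟨j', hj'⟩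
        exact hne (Pool.Agent.H499R2.LT.Hit_unique hj' hg).1
    obtain ⟨hg0, hm, hl⟩ := hY x g j hx hg
    rw [h1]
    unfold GG
    by_cases hmx : Meets F x
    · rw [if_pos hmx, if_pos (hm.1 hmx)]
      simp only [zero_mul, add_zero, e_zero, mul_one]
      exact hu _ _ (hA x hx hmx) (hA g hg0 (hm.1 hmx)) ((hl hmx).trans_lt (by linarith))
    · rw [if_neg hmx, if_neg (fun h => hmx (hm.2 h)), sub_zero, norm_zero]
      exact hε.le
  · have h1 : ∑ g' ∈ FY Y, (if x ∈ PF 1 (FY Y) g' then GG F h 0 0 g' else 0) = 0 := by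
      apply Finset.sum_eq_zero
      intro g' _
      rw [if_neg]
      rintro ⟨j', hj'⟩
      exact hex ⟨g', j', hj'⟩
    have h2 : ¬ Meets F x := by
      intro hm
      have h3 : Meets (FY Y) x := ⟨time F x, hsub (time_spec hm)⟩
      exact hex ⟨_, _, hit_of_meets h3⟩
    rw [h1]
    unfold GG
    rw [if_neg h2, sub_zero, norm_zero]
    exact hε.le

open Classical in
theorem mean_ind {s : ℤ} (hs : s = 1 ∨ s = -1) (F : Finset ℤ) (c : ℂ) (g : ℤ) :
    ∃ L : ℂ, Tendsto (mean fun n => if s * (n : ℤ) ∈ PF 1 F g then c else 0) atTop (𝓝 L) := by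
  obtain ⟨l, u, -, -, -, hl, -⟩ := Pool.Agent.H499R2.LT.laws_f odd_one (by norm_num : ¬ (3 : ℤ) ∣ 1) hs F g
  refine ⟨(l : ℂ) * c, ?_⟩
  have h1 : (mean fun n => if s * (n : ℤ) ∈ PF 1 F g then c else 0)
      = fun N : ℕ => ((Pool.Agent.H499R2.ND.cnt (fun n : ℕ => s * (n : ℤ) ∈ PF 1 F g) N / N : ℝ) : ℂ) * c := by
    funext N
    unfold mean
    rw [Pool.Agent.H499R2.ND.cnt_eq, ← Finset.sum_filter, Finset.sum_const, nsmul_eq_mul]
    push_cast
    ring
  rw [h1]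
  exact ((Complex.continuous_ofReal.tendsto l).comp hl).mul_const c

theorem mean_sum {ι : Type*} (I : Finset ι) (g : ι → ℕ → ℂ) (L : ι → ℂ)
    (h : ∀ i ∈ I, Tendsto (mean (g i)) atTop (𝓝 (L i))) :
    Tendsto (mean fun n => ∑ i ∈ I, g i n) atTop (𝓝 (∑ i ∈ I, L i)) := by
  have h1 : (mean fun n => ∑ i ∈ I, g i n) = fun N => ∑ i ∈ I, mean (g i) N := by
    funext N
    unfold mean
    rw [Finset.sum_comm, Finset.sum_div]
  rw [h1]
  exact tendsto_finsetSum I h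

theorem mean_dist {u v : ℕ → ℂ} {ε : ℝ} (hε : 0 ≤ ε) (h : ∀ n, 1 ≤ n → ‖u n - v n‖ ≤ ε) (N : ℕ) :
    ‖mean u N - mean v N‖ ≤ ε := by
  unfold mean
  rw [← sub_div, norm_div, Complex.norm_natCast, ← Finset.sum_sub_distrib]
  rcases Nat.eq_zero_or_pos N with rfl | hN
  · simp [hε]
  · have hN0 : (0 : ℝ) < N := by exact_mod_cast hN
    rw [div_le_iff₀ hN0]
    refine (norm_sum_le _ _).trans ?_
    refine (sum_le_sum fun n hn => h n (mem_Icc.1 hn).1).trans ?_
    rw [sum_const, Nat.card_Icc, Nat.add_sub_cancel, nsmul_eq_mul, mul_comm]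

/-- the mean values exist -/
theorem mean_exists {s : ℤ} (hs : s = 1 ∨ s = -1) (F : Finset ℤ) {h : ℝ → ℂ} (hh : Continuous h) :
    ∃ L : ℂ, Tendsto (mean fun n => GG F h 0 0 (s * n)) atTop (𝓝 L) := by
  classical
  apply cauchySeq_tendsto_of_complete
  rw [Metric.cauchySeq_iff]
  intro ε hε
  obtain ⟨Y, hY⟩ := gg_split F hh (show 0 < ε / 4 by positivity)
  choose L hL using fun g : ℤ => mean_ind hs (FY Y) (GG F h 0 0 g) g
  have h1 := mean_sum (FY Y) _ L (fun g _ => hL g)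
  obtain ⟨N0, hN0⟩ := (Metric.tendsto_atTop.1 h1) (ε / 4) (by positivity)
  refine ⟨N0, fun m hm n hn => ?_⟩
  have h2 : ∀ N, ‖mean (fun n => GG F h 0 0 (s * n)) N - mean (fun n : ℕ => ∑ g ∈ FY Y,
      if s * (n : ℤ) ∈ PF 1 (FY Y) g then GG F h 0 0 g else 0) N‖ ≤ ε / 4 := by
    intro N
    apply mean_dist (by positivity)
    intro n hn
    apply hY
    rcases hs with rfl | rfl <;> omega
  have a1 := h2 m
  have a2 := h2 n
  have a3 := hN0 m hm
  have a4 := hN0 n hn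
  rw [← dist_eq_norm] at a1 a2
  have t1 := dist_triangle (mean (fun n => GG F h 0 0 (s * n)) m)
    (mean (fun n : ℕ => ∑ g ∈ FY Y, if s * (n : ℤ) ∈ PF 1 (FY Y) g then GG F h 0 0 g else 0) m)
    (mean (fun n => GG F h 0 0 (s * n)) n)
  have t2 := dist_triangle (mean (fun n : ℕ => ∑ g ∈ FY Y, if s * (n : ℤ) ∈ PF 1 (FY Y) g then GG F h 0 0 g else 0) m)
    (∑ g ∈ FY Y, L g) (mean (fun n => GG F h 0 0 (s * n)) n)
  have t3 := dist_triangle (∑ g ∈ FY Y, L g)
    (mean (fun n : ℕ => ∑ g ∈ FY Y, if s * (n : ℤ) ∈ PF 1 (FY Y) g then GG F h 0 0 g else 0) n)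
    (mean (fun n => GG F h 0 0 (s * n)) n)
  rw [dist_comm] at a4
  rw [dist_comm] at a2
  linarith

end Pool.Agent.Q74.SP
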