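import Pool.Agent.Q74.SP.Law

/-! The limit law of the residues. -/

set_option autoImplicit false

namespace Pool.Agent.Q74.SP

open Finset Filter Topology MeasureTheory

open scoped CompactlySupported

theorem mean_congr {u v : ℕ → ℂ} (h : ∀ n, 1 ≤ n → u n = v n) : mean u = mean v := by
  funext N
  unfold mean
  rw [Finset.sum_congr rfl fun n hn => h n (mem_Icc.1 hn).1]

theorem mean_add (u v : ℕ → ℂ) (N : ℕ) : mean (fun n => u n + v n) N = mean u N + mean v N := by
  unfold mean
  rw [sum_add_distrib, add_div]

theorem mean_mul (c : ℂ) (u : ℕ → ℂ) (N : ℕ) : mean (fun n => c * u n) N = c * mean u N := by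
  unfold mean
  rw [← mul_sum, mul_div_assoc]

theorem gg_add (F : Finset ℤ) (h h' : ℝ → ℂ) (θ φ : ℝ) (x : ℤ) :
    GG F (fun t => h t + h' t) θ φ x = GG F h θ φ x + GG F h' θ φ x := by
  unfold GG
  split_ifs
  · ring
  · ring

theorem gg_mul (F : Finset ℤ) (c : ℂ) (h : ℝ → ℂ) (θ φ : ℝ) (x : ℤ) :
    GG F (fun t => c * h t) θ φ x = c * GG F h θ φ x := by
  unfold GG
  split_ifs
  · ring
  · ring

/-- the limit of the mean values -/
noncomputable def Lim (s : ℤ) (F : Finset ℤ) (h : ℝ → ℂ) : ℂ :=
  limUnder atTop (mean fun n => GG F h 0 0 (s * n))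

theorem lim_spec {s : ℤ} (hs : s = 1 ∨ s = -1) (F : Finset ℤ) {h : ℝ → ℂ} (hh : Continuous h) :
    Tendsto (mean fun n => GG F h 0 0 (s * n)) atTop (𝓝 (Lim s F h)) :=
  tendsto_nhds_limUnder (mean_exists hs F hh)

theorem lim_add {s : ℤ} (hs : s = 1 ∨ s = -1) (F : Finset ℤ) {h h' : ℝ → ℂ} (hh : Continuous h)
    (hh' : Continuous h') : Lim s F (fun t => h t + h' t) = Lim s F h + Lim s F h' := by
  have h1 := (lim_spec hs F hh).add (lim_spec hs F hh')
  refine tendsto_nhds_unique (lim_spec hs F (hh.add hh')) (h1.congr fun N => ?_)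
  rw [← mean_add]
  congr 1
  funext n
  rw [← gg_add]

theorem lim_mul {s : ℤ} (hs : s = 1 ∨ s = -1) (F : Finset ℤ) (c : ℂ) {h : ℝ → ℂ} (hh : Continuous h) :
    Lim s F (fun t => c * h t) = c * Lim s F h := by
  have h1 := (lim_spec hs F hh).const_mul c
  refine tendsto_nhds_unique (lim_spec hs F (continuous_const.mul hh)) (h1.congr fun N => ?_)
  rw [← mean_mul]
  congr 1
  funext n
  rw [← gg_mul]

theorem lim_re {s : ℤ} (hs : s = 1 ∨ s = -1) (F : Finset ℤ) {r : ℝ → ℝ} (hr : Continuous r) :
    ((Lim s F fun t => (r t : ℂ)).re : ℂ) = Lim s F fun t => (r t : ℂ) := by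
  have h1 := lim_spec hs F (Complex.continuous_ofReal.comp hr)
  have h2 : Tendsto (fun N => (mean (fun n => GG F (Complex.ofReal ∘ r) 0 0 (s * n)) N).im) atTop
      (𝓝 (Lim s F (Complex.ofReal ∘ r)).im) := (Complex.continuous_im.tendsto _).comp h1
  have h3 : ∀ N, (mean (fun n => GG F (Complex.ofReal ∘ r) 0 0 (s * n)) N).im = 0 := by
    intro N
    unfold mean
    rw [Complex.div_natCast_im, Complex.im_sum, sum_eq_zero, zero_div]
    intro n _
    unfold GG
    split_ifs
    · simp only [zero_mul, add_zero, e_zero, mul_one, Function.comp_apply]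
      exact Complex.ofReal_im _
    · rfl
  have h4 : (Lim s F (Complex.ofReal ∘ r)).im = 0 := by
    refine tendsto_nhds_unique h2 ?_
    simp only [h3]
    exact tendsto_const_nhds
  apply Complex.ext
  · exact Complex.ofReal_re _
  · rw [Complex.ofReal_im]
    exact h4.symm

theorem lim_nonneg {s : ℤ} (hs : s = 1 ∨ s = -1) (F : Finset ℤ) {r : ℝ → ℝ} (hr : Continuous r)
    (h0 : ∀ t, 0 ≤ r t) : 0 ≤ (Lim s F fun t => (r t : ℂ)).re := by
  have h1 := lim_spec hs F (Complex.continuous_ofReal.comp hr)
  have h2 : Tendsto (fun N => (mean (fun n => GG F (Complex.ofReal ∘ r) 0 0 (s * n)) N).re) atTop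
      (𝓝 (Lim s F (Complex.ofReal ∘ r)).re) := (Complex.continuous_re.tendsto _).comp h1
  refine ge_of_tendsto' h2 fun N => ?_
  unfold mean
  rw [Complex.div_natCast_re, Complex.re_sum]
  apply div_nonneg _ (Nat.cast_nonneg N)
  apply sum_nonneg
  intro n _
  unfold GG
  split_ifs
  · simp only [zero_mul, add_zero, e_zero, mul_one, Function.comp_apply]
    rw [Complex.ofReal_re]
    exact h0 _
  · exact le_rfl

/-- the limit law -/
theorem exists_law {s : ℤ} (hs : s = 1 ∨ s = -1) (F : Finset ℤ) :
    ∃ (ν : Measure ℝ) (A : ℝ), IsFiniteMeasure ν ∧ ν (Set.Icc (-A) A)ᶜ = 0 ∧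
      ∀ h : ℝ → ℂ, Continuous h →
        Tendsto (mean fun n => GG F h 0 0 (s * n)) atTop (𝓝 (∫ x, h x ∂ν)) := by
  obtain ⟨A, hA0, hA⟩ := lr_bdd F
  have hle : -A ≤ A := by linarith
  let K : Type := Set.Icc (-A) A
  let pr : ℝ → K := Set.projIcc (-A) A hle
  have hpr : Continuous pr := continuous_projIcc
  let Λ : C_c(K, ℝ) →ₚ[ℝ] ℝ :=
    PositiveLinearMap.mk₀
      { toFun := fun g => (Lim s F fun t => ((g (pr t) : ℝ) : ℂ)).re
        map_add' := fun g g' => by
          have h1 : Continuous fun t => ((g (pr t) : ℝ) : ℂ) :=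
            Complex.continuous_ofReal.comp ((map_continuous g).comp hpr)
          have h2 : Continuous fun t => ((g' (pr t) : ℝ) : ℂ) :=
            Complex.continuous_ofReal.comp ((map_continuous g').comp hpr)
          rw [← Complex.add_re, ← lim_add hs F h1 h2]
          congr 2
          funext t
          rw [← Complex.ofReal_add]
          rfl
        map_smul' := fun c g => by
          have h1 : Continuous fun t => ((g (pr t) : ℝ) : ℂ) :=
            Complex.continuous_ofReal.comp ((map_continuous g).comp hpr)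
          have h2 : (fun t => (((c • g) (pr t) : ℝ) : ℂ)) = fun t => (c : ℂ) * ((g (pr t) : ℝ) : ℂ) := by
            funext t
            rw [← Complex.ofReal_mul]
            rfl
          rw [h2, lim_mul hs F _ h1, RingHom.id_apply, smul_eq_mul, Complex.re_ofReal_mul] }
      (fun g hg => lim_nonneg hs F ((map_continuous g).comp hpr) fun t => hg (pr t))
  let μ : Measure K := RealRMK.rieszMeasure Λ
  refine ⟨μ.map Subtype.val, A, by infer_instance, ?_, ?_⟩
  · rw [Measure.map_apply measurable_subtype_coe measurableSet_Icc.compl]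
    have : (Subtype.val ⁻¹' (Set.Icc (-A) A)ᶜ : Set K) = ∅ := by
      ext x
      simp only [Set.mem_preimage, Set.mem_compl_iff, Set.mem_empty_iff_false, iff_false, not_not]
      exact x.2
    rw [this, measure_empty]
  · -- real functions
    have real : ∀ r : ℝ → ℝ, Continuous r →
        Tendsto (mean fun n => GG F (fun t => (r t : ℂ)) 0 0 (s * n)) atTop
          (𝓝 ((∫ x, r x ∂(μ.map Subtype.val) : ℝ) : ℂ)) := by
      intro r hr
      let g : C_c(K, ℝ) :=
        { toFun := fun x => r (Subtype.val x)
          continuous_toFun := hr.comp continuous_subtype_val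
          hasCompactSupport' := HasCompactSupport.of_compactSpace _ }
      have h1 : ∫ x, g x ∂μ = Λ g := RealRMK.integral_rieszMeasure Λ g
      have h2 : ∫ x, r x ∂(μ.map Subtype.val) = ∫ x, g x ∂μ := by
        rw [integral_map measurable_subtype_coe.aemeasurable hr.aestronglyMeasurable]
        rfl
      have hg : Continuous fun t => g (pr t) := (map_continuous g).comp hpr
      have h3 : ((Λ g : ℝ) : ℂ) = Lim s F fun t => ((g (pr t) : ℝ) : ℂ) := lim_re hs F hg
      have h4 := lim_spec hs F (Complex.continuous_ofReal.comp hg)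
      rw [h2, h1, h3]
      have hpt : ∀ n : ℕ, 1 ≤ n → GG F (Complex.ofReal ∘ fun t => g (pr t)) 0 0 (s * n)
          = GG F (fun t => (r t : ℂ)) 0 0 (s * n) := by
        intro n hn
        have hne : s * (n : ℤ) ≠ 0 := by rcases hs with rfl | rfl <;> omega
        unfold GG
        by_cases hm : Meets F (s * n)
        · rw [if_pos hm, if_pos hm]
          have h5 := hA _ hne hm
          have h6 : (pr (lr F (s * n))).1 = lr F (s * n) := by
            have := Set.projIcc_of_mem hle (Set.mem_Icc.2 (abs_le.1 h5))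
            simp only [pr, this]
          simp only [Function.comp_apply]
          congr 2
          change r (pr (lr F (s * n))).1 = _
          rw [h6]
        · rw [if_neg hm, if_neg hm]
      have h7 : (mean fun n : ℕ => GG F (Complex.ofReal ∘ fun t => g (pr t)) 0 0 (s * n))
          = mean fun n : ℕ => GG F (fun t => (r t : ℂ)) 0 0 (s * n) := by
        apply mean_congr
        intro n hn
        exact hpt n hn
      rw [← h7]
      exact h4
    intro h hh
    have hre : Continuous fun t => (h t).re := Complex.continuous_re.comp hh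
    have him : Continuous fun t => (h t).im := Complex.continuous_im.comp hh
    have h1 := (real _ hre).add ((real _ him).const_mul Complex.I)
    have hint : Integrable h (μ.map Subtype.val) := by
      obtain ⟨H, hH⟩ := (isCompact_Icc (a := -A) (b := A)).exists_bound_of_continuousOn hh.continuousOn
      refine Integrable.of_bound hh.aestronglyMeasurable H ?_
      rw [ae_iff]
      refine measure_mono_null (t := (Set.Icc (-A) A)ᶜ) ?_ ?_
      · intro x hx hx'
        exact hx (hH x hx')
      · rw [Measure.map_apply measurable_subtype_coe measurableSet_Icc.compl]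
        have : (Subtype.val ⁻¹' (Set.Icc (-A) A)ᶜ : Set K) = ∅ := by
          ext x
          simp only [Set.mem_preimage, Set.mem_compl_iff, Set.mem_empty_iff_false, iff_false, not_not]
          exact x.2
        rw [this, measure_empty]
    have h2 : ∫ x, h x ∂(μ.map Subtype.val) = ((∫ x, (h x).re ∂(μ.map Subtype.val) : ℝ) : ℂ)
        + Complex.I * ((∫ x, (h x).im ∂(μ.map Subtype.val) : ℝ) : ℂ) := by
      have := integral_re_add_im (𝕜 := ℂ) hint
      rw [← this, mul_comm Complex.I]
      rfl
    rw [h2]
    refine h1.congr fun N => ?_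
    rw [← mean_mul, ← mean_add]
    congr 1
    funext n
    rw [← gg_mul, ← gg_add]
    congr 1
    funext t
    rw [mul_comm]
    exact Complex.re_add_im (h t)

end Pool.Agent.Q74.SP
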