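import Pool.Agent.H499R2.NDIter

/-! Relative densities of forward invariant sets: from a window of scales to all larger scales. -/

set_option autoImplicit false

namespace Pool.Agent.Q74.SP

open Pool.Agent.H320R2.PD Finset

open Pool.Agent.H499R2.ND (Fwd PB cls mem_cls stage next_scale pow_09 err_bound)

/-- bounds for the relative densities propagate from the window of scales `[exp L, exp (1.25 L)]` to all
larger scales -/
theorem scales_up {d : ℤ} (hd : Odd d) (hd3 : IsCoprime d 3) :
    ∃ K : ℝ, 0 < K ∧ ∀ L : ℝ, 1000 ≤ L → ∀ S : Set ℤ, Fwd d S → ∀ ρ : ℝ, 0 ≤ ρ →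
      (∀ A : ℝ, 0 < A → L ≤ Real.log A → Real.log A ≤ 1.25 * L → ∀ m : ℕ, (m : ℝ) ^ 2 ≤ Real.log A →
        PB S A m ρ) →
      ∀ A : ℝ, 0 < A → L ≤ Real.log A → ∀ m : ℕ, (m : ℝ) ^ 2 ≤ Real.log A → PB S A m (ρ + K / L) := by
  obtain ⟨C, hC, herr⟩ := err_bound 1 d
  refine ⟨20 * C, by positivity, ?_⟩
  intro L hL S hS ρ hρ hbase
  have hLpos : 0 < L := by linarith
  have main : ∀ n : ℕ, ∀ A : ℝ, 0 < A → L ≤ Real.log A → Real.log A ≤ 1.25 * L + n → ∀ m : ℕ,
      (m : ℝ) ^ 2 ≤ Real.log A → PB S A m (ρ + 10 * C * (2 / L - 1 / Real.log A)) := by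
    intro n
    induction n with
    | zero =>
      intro A hA h1 h2 m hm
      rw [Nat.cast_zero, add_zero] at h2
      intro u v hu
      refine (hbase A hA h1 h2 m hm u v hu).trans ?_
      apply mul_le_mul_of_nonneg_right _ (by positivity)
      have h3 : 1 / Real.log A ≤ 1 / L := one_div_le_one_div_of_le hLpos h1
      have h4 : 2 / L = 2 * (1 / L) := by ring
      have h5 : 0 < 1 / L := by positivity
      have h6 : 0 ≤ 10 * C * (2 / L - 1 / Real.log A) := by
        apply mul_nonneg (by positivity)
        rw [h4]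
        linarith
      linarith
    | succ n ih =>
      intro A hA hLA hlog m hm
      rcases le_or_gt (Real.log A) (1.25 * L) with hsm | hbig
      · intro u v hu
        refine (hbase A hA hLA hsm m hm u v hu).trans ?_
        apply mul_le_mul_of_nonneg_right _ (by positivity)
        have h3 : 1 / Real.log A ≤ 1 / L := one_div_le_one_div_of_le hLpos hLA
        have h4 : 2 / L = 2 * (1 / L) := by ring
        have h5 : 0 < 1 / L := by positivity
        have h6 : 0 ≤ 10 * C * (2 / L - 1 / Real.log A) := by
          apply mul_nonneg (by positivity)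
          rw [h4]
          linarith
        linarith
      set t := Real.log A with htdef
      have htpos : 0 < t := by linarith
      have ht1000 : 1000 ≤ t := by linarith
      obtain ⟨k, hk⟩ : ∃ k : ℕ, k = ⌊t / 2⌋₊ := ⟨_, rfl⟩
      obtain ⟨m', hm'⟩ : ∃ m' : ℕ, m' = ⌊Real.sqrt (0.8 * t)⌋₊ := ⟨_, rfl⟩
      have hk2 : t / 2 - 1 ≤ k := by rw [hk]; linarith [Nat.lt_floor_add_one (t / 2)]
      have hk1N : 1 ≤ k := by
        have : (1 : ℝ) ≤ k := by linarith
        exact_mod_cast this
      have hm'sq : (m' : ℝ) ^ 2 ≤ 0.8 * t := by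
        have h1 : (m' : ℝ) ≤ Real.sqrt (0.8 * t) := by
          rw [hm']; exact Nat.floor_le (Real.sqrt_nonneg _)
        calc (m' : ℝ) ^ 2 ≤ (Real.sqrt (0.8 * t)) ^ 2 :=
              pow_le_pow_left₀ (Nat.cast_nonneg _) h1 2
          _ = 0.8 * t := Real.sq_sqrt (by linarith)
      have hm'k : m' ≤ k := by
        have : (m' : ℝ) ≤ k := by
          have h0 : (0 : ℝ) ≤ m' := Nat.cast_nonneg _
          by_contra hcon
          push Not at hcon
          nlinarith
        exact_mod_cast this
      have hE := herr A hA ht1000 k m m' hm hk hm'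
      rw [← htdef] at hE
      have hcase : L ≤ 0.8 * t := by linarith
      have h4 : 2 / L = 2 * (1 / L) := by ring
      have h5 : 0 < 1 / L := by positivity
      have hm09 : 1 / (0.9 * t) ≤ 1 / L := one_div_le_one_div_of_le hLpos (by linarith)
      have hρ' : 0 ≤ ρ + 10 * C * (2 / L - 1 / (0.9 * t)) := by
        apply add_nonneg hρ
        apply mul_nonneg (by positivity)
        rw [h4]
        linarith
      have hst := stage hd hd3 hS hA hk1N hm'k (m := m) hρ' (fun T hT1 hT2 => by
        have hn := next_scale hA ht1000 hk hT1 hT2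
        set A' := A * 3 ^ k / 2 ^ T with hA'
        have hA'pos : 0 < A' := by positivity
        have hlow : L ≤ Real.log A' := by linarith [hn.1]
        have hih := ih A' hA'pos hlow (by
          have h9 : Real.log A' ≤ 0.9 * t := hn.2
          have : Real.log A ≤ 1.25 * L + (n + 1 : ℕ) := hlog
          push_cast at this
          linarith) m' (by linarith [hn.1])
        intro u v hu
        refine (hih u v hu).trans ?_
        apply mul_le_mul_of_nonneg_right _ (by positivity)
        have h6 : 1 / (0.9 * t) ≤ 1 / Real.log A' := one_div_le_one_div_of_le (by linarith) hn.2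
        have h7 : 10 * C * (2 / L - 1 / Real.log A') ≤ 10 * C * (2 / L - 1 / (0.9 * t)) :=
          mul_le_mul_of_nonneg_left (by linarith) (by positivity)
        linarith)
      intro u v hu
      refine (hst u v hu).trans ?_
      apply mul_le_mul_of_nonneg_right _ (by positivity)
      have h1 := pow_09 1 le_rfl htpos
      rw [pow_one, pow_one] at h1
      rw [pow_one] at hE
      have h2 := mul_le_mul_of_nonneg_left h1 (by positivity : 0 ≤ 10 * C)
      rw [mul_sub, mul_sub]
      have h3 : 10 * C * ((11 / 10) * (1 / t)) = 10 * C * (1 / t) + C / t := by ring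
      linarith
  intro A hA hLA m hm
  obtain ⟨n, hn⟩ := exists_nat_ge (Real.log A - 1.25 * L)
  have h1 := main n A hA hLA (by linarith) m hm
  intro u v hu
  refine (h1 u v hu).trans ?_
  apply mul_le_mul_of_nonneg_right _ (by positivity)
  have : 0 < 1 / Real.log A := by
    have : 0 < Real.log A := by linarith
    positivity
  have h2 : 20 * C / L = 10 * C * (2 / L) := by ring
  rw [h2]
  have h3 : 10 * C * (2 / L - 1 / Real.log A) ≤ 10 * C * (2 / L) :=
    mul_le_mul_of_nonneg_left (by linarith) (by positivity)
  linarith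

end Pool.Agent.Q74.SP
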