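import Pool.Agent.Q74.SP.NA1
import Pool.Agent.H499R2.LT.R5

/-! The integers with a residue close to a given number; the forward closure. -/

set_option autoImplicit false

namespace Pool.Agent.Q74.SP

open Finset Filter Topology

open Pool.Agent.H499R2.LT (Hit FY PF od RF Hit_unique lta_Hit_shift od_add)

open Pool.Agent.H499R2.ND (Td Fwd Td_odd Td_two_pow)

/-- `x` meets `F`, with a residue within `η` of `r` -/
def Near (d : ℤ) (F : Finset ℤ) (r η : ℝ) : Set ℤ :=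
  {x : ℤ | ∃ (f : ℤ) (j : ℕ), Hit d F f x j ∧
    |(j : ℝ) * Real.log 2 - od d j x * Real.log 3 - Real.log (x : ℝ) - r| ≤ η}

/-- the forward closure -/
def Cl (d : ℤ) (F : Finset ℤ) (r η : ℝ) : Set ℤ := {x : ℤ | ∃ n ∈ Near d F r η, ∃ i : ℕ, (Td d)^[i] n = x}

theorem near_sub_cl (d : ℤ) (F : Finset ℤ) (r η : ℝ) : Near d F r η ⊆ Cl d F r η :=
  fun x hx => ⟨x, hx, 0, rfl⟩

theorem cl_fwd (d : ℤ) (F : Finset ℤ) (r η : ℝ) : Fwd d (Cl d F r η) := by
  rintro M x e he hM _ ⟨n, hn, i, hi⟩ heq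
  obtain ⟨e', rfl⟩ : ∃ e', e = e' + 1 := ⟨e - 1, by omega⟩
  have h1 : Td d M = 2 ^ e' * x := Td_odd hM (by rw [heq, pow_succ]; ring)
  have h2 : (Td d)^[e' + 1] M = x := by rw [Function.iterate_succ_apply, h1, Td_two_pow]
  refine ⟨n, hn, (e' + 1) + i, ?_⟩
  rw [Function.iterate_add_apply, hi, h2]

/-- the elements of the closure -/
theorem cl_cases {d : ℤ} (hd : Odd d) (hd3 : IsCoprime d 3) (F : Finset ℤ) : ∃ C : ℝ, 0 < C ∧
    ∀ (r η : ℝ) (z : ℕ), 2 * d.natAbs + 1 ≤ z → ∀ x ∈ Cl d F r η, x ≠ 0 →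
      x ∈ Near d F r (η + C / (z : ℝ) ^ (1 / 25 : ℝ)) ∨ x ∈ RF d (F ∪ FY z) := by
  classical
  obtain ⟨A, hA0, hA⟩ := Pool.Agent.H319R2.Tk.rigid (24 / 25)
    (lt_of_lt_of_le Pool.Agent.H319R2.beta_lt (by norm_num)) (by norm_num)
  have hd2 : d % 2 = 1 := by obtain ⟨e, he⟩ := hd; omega
  have hd0 : d ≠ 0 := by rintro rfl; simp at hd2
  have hdpos : (0 : ℝ) < |(d : ℝ)| := abs_pos.2 (by exact_mod_cast hd0)
  refine ⟨A * |(d : ℝ)| * |(d : ℝ)| ^ (1 / 25 : ℝ), by positivity, ?_⟩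
  rintro r η z hz x ⟨n, ⟨f, j, hh, hres⟩, i, hi⟩ hx0
  rcases lt_or_ge j i with hji | hij
  · -- after the hit
    right
    refine ⟨f, mem_union_left _ hh.2.1, i - j, ?_⟩
    have h1 := hh.1
    rw [← h1, ← Function.iterate_add_apply, Nat.sub_add_cancel hji.le, hi]
  by_cases hlow : ∃ l < i, |(Td d)^[l] n| ≤ (z : ℤ)
  · obtain ⟨l, hl, hlz⟩ := hlow
    right
    refine ⟨(Td d)^[l] n, mem_union_right _ ?_, i - l, ?_⟩
    · unfold FY
      rw [mem_Icc]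
      exact abs_le.1 hlz
    · rw [← Function.iterate_add_apply, Nat.sub_add_cancel hl.le, hi]
  push Not at hlow
  left
  have hsh := lta_Hit_shift hh hij
  rw [hi] at hsh
  refine ⟨f, j - i, hsh, ?_⟩
  have hz0 : (0 : ℝ) < z := by
    have : 0 < z := by omega
    exact_mod_cast this
  have hcast : ((d.natAbs : ℕ) : ℝ) = |(d : ℝ)| := by
    rw [Nat.cast_natAbs]; push_cast; rfl
  have hzd : 2 * |(d : ℝ)| + 1 ≤ (z : ℝ) := by
    rw [← hcast]; exact_mod_cast hz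
  have hinj : Set.InjOn (fun i => (Td d)^[i] n) (Set.Iio i) :=
    (Pool.Agent.H499R2.LT.C0.hit_inj hh).mono (fun l hl => lt_of_lt_of_le hl hij)
  have h1 := hA d hd2 n i hinj (z : ℝ) hzd (by
    intro l hl
    have h3 := hlow l hl
    have h4 : (z : ℝ) < |(((Td d)^[l] n : ℤ) : ℝ)| := by exact_mod_cast h3
    exact h4.le)
  rw [Pool.Agent.H499R2.LT.C0.T_eq, hi, Real.log_abs, Real.log_abs] at h1
  have h2 : ((Pool.Agent.H319R2.Tk.od d i n : ℕ) : ℝ) = ((od d i n : ℤ) : ℝ) := by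
    rw [← Pool.Agent.H499R2.LT.C0.od_eq]; push_cast; rfl
  rw [h2] at h1
  have h3 : A * |(d : ℝ)| * (|(d : ℝ)| / z) ^ (1 - (24 / 25 : ℝ))
      = A * |(d : ℝ)| * |(d : ℝ)| ^ (1 / 25 : ℝ) / (z : ℝ) ^ (1 / 25 : ℝ) := by
    rw [Real.div_rpow hdpos.le hz0.le, show (1 : ℝ) - 24 / 25 = 1 / 25 by norm_num]
    ring
  rw [h3] at h1
  have hod : od d j n = od d i n + od d (j - i) x := by
    have := od_add d i (j - i) n
    rw [Nat.add_sub_cancel' hij, hi] at this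
    exact this
  have hj : (j : ℝ) = i + ((j - i : ℕ) : ℝ) := by
    rw [Nat.cast_sub hij]; ring
  have e1 : ((j - i : ℕ) : ℝ) * Real.log 2 - od d (j - i) x * Real.log 3 - Real.log (x : ℝ) - r
      = ((j : ℝ) * Real.log 2 - od d j n * Real.log 3 - Real.log (n : ℝ) - r)
        - (Real.log (x : ℝ) - Real.log (n : ℝ) - (od d i n * Real.log 3 - i * Real.log 2)) := by
    rw [hod, hj]
    push_cast
    ring
  rw [e1]
  refine (abs_sub _ _).trans ?_
  linarith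

/-- counting the elements of finitely many trajectories, uniformly -/
theorem count_unif {d : ℤ} (hd : Odd d) :
    ∃ K : ℝ, 0 < K ∧ ∀ F : Finset ℤ, ∀ A : ℝ, 0 < A → 1 ≤ Real.log A → ∀ E : Finset ℤ,
      (∀ y ∈ E, A ≤ (y : ℝ) ∧ (y : ℝ) < 2 * A ∧ y ∈ RF d F) →
      (E.card : ℝ) ≤ F.card * K * Real.exp (0.951 * Real.log A) := by
  classical
  obtain ⟨B, hB, hsp⟩ := Pool.Agent.H319R2.Tk.sparse 0.951 Pool.Agent.H319R2.beta_lt (by norm_num)
  have hd2 : d % 2 = 1 := by obtain ⟨e, he⟩ := hd; omega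
  have hd0 : d ≠ 0 := by rintro rfl; simp at hd2
  have hdpos : (0 : ℝ) < |(d : ℝ)| := abs_pos.2 (by exact_mod_cast hd0)
  refine ⟨B * |(d : ℝ)| ^ (1 - 0.951 : ℝ) * 2, by positivity, ?_⟩
  intro F A hA hlA E hE
  have hA1 : 1 ≤ A := by
    by_contra hc
    push Not at hc
    have := Real.log_nonpos hA.le hc.le
    linarith
  have h2 : (2 * A) ^ (0.951 : ℝ) ≤ 2 * Real.exp (0.951 * Real.log A) := by
    rw [Real.mul_rpow (by norm_num) hA.le]
    have h3 : (2 : ℝ) ^ (0.951 : ℝ) ≤ 2 := by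
      calc (2 : ℝ) ^ (0.951 : ℝ) ≤ 2 ^ (1 : ℝ) :=
            Real.rpow_le_rpow_of_exponent_le (by norm_num) (by norm_num)
        _ = 2 := Real.rpow_one 2
    have h4 : A ^ (0.951 : ℝ) = Real.exp (0.951 * Real.log A) := by
      rw [Real.rpow_def_of_pos hA, mul_comm]
    rw [h4]
    exact mul_le_mul_of_nonneg_right h3 (Real.exp_pos _).le
  have hone : ∀ a ∈ F, (((E.filter fun y => ∃ j : ℕ, (Td d)^[j] a = y).card : ℕ) : ℝ) ≤
      (B * |(d : ℝ)| ^ (1 - 0.951 : ℝ) * 2) * Real.exp (0.951 * Real.log A) := by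
    intro a _
    set Ea := E.filter fun y => ∃ j : ℕ, (Td d)^[j] a = y with hEa
    obtain ⟨r, hinj, hr⟩ := Pool.Agent.H319R2.G.finite_subset_path (Td d) a Ea (by
      intro y hy
      rw [hEa, mem_filter] at hy
      exact hy.2)
    have h1 := hsp d hd2 _ (Pool.Agent.H319R2.G.tame_path (Td d) a r hinj) (2 * A) (by linarith) Ea (by
      intro y hy
      obtain ⟨i, hi, he⟩ := hr y hy
      rw [hEa, mem_filter] at hy
      obtain ⟨g1, g2, _⟩ := hE y hy.1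
      refine ⟨⟨i, hi, he⟩, ?_⟩
      rw [abs_of_nonneg (by linarith)]
      exact g2.le)
    refine h1.trans ?_
    calc B * |(d : ℝ)| ^ (1 - 0.951 : ℝ) * (2 * A) ^ (0.951 : ℝ)
        ≤ B * |(d : ℝ)| ^ (1 - 0.951 : ℝ) * (2 * Real.exp (0.951 * Real.log A)) :=
          mul_le_mul_of_nonneg_left h2 (by positivity)
      _ = _ := by ring
  have hsub : E ⊆ F.biUnion fun a => E.filter fun y => ∃ j : ℕ, (Td d)^[j] a = y := by
    intro y hy
    obtain ⟨_, _, a, ha, hj⟩ := hE y hy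
    rw [mem_biUnion]
    exact ⟨a, ha, by rw [mem_filter]; exact ⟨hy, hj⟩⟩
  have h5 : (E.card : ℝ) ≤
      ∑ a ∈ F, (((E.filter fun y => ∃ j : ℕ, (Td d)^[j] a = y).card : ℕ) : ℝ) := by
    have := (card_le_card hsub).trans card_biUnion_le
    exact_mod_cast this
  refine h5.trans ((sum_le_sum hone).trans (le_of_eq ?_))
  rw [sum_const, nsmul_eq_mul]
  ring

end Pool.Agent.Q74.SP
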