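import Pool.Agent.Q74.SP.NA2

/-! Late hits are rare in all classes. -/

set_option autoImplicit false

namespace Pool.Agent.Q74.SP

open Finset Filter Topology

open Pool.Agent.H499R2.LT (Hit FY PF od RF Hit_unique lta_Hit_shift od_add lta_Hit_succ GF RF_sub RF_FC RF_SpW
  equi_oddG)

open Pool.Agent.H499R2.ND (Td Fwd PB cls mem_cls cnt cnt_eq Dn Phi)

open Pool.Agent.H319R2.Lln (mu)

/-- hits after time `s` -/
def Late (d : ℤ) (F : Finset ℤ) (s : ℤ) : Set ℤ := {x : ℤ | ∃ (f : ℤ) (j : ℕ), s < (j : ℤ) ∧ Hit d F f x j}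

theorem late_GF (d : ℤ) (F : Finset ℤ) : GF d (RF d F) (fun k _ => Late d F k) := by
  intro k o x hx
  have hxF : x ∉ F := fun h => hx (RF_sub d h)
  constructor
  · rintro ⟨f, j, hj, hH⟩
    rcases j with _ | j
    · exact absurd (by rw [← hH.1] at hH; exact hH.2.1) hxF
    · refine ⟨f, j, ?_, (lta_Hit_succ.1 hH).2⟩
      push_cast at hj
      linarith
  · rintro ⟨f, j, hj, hH⟩
    refine ⟨f, j + 1, ?_, lta_Hit_succ.2 ⟨hxF, hH⟩⟩
    push_cast
    linarith

theorem mu_pos'' : 0 < mu := by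
  unfold mu
  have : 0 < Real.log (4 / 3) := Real.log_pos (by norm_num)
  positivity

theorem Phi_top : Tendsto Phi atTop (𝓝 1) := by
  have h : Phi = fun x => ProbabilityTheory.cdf (ProbabilityTheory.gaussianReal 0 1) x := by
    funext x
    exact Pool.Agent.H499R2.ND.phi_cdf x
  rw [h]
  exact ProbabilityTheory.tendsto_cdf_atTop _

theorem late_count {d : ℤ} (hd : Odd d) (hd3 : IsCoprime d 3) (F : Finset ℤ) {ρ : ℝ} (hρ : 0 < ρ) :
    ∃ t0 : ℝ, ∀ A : ℝ, 0 < A → t0 ≤ Real.log A →
      ((cls (Late d F ⌊4 / mu * Real.log A⌋) A (2 * A) 0 1 0).card : ℝ) ≤ ρ * A := by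
  classical
  obtain ⟨δ, u, hδ0, -, -, -, hP, hQ, -⟩ := Pool.Agent.H499R2.LT.laws hd
    (Pool.Agent.H499R2.LT.C0.ne_of_coprime hd3) F
  obtain ⟨x0, hx0⟩ := (((Phi_top.const_mul δ).eventually (lt_mem_nhds
    (show δ * 1 - ρ / 16 < δ * 1 by linarith)))).exists
  set P : ℕ → Prop := fun n => ∃ k : ℕ, (Td d)^[k] (n : ℤ) ∈ F with hPdef
  set Q : ℕ → Prop := fun n => ∃ k : ℕ, (k : ℝ) ≤ Real.log n / mu
    + x0 * Pool.Agent.H499R2.ND.sg * Real.sqrt (Real.log n) ∧ (Td d)^[k] (n : ℤ) ∈ F with hQdef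
  have hlim := hP.sub (hQ x0)
  have h1 : ∀ᶠ N : ℕ in atTop, cnt P N / N - cnt Q N / N < ρ / 8 := by
    refine hlim.eventually (gt_mem_nhds ?_)
    linarith
  obtain ⟨N0, hN0⟩ := eventually_atTop.1 h1
  have hmu := mu_pos''
  -- the bound for the time
  set X : ℝ := |x0 * Pool.Agent.H499R2.ND.sg| with hX
  refine ⟨max (Real.log (N0 + 1)) (max 1 ((X * mu) ^ 2)), fun A hA ht => ?_⟩
  have ht1 : Real.log (N0 + 1) ≤ Real.log A := (le_max_left _ _).trans ht
  have ht2 : 1 ≤ Real.log A := (le_max_left _ _).trans ((le_max_right _ _).trans ht)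
  have ht3 : (X * mu) ^ 2 ≤ Real.log A := (le_max_right _ _).trans ((le_max_right _ _).trans ht)
  have hA1 : (N0 : ℝ) + 1 ≤ A := (Real.log_le_log_iff (by positivity) hA).1 ht1
  set N : ℕ := ⌊2 * A⌋₊ with hN
  have hNA : (N : ℝ) ≤ 2 * A := Nat.floor_le (by linarith)
  have hNN0 : N0 ≤ N := by
    apply Nat.le_floor
    linarith
  have hNpos : (0 : ℝ) < N := by
    have : 1 ≤ N := by
      apply Nat.le_floor
      push_cast
      have : (0 : ℝ) ≤ N0 := Nat.cast_nonneg _
      linarith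
    exact_mod_cast this
  have h2 := hN0 N hNN0
  rw [← sub_div, div_lt_iff₀ hNpos] at h2
  -- the injection
  have h3 : (cls (Late d F ⌊4 / mu * Real.log A⌋) A (2 * A) 0 1 0).card
      ≤ ((Icc 1 N).filter fun n => P n ∧ ¬ Q n).card := by
    apply card_le_card_of_injOn (fun x => x.toNat)
    · intro x hx
      rw [mem_coe, mem_cls] at hx
      obtain ⟨⟨hx1, hx2⟩, -, ⟨f, j, hj, hH⟩, -⟩ := hx
      have hxpos : (0 : ℝ) < x := by linarith
      have hx0' : 0 < x := by exact_mod_cast hxpos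
      obtain ⟨n, rfl⟩ := Int.eq_ofNat_of_zero_le hx0'.le
      rw [Int.cast_natCast] at hx1 hx2
      have hn0 : 0 < n := by exact_mod_cast hx0'
      beta_reduce
      rw [mem_coe, mem_filter, mem_Icc, Int.toNat_natCast]
      refine ⟨⟨hn0, Nat.le_floor hx2.le⟩, ⟨j, ?_⟩, ?_⟩
      · rw [hH.1]; exact hH.2.1
      · rintro ⟨k, hk, hkF⟩
        have hjk : j ≤ k := by
          by_contra hlt
          push Not at hlt
          exact hH.2.2 k hlt hkF
        have hlogn : Real.log n ≤ 2 * Real.log A := by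
          have hA2 : 2 ≤ A := by
            have he := Real.add_one_le_exp (Real.log A)
            rw [Real.exp_log hA] at he
            linarith
          have h4 : Real.log (n : ℝ) ≤ Real.log (2 * A) := Real.log_le_log (by exact_mod_cast hn0) hx2.le
          have h5 : Real.log (2 * A) ≤ Real.log (A * A) :=
            Real.log_le_log (by positivity) (by nlinarith)
          rw [Real.log_mul hA.ne' hA.ne'] at h5
          linarith
        have h6 : (⌊4 / mu * Real.log A⌋ : ℤ) < (k : ℤ) := lt_of_lt_of_le hj (by exact_mod_cast hjk)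
        have h7 : 4 / mu * Real.log A < k := by
          have := Int.floor_lt.1 h6
          exact_mod_cast this
        have h8 : x0 * Pool.Agent.H499R2.ND.sg * Real.sqrt (Real.log n) ≤ 2 / mu * Real.log A := by
          have h9 : x0 * Pool.Agent.H499R2.ND.sg * Real.sqrt (Real.log n) ≤ X * Real.sqrt (2 * Real.log A) := by
            refine (mul_le_mul_of_nonneg_right (le_abs_self _) (Real.sqrt_nonneg _)).trans ?_
            exact mul_le_mul_of_nonneg_left (Real.sqrt_le_sqrt hlogn) (abs_nonneg _)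
          refine h9.trans ?_
          have hXm : X ≤ Real.sqrt (Real.log A) / mu := by
            rw [le_div_iff₀ hmu]
            apply Real.le_sqrt_of_sq_le
            exact ht3
          have h10 : Real.sqrt (2 * Real.log A) ≤ 2 * Real.sqrt (Real.log A) := by
            rw [show (2 : ℝ) * Real.sqrt (Real.log A) = Real.sqrt (4 * Real.log A) by
              rw [Real.sqrt_mul (by norm_num), show (4 : ℝ) = 2 ^ 2 by norm_num, Real.sqrt_sq (by norm_num)]]
            apply Real.sqrt_le_sqrt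
            linarith
          have hs := Real.mul_self_sqrt (show 0 ≤ Real.log A by linarith)
          calc X * Real.sqrt (2 * Real.log A)
              ≤ (Real.sqrt (Real.log A) / mu) * (2 * Real.sqrt (Real.log A)) :=
                mul_le_mul hXm h10 (Real.sqrt_nonneg _) (by positivity)
            _ = 2 / mu * (Real.sqrt (Real.log A) * Real.sqrt (Real.log A)) := by ring
            _ = 2 / mu * Real.log A := by rw [hs]
        have h9 : Real.log n / mu ≤ 2 / mu * Real.log A := by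
          rw [div_le_iff₀ hmu]
          calc Real.log n ≤ 2 * Real.log A := hlogn
            _ = 2 / mu * Real.log A * mu := by field_simp
        have h10 : 4 / mu * Real.log A = 2 / mu * Real.log A + 2 / mu * Real.log A := by ring
        linarith
    · intro x hx y hy hxy
      rw [mem_coe, mem_cls] at hx hy
      have hxpos : (0 : ℝ) < x := by linarith [hx.1.1]
      have hypos : (0 : ℝ) < y := by linarith [hy.1.1]
      have hx0' : 0 < x := by exact_mod_cast hxpos
      have hy0' : 0 < y := by exact_mod_cast hypos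
      simp only at hxy
      omega
  have h4 : (((Icc 1 N).filter fun n => P n ∧ ¬ Q n).card : ℝ) = cnt P N - cnt Q N := by
    rw [cnt_eq, cnt_eq]
    have h5 : (Icc 1 N).filter P = ((Icc 1 N).filter Q) ∪ ((Icc 1 N).filter fun n => P n ∧ ¬ Q n) := by
      ext n
      simp only [mem_filter, mem_union]
      constructor
      · rintro ⟨h, hp⟩
        by_cases hq : Q n
        · exact Or.inl ⟨h, hq⟩
        · exact Or.inr ⟨h, hp, hq⟩
      · rintro (⟨h, k, -, hk⟩ | ⟨h, hp, -⟩)
        · exact ⟨h, k, hk⟩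
        · exact ⟨h, hp⟩
    rw [h5, card_union_of_disjoint]
    · push_cast; ring
    · rw [Finset.disjoint_left]
      intro n h1 h2
      exact (mem_filter.1 h2).2.2 (mem_filter.1 h1).2
  have h5 : ((cls (Late d F ⌊4 / mu * Real.log A⌋) A (2 * A) 0 1 0).card : ℝ) ≤ cnt P N - cnt Q N := by
    rw [← h4]
    exact_mod_cast h3
  have h6 : ρ / 8 * N ≤ ρ / 8 * (2 * A) := mul_le_mul_of_nonneg_left hNA (by positivity)
  nlinarith

/-- late hits are rare in all classes -/
theorem late_PB {d : ℤ} (hd : Odd d) (hd3 : IsCoprime d 3) (F : Finset ℤ) {ρ : ℝ} (hρ : 0 < ρ) :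
    ∃ t0 : ℝ, ∀ A : ℝ, 0 < A → t0 ≤ Real.log A → ∀ m : ℕ, (m : ℝ) ^ 2 ≤ Real.log A →
      PB (Late d F ⌊4 / mu * Real.log A⌋) A m ρ := by
  obtain ⟨C, hC, he⟩ := equi_oddG 1 hd hd3 (RF_FC d F) (RF_SpW hd hd3 F)
  obtain ⟨t1, ht1⟩ := late_count hd hd3 F (show 0 < ρ / 4 by positivity)
  refine ⟨max t1 (max 1000 (4 * C / ρ)), fun A hA ht m hm => ?_⟩
  have a1 : t1 ≤ Real.log A := (le_max_left _ _).trans ht
  have a2 : 1000 ≤ Real.log A := (le_max_left _ _).trans ((le_max_right _ _).trans ht)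
  have a3 : 4 * C / ρ ≤ Real.log A := (le_max_right _ _).trans ((le_max_right _ _).trans ht)
  intro u v hu
  obtain ⟨c, hc⟩ := Pool.Agent.H499R2.ND.cls_unit (Late d F ⌊4 / mu * Real.log A⌋) A (2 * A) m hu v
  rw [hc]
  have hq := fun c' : ℤ => he (fun k _ => Late d F k) (late_GF d F) A hA a2 m hm
    ⌊4 / mu * Real.log A⌋ 0 c c'
  have hsum : ∑ c' ∈ range (3 ^ m), ((cls (Late d F ⌊4 / mu * Real.log A⌋) A (2 * A) m 1 c).card : ℝ) ≤
      ∑ c' ∈ range (3 ^ m), (((cls (Late d F ⌊4 / mu * Real.log A⌋) A (2 * A) m 1 (c' : ℤ)).card : ℝ) +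
        C / (Real.log A) ^ 1 * (A / (2 * 3 ^ m))) := sum_le_sum fun c' _ => hq c'
  rw [sum_add_distrib, Pool.Agent.H499R2.LT.B4.clI_sum, sum_const, sum_const, card_range, nsmul_eq_mul,
    nsmul_eq_mul] at hsum
  have h1 := ht1 A hA a1
  push_cast at hsum
  rw [pow_one] at hsum
  have h3 : (0 : ℝ) < 3 ^ m := by positivity
  have h4 : (3 : ℝ) ^ m * (C / Real.log A * (A / (2 * 3 ^ m))) = C / Real.log A * (A / 2) := by
    field_simp
  rw [h4] at hsum
  have h5 : C / Real.log A ≤ ρ / 4 := by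
    rw [div_le_div_iff₀ (by linarith) (by norm_num)]
    rw [div_le_iff₀ hρ] at a3
    linarith
  have h6 : C / Real.log A * (A / 2) ≤ ρ / 4 * (A / 2) := mul_le_mul_of_nonneg_right h5 (by positivity)
  have h7 : ρ * (A / (2 * 3 ^ m)) = (ρ * (A / 2)) / 3 ^ m := by field_simp
  rw [h7, le_div_iff₀ h3]
  nlinarith

end Pool.Agent.Q74.SP
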