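import Pool.Agent.Q74.SP.NA3

/-! Integers with a residue close to a given number are rare in all classes. -/

set_option autoImplicit false

namespace Pool.Agent.Q74.SP

open Finset Filter Topology

open Pool.Agent.H499R2.LT (Hit FY PF od RF Hit_unique lta_Hit_shift od_add lta_Hit_succ)

open Pool.Agent.H499R2.ND (Td Fwd PB cls mem_cls cls_card_le)

open Pool.Agent.H319R2.Lln (mu)

theorem od_nonneg (d : ℤ) (j : ℕ) : ∀ x : ℤ, 0 ≤ od d j x ∧ od d j x ≤ j := by
  induction j with
  | zero => intro x; rw [od]; exact ⟨le_rfl, le_rfl⟩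
  | succ j ih =>
    intro x
    have h := ih (Td d x)
    rw [od]
    push_cast
    split_ifs <;> constructor <;> linarith [h.1, h.2]

/-- elements of `Near` with an early hit -/
theorem near_early {d : ℤ} (F : Finset ℤ) (r : ℝ) {η : ℝ} (hη : 0 < η) (hη1 : 3 * η ≤ 1) {A : ℝ} (hA : 0 < A)
    (m : ℕ) {u : ℤ} (hu : IsCoprime u 3) (v : ℤ) (s : ℕ) :
    ((cls (Near d F r η \ Late d F s) A (2 * A) m u v).card : ℝ)
      ≤ ((s : ℝ) + 1) ^ 2 * (12 * η * (A / (2 * 3 ^ m)) + 1) := by
  classical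
  set P : ℕ × ℕ → ℝ := fun p => (p.1 : ℝ) * Real.log 2 - p.2 * Real.log 3 - r with hP
  have hsub : cls (Near d F r η \ Late d F s) A (2 * A) m u v ⊆
      ((range (s + 1)) ×ˢ (range (s + 1))).biUnion fun p =>
        (cls Set.univ (Real.exp (P p - η)) (Real.exp (P p + 2 * η)) m u v).filter
          (fun x : ℤ => (x : ℝ) < 2 * A) := by
    intro x hx
    rw [mem_cls] at hx
    obtain ⟨⟨h1, h2⟩, hodd, ⟨⟨f, j, hH, hr⟩, hl⟩, hc⟩ := hx
    have hjs : j ≤ s := by
      by_contra hlt
      push Not at hlt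
      exact hl ⟨f, j, by exact_mod_cast hlt, hH⟩
    obtain ⟨o, ho⟩ := Int.eq_ofNat_of_zero_le (od_nonneg d j x).1
    have hoj : o ≤ j := by
      have := (od_nonneg d j x).2
      rw [ho] at this
      exact_mod_cast this
    have hx0 : (0 : ℝ) < x := lt_of_lt_of_le hA h1
    rw [mem_biUnion]
    refine ⟨(j, o), ?_, ?_⟩
    · rw [mem_product, mem_range, mem_range]
      constructor <;> simp only <;> omega
    · rw [mem_filter, mem_cls]
      rw [ho] at hr
      have hr' := abs_le.1 hr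
      have hr1 := hr'.1
      have hr2 := hr'.2
      push_cast at hr1 hr2
      refine ⟨⟨⟨?_, ?_⟩, hodd, Set.mem_univ _, hc⟩, h2⟩
      · rw [← Real.exp_log hx0]
        apply Real.exp_le_exp.2
        simp only [hP]
        linarith
      · rw [← Real.exp_log hx0]
        apply Real.exp_lt_exp.2
        simp only [hP]
        linarith
  have hfib : ∀ p ∈ (range (s + 1)) ×ˢ (range (s + 1)),
      (((cls Set.univ (Real.exp (P p - η)) (Real.exp (P p + 2 * η)) m u v).filter
          (fun x : ℤ => (x : ℝ) < 2 * A)).card : ℝ) ≤ 12 * η * (A / (2 * 3 ^ m)) + 1 := by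
    intro p _
    have h3 : (0 : ℝ) < 3 ^ m := by positivity
    by_cases hc : Real.exp (P p - η) < 2 * A
    · have h1 := cls_card_le Set.univ (show Real.exp (P p - η) ≤ Real.exp (P p + 2 * η) from
        Real.exp_le_exp.2 (by linarith)) m hu v
      have h2 : (((cls Set.univ (Real.exp (P p - η)) (Real.exp (P p + 2 * η)) m u v).filter
          (fun x : ℤ => (x : ℝ) < 2 * A)).card : ℝ) ≤
          (cls Set.univ (Real.exp (P p - η)) (Real.exp (P p + 2 * η)) m u v).card := by
        exact_mod_cast card_filter_le _ _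
      refine h2.trans (h1.trans ?_)
      have h4 : Real.exp (P p + 2 * η) = Real.exp (P p - η) * Real.exp (3 * η) := by
        rw [← Real.exp_add]; congr 1; ring
      have h5 : Real.exp (3 * η) ≤ 1 + 6 * η := by
        have h6 := Real.exp_bound' (x := 3 * η) (by linarith) hη1 (n := 1) (by norm_num)
        norm_num at h6
        nlinarith
      have h6 : Real.exp (P p + 2 * η) - Real.exp (P p - η) ≤ 12 * η * A := by
        rw [h4]
        have h7 := Real.exp_pos (P p - η)
        nlinarith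
      have h7 : (Real.exp (P p + 2 * η) - Real.exp (P p - η)) / (2 * 3 ^ m) ≤ 12 * η * A / (2 * 3 ^ m) :=
        div_le_div_of_nonneg_right h6 (by positivity)
      have h8 : 12 * η * A / (2 * 3 ^ m) = 12 * η * (A / (2 * 3 ^ m)) := by ring
      linarith
    · have h1 : (cls Set.univ (Real.exp (P p - η)) (Real.exp (P p + 2 * η)) m u v).filter
          (fun x : ℤ => (x : ℝ) < 2 * A) = ∅ := by
        rw [Finset.eq_empty_iff_forall_notMem]
        intro x hx
        rw [mem_filter, mem_cls] at hx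
        exact hc (lt_of_le_of_lt hx.1.1.1 hx.2)
      rw [h1, card_empty, Nat.cast_zero]
      positivity
  have h1 : ((cls (Near d F r η \ Late d F s) A (2 * A) m u v).card : ℝ) ≤
      ∑ p ∈ (range (s + 1)) ×ˢ (range (s + 1)),
        (((cls Set.univ (Real.exp (P p - η)) (Real.exp (P p + 2 * η)) m u v).filter
          (fun x : ℤ => (x : ℝ) < 2 * A)).card : ℝ) := by
    exact_mod_cast (card_le_card hsub).trans card_biUnion_le
  refine h1.trans ((sum_le_sum hfib).trans (le_of_eq ?_))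
  rw [sum_const, card_product, card_range, nsmul_eq_mul]
  push_cast
  ring

theorem three_pow_le {t : ℝ} {m : ℕ} (hm : (m : ℝ) ^ 2 ≤ t) :
    (3 : ℝ) ^ m ≤ Real.exp 40 * Real.exp (0.03 * t) := by
  have h2 : (m : ℝ) * Real.log 3 ≤ 0.03 * t + 40 := by
    have h3 := Pool.Agent.H499R2.LT.B0.log3_small
    have h4 : (m : ℝ) * Real.log 3 ≤ m * 1.12 := mul_le_mul_of_nonneg_left h3 (Nat.cast_nonneg m)
    nlinarith [sq_nonneg ((m : ℝ) - 20)]
  have h5 : ((3 : ℝ) ^ m) = Real.exp (m * Real.log 3) := by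
    rw [mul_comm, Real.exp_mul, Real.exp_log (by norm_num), Real.rpow_natCast]
  rw [h5, ← Real.exp_add]
  apply Real.exp_le_exp.2
  linarith

/-- asymptotics -/
theorem asym (c κ : ℝ) (hκ : 0 < κ) {ρ : ℝ} (hρ : 0 < ρ) :
    ∃ t0 : ℝ, ∀ t : ℝ, t0 ≤ t → c * t ^ 2 * Real.exp (-(κ * t)) ≤ ρ := by
  have h1 := (Real.tendsto_pow_mul_exp_neg_atTop_nhds_zero 2).comp
    (tendsto_id.const_mul_atTop hκ)
  have h2 := h1.const_mul (c / κ ^ 2)
  rw [mul_zero] at h2
  obtain ⟨t0, ht0⟩ := eventually_atTop.1 (h2.eventually (gt_mem_nhds hρ))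
  refine ⟨t0, fun t ht => ?_⟩
  have h3 := (ht0 t ht).le
  have e : c / κ ^ 2 * ((fun x => x ^ 2 * Real.exp (-x)) ∘ fun x => κ * id x) t
      = c * t ^ 2 * Real.exp (-(κ * t)) := by
    simp only [Function.comp_apply, id]
    field_simp
  rw [e] at h3
  exact h3

/-- the window of scales -/
theorem base {d : ℤ} (hd : Odd d) (hd3 : IsCoprime d 3) (F : Finset ℤ) {ρ : ℝ} (hρ : 0 < ρ) (L0 : ℝ) :
    ∃ L : ℝ, L0 ≤ L ∧ 1000 ≤ L ∧ ∃ η : ℝ, 0 < η ∧ ∀ r A : ℝ, 0 < A → L ≤ Real.log A → Real.log A ≤ 1.25 * L →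
      ∀ m : ℕ, (m : ℝ) ^ 2 ≤ Real.log A → PB (Cl d F r η) A m ρ := by
  classical
  obtain ⟨C, hC, hcl⟩ := cl_cases hd hd3 F
  obtain ⟨K, hK, hcount⟩ := count_unif hd
  obtain ⟨t1, ht1⟩ := late_PB hd hd3 F (show 0 < ρ / 4 by positivity)
  have hmu := mu_pos''
  set Q : ℝ := 4 / mu + 2 with hQ
  have hQ0 : 0 < Q := by positivity
  -- the conditions on `L`
  obtain ⟨a1, ha1⟩ := asym (12 * 1.25 ^ 2 * Q ^ 2 * (1 + 2 * C)) (1 / 25000) (by norm_num) (show 0 < ρ / 4 by positivity)
  obtain ⟨a2, ha2⟩ := asym (Q ^ 2 * (8 * Real.exp 40)) 0.97 (by norm_num) (show 0 < ρ by positivity)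
  obtain ⟨a3, ha3⟩ := asym (8 * Real.exp 40 * (K * (F.card + 3))) 0.018 (by norm_num) (show 0 < ρ by positivity)
  obtain ⟨a4, ha4⟩ := asym (3 * (1 + 2 * C)) (1 / 25000) (by norm_num) (show (0 : ℝ) < 1 by norm_num)
  obtain ⟨L, hL⟩ : ∃ L : ℝ, L = max (max (max L0 1000) (max t1 a1)) (max (max a2 a3) (max a4
      (1000 * Real.log (2 * d.natAbs + 2)))) := ⟨_, rfl⟩
  have l1 : L0 ≤ L := by
    rw [hL]; exact ((le_max_left _ _).trans (le_max_left _ _)).trans (le_max_left _ _)
  have l2 : 1000 ≤ L := by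
    rw [hL]; exact ((le_max_right _ _).trans (le_max_left _ _)).trans (le_max_left _ _)
  have l3 : t1 ≤ L := by
    rw [hL]; exact ((le_max_left _ _).trans (le_max_right _ _)).trans (le_max_left _ _)
  have l4 : a1 ≤ L := by
    rw [hL]; exact ((le_max_right _ _).trans (le_max_right _ _)).trans (le_max_left _ _)
  have l5 : a2 ≤ L := by
    rw [hL]; exact ((le_max_left _ _).trans (le_max_left _ _)).trans (le_max_right _ _)
  have l6 : a3 ≤ L := by
    rw [hL]; exact ((le_max_right _ _).trans (le_max_left _ _)).trans (le_max_right _ _)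
  have l7 : a4 ≤ L := by
    rw [hL]; exact ((le_max_left _ _).trans (le_max_right _ _)).trans (le_max_right _ _)
  have l8 : 1000 * Real.log (2 * d.natAbs + 2) ≤ L := by
    rw [hL]; exact ((le_max_right _ _).trans (le_max_right _ _)).trans (le_max_right _ _)
  have hLpos : 0 < L := by linarith
  set η : ℝ := Real.exp (-(1 / 25000 * L)) with hη
  have hη0 : 0 < η := Real.exp_pos _
  set z : ℕ := ⌊Real.exp (L / 1000)⌋₊ with hz
  have hzle : (z : ℝ) ≤ Real.exp (L / 1000) := Nat.floor_le (Real.exp_pos _).le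
  have hz1 : 2 * d.natAbs + 1 ≤ z := by
    apply Nat.le_floor
    push_cast
    have h1 : (2 * (d.natAbs : ℝ) + 2) ≤ Real.exp (L / 1000) := by
      rw [← Real.log_le_iff_le_exp (by positivity)]
      linarith
    linarith
  have hzge : Real.exp (L / 1000) / 2 ≤ z := by
    have h1 := Nat.lt_floor_add_one (Real.exp (L / 1000))
    have h2 : (1 : ℝ) ≤ z := by exact_mod_cast (by omega : 1 ≤ z)
    linarith
  have hz0 : (0 : ℝ) < z := by
    have : 0 < z := by omega
    exact_mod_cast this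
  have hz25 : Real.exp (1 / 25000 * L) / 2 ≤ (z : ℝ) ^ (1 / 25 : ℝ) := by
    have h1 : (Real.exp (L / 1000) / 2) ^ (1 / 25 : ℝ) ≤ (z : ℝ) ^ (1 / 25 : ℝ) :=
      Real.rpow_le_rpow (by positivity) hzge (by norm_num)
    refine le_trans ?_ h1
    rw [Real.div_rpow (Real.exp_pos _).le (by norm_num), ← Real.exp_mul]
    have h2 : L / 1000 * (1 / 25) = 1 / 25000 * L := by ring
    rw [h2]
    apply div_le_div_of_nonneg_left (Real.exp_pos _).le (by positivity)
    calc (2 : ℝ) ^ (1 / 25 : ℝ) ≤ 2 ^ (1 : ℝ) :=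
          Real.rpow_le_rpow_of_exponent_le (by norm_num) (by norm_num)
      _ = 2 := Real.rpow_one 2
  set η' : ℝ := η + C / (z : ℝ) ^ (1 / 25 : ℝ) with hη'
  have hη'0 : 0 < η' := by positivity
  have hη'le : η' ≤ (1 + 2 * C) * Real.exp (-(1 / 25000 * L)) := by
    have h1 : C / (z : ℝ) ^ (1 / 25 : ℝ) ≤ C / (Real.exp (1 / 25000 * L) / 2) :=
      div_le_div_of_nonneg_left hC.le (by positivity) hz25
    have h2 : C / (Real.exp (1 / 25000 * L) / 2) = 2 * C * Real.exp (-(1 / 25000 * L)) := by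
      rw [Real.exp_neg]
      field_simp
    rw [hη', hη]
    linarith
  have hη'1 : 3 * η' ≤ 1 := by
    have h1 := ha4 L l7
    have h2 : 3 * (1 + 2 * C) * Real.exp (-(1 / 25000 * L)) ≤
        3 * (1 + 2 * C) * L ^ 2 * Real.exp (-(1 / 25000 * L)) := by
      apply mul_le_mul_of_nonneg_right _ (Real.exp_pos _).le
      have : (1 : ℝ) ≤ L ^ 2 := by nlinarith
      nlinarith
    nlinarith
  refine ⟨L, l1, l2, η, hη0, ?_⟩
  intro r A hA hLA hAL m hm u v hu
  set t := Real.log A with ht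
  have htpos : 0 < t := by linarith
  have hexp : Real.exp t = A := Real.exp_log hA
  set s : ℕ := ⌊4 / mu * t⌋₊ with hs
  have hsZ : (⌊4 / mu * t⌋ : ℤ) = (s : ℤ) := by
    rw [hs, Int.natCast_floor_eq_floor (by positivity)]
  have hs1 : (s : ℝ) + 1 ≤ Q * t := by
    have h1 : (s : ℝ) ≤ 4 / mu * t := Nat.floor_le (by positivity)
    rw [hQ]
    nlinarith
  have h3m := three_pow_le hm
  have h3m0 : (0 : ℝ) < 3 ^ m := by positivity
  -- the three parts
  have hsub : cls (Cl d F r η) A (2 * A) m u v ⊆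
      (cls (Near d F r η' \ Late d F s) A (2 * A) m u v ∪ cls (Late d F s) A (2 * A) m u v)
        ∪ cls (RF d (F ∪ FY z)) A (2 * A) m u v := by
    intro x hx
    rw [mem_cls] at hx
    obtain ⟨h1, h2, h3, h4⟩ := hx
    have hx0 : x ≠ 0 := by
      rintro rfl
      rw [Int.cast_zero] at h1
      linarith [h1.1]
    rw [mem_union, mem_union, mem_cls, mem_cls, mem_cls]
    rcases hcl r η z hz1 x h3 hx0 with h5 | h5
    · left
      by_cases h6 : x ∈ Late d F s
      · right; exact ⟨h1, h2, h6, h4⟩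
      · left; exact ⟨h1, h2, ⟨h5, h6⟩, h4⟩
    · right; exact ⟨h1, h2, h5, h4⟩
  have c1 := near_early (d := d) F r hη'0 hη'1 hA m hu v s
  have c2 := ht1 A hA (l3.trans hLA) m hm u v hu
  rw [← ht, hsZ] at c2
  have c3 := hcount (F ∪ FY z) A hA (by linarith) (cls (RF d (F ∪ FY z)) A (2 * A) m u v) (by
    intro y hy
    rw [mem_cls] at hy
    exact ⟨hy.1.1, hy.1.2, hy.2.2.1⟩)
  have hcard : ((cls (Cl d F r η) A (2 * A) m u v).card : ℝ) ≤
      (cls (Near d F r η' \ Late d F s) A (2 * A) m u v).card + (cls (Late d F s) A (2 * A) m u v).card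
        + (cls (RF d (F ∪ FY z)) A (2 * A) m u v).card := by
    have h1 := (card_le_card hsub).trans (card_union_le _ _)
    have h2 := card_union_le (cls (Near d F r η' \ Late d F s) A (2 * A) m u v)
      (cls (Late d F s) A (2 * A) m u v)
    exact_mod_cast h1.trans (Nat.add_le_add_right h2 _)
  set M : ℝ := A / (2 * 3 ^ m) with hM
  have hM0 : 0 < M := by positivity
  -- first part
  have b1 : ((s : ℝ) + 1) ^ 2 * (12 * η' * M + 1) ≤ ρ / 4 * M + ρ / 4 * M := by
    have hsq : ((s : ℝ) + 1) ^ 2 ≤ (Q * t) ^ 2 := pow_le_pow_left₀ (by positivity) hs1 2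
    have d1 : (Q * t) ^ 2 * (12 * η') ≤ ρ / 4 := by
      have h1 := ha1 L l4
      have h2 : (Q * t) ^ 2 * (12 * η') ≤
          (Q * (1.25 * L)) ^ 2 * (12 * ((1 + 2 * C) * Real.exp (-(1 / 25000 * L)))) := by
        apply mul_le_mul
        · apply pow_le_pow_left₀ (by positivity)
          exact mul_le_mul_of_nonneg_left hAL hQ0.le
        · linarith
        · positivity
        · positivity
      refine h2.trans (le_of_eq_of_le ?_ h1)
      ring
    have d2 : (Q * t) ^ 2 * 1 ≤ ρ / 4 * M := by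
      have h1 := ha2 t (l5.trans hLA)
      rw [hM, mul_one, mul_div_assoc', le_div_iff₀ (by positivity)]
      have h2 : (Q * t) ^ 2 * (2 * 3 ^ m) ≤ (Q * t) ^ 2 * (2 * (Real.exp 40 * Real.exp (0.03 * t))) :=
        mul_le_mul_of_nonneg_left (by linarith) (by positivity)
      have h3 : (Q * t) ^ 2 * (2 * (Real.exp 40 * Real.exp (0.03 * t)))
          = (Q ^ 2 * (8 * Real.exp 40) * t ^ 2 * Real.exp (-(0.97 * t))) * (Real.exp t / 4) := by
        have h4 : Real.exp (0.03 * t) = Real.exp (-(0.97 * t)) * Real.exp t := by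
          rw [← Real.exp_add]; congr 1; ring
        rw [h4]
        ring
      rw [h3] at h2
      have h5 : (Q ^ 2 * (8 * Real.exp 40) * t ^ 2 * Real.exp (-(0.97 * t))) * (Real.exp t / 4)
          ≤ ρ * (Real.exp t / 4) := mul_le_mul_of_nonneg_right h1 (by positivity)
      rw [hexp] at h5 h2
      linarith
    calc ((s : ℝ) + 1) ^ 2 * (12 * η' * M + 1) ≤ (Q * t) ^ 2 * (12 * η' * M + 1) :=
          mul_le_mul_of_nonneg_right hsq (by positivity)
      _ = (Q * t) ^ 2 * (12 * η') * M + (Q * t) ^ 2 * 1 := by ring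
      _ ≤ ρ / 4 * M + ρ / 4 * M := by
          apply add_le_add _ d2
          exact mul_le_mul_of_nonneg_right d1 hM0.le
  -- third part
  have b3 : ((F ∪ FY z).card : ℝ) * K * Real.exp (0.951 * t) ≤ ρ / 4 * M := by
    have h1 := ha3 t (l6.trans hLA)
    have hc : ((F ∪ FY z).card : ℝ) ≤ (F.card + 3) * Real.exp (0.001 * t) := by
      have h2 : (F ∪ FY z).card ≤ F.card + (2 * z + 1) := by
        refine (card_union_le _ _).trans ?_
        apply Nat.add_le_add_left
        unfold FY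
        rw [Int.card_Icc]
        omega
      have h3 : ((F ∪ FY z).card : ℝ) ≤ F.card + (2 * z + 1) := by exact_mod_cast h2
      have h4 : Real.exp (L / 1000) ≤ Real.exp (0.001 * t) := Real.exp_le_exp.2 (by linarith)
      have h5 : 1 ≤ Real.exp (0.001 * t) := Real.one_le_exp (by positivity)
      have h6 : (0 : ℝ) ≤ F.card := Nat.cast_nonneg _
      nlinarith
    rw [hM, mul_div_assoc', le_div_iff₀ (by positivity)]
    have h2 : ((F ∪ FY z).card : ℝ) * K * Real.exp (0.951 * t) * (2 * 3 ^ m) ≤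
        ((F.card + 3) * Real.exp (0.001 * t)) * K * Real.exp (0.951 * t)
          * (2 * (Real.exp 40 * Real.exp (0.03 * t))) := by
      apply mul_le_mul
      · apply mul_le_mul_of_nonneg_right _ (Real.exp_pos _).le
        exact mul_le_mul_of_nonneg_right hc hK.le
      · linarith
      · positivity
      · positivity
    have h3 : ((F.card + 3) * Real.exp (0.001 * t)) * K * Real.exp (0.951 * t)
          * (2 * (Real.exp 40 * Real.exp (0.03 * t)))
        = (8 * Real.exp 40 * (K * (F.card + 3)) * Real.exp (-(0.018 * t))) * (Real.exp t / 4) := by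
      have h4 : Real.exp (0.001 * t) * Real.exp (0.951 * t) * Real.exp (0.03 * t)
          = Real.exp (-(0.018 * t)) * Real.exp t := by
        rw [← Real.exp_add, ← Real.exp_add, ← Real.exp_add]; congr 1; ring
      calc _ = 2 * Real.exp 40 * (K * (F.card + 3)) *
            (Real.exp (0.001 * t) * Real.exp (0.951 * t) * Real.exp (0.03 * t)) := by ring
        _ = _ := by rw [h4]; ring
    rw [h3] at h2
    have h5 : 8 * Real.exp 40 * (K * (F.card + 3)) * Real.exp (-(0.018 * t)) ≤ ρ := by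
      refine le_trans ?_ h1
      apply mul_le_mul_of_nonneg_right _ (Real.exp_pos _).le
      have h6 : (1 : ℝ) ≤ t ^ 2 := by nlinarith
      have h7 : 0 ≤ 8 * Real.exp 40 * (K * (F.card + 3)) := by positivity
      nlinarith
    have h6 : (8 * Real.exp 40 * (K * (F.card + 3)) * Real.exp (-(0.018 * t))) * (Real.exp t / 4)
        ≤ ρ * (Real.exp t / 4) := mul_le_mul_of_nonneg_right h5 (by positivity)
    rw [hexp] at h6 h2
    linarith
  calc ((cls (Cl d F r η) A (2 * A) m u v).card : ℝ)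
      ≤ (ρ / 4 * M + ρ / 4 * M) + ρ / 4 * M + ρ / 4 * M := by
        refine hcard.trans ?_
        exact add_le_add (add_le_add (c1.trans b1) c2) (c3.trans b3)
    _ = ρ * M := by ring

end Pool.Agent.Q74.SP
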