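import Pool.Agent.Q74.SP.NA4

/-! Integers with a residue close to a given number have small density, uniformly. -/

set_option autoImplicit false

namespace Pool.Agent.Q74.SP

open Finset Filter Topology

open Pool.Agent.H499R2.LT (Hit FY PF od RF Hit_unique lta_Hit_shift od_add lta_Hit_succ)

open Pool.Agent.H499R2.ND (Td Fwd PB cls mem_cls Td_two)

theorem near_two {d : ℤ} {F : Finset ℤ} {r η : ℝ} {n : ℤ} (hn : n ≠ 0) (hF : 2 * n ∉ F)
    (h : 2 * n ∈ Near d F r η) : n ∈ Near d F r η := by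
  obtain ⟨f, j, hH, hr⟩ := h
  rcases j with _ | j
  · exact absurd (by rw [← hH.1] at hH; exact hH.2.1) hF
  · have h1 := (lta_Hit_succ.1 hH).2
    rw [Td_two] at h1
    refine ⟨f, j, h1, ?_⟩
    have h2 : od d (j + 1) (2 * n) = od d j n := by
      rw [od, Td_two, if_pos (by omega), zero_add]
    rw [h2] at hr
    have hnR : (n : ℝ) ≠ 0 := by exact_mod_cast hn
    have h3 : Real.log ((2 * n : ℤ) : ℝ) = Real.log 2 + Real.log (n : ℝ) := by
      push_cast
      rw [Real.log_mul (by norm_num) hnR]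
    rw [h3] at hr
    have e : (j : ℝ) * Real.log 2 - od d j n * Real.log 3 - Real.log (n : ℝ) - r
        = ((j + 1 : ℕ) : ℝ) * Real.log 2 - od d j n * Real.log 3 - (Real.log 2 + Real.log (n : ℝ)) - r := by
      push_cast
      ring
    rw [e]
    exact hr

open Classical in
/-- odd elements -/
theorem odd_bound {S : Set ℤ} {ρ : ℝ} (hρ : 0 ≤ ρ) {W : ℕ}
    (h : ∀ A : ℝ, (W : ℝ) ≤ A → ((cls S A (2 * A) 0 1 0).card : ℝ) ≤ ρ * A) :
    ∀ N : ℕ, (((Icc 1 N).filter fun n : ℕ => (n : ℤ) ∈ S ∧ n % 2 = 1).card : ℝ) ≤ 2 * W + 2 * ρ * N := by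
  intro N
  induction N using Nat.strong_induction_on with
  | _ N ih =>
    rcases le_or_gt N (2 * W) with hsm | hbig
    · have h1 : (((Icc 1 N).filter fun n : ℕ => (n : ℤ) ∈ S ∧ n % 2 = 1).card : ℝ) ≤ N := by
        have := card_filter_le (Icc 1 N) fun n : ℕ => (n : ℤ) ∈ S ∧ n % 2 = 1
        rw [Nat.card_Icc, Nat.add_sub_cancel] at this
        exact_mod_cast this
      have h2 : (N : ℝ) ≤ 2 * W := by exact_mod_cast hsm
      have h3 : 0 ≤ 2 * ρ * N := by positivity
      linarith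
    · have hN : 1 ≤ N := by omega
      have h1 := ih (N / 2) (by omega)
      have h2 := h (((N : ℝ) + 1) / 2) (by
        have : 2 * (W : ℝ) ≤ N := by exact_mod_cast hbig.le
        linarith)
      rw [show 2 * (((N : ℝ) + 1) / 2) = N + 1 by ring] at h2
      have hsub : ((Icc 1 N).filter fun n : ℕ => (n : ℤ) ∈ S ∧ n % 2 = 1).card ≤
          ((Icc 1 (N / 2)).filter fun n : ℕ => (n : ℤ) ∈ S ∧ n % 2 = 1).card
            + (cls S (((N : ℝ) + 1) / 2) (N + 1) 0 1 0).card := by
        have h3 : (Icc 1 N).filter (fun n : ℕ => (n : ℤ) ∈ S ∧ n % 2 = 1) ⊆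
            (Icc 1 (N / 2)).filter (fun n : ℕ => (n : ℤ) ∈ S ∧ n % 2 = 1) ∪
              (cls S (((N : ℝ) + 1) / 2) (N + 1) 0 1 0).image Int.toNat := by
          intro n hn
          rw [mem_filter, mem_Icc] at hn
          rw [mem_union, mem_filter, mem_Icc, mem_image]
          rcases le_or_gt n (N / 2) with h4 | h4
          · exact Or.inl ⟨⟨hn.1.1, h4⟩, hn.2⟩
          · right
            refine ⟨(n : ℤ), ?_, Int.toNat_natCast n⟩
            rw [mem_cls]
            refine ⟨⟨?_, ?_⟩, ?_, hn.2.1, by simp⟩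
            · rw [Int.cast_natCast]
              have : N + 1 ≤ 2 * n := by omega
              have h5 : (N : ℝ) + 1 ≤ 2 * n := by exact_mod_cast this
              linarith
            · rw [Int.cast_natCast]
              exact_mod_cast Nat.lt_succ_of_le hn.1.2
            · have h6 := hn.2.2
              exact ⟨((n / 2 : ℕ) : ℤ), by omega⟩
        refine (card_le_card h3).trans ((card_union_le _ _).trans ?_)
        exact Nat.add_le_add_left card_image_le _
      have h4 : (((Icc 1 N).filter fun n : ℕ => (n : ℤ) ∈ S ∧ n % 2 = 1).card : ℝ) ≤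
          (2 * W + 2 * ρ * (N / 2 : ℕ)) + ρ * (((N : ℝ) + 1) / 2) := by
        refine le_trans (by exact_mod_cast hsub) (add_le_add h1 h2)
      have h5 : ((N / 2 : ℕ) : ℝ) ≤ (N : ℝ) / 2 := Nat.cast_div_le
      have h6 : (1 : ℝ) ≤ N := by exact_mod_cast hN
      have h7 : 2 * ρ * (N / 2 : ℕ) ≤ 2 * ρ * ((N : ℝ) / 2) := mul_le_mul_of_nonneg_left h5 (by positivity)
      have h8 : ρ * (((N : ℝ) + 1) / 2) ≤ ρ * N := mul_le_mul_of_nonneg_left (by linarith) hρ
      linarith

open Classical in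
/-- INTEGERS WITH A RESIDUE CLOSE TO A GIVEN NUMBER ARE RARE, uniformly -/
theorem near_rare {d : ℤ} (hd : Odd d) (hd3 : IsCoprime d 3) (F : Finset ℤ) {ε : ℝ} (hε : 0 < ε) :
    ∃ η : ℝ, 0 < η ∧ ∃ N0 : ℕ, ∀ r : ℝ, ∀ N : ℕ, N0 ≤ N →
      (((Icc 1 N).filter fun n : ℕ => (n : ℤ) ∈ Near d F r η).card : ℝ) ≤ ε * N := by
  obtain ⟨K, hK, hup⟩ := scales_up hd hd3
  set ρ : ℝ := ε / 16 with hρ
  have hρ0 : 0 < ρ := by positivity
  obtain ⟨L, hL1, hL2, η, hη, hbase⟩ := base hd hd3 F hρ0 (K / ρ)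
  have hLpos : 0 < L := by linarith
  have hKL : K / L ≤ ρ := by
    rw [div_le_iff₀ hLpos]
    rw [div_le_iff₀ hρ0] at hL1
    linarith
  set W : ℕ := ⌈Real.exp L⌉₊ with hW
  have hWge : Real.exp L ≤ W := Nat.le_ceil _
  have hcls : ∀ r A : ℝ, (W : ℝ) ≤ A → ((cls (Near d F r η) A (2 * A) 0 1 0).card : ℝ) ≤ ρ * A := by
    intro r A hA
    have hA0 : 0 < A := lt_of_lt_of_le (Real.exp_pos L) (hWge.trans hA)
    have hlog : L ≤ Real.log A := by
      rw [Real.le_log_iff_exp_le hA0]
      exact hWge.trans hA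
    have h1 := hup L hL2 (Cl d F r η) (cl_fwd d F r η) ρ hρ0.le (hbase r) A hA0 hlog 0 (by
      push_cast
      linarith [show (0 : ℝ) ^ 2 = 0 by norm_num]) 1 0 isCoprime_one_left
    have h2 : (cls (Near d F r η) A (2 * A) 0 1 0).card ≤ (cls (Cl d F r η) A (2 * A) 0 1 0).card := by
      apply card_le_card
      intro x hx
      rw [mem_cls] at hx ⊢
      exact ⟨hx.1, hx.2.1, near_sub_cl d F r η hx.2.2.1, hx.2.2.2⟩
    have h3 : ((cls (Near d F r η) A (2 * A) 0 1 0).card : ℝ) ≤ (cls (Cl d F r η) A (2 * A) 0 1 0).card := by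
      exact_mod_cast h2
    refine h3.trans (h1.trans ?_)
    rw [pow_zero, mul_one]
    nlinarith
  set c : ℝ := 2 * W + F.card with hc
  have hc0 : 0 ≤ c := by positivity
  -- all elements
  have hall : ∀ r : ℝ, ∀ N : ℕ, (((Icc 1 N).filter fun n : ℕ => (n : ℤ) ∈ Near d F r η).card : ℝ)
      ≤ c * (Nat.log 2 N + 1) + 4 * ρ * N := by
    intro r N
    induction N using Nat.strong_induction_on with
    | _ N ih =>
      rcases Nat.eq_zero_or_pos N with rfl | hN
      · simp only [zero_lt_one, Icc_eq_empty_of_lt, filter_empty, card_empty, Nat.cast_zero]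
        positivity
      have hodd := odd_bound (S := Near d F r η) hρ0.le (hcls r) N
      have hsub : (Icc 1 N).filter (fun n : ℕ => (n : ℤ) ∈ Near d F r η) ⊆
          ((Icc 1 N).filter (fun n : ℕ => (n : ℤ) ∈ Near d F r η ∧ n % 2 = 1) ∪
            ((Icc 1 (N / 2)).filter (fun n : ℕ => (n : ℤ) ∈ Near d F r η)).image (fun n => 2 * n)) ∪
              F.image Int.toNat := by
        intro n hn
        rw [mem_filter, mem_Icc] at hn
        rw [mem_union, mem_union, mem_filter, mem_Icc, mem_image, mem_image]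
        by_cases h1 : n % 2 = 1
        · exact Or.inl (Or.inl ⟨hn.1, hn.2, h1⟩)
        · obtain ⟨n', rfl⟩ : ∃ n', n = 2 * n' := ⟨n / 2, by omega⟩
          by_cases hF : ((2 * n' : ℕ) : ℤ) ∈ F
          · exact Or.inr ⟨_, hF, Int.toNat_natCast _⟩
          · refine Or.inl (Or.inr ⟨n', ?_, rfl⟩)
            rw [mem_filter, mem_Icc]
            refine ⟨⟨by omega, by omega⟩, ?_⟩
            have h2 := hn.2
            push_cast at h2 hF
            exact near_two (by omega) hF h2
      have h1 : ((Icc 1 N).filter (fun n : ℕ => (n : ℤ) ∈ Near d F r η)).card ≤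
          (((Icc 1 N).filter (fun n : ℕ => (n : ℤ) ∈ Near d F r η ∧ n % 2 = 1)).card +
            ((Icc 1 (N / 2)).filter (fun n : ℕ => (n : ℤ) ∈ Near d F r η)).card) + F.card := by
        refine (card_le_card hsub).trans ((card_union_le _ _).trans ?_)
        refine Nat.add_le_add ((card_union_le _ _).trans ?_) card_image_le
        exact Nat.add_le_add_left card_image_le _
      have h2 : (((Icc 1 N).filter (fun n : ℕ => (n : ℤ) ∈ Near d F r η)).card : ℝ) ≤
          ((((Icc 1 N).filter (fun n : ℕ => (n : ℤ) ∈ Near d F r η ∧ n % 2 = 1)).card : ℝ) +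
            (((Icc 1 (N / 2)).filter (fun n : ℕ => (n : ℤ) ∈ Near d F r η)).card : ℝ)) + F.card := by
        exact_mod_cast h1
      have h3 := ih (N / 2) (by omega)
      have h5 : ((N / 2 : ℕ) : ℝ) ≤ (N : ℝ) / 2 := Nat.cast_div_le
      have h7 : 4 * ρ * (N / 2 : ℕ) ≤ 4 * ρ * ((N : ℝ) / 2) := mul_le_mul_of_nonneg_left h5 (by positivity)
      rcases le_or_gt N 1 with h8 | h8
      · have hN1 : N = 1 := by omega
        subst hN1
        have h9 : ((Icc 1 (1 / 2)).filter (fun n : ℕ => (n : ℤ) ∈ Near d F r η)).card = 0 := by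
          simp
        rw [h9] at h2
        norm_num at h2 hodd ⊢
        linarith
      · have h9 : Nat.log 2 N = Nat.log 2 (N / 2) + 1 := Nat.log_of_one_lt_of_le (by norm_num) h8
        rw [h9]
        push_cast
        nlinarith
  -- conclusion
  have hlim : Tendsto (fun N : ℕ => c * (Nat.log 2 N + 1) / (N : ℝ)) atTop (𝓝 0) := by
    have h1 : Tendsto (fun N : ℕ => Real.log N / (N : ℝ)) atTop (𝓝 0) := by
      have := (Real.isLittleO_log_id_atTop.tendsto_div_nhds_zero).comp tendsto_natCast_atTop_atTop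
      exact this
    have h2 : Tendsto (fun N : ℕ => (1 : ℝ) / N) atTop (𝓝 0) := tendsto_const_div_atTop_nhds_zero_nat 1
    have h3 := ((h1.mul_const (1 / Real.log 2)).add h2).const_mul c
    rw [zero_mul, add_zero, mul_zero] at h3
    refine squeeze_zero (fun N => by positivity) (fun N => ?_) h3
    have h4 : (Nat.log 2 N : ℝ) ≤ Real.log N / Real.log 2 := by
      have := Real.natLog_le_logb N 2
      unfold Real.logb at this
      exact_mod_cast this
    have h5 : c * (Real.log N / N * (1 / Real.log 2) + 1 / N) = c * (Real.log N / Real.log 2 + 1) / N := by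
      ring
    rw [h5]
    apply div_le_div_of_nonneg_right _ (Nat.cast_nonneg N)
    exact mul_le_mul_of_nonneg_left (by linarith) hc0
  obtain ⟨N0, hN0⟩ := eventually_atTop.1 (hlim.eventually (gt_mem_nhds (show 0 < ε / 2 by positivity)))
  refine ⟨η, hη, max N0 1, fun r N hN => ?_⟩
  have hN1 : 1 ≤ N := (le_max_right _ _).trans hN
  have hNpos : (0 : ℝ) < N := by exact_mod_cast hN1
  have h1 := hN0 N ((le_max_left _ _).trans hN)
  rw [div_lt_iff₀ hNpos] at h1
  have h2 := hall r N
  rw [hρ] at h2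
  linarith

end Pool.Agent.Q74.SP
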