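import Pool.Agent.Q74.SP.Slow

/-! Vanishing mean values. -/

set_option autoImplicit false

namespace Pool.Agent.Q74.SP

open Finset Filter Topology

theorem irr : Irrational (Real.log 2 / Real.log 3) := by
  rintro ⟨q, hq⟩
  have hl2 : 0 < Real.log 2 := Real.log_pos (by norm_num)
  have hl3 : 0 < Real.log 3 := Real.log_pos (by norm_num)
  have hqpos : 0 < (q : ℝ) := by rw [hq]; positivity
  have hq0 : 0 < q := by exact_mod_cast hqpos
  have hnum : 0 < q.num := Rat.num_pos.2 hq0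
  obtain ⟨n, hn⟩ := Int.eq_ofNat_of_zero_le hnum.le
  have hqd : (q : ℝ) = (n : ℝ) / q.den := by
    have := Rat.cast_def (K := ℝ) q
    rw [this, hn]
    simp
  have hden : (0 : ℝ) < q.den := by exact_mod_cast q.den_pos
  rw [hqd, div_eq_div_iff hden.ne' hl3.ne'] at hq
  have h1 : Real.log ((3 : ℝ) ^ n) = Real.log ((2 : ℝ) ^ q.den) := by
    rw [Real.log_pow, Real.log_pow]
    linarith
  have h2 : (3 : ℝ) ^ n = (2 : ℝ) ^ q.den :=
    Real.log_injOn_pos (Set.mem_Ioi.2 (by positivity)) (Set.mem_Ioi.2 (by positivity)) h1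
  have h3 : (3 : ℕ) ^ n = 2 ^ q.den := by exact_mod_cast h2
  have h4 : 2 ∣ (3 : ℕ) ^ n := by
    rw [h3]
    exact dvd_pow_self 2 q.den_pos.ne'
  have h5 := Nat.Prime.dvd_of_dvd_pow Nat.prime_two h4
  omega

theorem norm_e_sub_one_le (x : ℝ) : ‖e x - 1‖ ≤ 2 * Real.pi * |x| := by
  rw [norm_e_sub_one]
  have h := Real.abs_sin_le_abs (x := Real.pi * x)
  rw [abs_mul, abs_of_pos Real.pi_pos] at h
  linarith

theorem pair {θ φ : ℝ}
    (hres : ∀ ω : ℝ, ¬ ((∃ l : ℤ, θ - ω * Real.log 2 = l) ∧ (∃ m : ℤ, φ + ω * Real.log 3 = m)))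
    {ε : ℝ} (hε : 0 < ε) : ∃ a b : ℕ, |a * Real.log 2 - b * Real.log 3| < ε ∧ 1 / 16 ≤ ‖e (a * θ + b * φ) - 1‖ := by
  have hl2 : 0 < Real.log 2 := Real.log_pos (by norm_num)
  have hl3 : 0 < Real.log 3 := Real.log_pos (by norm_num)
  set β : ℝ := Real.log 2 / Real.log 3 with hβ
  have hβ3 : β * Real.log 3 = Real.log 2 := by rw [hβ]; field_simp
  have hβ0 : 0 < β := by positivity
  set ε' : ℝ := min (ε / Real.log 3) (min 1 (1 / (16 * (2 * Real.pi * (|φ| + 1))))) with hε'
  have hpi := Real.pi_pos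
  have hφ0 := abs_nonneg φ
  have hε'0 : 0 < ε' := lt_min (by positivity) (lt_min one_pos (by positivity))
  obtain ⟨a, ⟨p, hp⟩, ha⟩ := kron (β := β) (θ := θ + β * φ) irr (by
    intro m l hml
    apply hres ((m - φ) / Real.log 3)
    refine ⟨⟨l, ?_⟩, ⟨m, ?_⟩⟩
    · have h1 : (m - φ) / Real.log 3 * Real.log 2 = (m - φ) * β := by rw [hβ]; ring
      rw [h1]
      linarith
    · field_simp
      ring) hε'0
  have hp0 : 0 ≤ p := by
    have h1 : (p : ℝ) > -1 := by
      have h2 := (abs_lt.1 hp).2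
      have h3 : ε' ≤ 1 := (min_le_right _ _).trans (min_le_left _ _)
      have h4 : 0 ≤ a * β := by positivity
      linarith
    have h2 : (-1 : ℤ) < p := by exact_mod_cast h1
    omega
  obtain ⟨b, rfl⟩ := Int.eq_ofNat_of_zero_le hp0
  refine ⟨a, b, ?_, ?_⟩
  · have e1 : a * Real.log 2 - b * Real.log 3 = (a * β - b) * Real.log 3 := by
      rw [sub_mul, mul_assoc, hβ3]
    rw [e1, abs_mul, abs_of_pos hl3]
    have h1 : |a * β - b| < ε / Real.log 3 := by
      have : |a * β - b| < ε' := by simpa using hp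
      exact this.trans_le (min_le_left _ _)
    rw [lt_div_iff₀ hl3] at h1
    exact h1
  · have e1 : e (a * (θ + β * φ)) - 1 = (e (a * θ + b * φ) - 1)
        + e (a * θ + b * φ) * (e ((a * β - b) * φ) - 1) := by
      rw [show a * (θ + β * φ) = (a * θ + b * φ) + (a * β - b) * φ by ring, e_add]
      ring
    have h1 : ‖e (a * (θ + β * φ)) - 1‖ ≤ ‖e (a * θ + b * φ) - 1‖ + ‖e ((a * β - b) * φ) - 1‖ := by
      rw [e1]
      refine (norm_add_le _ _).trans ?_
      rw [norm_mul, norm_e, one_mul]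
    have h2 := norm_e_sub_one_le ((a * β - b) * φ)
    have h3 : |a * β - b| < 1 / (16 * (2 * Real.pi * (|φ| + 1))) := by
      have : |a * β - b| < ε' := by simpa using hp
      exact this.trans_le ((min_le_right _ _).trans (min_le_right _ _))
    have h4 : 2 * Real.pi * |(a * β - b) * φ| ≤ 1 / 16 := by
      rw [abs_mul]
      rw [lt_div_iff₀ (by positivity)] at h3
      have h5 := abs_nonneg (a * β - b)
      have h6 : |a * β - b| * |φ| ≤ |a * β - b| * (|φ| + 1) := mul_le_mul_of_nonneg_left (by linarith) h5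
      nlinarith
    linarith

/-- **Vanishing mean values.** -/
theorem null {G : ℤ → ℂ} {s : ℤ} {θ φ : ℝ} (h : Coc G s θ φ)
    (hres : ∀ ω : ℝ, ¬ ((∃ l : ℤ, θ - ω * Real.log 2 = l) ∧ (∃ m : ℤ, φ + ω * Real.log 3 = m))) :
    Tendsto (mean (fun n => G (s * n))) atTop (𝓝 0) := by
  obtain ⟨H, hH⟩ := h.bdd
  have hH0 : 0 ≤ H := (norm_nonneg _).trans (hH 0)
  set m := mean (fun n => G (s * n)) with hm
  have hmH : ∀ N, ‖m N‖ ≤ H := fun N => mean_norm (fun n => hH _) N
  rw [Metric.tendsto_atTop']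
  intro ε hε
  obtain ⟨a, b, hab, hfar⟩ := pair hres (ε := ε / (64 * (H + 1))) (by positivity)
  have h2 := step_pow (by norm_num) (two_step h) a
  have h3 := step_pow (by norm_num) (three_step h) b
  have h2' := (Metric.tendsto_atTop.1 h2) (ε / 128) (by positivity)
  have h3' := (Metric.tendsto_atTop.1 h3) (ε / 128) (by positivity)
  obtain ⟨N2, hN2⟩ := h2'
  obtain ⟨N3, hN3⟩ := h3'
  refine ⟨max (max N2 N3) 1, fun N hN => ?_⟩
  have hNN2 : N2 ≤ N := ((le_max_left _ _).trans (le_max_left _ _)).trans hN.le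
  have hNN3 : N3 ≤ N := ((le_max_right _ _).trans (le_max_left _ _)).trans hN.le
  have hN1 : 1 ≤ N := (le_max_right _ _).trans hN.le
  have h4 := hN2 N hNN2
  have h5 := hN3 N hNN3
  rw [dist_zero_right] at h4 h5 ⊢
  -- the places `2 ^ a N` and `3 ^ b N` are close
  have hclose : ‖m (2 ^ a * N) - m (3 ^ b * N)‖ ≤ 2 * H * (ε / (64 * (H + 1))) := by
    have hN0 : (0 : ℝ) < N := by exact_mod_cast hN1
    have key : ∀ P Q : ℕ, 1 ≤ P → P ≤ Q → |Real.log Q - Real.log P| < ε / (64 * (H + 1)) →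
        ‖m (Q * N) - m (P * N)‖ ≤ 2 * H * (ε / (64 * (H + 1))) := by
      intro P Q hP hPQ hlog
      have h6 := mean_close (g := fun n => G (s * n)) (H := H) (fun n => hH _)
        (P := P * N) (Q := Q * N) (Nat.mul_pos hP hN1) (Nat.mul_le_mul_right N hPQ)
      refine h6.trans ?_
      apply mul_le_mul_of_nonneg_left _ (by positivity)
      have hP0 : (0 : ℝ) < P := by exact_mod_cast hP
      have hQ0 : (0 : ℝ) < Q := by exact_mod_cast (by omega : 0 < Q)
      have e1 : (((P * N : ℕ) : ℝ)) / ((Q * N : ℕ) : ℝ) = Real.exp (-(Real.log Q - Real.log P)) := by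
        push_cast
        rw [neg_sub, Real.exp_sub, Real.exp_log hP0, Real.exp_log hQ0]
        field_simp
      rw [e1]
      have h7 := Real.add_one_le_exp (-(Real.log Q - Real.log P))
      have h8 := le_abs_self (Real.log Q - Real.log P)
      linarith
    have hl : ∀ (c n : ℕ), Real.log ((c ^ n : ℕ) : ℝ) = n * Real.log c := by
      intro c n
      push_cast
      rw [Real.log_pow]
    rcases le_total (2 ^ a) (3 ^ b) with h6 | h6
    · rw [norm_sub_rev]
      apply key _ _ Nat.one_le_two_pow h6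
      rw [hl, hl, abs_sub_comm]
      exact_mod_cast hab
    · apply key _ _ (Nat.one_le_pow _ _ (by norm_num)) h6
      rw [hl, hl]
      exact_mod_cast hab
  have e1 : (e (a * θ + b * φ) - 1) * m N = e (b * φ) * (e (a * θ) * m N - m (2 ^ a * N)
      + (m (2 ^ a * N) - m (3 ^ b * N)) + (m (3 ^ b * N) - e (b * -φ) * m N)) := by
    have e2 : e (b * φ) * e (b * -φ) = 1 := by
      rw [← e_add, show b * φ + b * -φ = 0 by ring, e_zero]
    have e3 : e (b * φ) * (e (a * θ) * m N - m (2 ^ a * N)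
      + (m (2 ^ a * N) - m (3 ^ b * N)) + (m (3 ^ b * N) - e (b * -φ) * m N))
        = (e (a * θ) * e (b * φ)) * m N - (e (b * φ) * e (b * -φ)) * m N := by ring
    rw [e3, e2, ← e_add]
    ring
  have h6 : ‖e (a * θ + b * φ) - 1‖ * ‖m N‖ ≤ ε / 128 + 2 * H * (ε / (64 * (H + 1))) + ε / 128 := by
    rw [← norm_mul, e1, norm_mul, norm_e, one_mul]
    refine (norm_add_le _ _).trans (add_le_add ((norm_add_le _ _).trans (add_le_add ?_ hclose)) h5.le)
    rw [norm_sub_rev]
    exact h4.le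
  have h7 : 2 * H * (ε / (64 * (H + 1))) < ε / 32 := by
    have e4 : 2 * H * (ε / (64 * (H + 1))) = ε / 32 * (H / (H + 1)) := by field_simp; ring
    rw [e4]
    have h8 : H / (H + 1) < 1 := by
      rw [div_lt_one (by linarith)]
      linarith
    nlinarith
  have h8 : 1 / 16 * ‖m N‖ ≤ ‖e (a * θ + b * φ) - 1‖ * ‖m N‖ :=
    mul_le_mul_of_nonneg_right hfar (norm_nonneg _)
  linarith

/-- the twisted mean values -/
theorem null_beta {G : ℤ → ℂ} {s : ℤ} {θ φ β : ℝ} (h : Coc G s θ φ) (hβ : ∀ n : ℤ, β ≠ n) :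
    Tendsto (mean (fun n => G (s * n) * e (β * n))) atTop (𝓝 0) := by
  obtain ⟨H, hH⟩ := h.bdd
  have hH0 : 0 ≤ H := (norm_nonneg _).trans (hH 0)
  have h0 : e β ≠ 1 := fun h => by
    obtain ⟨n, hn⟩ := e_eq_one h
    exact hβ n hn
  have hpos : 0 < ‖e β - 1‖ := norm_pos_iff.2 (sub_ne_zero.2 h0)
  have h1 := h.aff 0 s
  set g : ℕ → ℂ := fun n => G (s * n) * e (β * n) with hg
  have hgH : ∀ n, ‖g n‖ ≤ H := by
    intro n
    rw [hg]
    simp only
    rw [norm_mul, norm_e, mul_one]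
    exact hH _
  have hb : ∀ N : ℕ, 1 ≤ N → ‖mean g N‖ ≤ (2 * H / N + (∑ n ∈ Icc 1 N,
      ‖G (3 ^ 0 * (s * n) + s) - e (-((0 : ℕ) * φ)) * G (s * n)‖) / N) / ‖e β - 1‖ := by
    intro N hN
    have hN0 : (0 : ℝ) < N := by exact_mod_cast hN
    rw [le_div_iff₀ hpos, mul_comm, ← norm_mul]
    have e1 : ∑ n ∈ Icc 1 N, g (n + 1) = ∑ n ∈ Icc 1 N, g n + (g (N + 1) - g 1) := by
      clear hN hN0
      induction N with
      | zero => simp
      | succ N ih =>
        rw [sum_Icc_succ_top (by omega), ih, sum_Icc_succ_top (by omega)]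
        ring
    have e2 : ∀ n ∈ Icc 1 N, g (n + 1) = e β * g n + (G (3 ^ 0 * (s * n) + s) - e (-((0 : ℕ) * φ)) * G (s * n))
        * e (β * (n + 1)) := by
      intro n _
      rw [hg]
      simp only
      rw [show (-((0 : ℕ) * φ) : ℝ) = 0 by push_cast; ring, e_zero,
        show 3 ^ 0 * (s * (n : ℤ)) + s = s * ((n + 1 : ℕ) : ℤ) by push_cast; ring]
      push_cast
      rw [show β * ((n : ℝ) + 1) = β * n + β by ring, e_add]
      ring
    have e3 : (e β - 1) * mean g N = ((g (N + 1) - g 1) - ∑ n ∈ Icc 1 N,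
        (G (3 ^ 0 * (s * n) + s) - e (-((0 : ℕ) * φ)) * G (s * n)) * e (β * (n + 1))) / N := by
      unfold mean
      rw [sum_congr rfl e2, sum_add_distrib, ← mul_sum] at e1
      rw [← mul_div_assoc]
      congr 1
      rw [sub_mul, one_mul]
      linear_combination e1
    rw [e3, norm_div, Complex.norm_natCast, ← add_div]
    apply div_le_div_of_nonneg_right _ hN0.le
    refine (norm_sub_le _ _).trans (add_le_add ?_ ?_)
    · refine (norm_sub_le _ _).trans ?_
      linarith [hgH (N + 1), hgH 1]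
    · refine (norm_sum_le _ _).trans (sum_le_sum fun n _ => ?_)
      rw [norm_mul, norm_e, mul_one]
  refine squeeze_zero_norm' (eventually_atTop.2 ⟨1, hb⟩) ?_
  have h2 : Tendsto (fun N : ℕ => 2 * H / (N : ℝ)) atTop (𝓝 0) :=
    tendsto_const_nhds.div_atTop tendsto_natCast_atTop_atTop
  have h3 := (h2.add h1).div_const ‖e β - 1‖
  simpa using h3

end Pool.Agent.Q74.SP
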