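import Pool.Agent.Q74.SP.Twist

/-! Periodic multipliers of functions which vary slowly in the mean. -/

set_option autoImplicit false

namespace Pool.Agent.Q74.SP

open Finset Filter Topology

theorem mean_sub (u v : ℕ → ℂ) (N : ℕ) : mean (fun n => u n - v n) N = mean u N - mean v N := by
  unfold mean
  rw [sum_sub_distrib, sub_div]

/-- shifts do not change mean values -/
theorem mean_shift {u : ℕ → ℂ} {H : ℝ} (hH : ∀ n, ‖u n‖ ≤ H) (j : ℕ) :
    Tendsto (fun N => mean (fun n => u (n + j)) N - mean u N) atTop (𝓝 0) := by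
  have hH0 : 0 ≤ H := (norm_nonneg _).trans (hH 0)
  have hsum : ∀ N : ℕ, ‖∑ n ∈ Icc 1 N, u (n + j) - ∑ n ∈ Icc 1 N, u n‖ ≤ 2 * H * j := by
    induction j with
    | zero => intro N; simp
    | succ j ih =>
      intro N
      have h1 : ∀ N : ℕ, ∑ n ∈ Icc 1 N, u (n + (j + 1)) - ∑ n ∈ Icc 1 N, u (n + j)
          = u (N + (j + 1)) - u (j + 1) := by
        intro N
        induction N with
        | zero => simp
        | succ N ih =>
          rw [sum_Icc_succ_top (by omega), sum_Icc_succ_top (by omega)]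
          have e : N + 1 + j = N + (j + 1) := by ring
          rw [e]
          linear_combination ih
      have h2 : ∑ n ∈ Icc 1 N, u (n + (j + 1)) - ∑ n ∈ Icc 1 N, u n
          = (∑ n ∈ Icc 1 N, u (n + j) - ∑ n ∈ Icc 1 N, u n) + (u (N + (j + 1)) - u (j + 1)) := by
        rw [← h1 N]
        ring
      rw [h2]
      refine (norm_add_le _ _).trans ?_
      have h3 := ih N
      have h4 : ‖u (N + (j + 1)) - u (j + 1)‖ ≤ 2 * H := by
        refine (norm_sub_le _ _).trans ?_
        linarith [hH (N + (j + 1)), hH (j + 1)]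
      push_cast
      linarith
  refine squeeze_zero_norm (a := fun N : ℕ => 2 * H * j / N) (fun N => ?_) ?_
  · unfold mean
    rw [← sub_div, norm_div, Complex.norm_natCast]
    exact div_le_div_of_nonneg_right (hsum N) (Nat.cast_nonneg N)
  · exact tendsto_const_nhds.div_atTop tendsto_natCast_atTop_atTop

/-- bounded functions multiplied by a constant different from `1` under a shift -/
theorem null_shift {u : ℕ → ℂ} {H : ℝ} (hH : ∀ n, ‖u n‖ ≤ H) {j : ℕ} {c : ℂ} (hc : c ≠ 1)
    (h : DZ (fun n => u (n + j) - c * u n)) : Tendsto (mean u) atTop (𝓝 0) := by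
  have h1 := dz_mean h
  have h2 := mean_shift hH j
  have h3 := (h1.sub h2).const_mul ((1 - c)⁻¹)
  rw [sub_zero, mul_zero] at h3
  refine h3.congr fun N => ?_
  rw [mean_sub, mean_mul]
  have : 1 - c ≠ 0 := sub_ne_zero.2 hc.symm
  field_simp
  ring

theorem dz_mul {u v : ℕ → ℂ} {H : ℝ} (hH : ∀ n, ‖v n‖ ≤ H) (hu : DZ u) : DZ (fun n => v n * u n) := by
  have hH0 : 0 ≤ H := (norm_nonneg _).trans (hH 0)
  have h1 := hu.const_mul H
  rw [mul_zero] at h1
  refine squeeze_zero (fun N => div_nonneg (sum_nonneg fun _ _ => norm_nonneg _) (Nat.cast_nonneg N))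
    (fun N => ?_) h1
  rw [← mul_div_assoc]
  apply div_le_div_of_nonneg_right _ (Nat.cast_nonneg N)
  rw [mul_sum]
  apply sum_le_sum
  intro n _
  rw [norm_mul]
  exact mul_le_mul_of_nonneg_right (hH n) (norm_nonneg _)

/-- sums over a period -/
theorem sum_period {p : ℕ → ℂ} {Q : ℕ} (hp : ∀ n, p (n + Q) = p n) (n : ℕ) :
    ∑ h ∈ range Q, p (n + h) = ∑ h ∈ range Q, p h := by
  induction n with
  | zero => simp
  | succ n ih =>
    rw [← ih]
    have h1 : ∑ h ∈ range (Q + 1), p (n + h) = p n + ∑ h ∈ range Q, p (n + 1 + h) := by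
      rw [sum_range_succ']
      simp only [add_zero]
      rw [add_comm]
      congr 1
      apply sum_congr rfl
      intro h _
      congr 1
      ring
    have h2 : ∑ h ∈ range (Q + 1), p (n + h) = ∑ h ∈ range Q, p (n + h) + p n := by
      rw [sum_range_succ, hp]
    rw [h2] at h1
    linear_combination -h1

theorem sum_periods {p : ℕ → ℂ} {Q : ℕ} (hp : ∀ n, p (n + Q) = p n) (M : ℕ) :
    ∑ h ∈ range (Q * M), p h = M * ∑ h ∈ range Q, p h := by
  induction M with
  | zero => simp
  | succ M ih =>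
    rw [Nat.mul_succ, sum_range_add, ih, sum_period hp]
    push_cast
    ring

/-- **periodic multipliers** -/
theorem mean_per {p g : ℕ → ℂ} {Q : ℕ} (hQ : 1 ≤ Q) (hp : ∀ n, p (n + Q) = p n) {P H : ℝ}
    (hP : ∀ n, ‖p n‖ ≤ P) (hH : ∀ n, ‖g n‖ ≤ H) (hg : ∀ j : ℕ, DZ (fun n => g (n + j) - g n)) :
    Tendsto (fun N => mean (fun n => p n * g n) N - (∑ h ∈ range Q, p h) / Q * mean g N) atTop (𝓝 0) := by
  have hP0 : 0 ≤ P := (norm_nonneg _).trans (hP 0)
  have hQ0 : (Q : ℂ) ≠ 0 := by exact_mod_cast (by omega : Q ≠ 0)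
  have hb : ∀ n, ‖p n * g n‖ ≤ P * H := by
    intro n
    rw [norm_mul]
    exact mul_le_mul (hP n) (hH n) (norm_nonneg _) hP0
  have h1 : ∀ h : ℕ, Tendsto (fun N => mean (fun n => p n * g n) N - mean (fun n => p (n + h) * g n) N)
      atTop (𝓝 0) := by
    intro h
    have a1 := mean_shift hb h
    have a2 := dz_mean (dz_mul (fun n => hP (n + h)) (hg h))
    have a3 := a2.sub a1
    rw [sub_zero] at a3
    refine a3.congr fun N => ?_
    have e1 : mean (fun n => p (n + h) * (g (n + h) - g n)) N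
        = mean (fun n => p (n + h) * g (n + h)) N - mean (fun n => p (n + h) * g n) N := by
      rw [← mean_sub]
      congr 1
      funext n
      ring
    rw [e1]
    ring
  have h2 := (tendsto_finsetSum (range Q) fun h _ => h1 h).div_const (Q : ℂ)
  rw [sum_const_zero, zero_div] at h2
  refine h2.congr fun N => ?_
  rw [sum_sub_distrib, sum_const, card_range, nsmul_eq_mul]
  have e2 : ∑ h ∈ range Q, mean (fun n => p (n + h) * g n) N = (∑ h ∈ range Q, p h) * mean g N := by
    unfold mean
    rw [← sum_div, sum_comm, ← mul_div_assoc, mul_sum]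
    congr 1
    apply sum_congr rfl
    intro n _
    rw [← sum_mul, sum_period hp]
  rw [e2]
  field_simp

end Pool.Agent.Q74.SP
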