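import Pool.Agent.Q74.SP.LL3

/-! The number of integers up to `x` with a given hitting time: preparations. -/

set_option autoImplicit false

namespace Pool.Agent.Q74.SP

open Finset Filter Topology MeasureTheory

open Pool.Agent.H499R2.LT (gz gz_pos)

open Classical in
/-- number of positive integers `n ≤ x` for which `s n` has the hitting time `k` -/
noncomputable def WW (s : ℤ) (F : Finset ℤ) (x : ℝ) (k : ℕ) : ℕ :=
  ((Icc 1 ⌊x⌋₊).filter (fun n : ℕ => Meets F (s * n) ∧ time F (s * n) = k)).card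

theorem log_side {s : ℤ} (hs : s = 1 ∨ s = -1) (n : ℕ) : Real.log ((s * n : ℤ) : ℝ) = Real.log n := by
  rcases hs with rfl | rfl
  · push_cast; rw [one_mul]
  · push_cast; rw [neg_one_mul, Real.log_neg_eq_log]

theorem odds_le (k : ℕ) (x : ℤ) : odds k x ≤ k := by
  unfold odds
  refine (card_filter_le _ _).trans ?_
  rw [card_range]

open Classical in
theorem NR_card {s : ℤ} (hs : s = 1 ∨ s = -1) (F : Finset ℤ) {x : ℝ} (hx : 0 < x) (k o : ℕ) :
    NR s F k o (k * Real.log 2 - o * Real.log 3 - Real.log x) =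
      (((Icc 1 ⌊x⌋₊).filter (fun n : ℕ => (Meets F (s * n) ∧ time F (s * n) = k) ∧ odds k (s * n) = o)).card : ℝ) := by
  unfold NR
  have h1 : RS s F k o (k * Real.log 2 - o * Real.log 3 - Real.log x) =
      ((((Icc 1 ⌊x⌋₊).filter (fun n : ℕ => (Meets F (s * n) ∧ time F (s * n) = k) ∧ odds k (s * n) = o)).image
        (fun n : ℕ => s * (n : ℤ)) : Finset ℤ) : Set ℤ) := by
    ext y
    rw [mem_coe, mem_image]
    unfold RS
    rw [Set.mem_ofPred_eq]
    constructor
    · rintro ⟨h0, hm, ht, ho, ha⟩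
      obtain ⟨n, hn⟩ := Int.eq_ofNat_of_zero_le h0.le
      have hyn : s * (n : ℤ) = y := by
        have h9 : s * y = (n : ℤ) := hn
        rw [← h9]
        rcases hs with rfl | rfl <;> ring
      have hn0 : 0 < n := by
        rw [hn] at h0
        exact_mod_cast h0
      refine ⟨n, ?_, hyn⟩
      rw [mem_filter, mem_Icc, hyn]
      refine ⟨⟨hn0, ?_⟩, ⟨hm, ht⟩, by exact_mod_cast ho⟩
      apply Nat.le_floor
      have hnR : (0 : ℝ) < n := by exact_mod_cast hn0
      rw [← Real.log_le_log_iff hnR hx]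
      unfold lr at ha
      rw [ht, ← hyn, log_side hs] at ha
      have ho' : (odds k (s * n) : ℝ) = o := by
        rw [hyn]
        exact_mod_cast ho
      rw [ho'] at ha
      linarith
    · rintro ⟨n, hn, rfl⟩
      rw [mem_filter, mem_Icc] at hn
      obtain ⟨⟨h1, h2⟩, ⟨hm, ht⟩, ho⟩ := hn
      have hnR : (0 : ℝ) < n := by exact_mod_cast h1
      have h3 : (n : ℝ) ≤ x := (Nat.le_floor_iff hx.le).1 h2
      refine ⟨?_, hm, ht, by exact_mod_cast ho, ?_⟩
      · rcases hs with rfl | rfl <;> omega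
      · unfold lr
        rw [ht, log_side hs, ho]
        have := (Real.log_le_log_iff hnR hx).2 h3
        linarith
  rw [h1, Set.ncard_coe_finset, card_image_of_injective]
  intro a b hab
  have h2 : s * (a : ℤ) = s * (b : ℤ) := hab
  rcases hs with rfl | rfl <;> omega

theorem WW_sum {s : ℤ} (hs : s = 1 ∨ s = -1) (F : Finset ℤ) {x : ℝ} (hx : 0 < x) (k : ℕ) :
    (WW s F x k : ℝ) = ∑ o ∈ range (k + 1), NR s F k o (k * Real.log 2 - o * Real.log 3 - Real.log x) := by
  classical
  have h1 : ∀ o ∈ range (k + 1), NR s F k o (k * Real.log 2 - o * Real.log 3 - Real.log x)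
      = (((Icc 1 ⌊x⌋₊).filter (fun n : ℕ => (Meets F (s * n) ∧ time F (s * n) = k) ∧ odds k (s * n) = o)).card : ℝ) :=
    fun o _ => NR_card hs F hx k o
  rw [sum_congr rfl h1]
  unfold WW
  have h2 := card_eq_sum_card_fiberwise (s := (Icc 1 ⌊x⌋₊).filter
      (fun n : ℕ => Meets F (s * n) ∧ time F (s * n) = k)) (t := range (k + 1))
      (f := fun n : ℕ => odds k (s * (n : ℤ))) (by
    intro n _
    simp only [coe_range, Set.mem_Iio]
    exact Nat.lt_succ_of_le (odds_le _ _))
  rw [h2]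
  push_cast
  apply sum_congr rfl
  intro o _
  rw [filter_filter]

theorem NR_nonneg (s : ℤ) (F : Finset ℤ) (k : ℕ) (o : ℤ) (a : ℝ) : 0 ≤ NR s F k o a := by
  unfold NR
  exact Nat.cast_nonneg _

theorem NR_zero {s : ℤ} {F : Finset ℤ} {A : ℝ} (hA : ∀ x, x ≠ 0 → Meets F x → |lr F x| ≤ A) (k : ℕ) (o : ℤ)
    {a : ℝ} (ha : A < a) : NR s F k o a = 0 := by
  have h1 : RS s F k o a = ∅ := by
    rw [Set.eq_empty_iff_forall_notMem]
    rintro y ⟨h0, hm, -, -, h2⟩
    have hy : y ≠ 0 := by rintro rfl; simp at h0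
    have := (abs_le.1 (hA y hy hm)).2
    linarith
  unfold NR
  rw [h1, Set.ncard_empty, Nat.cast_zero]

/-- trivial bound -/
theorem NR_triv {s : ℤ} (hs : s = 1 ∨ s = -1) {F : Finset ℤ} {A : ℝ}
    (hA : ∀ x, x ≠ 0 → Meets F x → |lr F x| ≤ A) (k o : ℕ) (a : ℝ) :
    NR s F k o a * (3 : ℝ) ^ (o : ℤ) / 2 ^ k ≤ Real.exp A := by
  classical
  set B : ℝ := 2 ^ k / 3 ^ o * Real.exp A with hB
  have hB0 : 0 < B := by positivity
  have hlogB : Real.log B = k * Real.log 2 - o * Real.log 3 + A := by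
    rw [hB, Real.log_mul (by positivity) (by positivity), Real.log_div (by positivity) (by positivity),
      Real.log_pow, Real.log_pow, Real.log_exp]
  have h1 : RS s F k o a ⊆ (((Icc 1 ⌊B⌋₊).image (fun n : ℕ => s * (n : ℤ)) : Finset ℤ) : Set ℤ) := by
    rintro y ⟨h0, hm, ht, ho, ha⟩
    have hy : y ≠ 0 := by rintro rfl; simp at h0
    rw [mem_coe, mem_image]
    obtain ⟨n, hn⟩ := Int.eq_ofNat_of_zero_le h0.le
    have hyn : s * (n : ℤ) = y := by
      have h9 : s * y = (n : ℤ) := hn
      rw [← h9]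
      rcases hs with rfl | rfl <;> ring
    have hn0 : 0 < n := by
      rw [hn] at h0
      exact_mod_cast h0
    refine ⟨n, ?_, hyn⟩
    rw [mem_Icc]
    refine ⟨hn0, ?_⟩
    apply Nat.le_floor
    have hnR : (0 : ℝ) < n := by exact_mod_cast hn0
    rw [← Real.log_le_log_iff hnR hB0, hlogB]
    have h2 := (abs_le.1 (hA y hy hm)).1
    unfold lr at h2
    rw [ht, ← hyn, log_side hs] at h2
    have ho' : (odds k (s * n) : ℝ) = o := by
      rw [hyn]
      exact_mod_cast ho
    rw [ho'] at h2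
    linarith
  have h2 := Set.ncard_le_ncard h1 (Finset.finite_toSet _)
  rw [Set.ncard_coe_finset] at h2
  have h3 := h2.trans card_image_le
  rw [Nat.card_Icc, Nat.add_sub_cancel] at h3
  have h4 : NR s F k o a ≤ B := by
    unfold NR
    exact (by exact_mod_cast h3 : ((RS s F k o a).ncard : ℝ) ≤ (⌊B⌋₊ : ℝ)).trans (Nat.floor_le hB0.le)
  rw [zpow_natCast, div_le_iff₀ (by positivity)]
  calc NR s F k o a * 3 ^ o ≤ B * 3 ^ o := mul_le_mul_of_nonneg_right h4 (by positivity)
    _ = Real.exp A * 2 ^ k := by rw [hB]; field_simp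

/-- geometric sums -/
theorem geo (X c : ℝ) (n : ℕ) :
    ∑ o ∈ (range n).filter (fun o : ℕ => (X - o) * Real.log 3 ≤ c), Real.exp ((X - o) * Real.log 3)
      ≤ 3 / 2 * Real.exp c := by
  have key : ∀ n : ℕ, ∑ o ∈ (range n).filter (fun o : ℕ => (X - o) * Real.log 3 ≤ c),
      Real.exp ((X - o) * Real.log 3) ≤ 3 / 2 * (Real.exp c - min (Real.exp c) (Real.exp ((X - n) * Real.log 3))) := by
    intro n
    induction n with
    | zero =>
      simp only [range_zero, filter_empty, sum_empty]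
      exact mul_nonneg (by norm_num) (sub_nonneg.2 (min_le_left _ _))
    | succ n ih =>
      rw [range_add_one, filter_insert]
      have h3 : Real.exp ((X - (n + 1 : ℕ)) * Real.log 3) = Real.exp ((X - n) * Real.log 3) / 3 := by
        have : (X - (n + 1 : ℕ)) * Real.log 3 = (X - n) * Real.log 3 - Real.log 3 := by push_cast; ring
        rw [this, Real.exp_sub, Real.exp_log (by norm_num)]
      have h4 := Real.exp_pos ((X - n) * Real.log 3)
      rw [h3]
      split_ifs with h
      · rw [sum_insert (by simp)]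
        have h5 : Real.exp ((X - n) * Real.log 3) ≤ Real.exp c := Real.exp_le_exp.2 h
        rw [min_eq_right h5] at ih
        rw [min_eq_right (by linarith)]
        linarith
      · refine ih.trans ?_
        have h5 : min (Real.exp c) (Real.exp ((X - n) * Real.log 3) / 3) ≤
            min (Real.exp c) (Real.exp ((X - n) * Real.log 3)) := min_le_min le_rfl (by linarith)
        linarith
  refine (key n).trans ?_
  have h1 : 0 < min (Real.exp c) (Real.exp ((X - n) * Real.log 3)) := lt_min (Real.exp_pos _) (Real.exp_pos _)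
  linarith

/-- `3 ^ (y - ⌈y⌉)` -/
noncomputable def tht (y : ℝ) : ℝ := Real.exp ((y - ⌈y⌉) * Real.log 3)

theorem tht_pos (y : ℝ) : 0 < tht y := Real.exp_pos _

theorem tht_le (y : ℝ) : tht y ≤ 1 := by
  unfold tht
  rw [← Real.exp_zero]
  apply Real.exp_le_exp.2
  apply mul_nonpos_of_nonpos_of_nonneg _ (Real.log_nonneg (by norm_num))
  linarith [Int.le_ceil y]

theorem tht_ge (y : ℝ) : 1 / 3 ≤ tht y := by
  unfold tht
  have h1 : Real.log (1 / 3) = -Real.log 3 := by
    rw [one_div, Real.log_inv]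
  rw [← Real.exp_log (show (0 : ℝ) < 1 / 3 by norm_num), h1]
  apply Real.exp_le_exp.2
  have h2 := Int.ceil_lt_add_one y
  have h3 : 0 < Real.log 3 := Real.log_pos (by norm_num)
  nlinarith

theorem tht_meas : Measurable tht := by
  unfold tht
  exact Real.measurable_exp.comp ((measurable_id.sub (measurable_from_top.comp Int.measurable_ceil)).mul_const _)

/-- the inner sum -/
theorem inner {y : ℝ} {k : ℕ} (h0 : -1 < y) (hk : y ≤ k) :
    ∑ o ∈ range (k + 1), (if y ≤ o then Real.exp ((y - o) * Real.log 3) else 0)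
      = 3 / 2 * tht y - 1 / 2 * Real.exp ((y - k) * Real.log 3) := by
  have hm0 : 0 ≤ ⌈y⌉ := by
    rw [Int.le_ceil_iff]
    push_cast
    linarith
  obtain ⟨n, hn⟩ := Int.eq_ofNat_of_zero_le hm0
  have hn' : ⌈y⌉ = (n : ℤ) := hn
  have hnk : n ≤ k := by
    have h1 : ⌈y⌉ ≤ (k : ℤ) := Int.ceil_le.2 (by exact_mod_cast hk)
    rw [hn'] at h1
    exact_mod_cast h1
  have hiff : ∀ o : ℕ, y ≤ o ↔ n ≤ o := by
    intro o
    have h1 : ⌈y⌉ ≤ (o : ℤ) ↔ y ≤ ((o : ℤ) : ℝ) := Int.ceil_le
    rw [hn', Int.cast_natCast] at h1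
    rw [← h1]
    exact Nat.cast_le
  have hth : tht y = Real.exp ((y - n) * Real.log 3) := by
    unfold tht
    rw [hn', Int.cast_natCast]
  have key : ∀ K : ℕ, n ≤ K → ∑ o ∈ range (K + 1), (if y ≤ o then Real.exp ((y - o) * Real.log 3) else 0)
      = 3 / 2 * tht y - 1 / 2 * Real.exp ((y - K) * Real.log 3) := by
    intro K hK
    induction K, hK using Nat.le_induction with
    | base =>
      rw [sum_range_succ, if_pos ((hiff n).2 le_rfl), sum_eq_zero, hth]
      · ring
      · intro o ho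
        rw [if_neg]
        rw [hiff]
        exact not_le.2 (mem_range.1 ho)
    | succ K hK ih =>
      rw [sum_range_succ, ih, if_pos ((hiff _).2 (by omega))]
      have h3 : Real.exp ((y - (K + 1 : ℕ)) * Real.log 3) = Real.exp ((y - K) * Real.log 3) / 3 := by
        have : (y - (K + 1 : ℕ)) * Real.log 3 = (y - K) * Real.log 3 - Real.log 3 := by push_cast; ring
        rw [this, Real.exp_sub, Real.exp_log (by norm_num)]
      rw [h3]
      ring
  exact key k hnk

end Pool.Agent.Q74.SP
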