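import Pool.Agent.Q74.SP.SC1

/-! The number of integers up to `x` with a given hitting time: the oscillating local limit theorem. -/

set_option autoImplicit false

namespace Pool.Agent.Q74.SP

open Finset Filter Topology MeasureTheory

open Pool.Agent.H499R2.LT (gz gz_pos)

theorem exp_close {u v : ℝ} (hu : 0 ≤ u) (hv : 0 ≤ v) : |Real.exp (-u) - Real.exp (-v)| ≤ |u - v| := by
  wlog h : u ≤ v generalizing u v with H
  · rw [abs_sub_comm, abs_sub_comm u v]
    exact H hv hu (le_of_not_ge h)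
  have h1 : Real.exp (-v) ≤ Real.exp (-u) := Real.exp_le_exp.2 (by linarith)
  rw [abs_of_nonneg (by linarith), abs_of_nonpos (by linarith)]
  have h2 : Real.exp (-v) = Real.exp (-u) * Real.exp (-(v - u)) := by rw [← Real.exp_add]; congr 1; ring
  have h3 : 1 - (v - u) ≤ Real.exp (-(v - u)) := by linarith [Real.add_one_le_exp (-(v - u))]
  have h4 : Real.exp (-u) ≤ 1 := by
    rw [← Real.exp_zero]
    exact Real.exp_le_exp.2 (by linarith)
  have h5 := Real.exp_pos (-u)
  rw [h2]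
  nlinarith

theorem RR_zero {ν : Measure ℝ} {A : ℝ} (hA : ν (Set.Icc (-A) A)ᶜ = 0) {a : ℝ} (ha : A < a) : RR ν a = 0 := by
  unfold RR
  rw [Measure.restrict_eq_zero.2, integral_zero_measure]
  refine measure_mono_null (fun x hx => ?_) hA
  rw [Set.mem_compl_iff, Set.mem_Icc]
  rintro ⟨-, h⟩
  have := Set.mem_Ici.1 hx
  linarith

theorem RR_sum {ν : Measure ℝ} [IsFiniteMeasure ν] {A : ℝ} (hA : ν (Set.Icc (-A) A)ᶜ = 0) {X : ℝ} {k : ℕ}
    (h0 : -1 < X - A / Real.log 3) (hk : X + A / Real.log 3 ≤ k) :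
    ∑ o ∈ range (k + 1), RR ν ((X - o) * Real.log 3) * Real.exp ((X - o) * Real.log 3)
      = 3 / 2 * (∫ r, tht (X - r / Real.log 3) ∂ν)
        - 1 / 2 * ∫ r, Real.exp ((X - r / Real.log 3 - k) * Real.log 3) ∂ν := by
  have hL : 0 < Real.log 3 := Real.log_pos (by norm_num)
  have i1 : Integrable (fun r => tht (X - r / Real.log 3)) ν := by
    refine Integrable.of_bound (C := 1) ?_ ?_
    · exact (tht_meas.comp (measurable_const.sub (measurable_id.div_const _))).aestronglyMeasurable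
    · filter_upwards with r
      rw [Real.norm_eq_abs, abs_of_pos (tht_pos _)]
      exact tht_le _
  have i2 : Integrable (fun r => Real.exp ((X - r / Real.log 3 - k) * Real.log 3)) ν :=
    integrable_of_supp hA (by fun_prop)
  rw [← integral_const_mul, ← integral_const_mul, ← integral_sub (i1.const_mul _) (i2.const_mul _)]
  have h1 : ∀ o ∈ range (k + 1), RR ν ((X - o) * Real.log 3) * Real.exp ((X - o) * Real.log 3)
      = ∫ x, (Set.Ici ((X - o) * Real.log 3)).indicator (fun x => Real.exp (-x)) x *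
        Real.exp ((X - o) * Real.log 3) ∂ν := by
    intro o _
    rw [RR_eq, ← integral_mul_const]
  rw [sum_congr rfl h1, ← integral_finsetSum]
  · apply integral_congr_ae
    rw [Filter.EventuallyEq, ae_iff]
    refine measure_mono_null (t := (Set.Icc (-A) A)ᶜ) ?_ hA
    intro x hx hx'
    apply hx
    have hy0 : -1 < X - x / Real.log 3 := by
      have : x / Real.log 3 ≤ A / Real.log 3 := div_le_div_of_nonneg_right hx'.2 hL.le
      linarith
    have hyk : X - x / Real.log 3 ≤ k := by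
      have : -A / Real.log 3 ≤ x / Real.log 3 := div_le_div_of_nonneg_right hx'.1 hL.le
      rw [neg_div] at this
      linarith
    rw [← inner hy0 hyk]
    apply sum_congr rfl
    intro o _
    have hiff : X - x / Real.log 3 ≤ o ↔ (X - o) * Real.log 3 ≤ x := by
      rw [sub_le_comm, ← le_div_iff₀ hL]
    by_cases h : (X - o) * Real.log 3 ≤ x
    · rw [Set.indicator_of_mem (Set.mem_Ici.2 h), if_pos (hiff.2 h), ← Real.exp_add]
      congr 1
      field_simp
      ring
    · rw [Set.indicator_of_notMem (fun h' => h (Set.mem_Ici.1 h')), if_neg (fun h' => h (hiff.1 h')), zero_mul]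
  · intro o _
    exact ((exp_int hA).indicator measurableSet_Ici).mul_const _

theorem tails (A K c1 c2 c3 L : ℝ) (hL : 0 < L) :
    Tendsto (fun k : ℕ => (Real.log k + A) / Real.sqrt k) atTop (𝓝 0) ∧
    Tendsto (fun k : ℕ => (Real.sqrt k * c1 + c2) * (3 / 2) / k) atTop (𝓝 0) ∧
    Tendsto (fun k : ℕ => ((k : ℝ) - K * Real.sqrt k) / 2) atTop atTop ∧
    Tendsto (fun k : ℕ => c3 * Real.exp (A - ((k : ℝ) - K * Real.sqrt k) / 2 * L)) atTop (𝓝 0) := by
  have hn : Tendsto (fun k : ℕ => (k : ℝ)) atTop atTop := tendsto_natCast_atTop_atTop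
  have hs : Tendsto (fun k : ℕ => Real.sqrt (k : ℝ)) atTop atTop := Real.tendsto_sqrt_atTop.comp hn
  have h1 : Tendsto (fun k : ℕ => Real.log k / Real.sqrt k) atTop (𝓝 0) := by
    have h := (isLittleO_log_rpow_atTop (show (0 : ℝ) < 1 / 2 by norm_num)).tendsto_div_nhds_zero
    have h2 := h.comp hn
    refine h2.congr fun k => ?_
    simp only [Function.comp]
    rw [← Real.sqrt_eq_rpow]
  have h2 : Tendsto (fun k : ℕ => (Real.sqrt (k : ℝ))⁻¹) atTop (𝓝 0) := tendsto_inv_atTop_zero.comp hs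
  have h3 : Tendsto (fun k : ℕ => ((k : ℝ))⁻¹) atTop (𝓝 0) := tendsto_inv_atTop_zero.comp hn
  have h4 : Tendsto (fun k : ℕ => ((k : ℝ) - K * Real.sqrt k) / 2) atTop atTop := by
    have h5 : Tendsto (fun k : ℕ => Real.sqrt (k : ℝ) * (Real.sqrt k - K)) atTop atTop :=
      hs.atTop_mul_atTop₀ (tendsto_atTop_add_const_right _ (-K) hs)
    have h6 := h5.atTop_div_const (show (0 : ℝ) < 2 by norm_num)
    refine h6.congr fun k => ?_
    have : Real.sqrt (k : ℝ) * Real.sqrt k = k := Real.mul_self_sqrt (Nat.cast_nonneg k)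
    rw [mul_sub, this]
    ring
  refine ⟨?_, ?_, h4, ?_⟩
  · have h5 := h1.add (h2.const_mul A)
    rw [mul_zero, add_zero] at h5
    refine h5.congr fun k => ?_
    rw [add_div, ← div_eq_mul_inv]
  · have h5 := (h2.const_mul (c1 * (3 / 2))).add (h3.const_mul (c2 * (3 / 2)))
    rw [mul_zero, mul_zero, add_zero] at h5
    refine h5.congr' ?_
    filter_upwards [eventually_gt_atTop 0] with k hk
    have hk' : (0 : ℝ) < k := by exact_mod_cast hk
    have h6 : Real.sqrt (k : ℝ) * Real.sqrt k = k := Real.mul_self_sqrt hk'.le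
    have h7 : 0 < Real.sqrt (k : ℝ) := Real.sqrt_pos.2 hk'
    have h8 : (Real.sqrt (k : ℝ))⁻¹ = Real.sqrt k / k := by
      rw [inv_eq_one_div, div_eq_div_iff h7.ne' hk'.ne', h6, one_mul]
    rw [h8]
    field_simp
  · have h5 : Tendsto (fun k : ℕ => A - ((k : ℝ) - K * Real.sqrt k) / 2 * L) atTop atBot := by
      have h6 := h4.atTop_mul_const hL
      have h7 := tendsto_neg_atTop_atBot.comp h6
      have h8 := tendsto_atBot_add_const_left atTop A h7
      refine h8.congr fun k => ?_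
      simp only [Function.comp]
      ring
    have h6 := (Real.tendsto_exp_atBot.comp h5).const_mul c3
    rw [mul_zero] at h6
    exact h6


/-- the range of the number of odd terms in which the local limit theorem is used -/
theorem core {s : ℤ} (hs : s = 1 ∨ s = -1) {F : Finset ℤ} {ν : Measure ℝ} [IsFiniteMeasure ν] {A : ℝ}
    (hA0 : 0 ≤ A) (hA : ν (Set.Icc (-A) A)ᶜ = 0) (hAl : ∀ x, x ≠ 0 → Meets F x → |lr F x| ≤ A) {K ε1 : ℝ}
    (hK : 0 ≤ K) (h9 : 0 ≤ ε1) {k : ℕ} (hk : 1 ≤ k)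
    (hLL : ∀ o : ℤ, |2 * (o : ℝ) - k| ≤ (K + 1) * Real.sqrt k →
      ∀ a : ℝ, |Real.sqrt k * (NR s F k o a * (3 : ℝ) ^ o / 2 ^ k)
        - Real.log 3 * gz 0 * RR ν a * Real.exp (-(2 * (o : ℝ) - k) ^ 2 / (2 * k))| ≤ ε1)
    {X : ℝ} (hX : |2 * X - k| ≤ K * Real.sqrt k) (hb : 2 * ((Real.log k + A) / Real.sqrt k) ≤ 1)
    (o : ℕ) (M : ℝ) (hM : ∀ a, RR ν a ≤ M) :
    |Real.sqrt k * (NR s F k o ((X - o) * Real.log 3) * (3 : ℝ) ^ (o : ℤ) / 2 ^ k)
        - Real.log 3 * gz 0 * RR ν ((X - o) * Real.log 3) * Real.exp (-(2 * X - k) ^ 2 / (2 * k))|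
      ≤ (if (X - o) * Real.log 3 ≤ A then ε1 + Real.log 3 * gz 0 * M * ((2 * K + 1) * ((Real.log k + A) / Real.sqrt k)) else 0)
        + (if (X - o) * Real.log 3 ≤ -Real.log k then Real.sqrt k * Real.exp A + Real.log 3 * gz 0 * M else 0) := by
  have hkR : (1 : ℝ) ≤ k := by exact_mod_cast hk
  have hk0 : (0 : ℝ) < k := by linarith
  have hsq : 0 < Real.sqrt (k : ℝ) := Real.sqrt_pos.2 hk0
  have hss : Real.sqrt (k : ℝ) * Real.sqrt k = k := Real.mul_self_sqrt hk0.le
  have hG0pos : 0 < gz 0 := gz_pos 0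
  have hL3 : 1 < Real.log 3 := by
    rw [Real.lt_log_iff_exp_lt (by norm_num)]
    linarith [Real.exp_one_lt_d9]
  have hlogk : 0 ≤ Real.log k := Real.log_nonneg hkR
  have hM0 : 0 ≤ M := (RR_nonneg ν 0).trans (hM 0)
  have hG1 : ∀ y : ℝ, Real.exp (-y ^ 2 / (2 * k)) ≤ 1 := by
    intro y
    rw [← Real.exp_zero]
    apply Real.exp_le_exp.2
    apply div_nonpos_of_nonpos_of_nonneg _ (by positivity)
    have := sq_nonneg y
    linarith
  set κ : ℝ := Real.log 3 * gz 0 with hκ
  have hκ0 : 0 < κ := by positivity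
  set a : ℝ := (X - o) * Real.log 3 with ha
  set t : ℝ := (Real.log k + A) / Real.sqrt k with ht
  have ht0 : 0 ≤ t := by positivity
  rcases lt_or_ge A a with h1 | h1
  · rw [NR_zero hAl k o h1, RR_zero hA h1, if_neg (not_le.2 h1)]
    have h2 : ¬ (a ≤ -Real.log k) := by
      push Not
      linarith
    rw [if_neg h2]
    simp
  rw [if_pos h1]
  rcases le_or_gt a (-Real.log k) with h2 | h2
  · rw [if_pos h2]
    have h3 := NR_triv hs hAl k o a
    have h4 : 0 ≤ NR s F k o a * (3 : ℝ) ^ (o : ℤ) / 2 ^ k := by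
      have := NR_nonneg s F k o a
      positivity
    have h5 : Real.sqrt k * (NR s F k o a * (3 : ℝ) ^ (o : ℤ) / 2 ^ k) ≤ Real.sqrt k * Real.exp A :=
      mul_le_mul_of_nonneg_left h3 hsq.le
    have h6 : 0 ≤ κ * RR ν a * Real.exp (-(2 * X - k) ^ 2 / (2 * k)) := by
      have := RR_nonneg ν a
      positivity
    have h7 : κ * RR ν a * Real.exp (-(2 * X - k) ^ 2 / (2 * k)) ≤ κ * M := by
      calc κ * RR ν a * Real.exp (-(2 * X - k) ^ 2 / (2 * k)) ≤ κ * M * 1 := by
            apply mul_le_mul (mul_le_mul_of_nonneg_left (hM a) hκ0.le) (hG1 _) (Real.exp_pos _).le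
            positivity
        _ = κ * M := mul_one _
    have h8 : 0 ≤ Real.sqrt k * (NR s F k o a * (3 : ℝ) ^ (o : ℤ) / 2 ^ k) := mul_nonneg hsq.le h4
    have h10 : 0 ≤ ε1 + κ * M * ((2 * K + 1) * t) := by positivity
    rw [abs_le]
    constructor
    · linarith [mul_nonneg hsq.le (Real.exp_pos A).le, mul_nonneg hκ0.le hM0]
    · linarith [mul_nonneg hsq.le (Real.exp_pos A).le, mul_nonneg hκ0.le hM0]
  · rw [if_neg (not_le.2 h2), add_zero]
    have h3 : |X - o| ≤ Real.log k + A := by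
      have h4 : |a| ≤ Real.log k + A := abs_le.2 ⟨by linarith, by linarith⟩
      have h5 : |a| = |X - o| * Real.log 3 := by rw [ha, abs_mul, abs_of_pos (by linarith : 0 < Real.log 3)]
      rw [h5] at h4
      have := abs_nonneg (X - o)
      nlinarith
    have h4 : Real.log k + A = t * Real.sqrt k := by rw [ht]; field_simp
    rw [h4] at h3
    have h5 : |2 * ((o : ℤ) : ℝ) - k| ≤ (K + 1) * Real.sqrt k := by
      rw [Int.cast_natCast]
      have h6 : 2 * (o : ℝ) - k = (2 * X - k) - 2 * (X - o) := by ring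
      rw [h6]
      refine (abs_sub _ _).trans ?_
      rw [abs_mul, abs_two]
      have h7 : 2 * (t * Real.sqrt k) ≤ 1 * Real.sqrt k := by
        rw [← mul_assoc]
        exact mul_le_mul_of_nonneg_right hb hsq.le
      linarith
    have h6 := hLL o h5 a
    rw [Int.cast_natCast] at h6
    rw [Int.cast_natCast] at h5
    have h7 : |Real.exp (-(2 * (o : ℝ) - k) ^ 2 / (2 * k)) - Real.exp (-(2 * X - k) ^ 2 / (2 * k))| ≤
        (2 * K + 1) * t := by
      have e1 : -(2 * (o : ℝ) - k) ^ 2 / (2 * k) = -((2 * (o : ℝ) - k) ^ 2 / (2 * k)) := by ring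
      have e2 : -(2 * X - k) ^ 2 / (2 * k) = -((2 * X - k) ^ 2 / (2 * k)) := by ring
      rw [e1, e2]
      refine (exp_close (by positivity) (by positivity)).trans ?_
      rw [← sub_div, abs_div, abs_of_pos (show (0 : ℝ) < 2 * k by positivity), div_le_iff₀ (by positivity)]
      have e3 : (2 * (o : ℝ) - k) ^ 2 - (2 * X - k) ^ 2 = -(2 * (X - o)) * ((2 * (o : ℝ) - k) + (2 * X - k)) := by
        ring
      rw [e3, abs_mul, abs_neg, abs_mul, abs_two]
      have h8 : |2 * (o : ℝ) - k + (2 * X - k)| ≤ (2 * K + 1) * Real.sqrt k := by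
        refine (abs_add_le _ _).trans ?_
        linarith
      calc 2 * |X - o| * |2 * (o : ℝ) - k + (2 * X - k)| ≤ 2 * (t * Real.sqrt k) * ((2 * K + 1) * Real.sqrt k) := by
            apply mul_le_mul (by linarith) h8 (abs_nonneg _) (by positivity)
        _ = (2 * K + 1) * t * (2 * (Real.sqrt k * Real.sqrt k)) := by ring
        _ = (2 * K + 1) * t * (2 * k) := by rw [hss]
    have h8 : |κ * RR ν a * (Real.exp (-(2 * (o : ℝ) - k) ^ 2 / (2 * k)) - Real.exp (-(2 * X - k) ^ 2 / (2 * k)))|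
        ≤ κ * M * ((2 * K + 1) * t) := by
      rw [abs_mul, abs_of_nonneg (mul_nonneg hκ0.le (RR_nonneg ν a))]
      exact mul_le_mul (mul_le_mul_of_nonneg_left (hM a) hκ0.le) h7 (abs_nonneg _) (by positivity)
    have e4 : Real.sqrt k * (NR s F k o a * (3 : ℝ) ^ (o : ℤ) / 2 ^ k)
        - κ * RR ν a * Real.exp (-(2 * X - k) ^ 2 / (2 * k)) =
        (Real.sqrt k * (NR s F k o a * (3 : ℝ) ^ (o : ℤ) / 2 ^ k)
        - κ * RR ν a * Real.exp (-(2 * (o : ℝ) - k) ^ 2 / (2 * k))) +
        κ * RR ν a * (Real.exp (-(2 * (o : ℝ) - k) ^ 2 / (2 * k)) - Real.exp (-(2 * X - k) ^ 2 / (2 * k))) := by ring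
    rw [e4]
    exact (abs_add_le _ _).trans (add_le_add h6 h8)

/-- OSCILLATING LOCAL LIMIT THEOREM for the hitting times -/
theorem sharp {s : ℤ} (hs : s = 1 ∨ s = -1) {F : Finset ℤ} {ν : Measure ℝ} [IsFiniteMeasure ν] {A : ℝ}
    (hA0 : 0 ≤ A) (hA : ν (Set.Icc (-A) A)ᶜ = 0) (hAl : ∀ x, x ≠ 0 → Meets F x → |lr F x| ≤ A) (hna : NoAtoms ν)
    (hlaw : ∀ h : ℝ → ℂ, Continuous h → Tendsto (mean fun n => GG F h 0 0 (s * n)) atTop (𝓝 (∫ x, h x ∂ν)))
    {K ε : ℝ} (hK : 0 ≤ K) (hε : 0 < ε) : ∃ k0 : ℕ, ∀ k : ℕ, k0 ≤ k → ∀ x : ℝ, 0 < x →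
      |k * Real.log (4 / 3) - 2 * Real.log x| ≤ K * Real.sqrt k →
      |Real.sqrt k / x * WW s F x k - 3 / 2 * (Real.log 3 * gz 0) *
        Real.exp (-(k * Real.log (4 / 3) - 2 * Real.log x) ^ 2 / (2 * k * Real.log 3 ^ 2)) *
        ∫ r, tht ((k * Real.log 2 - Real.log x - r) / Real.log 3) ∂ν| ≤ ε := by
  have hG0pos : 0 < gz 0 := gz_pos 0
  have hL3 : 1 < Real.log 3 := by
    rw [Real.lt_log_iff_exp_lt (by norm_num)]
    linarith [Real.exp_one_lt_d9]
  set L3 : ℝ := Real.log 3 with hL3def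
  have hL0 : 0 < L3 := by linarith
  set κ : ℝ := L3 * gz 0 with hκ
  have hκ0 : 0 < κ := by positivity
  set M : ℝ := ∫ x, Real.exp (-x) ∂ν with hM
  have hM0 : 0 ≤ M := integral_nonneg fun _ => (Real.exp_pos _).le
  have hRM : ∀ a, RR ν a ≤ M := RR_le hA
  set m : ℝ := ν.real Set.univ with hm
  have hm0 : 0 ≤ m := measureReal_nonneg
  set ε1 : ℝ := ε / 6 / Real.exp A with hε1
  have hε1pos : 0 < ε1 := by positivity
  obtain ⟨k1, hk1⟩ := LL_unif hs hA hna hlaw (K + 1) ε1 hε1pos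
  obtain ⟨T1, T2, T3, T4⟩ := tails A K (Real.exp A) (κ * M) (κ * m / 2) L3 hL0
  have E1 : ∀ᶠ k : ℕ in atTop, (Real.log k + A) / Real.sqrt k < 1 / 2 := T1.eventually (gt_mem_nhds (by norm_num))
  have E2 : ∀ᶠ k : ℕ in atTop, κ * M * (2 * K + 1) * (3 / 2 * Real.exp A) * ((Real.log k + A) / Real.sqrt k) < ε / 4 := by
    have h := T1.const_mul (κ * M * (2 * K + 1) * (3 / 2 * Real.exp A))
    rw [mul_zero] at h
    exact h.eventually (gt_mem_nhds (by positivity))
  have E3 := T2.eventually (gt_mem_nhds (show 0 < ε / 4 by positivity))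
  have E4 := T3.eventually_ge_atTop (A / L3)
  have E5 := T4.eventually (gt_mem_nhds (show 0 < ε / 4 by positivity))
  obtain ⟨k0, hk0⟩ := eventually_atTop.1 ((((E1.and E2).and E3).and E4).and (E5.and
    (eventually_ge_atTop (max 1 k1))))
  refine ⟨k0, fun k hk x hx hxk => ?_⟩
  obtain ⟨⟨⟨⟨e1, e2⟩, e3⟩, e4⟩, e5, e6⟩ := hk0 k hk
  have hkone : 1 ≤ k := (le_max_left _ _).trans e6
  have hkk1 : k1 ≤ k := (le_max_right _ _).trans e6
  have hkR : (1 : ℝ) ≤ k := by exact_mod_cast hkone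
  have hkpos : (0 : ℝ) < k := by linarith
  have hsq : 0 < Real.sqrt (k : ℝ) := Real.sqrt_pos.2 hkpos
  set X : ℝ := (k * Real.log 2 - Real.log x) / L3 with hXdef
  have h43 : Real.log (4 / 3) = 2 * Real.log 2 - L3 := by
    rw [Real.log_div (by norm_num) (by norm_num), show (4 : ℝ) = 2 ^ 2 by norm_num, Real.log_pow]
    push_cast
    ring
  have h2X : k * Real.log (4 / 3) - 2 * Real.log x = (2 * X - k) * L3 := by
    rw [h43, hXdef]
    field_simp
    ring
  have hX : |2 * X - k| ≤ K * Real.sqrt k := by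
    rw [h2X, abs_mul, abs_of_pos hL0] at hxk
    have := abs_nonneg (2 * X - k)
    nlinarith
  rw [h2X]
  have hgauss : -((2 * X - k) * L3) ^ 2 / (2 * k * L3 ^ 2) = -(2 * X - k) ^ 2 / (2 * k) := by
    field_simp
  rw [hgauss]
  set G : ℝ := Real.exp (-(2 * X - k) ^ 2 / (2 * k)) with hG
  have hG0 : 0 < G := Real.exp_pos _
  have hG1 : G ≤ 1 := by
    rw [hG, ← Real.exp_zero]
    apply Real.exp_le_exp.2
    apply div_nonpos_of_nonpos_of_nonneg _ (by positivity)
    have := sq_nonneg (2 * X - k)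
    linarith
  have hth : ∀ r : ℝ, (k * Real.log 2 - Real.log x - r) / L3 = X - r / L3 := fun r => by rw [hXdef]; ring
  simp only [hth]
  -- the sum over the number of odd terms
  set V : ℕ → ℝ := fun o => Real.sqrt k * (NR s F k o ((X - o) * L3) * (3 : ℝ) ^ (o : ℤ) / 2 ^ k) with hV
  have hao : ∀ o : ℕ, k * Real.log 2 - o * L3 - Real.log x = (X - o) * L3 := fun o => by
    rw [hXdef]; field_simp; ring
  have hW : Real.sqrt k / x * WW s F x k = ∑ o ∈ range (k + 1), V o * Real.exp ((X - o) * L3) := by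
    rw [WW_sum hs F hx, Finset.mul_sum]
    apply sum_congr rfl
    intro o _
    rw [← hL3def, hao o, hV]
    have h1 : Real.exp ((X - o) * L3) = 2 ^ k / (3 ^ o * x) := by
      rw [← hao o, Real.exp_sub, Real.exp_sub, Real.exp_log hx]
      have h2 : Real.exp ((k : ℝ) * Real.log 2) = 2 ^ k := by
        rw [mul_comm, Real.exp_mul, Real.exp_log (by norm_num), Real.rpow_natCast]
      have h3 : Real.exp ((o : ℝ) * L3) = 3 ^ o := by
        rw [mul_comm, Real.exp_mul, Real.exp_log (by norm_num), Real.rpow_natCast]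
      rw [h2, h3, div_div]
    simp only [h1, zpow_natCast]
    field_simp
  have hS := RR_sum (ν := ν) hA (X := X) (k := k) (by
      rw [← hL3def]
      have := (abs_le.1 hX).1
      linarith) (by
      rw [← hL3def]
      have := (abs_le.1 hX).2
      linarith)
  rw [← hL3def] at hS
  set I1 : ℝ := ∫ r, tht (X - r / L3) ∂ν with hI1
  set I2 : ℝ := ∫ r, Real.exp ((X - r / L3 - k) * L3) ∂ν with hI2
  have hI20 : 0 ≤ I2 := integral_nonneg fun _ => (Real.exp_pos _).le
  have hI2le : I2 ≤ m * Real.exp (A - ((k : ℝ) - K * Real.sqrt k) / 2 * L3) := by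
    have h1 : I2 ≤ ∫ r, Real.exp (A - ((k : ℝ) - K * Real.sqrt k) / 2 * L3) ∂ν := by
      apply integral_mono_ae (integrable_of_supp hA (by fun_prop)) (integrable_const _)
      rw [Filter.EventuallyLE, ae_iff]
      refine measure_mono_null (t := (Set.Icc (-A) A)ᶜ) ?_ hA
      intro r hr hr'
      apply hr
      apply Real.exp_le_exp.2
      have h2 : (X - r / L3 - k) * L3 = (X - k) * L3 - r := by
        field_simp
        ring
      rw [h2]
      have h3 : X - k ≤ -(((k : ℝ) - K * Real.sqrt k) / 2) := by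
        have := (abs_le.1 hX).2
        linarith
      have h4 := mul_le_mul_of_nonneg_right h3 hL0.le
      linarith [hr'.1]
    rw [integral_const, smul_eq_mul] at h1
    exact h1
  -- the error
  set D : ℕ → ℝ := fun o => V o - κ * RR ν ((X - o) * L3) * G with hD
  have hdec : Real.sqrt k / x * WW s F x k - 3 / 2 * κ * G * I1
      = (∑ o ∈ range (k + 1), D o * Real.exp ((X - o) * L3)) - κ * G * (1 / 2 * I2) := by
    have h1 : ∑ o ∈ range (k + 1), D o * Real.exp ((X - o) * L3) =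
        (∑ o ∈ range (k + 1), V o * Real.exp ((X - o) * L3)) -
          κ * G * ∑ o ∈ range (k + 1), RR ν ((X - o) * L3) * Real.exp ((X - o) * L3) := by
      rw [Finset.mul_sum, ← Finset.sum_sub_distrib]
      apply sum_congr rfl
      intro o _
      simp only [hD]
      ring
    rw [h1, hW, hS]
    ring
  rw [hdec]
  have hDle : |∑ o ∈ range (k + 1), D o * Real.exp ((X - o) * L3)| ≤
      (ε1 + κ * M * ((2 * K + 1) * ((Real.log k + A) / Real.sqrt k))) * (3 / 2 * Real.exp A)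
      + (Real.sqrt k * Real.exp A + κ * M) * (3 / 2 * Real.exp (-Real.log k)) := by
    refine (Finset.abs_sum_le_sum_abs _ _).trans ?_
    have h1 : ∀ o ∈ range (k + 1), |D o * Real.exp ((X - o) * L3)| ≤
        (if (X - o) * L3 ≤ A then (ε1 + κ * M * ((2 * K + 1) * ((Real.log k + A) / Real.sqrt k))) *
          Real.exp ((X - o) * L3) else 0)
        + (if (X - o) * L3 ≤ -Real.log k then (Real.sqrt k * Real.exp A + κ * M) *
          Real.exp ((X - o) * L3) else 0) := by
      intro o _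
      have h2 := core hs hA0 hA hAl hK hε1pos.le hkone (fun o ho a => hk1 k o hkk1 ho a) hX (by linarith) o M hRM
      rw [abs_mul, abs_of_pos (Real.exp_pos ((X - o) * L3))]
      refine (mul_le_mul_of_nonneg_right h2 (Real.exp_pos _).le).trans (le_of_eq ?_)
      rw [← hL3def, ← hκ, add_mul, ite_mul, ite_mul, zero_mul]
    refine (Finset.sum_le_sum h1).trans ?_
    rw [Finset.sum_add_distrib, ← Finset.sum_filter, ← Finset.sum_filter, ← Finset.mul_sum, ← Finset.mul_sum]
    have hlogk : 0 ≤ Real.log k := Real.log_nonneg hkR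
    apply add_le_add
    · exact mul_le_mul_of_nonneg_left (geo X A (k + 1)) (by positivity)
    · exact mul_le_mul_of_nonneg_left (geo X (-Real.log k) (k + 1)) (by positivity)
  have hexpk : Real.exp (-Real.log k) = (k : ℝ)⁻¹ := by rw [Real.exp_neg, Real.exp_log hkpos]
  rw [hexpk] at hDle
  have q1 : ε1 * (3 / 2 * Real.exp A) = ε / 4 := by
    rw [hε1]
    field_simp
    ring
  have q2 : κ * M * ((2 * K + 1) * ((Real.log k + A) / Real.sqrt k)) * (3 / 2 * Real.exp A) =
      κ * M * (2 * K + 1) * (3 / 2 * Real.exp A) * ((Real.log k + A) / Real.sqrt k) := by ring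
  have q3 : (Real.sqrt k * Real.exp A + κ * M) * (3 / 2 * (k : ℝ)⁻¹) =
      (Real.sqrt k * Real.exp A + κ * M) * (3 / 2) / k := by
    rw [div_eq_mul_inv]
    ring
  have q4 : 0 ≤ κ * G * (1 / 2 * I2) := by positivity
  have q5 : κ * G * (1 / 2 * I2) ≤ ε / 4 := by
    calc κ * G * (1 / 2 * I2) ≤ κ * 1 * (1 / 2 * (m * Real.exp (A - ((k : ℝ) - K * Real.sqrt k) / 2 * L3))) := by
          apply mul_le_mul (mul_le_mul_of_nonneg_left hG1 hκ0.le) _ (by positivity) (by positivity)
          linarith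
      _ = κ * m / 2 * Real.exp (A - ((k : ℝ) - K * Real.sqrt k) / 2 * L3) := by ring
      _ ≤ ε / 4 := e5.le
  rw [add_mul, q1, q2, q3] at hDle
  refine (abs_sub _ _).trans ?_
  rw [abs_of_nonneg q4]
  linarith

end Pool.Agent.Q74.SP
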