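import Pool.Agent.Q74.SP.SC2

/-! Complements: distribution function of the law of the residues, continuity of the periodic factor. -/

set_option autoImplicit false

namespace Pool.Agent.Q74.SP

open Finset Filter Topology MeasureTheory

open Pool.Agent.H499R2.LT (gz gz_pos)

theorem kappa_eq : Real.log 3 * gz 0 = Real.log (4 / 3) / Real.sqrt (2 * Real.pi) := by
  unfold gz Pool.Agent.H499R2.ND.c0 Pool.Agent.H319R2.Lln.mu
  have h1 : Real.log (4 / 3) ≠ 0 := (Real.log_pos (by norm_num)).ne'
  have h2 : Real.log 3 ≠ 0 := (Real.log_pos (by norm_num)).ne'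
  have h3 : Real.sqrt (2 * Real.pi) ≠ 0 := (Real.sqrt_pos.2 (by positivity)).ne'
  rw [show -(0 : ℝ) ^ 2 / 2 = 0 by norm_num, Real.exp_zero]
  field_simp

theorem NoAtoms.point {ν : Measure ℝ} [IsFiniteMeasure ν] (h : NoAtoms ν) (r : ℝ) : ν {r} = 0 := by
  have h1 : ν.real {r} = 0 := by
    apply le_antisymm _ measureReal_nonneg
    apply le_of_forall_pos_le_add
    intro ε hε
    obtain ⟨η, hη, hh⟩ := h ε hε
    rw [zero_add]
    refine le_trans (measureReal_mono ?_) (hh r)
    rintro x rfl
    exact ⟨by linarith, by linarith⟩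
  rwa [measureReal_eq_zero_iff] at h1

open Classical in
/-- distribution function of the law of the residues -/
theorem law_cdf {s : ℤ} {F : Finset ℤ} {ν : Measure ℝ} [IsFiniteMeasure ν] {A : ℝ}
    (hA : ν (Set.Icc (-A) A)ᶜ = 0) (hna : NoAtoms ν)
    (hlaw : ∀ h : ℝ → ℂ, Continuous h → Tendsto (mean fun n => GG F h 0 0 (s * n)) atTop (𝓝 (∫ x, h x ∂ν)))
    (a : ℝ) :
    Tendsto (fun N : ℕ => (((Icc 1 N).filter (fun n : ℕ => Meets F (s * n) ∧ a ≤ lr F (s * n))).card : ℝ) / N)
      atTop (𝓝 (ν.real (Set.Ici a))) := by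
  have hrw : (fun N : ℕ => (((Icc 1 N).filter (fun n : ℕ => Meets F (s * n) ∧ a ≤ lr F (s * n))).card : ℝ) / N)
      = rmean fun n => if Meets F (s * n) ∧ a ≤ lr F (s * n) then 1 else 0 := by
    funext N
    unfold rmean
    rw [card_filter]
    push_cast
    rfl
  rw [hrw, Metric.tendsto_atTop']
  intro ε hε
  obtain ⟨η, hη, hh⟩ := hna (ε / 4) (by positivity)
  have hI : ∀ b : ℝ, ν.real (Set.Ici (b - η)) ≤ ν.real (Set.Ici b) + ε / 4 := by
    intro b
    have h1 : Set.Ici (b - η) ⊆ Set.Ici b ∪ Set.Icc (b - η) (b + η) := by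
      intro x hx
      rcases le_or_gt b x with h | h
      · exact Or.inl h
      · exact Or.inr ⟨hx, by linarith⟩
    refine (measureReal_mono h1).trans ((measureReal_union_le _ _).trans ?_)
    linarith [hh b]
  -- upper ramp
  have L1 := law_real hlaw (ramp_cont (a - η) η)
  have L2 := law_real hlaw (ramp_cont a η)
  have up : ∫ x, ramp (a - η) η x ∂ν ≤ ν.real (Set.Ici (a - η)) := by
    rw [← integral_indicator_one measurableSet_Ici]
    apply integral_mono (integrable_of_supp hA (ramp_cont _ _)) ((integrable_const _).indicator measurableSet_Ici)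
    intro x
    by_cases hx : x ∈ Set.Ici (a - η)
    · rw [Set.indicator_of_mem hx]
      exact ramp_le _ _ _
    · rw [Set.indicator_of_notMem hx]
      exact (ramp_zero hη (not_le.1 hx).le).le
  have lo : ν.real (Set.Ici (a + η)) ≤ ∫ x, ramp a η x ∂ν := by
    rw [← integral_indicator_one measurableSet_Ici]
    apply integral_mono ((integrable_const _).indicator measurableSet_Ici) (integrable_of_supp hA (ramp_cont _ _))
    intro x
    by_cases hx : x ∈ Set.Ici (a + η)
    · rw [Set.indicator_of_mem hx]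
      rw [ramp_one hη hx]
      exact le_rfl
    · rw [Set.indicator_of_notMem hx]
      exact ramp_nonneg _ _ _
  have h1 := hI a
  have h2 := hI (a + η)
  rw [add_sub_cancel_right] at h2
  have q1 := (L1.eventually (gt_mem_nhds (show ∫ x, ramp (a - η) η x ∂ν < ν.real (Set.Ici a) + ε by linarith)))
  have q2 := (L2.eventually (lt_mem_nhds (show ν.real (Set.Ici a) - ε < ∫ x, ramp a η x ∂ν by linarith)))
  obtain ⟨N0, hN0⟩ := eventually_atTop.1 (q1.and q2)
  refine ⟨N0, fun N hN => ?_⟩
  obtain ⟨h3, h4⟩ := hN0 N hN.le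
  have h5 : rmean (fun n => if Meets F (s * n) ∧ a ≤ lr F (s * n) then 1 else 0) N ≤
      rmean (fun n => if Meets F (s * n) then ramp (a - η) η (lr F (s * n)) else 0) N := by
    apply rmean_mono
    intro n _
    by_cases hm : Meets F (s * n)
    · rw [if_pos hm]
      by_cases ha : a ≤ lr F (s * n)
      · rw [if_pos ⟨hm, ha⟩, ramp_one hη (by linarith)]
      · rw [if_neg (fun h => ha h.2)]
        exact ramp_nonneg _ _ _
    · rw [if_neg hm, if_neg (fun h => hm h.1)]
  have h6 : rmean (fun n => if Meets F (s * n) then ramp a η (lr F (s * n)) else 0) N ≤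
      rmean (fun n => if Meets F (s * n) ∧ a ≤ lr F (s * n) then 1 else 0) N := by
    apply rmean_mono
    intro n _
    by_cases hm : Meets F (s * n)
    · rw [if_pos hm]
      by_cases ha : a ≤ lr F (s * n)
      · rw [if_pos ⟨hm, ha⟩]
        exact ramp_le _ _ _
      · rw [if_neg (fun h => ha h.2), ramp_zero hη (not_le.1 ha).le]
    · rw [if_neg hm, if_neg (fun h => hm h.1)]
  rw [Real.dist_eq, abs_lt]
  constructor <;> linarith

/-- the limit law has no mass below `0` if the residues are `≥ 1` -/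
theorem law_supp {s : ℤ} {F : Finset ℤ} {ν : Measure ℝ} [IsFiniteMeasure ν] {A : ℝ}
    (hA : ν (Set.Icc (-A) A)ᶜ = 0) 
    (hlaw : ∀ h : ℝ → ℂ, Continuous h → Tendsto (mean fun n => GG F h 0 0 (s * n)) atTop (𝓝 (∫ x, h x ∂ν)))
    (hpos : ∀ n : ℕ, 1 ≤ n → Meets F (s * n) → 0 ≤ lr F (s * n)) : ν (Set.Icc 0 A)ᶜ = 0 := by
  classical
  have hc : Continuous fun x : ℝ => max (-x) 0 := by fun_prop
  have h1 := law_real hlaw hc
  have h2 : (rmean fun n => if Meets F (s * n) then max (-lr F (s * n)) 0 else 0) = fun _ => 0 := by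
    funext N
    unfold rmean
    rw [sum_eq_zero, zero_div]
    intro n hn
    split_ifs with hm
    · exact max_eq_right (by linarith [hpos n (mem_Icc.1 hn).1 hm])
    · rfl
  rw [h2] at h1
  have h3 := tendsto_nhds_unique h1 tendsto_const_nhds
  have h4 : ∀ᵐ x ∂ν, max (-x) 0 = 0 := by
    have h5 := (integral_eq_zero_iff_of_nonneg (f := fun x : ℝ => max (-x) 0) (fun x => le_max_right _ _)
      (integrable_of_supp hA hc)).1 h3
    exact h5
  rw [ae_iff] at h4
  refine measure_mono_null (t := {x : ℝ | ¬ max (-x) 0 = 0} ∪ (Set.Icc (-A) A)ᶜ) ?_ (measure_union_null h4 hA)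
  intro x hx
  by_cases h5 : x < 0
  · left
    intro h6
    have := le_max_left (-x) 0
    rw [h6] at this
    linarith
  · right
    intro h6
    exact hx ⟨not_lt.1 h5, h6.2⟩

theorem tht_per (y : ℝ) (n : ℤ) : tht (y + n) = tht y := by
  unfold tht
  rw [Int.ceil_add_intCast]
  push_cast
  congr 1
  ring

theorem tht_cont {y : ℝ} (hy : y ≠ ⌈y⌉) : ContinuousAt tht y := by
  unfold tht
  have h1 : ∀ᶠ z in 𝓝 y, ⌈z⌉ = ⌈y⌉ := by
    have h2 : Set.Ioo ((⌈y⌉ : ℝ) - 1) ⌈y⌉ ∈ 𝓝 y := by
      apply Ioo_mem_nhds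
      · linarith [Int.ceil_lt_add_one y]
      · exact lt_of_le_of_ne (Int.le_ceil y) hy
    filter_upwards [h2] with z hz
    rw [Int.ceil_eq_iff]
    exact ⟨hz.1, hz.2.le⟩
  have h3 : ContinuousAt (fun z : ℝ => Real.exp ((z - ⌈y⌉) * Real.log 3)) y := by fun_prop
  refine h3.congr ?_
  filter_upwards [h1] with z hz
  rw [hz]

/-- the periodic factor -/
noncomputable def Thet (ν : Measure ℝ) (u : ℝ) : ℝ := ∫ r, tht ((u - r) / Real.log 3) ∂ν

theorem thet_int {ν : Measure ℝ} [IsFiniteMeasure ν] (u : ℝ) :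
    Integrable (fun r => tht ((u - r) / Real.log 3)) ν := by
  refine Integrable.of_bound (C := 1) ?_ ?_
  · exact (tht_meas.comp ((measurable_const.sub measurable_id).div_const _)).aestronglyMeasurable
  · filter_upwards with r
    rw [Real.norm_eq_abs, abs_of_pos (tht_pos _)]
    exact tht_le _

theorem thet_le {ν : Measure ℝ} [IsFiniteMeasure ν] (u : ℝ) : Thet ν u ≤ ν.real Set.univ := by
  unfold Thet
  refine (integral_mono (thet_int u) (integrable_const 1) fun r => tht_le _).trans (le_of_eq ?_)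
  rw [integral_const, smul_eq_mul, mul_one]

theorem thet_ge {ν : Measure ℝ} [IsFiniteMeasure ν] (u : ℝ) : ν.real Set.univ / 3 ≤ Thet ν u := by
  unfold Thet
  refine le_trans (le_of_eq ?_) (integral_mono (integrable_const (1 / 3)) (thet_int u) fun r => tht_ge _)
  rw [integral_const, smul_eq_mul]
  ring

theorem thet_per {ν : Measure ℝ} (u : ℝ) : Thet ν (u + Real.log 3) = Thet ν u := by
  unfold Thet
  congr 1
  funext r
  have h : Real.log 3 ≠ 0 := (Real.log_pos (by norm_num)).ne'
  have h1 : (u + Real.log 3 - r) / Real.log 3 = (u - r) / Real.log 3 + ((1 : ℤ) : ℝ) := by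
    push_cast
    field_simp
    ring
  rw [h1, tht_per]

theorem thet_cont {ν : Measure ℝ} [IsFiniteMeasure ν] (hna : NoAtoms ν) : Continuous (Thet ν) := by
  rw [continuous_iff_continuousAt]
  intro u
  unfold Thet
  have h : Real.log 3 ≠ 0 := (Real.log_pos (by norm_num)).ne'
  apply continuousAt_of_dominated (bound := fun _ => 1)
  · filter_upwards with v
    exact (thet_int v).aestronglyMeasurable
  · filter_upwards with v
    filter_upwards with r
    rw [Real.norm_eq_abs, abs_of_pos (tht_pos _)]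
    exact tht_le _
  · exact integrable_const _
  · have hcount : (Set.range fun n : ℤ => u - n * Real.log 3).Countable := Set.countable_range _
    have hnull : ν (Set.range fun n : ℤ => u - n * Real.log 3) = 0 := by
      have : (Set.range fun n : ℤ => u - n * Real.log 3) = ⋃ n : ℤ, {u - n * Real.log 3} := by
        ext x
        simp [eq_comm]
      rw [this, measure_iUnion_null_iff]
      intro n
      exact hna.point _
    have h2 : ∀ᵐ r ∂ν, r ∉ Set.range fun n : ℤ => u - n * Real.log 3 := by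
      rw [ae_iff]
      refine measure_mono_null (fun x hx => ?_) hnull
      exact not_not.1 hx
    filter_upwards [h2] with r hr
    have h3 : ContinuousAt tht ((u - r) / Real.log 3) := by
      apply tht_cont
      intro h4
      apply hr
      refine ⟨⌈(u - r) / Real.log 3⌉, ?_⟩
      simp only
      rw [← h4]
      field_simp
      ring
    have h4 : ContinuousAt (fun v : ℝ => (v - r) / Real.log 3) u := by fun_prop
    exact ContinuousAt.comp (g := tht) h3 h4

theorem mass_pos {s : ℤ} (hs : s = 1 ∨ s = -1) {F : Finset ℤ} {ν : Measure ℝ}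
    (hlaw : ∀ h : ℝ → ℂ, Continuous h → Tendsto (mean fun n => GG F h 0 0 (s * n)) atTop (𝓝 (∫ x, h x ∂ν)))
    (hF : ∃ a ∈ F, 0 < s * a ∧ ¬ (3 : ℤ) ∣ a) : 0 < ν.real Set.univ := by
  obtain ⟨δ, c, -, -, -, hpos, hD, -⟩ := Pool.Agent.H499R2.LT.laws_side odd_one
    (by norm_num : ¬ (3 : ℤ) ∣ 1) hs F
  have h1 := hlaw (fun _ => 1) continuous_const
  have h2 : (mean fun n => GG F (fun _ => 1) 0 0 (s * n))
      = fun N : ℕ => ((Pool.Agent.H499R2.ND.cnt
        (fun n : ℕ => ∃ k : ℕ, (Pool.Agent.H499R2.ND.Td 1)^[k] (s * n) ∈ F) N / N : ℝ) : ℂ) := by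
    classical
    funext N
    unfold mean
    rw [Pool.Agent.H499R2.ND.cnt_eq]
    push_cast
    congr 1
    rw [Finset.card_filter]
    push_cast
    apply sum_congr rfl
    intro n _
    unfold GG
    by_cases hm : Meets F (s * n)
    · rw [if_pos hm, if_pos]
      · simp [e_zero]
      · exact hm
    · rw [if_neg hm, if_neg]
      exact hm
  rw [h2] at h1
  have h3 := (Complex.continuous_ofReal.tendsto δ).comp hD
  have h4 := tendsto_nhds_unique h1 h3
  rw [integral_const, Complex.real_smul, mul_one] at h4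
  have h5 : ν.real Set.univ = δ := by exact_mod_cast h4
  rw [h5]
  exact hpos hF

end Pool.Agent.Q74.SP
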