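import Pool.Agent.Q74.SP.SC3

/-! The number of integers up to `x` with a given number of Collatz steps: preparations. -/

set_option autoImplicit false

namespace Pool.Agent.Q74.SP

open Finset Filter Topology MeasureTheory

open Pool.Agent.H499R2.LT (gz gz_pos)

/-- geometric sums -/
theorem geoL {L : ℝ} (hL : 0 < L) (X c : ℝ) (n : ℕ) :
    ∑ o ∈ (range n).filter (fun o : ℕ => (X - o) * L ≤ c), Real.exp ((X - o) * L)
      ≤ (1 - Real.exp (-L))⁻¹ * Real.exp c := by
  have hq : 0 < 1 - Real.exp (-L) := by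
    have : Real.exp (-L) < 1 := by rw [← Real.exp_zero]; exact Real.exp_lt_exp.2 (by linarith)
    linarith
  set q := 1 - Real.exp (-L) with hqdef
  have key : ∀ n : ℕ, ∑ o ∈ (range n).filter (fun o : ℕ => (X - o) * L ≤ c),
      Real.exp ((X - o) * L) ≤ q⁻¹ * (Real.exp c - min (Real.exp c) (Real.exp ((X - n) * L))) := by
    intro n
    induction n with
    | zero =>
      simp only [range_zero, filter_empty, sum_empty]
      exact mul_nonneg (by positivity) (sub_nonneg.2 (min_le_left _ _))
    | succ n ih =>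
      rw [range_add_one, filter_insert]
      have h3 : Real.exp ((X - (n + 1 : ℕ)) * L) = Real.exp ((X - n) * L) * (1 - q) := by
        have h9 : (X - (n + 1 : ℕ)) * L = (X - n) * L + -L := by push_cast; ring
        rw [h9, Real.exp_add, hqdef]
        ring
      have h4 := Real.exp_pos ((X - n) * L)
      have hq1 : q ≤ 1 := by
        have := Real.exp_pos (-L)
        linarith
      have h30 : 0 < Real.exp ((X - n) * L) * (1 - q) := by rw [← h3]; exact Real.exp_pos _
      rw [h3]
      split_ifs with h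
      · rw [sum_insert (by simp)]
        have h5 : Real.exp ((X - n) * L) ≤ Real.exp c := Real.exp_le_exp.2 h
        rw [min_eq_right h5] at ih
        rw [min_eq_right (by nlinarith)]
        have h6 : q⁻¹ * (Real.exp c - Real.exp ((X - n) * L) * (1 - q)) =
            Real.exp ((X - n) * L) + q⁻¹ * (Real.exp c - Real.exp ((X - n) * L)) := by
          field_simp
          ring
        rw [h6]
        linarith
      · refine ih.trans (mul_le_mul_of_nonneg_left ?_ (by positivity))
        have h5 : min (Real.exp c) (Real.exp ((X - n) * L) * (1 - q)) ≤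
            min (Real.exp c) (Real.exp ((X - n) * L)) := min_le_min le_rfl (by nlinarith)
        linarith
  refine (key n).trans (mul_le_mul_of_nonneg_left ?_ (by positivity))
  have h1 : 0 < min (Real.exp c) (Real.exp ((X - n) * L)) := lt_min (Real.exp_pos _) (Real.exp_pos _)
  linarith

/-- `exp (L (y - ⌈y⌉))` -/
noncomputable def thL (L y : ℝ) : ℝ := Real.exp ((y - ⌈y⌉) * L)

theorem thL_pos (L y : ℝ) : 0 < thL L y := Real.exp_pos _

theorem thL_le {L : ℝ} (hL : 0 < L) (y : ℝ) : thL L y ≤ 1 := by
  unfold thL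
  rw [← Real.exp_zero]
  apply Real.exp_le_exp.2
  apply mul_nonpos_of_nonpos_of_nonneg _ hL.le
  linarith [Int.le_ceil y]

theorem thL_ge {L : ℝ} (hL : 0 < L) (y : ℝ) : Real.exp (-L) ≤ thL L y := by
  unfold thL
  apply Real.exp_le_exp.2
  have h2 := Int.ceil_lt_add_one y
  nlinarith

theorem thL_meas (L : ℝ) : Measurable (thL L) := by
  unfold thL
  exact Real.measurable_exp.comp ((measurable_id.sub (measurable_from_top.comp Int.measurable_ceil)).mul_const _)

theorem thL_per (L y : ℝ) (n : ℤ) : thL L (y + n) = thL L y := by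
  unfold thL
  rw [Int.ceil_add_intCast]
  push_cast
  congr 1
  ring

theorem thL_cont (L : ℝ) {y : ℝ} (hy : y ≠ ⌈y⌉) : ContinuousAt (thL L) y := by
  unfold thL
  have h1 : ∀ᶠ z in 𝓝 y, ⌈z⌉ = ⌈y⌉ := by
    have h2 : Set.Ioo ((⌈y⌉ : ℝ) - 1) ⌈y⌉ ∈ 𝓝 y := by
      apply Ioo_mem_nhds
      · linarith [Int.ceil_lt_add_one y]
      · exact lt_of_le_of_ne (Int.le_ceil y) hy
    filter_upwards [h2] with z hz
    rw [Int.ceil_eq_iff]
    exact ⟨hz.1, hz.2.le⟩
  have h3 : ContinuousAt (fun z : ℝ => Real.exp ((z - ⌈y⌉) * L)) y := by fun_prop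
  refine h3.congr ?_
  filter_upwards [h1] with z hz
  rw [hz]

/-- the inner sum -/
theorem innerL {L : ℝ} (hL : 0 < L) {y : ℝ} {k : ℕ} (h0 : -1 < y) (hk : y ≤ k) :
    ∑ o ∈ range (k + 1), (if y ≤ o then Real.exp ((y - o) * L) else 0)
      = (1 - Real.exp (-L))⁻¹ * thL L y
        - (1 - Real.exp (-L))⁻¹ * Real.exp (-L) * Real.exp ((y - k) * L) := by
  have hq : 0 < 1 - Real.exp (-L) := by
    have : Real.exp (-L) < 1 := by rw [← Real.exp_zero]; exact Real.exp_lt_exp.2 (by linarith)
    linarith
  have hm0 : 0 ≤ ⌈y⌉ := by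
    rw [Int.le_ceil_iff]
    push_cast
    linarith
  obtain ⟨n, hn⟩ := Int.eq_ofNat_of_zero_le hm0
  have hn' : ⌈y⌉ = (n : ℤ) := hn
  have hnk : n ≤ k := by
    have h1 : ⌈y⌉ ≤ (k : ℤ) := Int.ceil_le.2 (by exact_mod_cast hk)
    rw [hn'] at h1
    exact_mod_cast h1
  have hiff : ∀ o : ℕ, y ≤ o ↔ n ≤ o := by
    intro o
    have h1 : ⌈y⌉ ≤ (o : ℤ) ↔ y ≤ ((o : ℤ) : ℝ) := Int.ceil_le
    rw [hn', Int.cast_natCast] at h1
    rw [← h1]
    exact Nat.cast_le
  have hth : thL L y = Real.exp ((y - n) * L) := by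
    unfold thL
    rw [hn', Int.cast_natCast]
  set q := 1 - Real.exp (-L) with hqdef
  have hexp : Real.exp (-L) = 1 - q := by rw [hqdef]; ring
  have key : ∀ K : ℕ, n ≤ K → ∑ o ∈ range (K + 1), (if y ≤ o then Real.exp ((y - o) * L) else 0)
      = q⁻¹ * thL L y - q⁻¹ * Real.exp (-L) * Real.exp ((y - K) * L) := by
    intro K hK
    induction K, hK using Nat.le_induction with
    | base =>
      rw [sum_range_succ, if_pos ((hiff n).2 le_rfl), sum_eq_zero, hth, hexp]
      · field_simp
        ring
      · intro o ho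
        rw [if_neg]
        rw [hiff]
        exact not_le.2 (mem_range.1 ho)
    | succ K hK ih =>
      rw [sum_range_succ, ih, if_pos ((hiff _).2 (by omega))]
      have h3 : Real.exp ((y - (K + 1 : ℕ)) * L) = Real.exp ((y - K) * L) * (1 - q) := by
        have h9 : (y - (K + 1 : ℕ)) * L = (y - K) * L + -L := by push_cast; ring
        rw [h9, Real.exp_add, hexp]
      rw [h3, hexp]
      field_simp
      ring
  exact key k hnk

theorem RR_sumL {L : ℝ} (hL : 0 < L) {ν : Measure ℝ} [IsFiniteMeasure ν] {A : ℝ}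
    (hA : ν (Set.Icc (-A) A)ᶜ = 0) {X : ℝ} {k : ℕ}
    (h0 : -1 < X - A / L) (hk : X + A / L ≤ k) :
    ∑ o ∈ range (k + 1), RR ν ((X - o) * L) * Real.exp ((X - o) * L)
      = (1 - Real.exp (-L))⁻¹ * (∫ r, thL L (X - r / L) ∂ν)
        - (1 - Real.exp (-L))⁻¹ * Real.exp (-L) * ∫ r, Real.exp ((X - r / L - k) * L) ∂ν := by
  have i1 : Integrable (fun r => thL L (X - r / L)) ν := by
    refine Integrable.of_bound (C := 1) ?_ ?_
    · exact ((thL_meas L).comp (measurable_const.sub (measurable_id.div_const _))).aestronglyMeasurable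
    · filter_upwards with r
      rw [Real.norm_eq_abs, abs_of_pos (thL_pos _ _)]
      exact thL_le hL _
  have i2 : Integrable (fun r => Real.exp ((X - r / L - k) * L)) ν :=
    integrable_of_supp hA (by fun_prop)
  rw [← integral_const_mul, ← integral_const_mul, ← integral_sub (i1.const_mul _) (i2.const_mul _)]
  have h1 : ∀ o ∈ range (k + 1), RR ν ((X - o) * L) * Real.exp ((X - o) * L)
      = ∫ x, (Set.Ici ((X - o) * L)).indicator (fun x => Real.exp (-x)) x *
        Real.exp ((X - o) * L) ∂ν := by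
    intro o _
    rw [RR_eq, ← integral_mul_const]
  rw [sum_congr rfl h1, ← integral_finsetSum]
  · apply integral_congr_ae
    rw [Filter.EventuallyEq, ae_iff]
    refine measure_mono_null (t := (Set.Icc (-A) A)ᶜ) ?_ hA
    intro x hx hx'
    apply hx
    have hy0 : -1 < X - x / L := by
      have : x / L ≤ A / L := div_le_div_of_nonneg_right hx'.2 hL.le
      linarith
    have hyk : X - x / L ≤ k := by
      have : -A / L ≤ x / L := div_le_div_of_nonneg_right hx'.1 hL.le
      rw [neg_div] at this
      linarith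
    rw [← innerL hL hy0 hyk]
    apply sum_congr rfl
    intro o _
    have hiff : X - x / L ≤ o ↔ (X - o) * L ≤ x := by
      rw [sub_le_comm, ← le_div_iff₀ hL]
    by_cases h : (X - o) * L ≤ x
    · rw [Set.indicator_of_mem (Set.mem_Ici.2 h), if_pos (hiff.2 h), ← Real.exp_add]
      congr 1
      field_simp
      ring
    · rw [Set.indicator_of_notMem (fun h' => h (Set.mem_Ici.1 h')), if_neg (fun h' => h (hiff.1 h')), zero_mul]
  · intro o _
    exact ((exp_int hA).indicator measurableSet_Ici).mul_const _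

/-- the periodic factor -/
noncomputable def ThL (L : ℝ) (ν : Measure ℝ) (u : ℝ) : ℝ := ∫ r, thL L ((u - r) / L) ∂ν

theorem ThL_int {L : ℝ} (hL : 0 < L) {ν : Measure ℝ} [IsFiniteMeasure ν] (u : ℝ) :
    Integrable (fun r => thL L ((u - r) / L)) ν := by
  refine Integrable.of_bound (C := 1) ?_ ?_
  · exact ((thL_meas L).comp ((measurable_const.sub measurable_id).div_const _)).aestronglyMeasurable
  · filter_upwards with r
    rw [Real.norm_eq_abs, abs_of_pos (thL_pos _ _)]
    exact thL_le hL _

theorem ThL_le {L : ℝ} (hL : 0 < L) {ν : Measure ℝ} [IsFiniteMeasure ν] (u : ℝ) :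
    ThL L ν u ≤ ν.real Set.univ := by
  unfold ThL
  refine (integral_mono (ThL_int hL u) (integrable_const 1) fun r => thL_le hL _).trans (le_of_eq ?_)
  rw [integral_const, smul_eq_mul, mul_one]

theorem ThL_ge {L : ℝ} (hL : 0 < L) {ν : Measure ℝ} [IsFiniteMeasure ν] (u : ℝ) :
    ν.real Set.univ * Real.exp (-L) ≤ ThL L ν u := by
  unfold ThL
  refine le_trans (le_of_eq ?_) (integral_mono (integrable_const (Real.exp (-L))) (ThL_int hL u)
    fun r => thL_ge hL _)
  rw [integral_const, smul_eq_mul]

theorem ThL_per {L : ℝ} (hL : 0 < L) {ν : Measure ℝ} (u : ℝ) : ThL L ν (u + L) = ThL L ν u := by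
  unfold ThL
  congr 1
  funext r
  have h1 : (u + L - r) / L = (u - r) / L + ((1 : ℤ) : ℝ) := by
    push_cast
    field_simp
    ring
  rw [h1, thL_per]

theorem ThL_cont {L : ℝ} (hL : 0 < L) {ν : Measure ℝ} [IsFiniteMeasure ν] (hna : NoAtoms ν) :
    Continuous (ThL L ν) := by
  rw [continuous_iff_continuousAt]
  intro u
  unfold ThL
  apply continuousAt_of_dominated (bound := fun _ => 1)
  · filter_upwards with v
    exact (ThL_int hL v).aestronglyMeasurable
  · filter_upwards with v
    filter_upwards with r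
    rw [Real.norm_eq_abs, abs_of_pos (thL_pos _ _)]
    exact thL_le hL _
  · exact integrable_const _
  · have hcount : (Set.range fun n : ℤ => u - n * L).Countable := Set.countable_range _
    have hnull : ν (Set.range fun n : ℤ => u - n * L) = 0 := by
      have : (Set.range fun n : ℤ => u - n * L) = ⋃ n : ℤ, {u - n * L} := by
        ext x
        simp [eq_comm]
      rw [this, measure_iUnion_null_iff]
      intro n
      exact hna.point _
    have h2 : ∀ᵐ r ∂ν, r ∉ Set.range fun n : ℤ => u - n * L := by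
      rw [ae_iff]
      refine measure_mono_null (fun x hx => ?_) hnull
      exact not_not.1 hx
    filter_upwards [h2] with r hr
    have h3 : ContinuousAt (thL L) ((u - r) / L) := by
      apply thL_cont
      intro h4
      apply hr
      refine ⟨⌈(u - r) / L⌉, ?_⟩
      simp only
      rw [← h4]
      field_simp
      ring
    have h4 : ContinuousAt (fun v : ℝ => (v - r) / L) u := by fun_prop
    exact ContinuousAt.comp (g := thL L) h3 h4

end Pool.Agent.Q74.SP
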