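import Pool.Agent.Q74.SP.SD1

/-! The number of integers up to `x` with a given number of Collatz steps: the oscillating local limit
theorem. -/

set_option autoImplicit false

namespace Pool.Agent.Q74.SP

open Finset Filter Topology MeasureTheory

open Pool.Agent.H499R2.LT (gz gz_pos)

open Classical in
/-- number of positive integers `n ≤ x` for which `s n` needs `l` Collatz steps (halvings and odd steps
counted separately) -/
noncomputable def CW (s : ℤ) (F : Finset ℤ) (x : ℝ) (l : ℕ) : ℕ :=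
  ((Icc 1 ⌊x⌋₊).filter (fun n : ℕ => Meets F (s * n) ∧
    time F (s * n) + odds (time F (s * n)) (s * n) = l)).card

theorem CW_sum {s : ℤ} (hs : s = 1 ∨ s = -1) (F : Finset ℤ) {x : ℝ} (hx : 0 < x) (l : ℕ) :
    (CW s F x l : ℝ) = ∑ o ∈ range (l + 1),
      NR s F (l - o : ℕ) o ((l - o : ℕ) * Real.log 2 - o * Real.log 3 - Real.log x) := by
  classical
  have h1 : ∀ o ∈ range (l + 1), NR s F (l - o : ℕ) o ((l - o : ℕ) * Real.log 2 - o * Real.log 3 - Real.log x)
      = (((Icc 1 ⌊x⌋₊).filter (fun n : ℕ => (Meets F (s * n) ∧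
    time F (s * n) + odds (time F (s * n)) (s * n) = l) ∧ odds (time F (s * n)) (s * n) = o)).card : ℝ) := by
    intro o ho
    rw [NR_card hs F hx (l - o) o]
    have hol : o ≤ l := Nat.lt_succ_iff.1 (mem_range.1 ho)
    congr 2
    apply filter_congr
    intro n _
    constructor
    · rintro ⟨⟨h1, h2⟩, h3⟩
      rw [h2, h3]
      exact ⟨⟨h1, by omega⟩, rfl⟩
    · rintro ⟨⟨h1, h2⟩, h3⟩
      have h4 : time F (s * n) = l - o := by omega
      rw [h4] at h3
      exact ⟨⟨h1, h4⟩, h3⟩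
  rw [sum_congr rfl h1]
  unfold CW
  have h2 := card_eq_sum_card_fiberwise (s := (Icc 1 ⌊x⌋₊).filter
      (fun n : ℕ => Meets F (s * n) ∧ time F (s * n) + odds (time F (s * n)) (s * n) = l)) (t := range (l + 1))
      (f := fun n : ℕ => odds (time F (s * n)) (s * (n : ℤ))) (by
    intro n hn
    rw [mem_coe, mem_filter] at hn
    simp only [coe_range, Set.mem_Iio]
    omega)
  rw [h2]
  push_cast
  apply sum_congr rfl
  intro o _
  rw [filter_filter]

theorem sqrt_close {a b : ℝ} (ha : 0 ≤ a) (hb : 1 ≤ b) : |Real.sqrt a - Real.sqrt b| ≤ |a - b| := by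
  have h1 : 1 ≤ Real.sqrt b := Real.one_le_sqrt.2 hb
  have h2 : 0 ≤ Real.sqrt a := Real.sqrt_nonneg a
  have h3 : a - b = (Real.sqrt a - Real.sqrt b) * (Real.sqrt a + Real.sqrt b) := by
    have e1 := Real.mul_self_sqrt ha
    have e2 := Real.mul_self_sqrt (show 0 ≤ b by linarith)
    nlinarith
  rw [h3, abs_mul, abs_of_nonneg (show 0 ≤ Real.sqrt a + Real.sqrt b by linarith)]
  have := abs_nonneg (Real.sqrt a - Real.sqrt b)
  nlinarith

/-- the comparison of the Gaussian factors -/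
theorem gauss_cmp {l o X K t r : ℝ} (hl : 1 ≤ l) (hr : r = Real.sqrt l) (hK : 0 ≤ K) (ht : 0 ≤ t)
    (htr : 1 ≤ t * r) (h3t : 3 * t ≤ 1) (hKr : K + 1 ≤ r)
    (hv : |3 * X - l| ≤ K * r) (hox : |X - o| ≤ t * r) :
    |3 * o - l| ≤ (K + 1) * r ∧ l / 3 ≤ l - o ∧
    |Real.sqrt (l / (l - o)) * Real.exp (-(2 * o - (l - o)) ^ 2 / (2 * (l - o)))
      - Real.sqrt (3 / 2) * Real.exp (-(3 * (3 * X - l) ^ 2) / (4 * l))|
      ≤ ((3 / 2) * (K + 1) + 2 * ((3 / 4) * (K + 1) ^ 3 + (9 / 4) * (2 * K + 1))) * t := by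
  have hl0 : 0 < l := by linarith
  have hr0 : 0 < r := by rw [hr]; exact Real.sqrt_pos.2 hl0
  have hrr : r * r = l := by rw [hr]; exact Real.mul_self_sqrt hl0.le
  set u := 3 * o - l with hu
  set v := 3 * X - l with hvdef
  have huv : |u - v| ≤ 3 * (t * r) := by
    have : u - v = -(3 * (X - o)) := by rw [hu, hvdef]; ring
    rw [this, abs_neg, abs_mul, abs_of_pos (by norm_num : (0 : ℝ) < 3)]
    linarith
  have hule : |u| ≤ (K + 1) * r := by
    have h1 : |u| ≤ |v| + |u - v| := by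
      have := abs_add_le v (u - v)
      rwa [add_sub_cancel] at this
    have h2 : 3 * (t * r) ≤ r := by nlinarith
    linarith
  have hul : |u| ≤ l := by
    have h1 : (K + 1) * r ≤ r * r := mul_le_mul_of_nonneg_right hKr hr0.le
    linarith
  have hlo : l - o = (2 * l - u) / 3 := by rw [hu]; ring
  have h2lu : l ≤ 2 * l - u := by linarith [(abs_le.1 hul).2]
  have hk3 : l / 3 ≤ l - o := by rw [hlo]; linarith
  refine ⟨hule, hk3, ?_⟩
  have hpos : 0 < 2 * l - u := by linarith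
  have hlo0 : 0 < l - o := by linarith
  -- prefactor
  have p1 : |Real.sqrt (l / (l - o)) - Real.sqrt (3 / 2)| ≤ (3 / 2) * (K + 1) * t := by
    refine (sqrt_close (by positivity) (by norm_num)).trans ?_
    have hne : 2 * l - u ≠ 0 := hpos.ne'
    have h1 : l / (l - o) - 3 / 2 = 3 * u / (2 * (2 * l - u)) := by
      rw [hlo, div_div_eq_mul_div, div_sub_div _ _ hne (by norm_num), div_eq_div_iff (by positivity) (by positivity)]
      ring
    rw [h1, abs_div, abs_mul, abs_of_pos (by norm_num : (0 : ℝ) < 3), abs_of_pos (by positivity : 0 < 2 * (2 * l - u)),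
      div_le_iff₀ (by positivity)]
    have h2 : (K + 1) * r ≤ (K + 1) * t * l := by
      rw [← hrr]
      have : (K + 1) * t * (r * r) = (K + 1) * r * (t * r) := by ring
      rw [this]
      have h3 : 0 ≤ (K + 1) * r := by positivity
      nlinarith
    have h3 : 0 ≤ (K + 1) * t := by positivity
    nlinarith
  -- the exponents
  have p2 : |Real.exp (-(2 * o - (l - o)) ^ 2 / (2 * (l - o))) - Real.exp (-(3 * v ^ 2) / (4 * l))|
      ≤ ((3 / 4) * (K + 1) ^ 3 + (9 / 4) * (2 * K + 1)) * t := by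
    have e1 : -(2 * o - (l - o)) ^ 2 / (2 * (l - o)) = -(3 * u ^ 2 / (2 * (2 * l - u))) := by
      rw [hlo, show 2 * o - (2 * l - u) / 3 = u by rw [hu]; ring]
      field_simp
    have e2 : -(3 * v ^ 2) / (4 * l) = -(3 * v ^ 2 / (4 * l)) := by ring
    rw [e1, e2]
    refine (exp_close (by positivity) (by positivity)).trans ?_
    have e3 : 3 * u ^ 2 / (2 * (2 * l - u)) - 3 * v ^ 2 / (4 * l) =
        3 * u ^ 3 / (4 * l * (2 * l - u)) + 3 * ((u - v) * (u + v)) / (4 * l) := by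
      field_simp
      ring
    rw [e3]
    refine (abs_add_le _ _).trans ?_
    have q1 : |3 * u ^ 3 / (4 * l * (2 * l - u))| ≤ (3 / 4) * (K + 1) ^ 3 * t := by
      rw [abs_div, abs_mul, abs_pow, abs_of_pos (by norm_num : (0 : ℝ) < 3),
        abs_of_pos (by positivity : 0 < 4 * l * (2 * l - u)), div_le_iff₀ (by positivity)]
      have h1 : |u| ^ 3 ≤ ((K + 1) * r) ^ 3 := pow_le_pow_left₀ (abs_nonneg _) hule 3
      have h2 : ((K + 1) * r) ^ 3 ≤ (K + 1) ^ 3 * t * (l * l) := by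
        have : (K + 1) ^ 3 * t * (l * l) = (K + 1) ^ 3 * r ^ 3 * (t * r) := by rw [← hrr]; ring
        rw [this, mul_pow]
        have h3 : 0 ≤ (K + 1) ^ 3 * r ^ 3 := by positivity
        nlinarith
      have h3 : (K + 1) ^ 3 * t * (l * l) ≤ (K + 1) ^ 3 * t * (l * (2 * l - u)) := by
        apply mul_le_mul_of_nonneg_left _ (by positivity)
        exact mul_le_mul_of_nonneg_left h2lu hl0.le
      calc 3 * |u| ^ 3 ≤ 3 * ((K + 1) ^ 3 * t * (l * (2 * l - u))) := by linarith
        _ = 3 / 4 * (K + 1) ^ 3 * t * (4 * l * (2 * l - u)) := by ring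
    have q2 : |3 * ((u - v) * (u + v)) / (4 * l)| ≤ (9 / 4) * (2 * K + 1) * t := by
      rw [abs_div, abs_mul, abs_mul, abs_of_pos (by norm_num : (0 : ℝ) < 3), abs_of_pos (by positivity : 0 < 4 * l),
        div_le_iff₀ (by positivity)]
      have h1 : |u + v| ≤ (2 * K + 1) * r := by
        refine (abs_add_le _ _).trans ?_
        linarith
      have h2 : |u - v| * |u + v| ≤ 3 * (t * r) * ((2 * K + 1) * r) :=
        mul_le_mul huv h1 (abs_nonneg _) (by positivity)
      calc 3 * (|u - v| * |u + v|) ≤ 3 * (3 * (t * r) * ((2 * K + 1) * r)) := by linarith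
        _ = 9 / 4 * (2 * K + 1) * t * (4 * (r * r)) := by ring
        _ = 9 / 4 * (2 * K + 1) * t * (4 * l) := by rw [hrr]
    linarith
  -- together
  have hE1 : Real.exp (-(2 * o - (l - o)) ^ 2 / (2 * (l - o))) ≤ 1 := by
    rw [← Real.exp_zero]
    apply Real.exp_le_exp.2
    apply div_nonpos_of_nonpos_of_nonneg _ (by positivity)
    have := sq_nonneg (2 * o - (l - o))
    linarith
  have hs2 : Real.sqrt (3 / 2) ≤ 2 := by
    rw [Real.sqrt_le_left (by norm_num)]
    norm_num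
  set E := Real.exp (-(2 * o - (l - o)) ^ 2 / (2 * (l - o))) with hE
  set G := Real.exp (-(3 * v ^ 2) / (4 * l)) with hG
  have e4 : Real.sqrt (l / (l - o)) * E - Real.sqrt (3 / 2) * G =
      (Real.sqrt (l / (l - o)) - Real.sqrt (3 / 2)) * E + Real.sqrt (3 / 2) * (E - G) := by ring
  rw [e4]
  refine (abs_add_le _ _).trans ?_
  rw [abs_mul, abs_mul, abs_of_pos (Real.exp_pos _), abs_of_nonneg (Real.sqrt_nonneg _)]
  have h1 : |Real.sqrt (l / (l - o)) - Real.sqrt (3 / 2)| * E ≤ (3 / 2) * (K + 1) * t := by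
    have := abs_nonneg (Real.sqrt (l / (l - o)) - Real.sqrt (3 / 2))
    nlinarith
  have h2 : Real.sqrt (3 / 2) * |E - G| ≤ 2 * (((3 / 4) * (K + 1) ^ 3 + (9 / 4) * (2 * K + 1)) * t) :=
    mul_le_mul hs2 p2 (abs_nonneg _) (by norm_num)
  linarith

end Pool.Agent.Q74.SP
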