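import Pool.Agent.Q74.SP.SD2

/-! The number of integers up to `x` with a given number of Collatz steps: the oscillating local limit
theorem. -/

set_option autoImplicit false

namespace Pool.Agent.Q74.SP

open Finset Filter Topology MeasureTheory

open Pool.Agent.H499R2.LT (gz gz_pos)

theorem coreC {s : ℤ} (hs : s = 1 ∨ s = -1) {F : Finset ℤ} {ν : Measure ℝ} [IsFiniteMeasure ν] {A : ℝ}
    (hA0 : 0 ≤ A) (hA : ν (Set.Icc (-A) A)ᶜ = 0) (hAl : ∀ x, x ≠ 0 → Meets F x → |lr F x| ≤ A) {K ε1 : ℝ}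
    (hK : 0 ≤ K) (h9 : 0 ≤ ε1) {l k1 : ℕ} (hl : 1 ≤ l)
    (hLL : ∀ (k : ℕ) (o : ℤ), k1 ≤ k → |2 * (o : ℝ) - k| ≤ 2 * (K + 1) * Real.sqrt k →
      ∀ a : ℝ, |Real.sqrt k * (NR s F k o a * (3 : ℝ) ^ o / 2 ^ k)
        - Real.log 3 * gz 0 * RR ν a * Real.exp (-(2 * (o : ℝ) - k) ^ 2 / (2 * k))| ≤ ε1)
    (hk1 : (k1 : ℝ) ≤ l / 3) {t C : ℝ} (ht : t = (Real.log l + A + 1) / Real.sqrt l) (h3t : 3 * t ≤ 1)
    (hKr : K + 1 ≤ Real.sqrt l)
    (hC : C = (3 / 2) * (K + 1) + 2 * ((3 / 4) * (K + 1) ^ 3 + (9 / 4) * (2 * K + 1)))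
    {X : ℝ} (hX : |3 * X - l| ≤ K * Real.sqrt l)
    {o : ℕ} (hol : o ≤ l) (M : ℝ) (hM : ∀ a, RR ν a ≤ M) :
    |Real.sqrt l * (NR s F (l - o : ℕ) o ((X - o) * Real.log 6) * (3 : ℝ) ^ (o : ℤ) / 2 ^ (l - o))
        - Real.log 3 * gz 0 * Real.sqrt (3 / 2) * RR ν ((X - o) * Real.log 6) *
          Real.exp (-(3 * (3 * X - l) ^ 2) / (4 * l))|
      ≤ (if (X - o) * Real.log 6 ≤ A then 2 * ε1 + Real.log 3 * gz 0 * M * (C * t) else 0)
        + (if (X - o) * Real.log 6 ≤ -Real.log l then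
          Real.sqrt l * Real.exp A + 2 * (Real.log 3 * gz 0 * M) else 0) := by
  have hlR : (1 : ℝ) ≤ l := by exact_mod_cast hl
  have hl0 : (0 : ℝ) < l := by linarith
  have hsq : 0 < Real.sqrt (l : ℝ) := Real.sqrt_pos.2 hl0
  have hss : Real.sqrt (l : ℝ) * Real.sqrt l = l := Real.mul_self_sqrt hl0.le
  have hG0pos : 0 < gz 0 := gz_pos 0
  have hL6 : 1 < Real.log 6 := by
    rw [Real.lt_log_iff_exp_lt (by norm_num)]
    linarith [Real.exp_one_lt_d9]
  have hL3 : 0 < Real.log 3 := Real.log_pos (by norm_num)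
  have hlogl : 0 ≤ Real.log l := Real.log_nonneg hlR
  have hM0 : 0 ≤ M := (RR_nonneg ν 0).trans (hM 0)
  have hC0 : 0 ≤ C := by rw [hC]; positivity
  have hs2 : Real.sqrt (3 / 2) ≤ 2 := by
    rw [Real.sqrt_le_left (by norm_num)]
    norm_num
  set κ : ℝ := Real.log 3 * gz 0 with hκ
  have hκ0 : 0 < κ := by positivity
  set G := Real.exp (-(3 * (3 * X - l) ^ 2) / (4 * l)) with hG
  have hG0 : 0 < G := Real.exp_pos _
  have hG1 : G ≤ 1 := by
    rw [hG, ← Real.exp_zero]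
    apply Real.exp_le_exp.2
    apply div_nonpos_of_nonpos_of_nonneg _ (by positivity)
    have := sq_nonneg (3 * X - l)
    linarith
  set a : ℝ := (X - o) * Real.log 6 with ha
  have ht0 : 0 ≤ t := by rw [ht]; positivity
  rcases lt_or_ge A a with h1 | h1
  · rw [NR_zero hAl _ o h1, RR_zero hA h1, if_neg (not_le.2 h1)]
    have h2 : ¬ (a ≤ -Real.log l) := by
      push Not
      linarith
    rw [if_neg h2]
    simp
  rw [if_pos h1]
  rcases le_or_gt a (-Real.log l) with h2 | h2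
  · rw [if_pos h2]
    have h3 := NR_triv hs hAl (l - o) o a
    have h4 : 0 ≤ NR s F (l - o : ℕ) o a * (3 : ℝ) ^ (o : ℤ) / 2 ^ (l - o) := by
      have := NR_nonneg s F (l - o : ℕ) o a
      positivity
    have h5 : Real.sqrt l * (NR s F (l - o : ℕ) o a * (3 : ℝ) ^ (o : ℤ) / 2 ^ (l - o)) ≤ Real.sqrt l * Real.exp A :=
      mul_le_mul_of_nonneg_left h3 hsq.le
    have h6 : 0 ≤ κ * Real.sqrt (3 / 2) * RR ν a * G := by
      have := RR_nonneg ν a
      positivity
    have h7 : κ * Real.sqrt (3 / 2) * RR ν a * G ≤ 2 * (κ * M) := by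
      calc κ * Real.sqrt (3 / 2) * RR ν a * G ≤ κ * 2 * M * 1 := by
            apply mul_le_mul (mul_le_mul (mul_le_mul_of_nonneg_left hs2 hκ0.le) (hM a) (RR_nonneg ν a)
              (by positivity)) hG1 hG0.le (by positivity)
        _ = 2 * (κ * M) := by ring
    have h8 : 0 ≤ Real.sqrt l * (NR s F (l - o : ℕ) o a * (3 : ℝ) ^ (o : ℤ) / 2 ^ (l - o)) := mul_nonneg hsq.le h4
    have h10 : 0 ≤ 2 * ε1 + κ * M * (C * t) := by positivity
    rw [abs_le]
    constructor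
    · linarith [mul_nonneg hsq.le (Real.exp_pos A).le, mul_nonneg hκ0.le hM0]
    · linarith [mul_nonneg hsq.le (Real.exp_pos A).le, mul_nonneg hκ0.le hM0]
  · rw [if_neg (not_le.2 h2), add_zero]
    have h4 : Real.log l + A + 1 = t * Real.sqrt l := by rw [ht]; field_simp
    have h3 : |X - o| ≤ t * Real.sqrt l := by
      have h5 : |a| ≤ Real.log l + A := abs_le.2 ⟨by linarith, by linarith⟩
      have h6 : |a| = |X - o| * Real.log 6 := by rw [ha, abs_mul, abs_of_pos (by linarith : 0 < Real.log 6)]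
      rw [h6] at h5
      have := abs_nonneg (X - o)
      rw [← h4]
      nlinarith
    obtain ⟨g1, g2, g3⟩ := gauss_cmp (o := (o : ℝ)) (X := X) hlR rfl hK ht0 (by rw [← h4]; linarith) h3t hKr hX h3
    rw [← hC] at g3
    have hcast : ((l - o : ℕ) : ℝ) = (l : ℝ) - o := by push_cast [Nat.cast_sub hol]; ring
    have hk0 : (0 : ℝ) < (l : ℝ) - o := by linarith
    have hkk : k1 ≤ l - o := by
      have : (k1 : ℝ) ≤ ((l - o : ℕ) : ℝ) := by rw [hcast]; linarith
      exact_mod_cast this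
    have hsqk : Real.sqrt l ≤ 2 * Real.sqrt ((l : ℝ) - o) := by
      rw [Real.sqrt_le_left (by positivity), mul_pow, Real.sq_sqrt hk0.le]
      linarith
    have h5 : |2 * ((o : ℤ) : ℝ) - ((l - o : ℕ) : ℝ)| ≤ 2 * (K + 1) * Real.sqrt ((l - o : ℕ) : ℝ) := by
      rw [Int.cast_natCast, hcast, show 2 * (o : ℝ) - ((l : ℝ) - o) = 3 * o - l by ring]
      refine g1.trans ?_
      have h6 : (K + 1) * Real.sqrt l ≤ (K + 1) * (2 * Real.sqrt ((l : ℝ) - o)) :=
        mul_le_mul_of_nonneg_left hsqk (by linarith)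
      linarith
    have h6 := hLL (l - o) o hkk h5 a
    rw [Int.cast_natCast, hcast] at h6
    set E := Real.exp (-(2 * (o : ℝ) - ((l : ℝ) - o)) ^ 2 / (2 * ((l : ℝ) - o))) with hE
    set N := NR s F (l - o : ℕ) o a * (3 : ℝ) ^ (o : ℤ) / 2 ^ (l - o) with hN
    have hpre : Real.sqrt l = Real.sqrt ((l : ℝ) / ((l : ℝ) - o)) * Real.sqrt ((l : ℝ) - o) := by
      rw [← Real.sqrt_mul (by positivity), div_mul_cancel₀ _ hk0.ne']
    have hpre2 : Real.sqrt ((l : ℝ) / ((l : ℝ) - o)) ≤ 2 := by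
      rw [Real.sqrt_le_left (by norm_num), div_le_iff₀ hk0]
      linarith
    have e4 : Real.sqrt l * N - κ * Real.sqrt (3 / 2) * RR ν a * G =
        Real.sqrt ((l : ℝ) / ((l : ℝ) - o)) * (Real.sqrt ((l : ℝ) - o) * N - κ * RR ν a * E) +
        κ * RR ν a * (Real.sqrt ((l : ℝ) / ((l : ℝ) - o)) * E - Real.sqrt (3 / 2) * G) := by
      nth_rewrite 1 [hpre]
      ring
    rw [e4]
    refine (abs_add_le _ _).trans (add_le_add ?_ ?_)
    · rw [abs_mul, abs_of_nonneg (Real.sqrt_nonneg _)]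
      exact mul_le_mul hpre2 h6 (abs_nonneg _) (by norm_num)
    · rw [abs_mul, abs_of_nonneg (mul_nonneg hκ0.le (RR_nonneg ν a))]
      exact mul_le_mul (mul_le_mul_of_nonneg_left (hM a) hκ0.le) g3 (abs_nonneg _) (by positivity)

theorem tailsC (A K c1 c2 c3 L : ℝ) (hL : 0 < L) :
    Tendsto (fun k : ℕ => (Real.log k + A + 1) / Real.sqrt k) atTop (𝓝 0) ∧
    Tendsto (fun k : ℕ => (Real.sqrt k * c1 + c2) / k) atTop (𝓝 0) ∧
    Tendsto (fun k : ℕ => ((k : ℝ) - K * Real.sqrt k) / 3) atTop atTop ∧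
    Tendsto (fun k : ℕ => c3 * Real.exp (A - ((k : ℝ) - K * Real.sqrt k) / 3 * L)) atTop (𝓝 0) := by
  obtain ⟨t1, t2, t3, t4⟩ := tails (A + 1) K (c1 * (2 / 3)) (c2 * (2 / 3)) c3 L hL
  have h3 : Tendsto (fun k : ℕ => ((k : ℝ) - K * Real.sqrt k) / 3) atTop atTop := by
    have h := t3.atTop_mul_const (show (0 : ℝ) < 2 / 3 by norm_num)
    refine h.congr fun k => ?_
    ring
  refine ⟨?_, ?_, h3, ?_⟩
  · refine t1.congr fun k => ?_
    rw [← add_assoc]
  · refine t2.congr fun k => ?_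
    ring
  · have h5 : Tendsto (fun k : ℕ => A - ((k : ℝ) - K * Real.sqrt k) / 3 * L) atTop atBot := by
      have h6 := h3.atTop_mul_const hL
      have h7 := tendsto_neg_atTop_atBot.comp h6
      have h8 := tendsto_atBot_add_const_left atTop A h7
      refine h8.congr fun k => ?_
      simp only [Function.comp]
      ring
    have h6 := (Real.tendsto_exp_atBot.comp h5).const_mul c3
    rw [mul_zero] at h6
    exact h6

/-- OSCILLATING LOCAL LIMIT THEOREM for the number of Collatz steps -/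
theorem sharpC {s : ℤ} (hs : s = 1 ∨ s = -1) {F : Finset ℤ} {ν : Measure ℝ} [IsFiniteMeasure ν] {A : ℝ}
    (hA0 : 0 ≤ A) (hA : ν (Set.Icc (-A) A)ᶜ = 0) (hAl : ∀ x, x ≠ 0 → Meets F x → |lr F x| ≤ A) (hna : NoAtoms ν)
    (hlaw : ∀ h : ℝ → ℂ, Continuous h → Tendsto (mean fun n => GG F h 0 0 (s * n)) atTop (𝓝 (∫ x, h x ∂ν)))
    {K ε : ℝ} (hK : 0 ≤ K) (hε : 0 < ε) : ∃ l0 : ℕ, ∀ l : ℕ, l0 ≤ l → ∀ x : ℝ, 0 < x →
      |l * Real.log (4 / 3) - 3 * Real.log x| ≤ K * Real.sqrt l →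
      |Real.sqrt l / x * CW s F x l - 6 / 5 * Real.sqrt (3 / 2) * (Real.log 3 * gz 0) *
        Real.exp (-(3 * (l * Real.log (4 / 3) - 3 * Real.log x) ^ 2) / (4 * l * Real.log 6 ^ 2)) *
        ThL (Real.log 6) ν (l * Real.log 2 - Real.log x)| ≤ ε := by
  have hG0pos : 0 < gz 0 := gz_pos 0
  have hL6 : 1 < Real.log 6 := by
    rw [Real.lt_log_iff_exp_lt (by norm_num)]
    linarith [Real.exp_one_lt_d9]
  have hL3pos : 0 < Real.log 3 := Real.log_pos (by norm_num)
  have hlog6 : Real.log 6 = Real.log 2 + Real.log 3 := by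
    rw [← Real.log_mul (by norm_num) (by norm_num)]
    norm_num
  set L6 : ℝ := Real.log 6 with hL6def
  have hL0 : 0 < L6 := by linarith
  have hq : (1 - Real.exp (-L6))⁻¹ = 6 / 5 := by
    rw [Real.exp_neg, hL6def, Real.exp_log (by norm_num)]
    norm_num
  have hq2 : (1 - Real.exp (-L6))⁻¹ * Real.exp (-L6) = 1 / 5 := by
    rw [hq, Real.exp_neg, hL6def, Real.exp_log (by norm_num)]
    norm_num
  set κ : ℝ := Real.log 3 * gz 0 with hκ
  have hκ0 : 0 < κ := by positivity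
  set M : ℝ := ∫ x, Real.exp (-x) ∂ν with hM
  have hM0 : 0 ≤ M := integral_nonneg fun _ => (Real.exp_pos _).le
  have hRM : ∀ a, RR ν a ≤ M := RR_le hA
  set m : ℝ := ν.real Set.univ with hm
  have hm0 : 0 ≤ m := measureReal_nonneg
  have hs2 : Real.sqrt (3 / 2) ≤ 2 := by
    rw [Real.sqrt_le_left (by norm_num)]
    norm_num
  set C : ℝ := (3 / 2) * (K + 1) + 2 * ((3 / 4) * (K + 1) ^ 3 + (9 / 4) * (2 * K + 1)) with hC
  set ε1 : ℝ := ε / 12 / Real.exp A with hε1
  have hε1pos : 0 < ε1 := by positivity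
  obtain ⟨k1, hk1⟩ := LL_unif hs hA hna hlaw (2 * (K + 1)) ε1 hε1pos
  obtain ⟨T1, T2, T3, T4⟩ := tailsC A K (Real.exp A * (6 / 5)) (2 * (κ * M) * (6 / 5)) (2 * κ * m / 5) L6 hL0
  have E1 : ∀ᶠ k : ℕ in atTop, (Real.log k + A + 1) / Real.sqrt k < 1 / 3 := T1.eventually (gt_mem_nhds (by norm_num))
  have E2 : ∀ᶠ k : ℕ in atTop, κ * M * C * (6 / 5 * Real.exp A) * ((Real.log k + A + 1) / Real.sqrt k) < ε / 4 := by
    have h := T1.const_mul (κ * M * C * (6 / 5 * Real.exp A))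
    rw [mul_zero] at h
    exact h.eventually (gt_mem_nhds (by positivity))
  have E3 := T2.eventually (gt_mem_nhds (show 0 < ε / 4 by positivity))
  have E4 := T3.eventually_ge_atTop (A / L6)
  have E5 := T4.eventually (gt_mem_nhds (show 0 < ε / 4 by positivity))
  have hn : Tendsto (fun k : ℕ => (k : ℝ)) atTop atTop := tendsto_natCast_atTop_atTop
  have E6 := (Real.tendsto_sqrt_atTop.comp hn).eventually_ge_atTop (K + 1)
  have E7 := hn.eventually_ge_atTop (3 * (k1 : ℝ))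
  obtain ⟨l0, hl0⟩ := eventually_atTop.1 ((((E1.and E2).and E3).and E4).and ((E5.and E6).and (E7.and
    (eventually_ge_atTop 1))))
  refine ⟨l0, fun l hl x hx hxl => ?_⟩
  obtain ⟨⟨⟨⟨e1, e2⟩, e3⟩, e4⟩, ⟨e5, e6⟩, e7, e8⟩ := hl0 l hl
  simp only [Function.comp] at e6
  have hlR : (1 : ℝ) ≤ l := by exact_mod_cast e8
  have hlpos : (0 : ℝ) < l := by linarith
  have hsq : 0 < Real.sqrt (l : ℝ) := Real.sqrt_pos.2 hlpos
  set X : ℝ := (l * Real.log 2 - Real.log x) / L6 with hXdef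
  have h43 : Real.log (4 / 3) = 3 * Real.log 2 - L6 := by
    rw [Real.log_div (by norm_num) (by norm_num), show (4 : ℝ) = 2 ^ 2 by norm_num, Real.log_pow, hlog6]
    push_cast
    ring
  have h3X : l * Real.log (4 / 3) - 3 * Real.log x = (3 * X - l) * L6 := by
    rw [h43, hXdef]
    field_simp
    ring
  have hX : |3 * X - l| ≤ K * Real.sqrt l := by
    rw [h3X, abs_mul, abs_of_pos hL0] at hxl
    have := abs_nonneg (3 * X - l)
    nlinarith
  rw [h3X]
  have hgauss : -(3 * ((3 * X - l) * L6) ^ 2) / (4 * l * L6 ^ 2) = -(3 * (3 * X - l) ^ 2) / (4 * l) := by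
    field_simp
  rw [hgauss]
  set G : ℝ := Real.exp (-(3 * (3 * X - l) ^ 2) / (4 * l)) with hG
  have hG0 : 0 < G := Real.exp_pos _
  have hG1 : G ≤ 1 := by
    rw [hG, ← Real.exp_zero]
    apply Real.exp_le_exp.2
    apply div_nonpos_of_nonpos_of_nonneg _ (by positivity)
    have := sq_nonneg (3 * X - l)
    linarith
  have hth : ThL L6 ν (l * Real.log 2 - Real.log x) = ∫ r, thL L6 (X - r / L6) ∂ν := by
    unfold ThL
    congr 1
    funext r
    rw [hXdef]
    congr 1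
    ring
  rw [hth]
  -- the sum over the number of odd terms
  set V : ℕ → ℝ := fun o => Real.sqrt l * (NR s F (l - o : ℕ) o ((X - o) * L6) * (3 : ℝ) ^ (o : ℤ) / 2 ^ (l - o)) with hV
  have hao : ∀ o : ℕ, o ≤ l → ((l - o : ℕ) : ℝ) * Real.log 2 - o * Real.log 3 - Real.log x = (X - o) * L6 := by
    intro o ho
    have hcast : ((l - o : ℕ) : ℝ) = (l : ℝ) - o := by push_cast [Nat.cast_sub ho]; ring
    have h1 : (X - o) * L6 = (l * Real.log 2 - Real.log x) - o * L6 := by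
      rw [hXdef, sub_mul, div_mul_cancel₀ _ hL0.ne']
    rw [hcast, h1, hlog6]
    ring
  have hW : Real.sqrt l / x * CW s F x l = ∑ o ∈ range (l + 1), V o * Real.exp ((X - o) * L6) := by
    rw [CW_sum hs F hx, Finset.mul_sum]
    apply sum_congr rfl
    intro o ho
    have hol : o ≤ l := Nat.lt_succ_iff.1 (mem_range.1 ho)
    rw [hao o hol, hV]
    have h1 : Real.exp ((X - o) * L6) = 2 ^ (l - o) / (3 ^ o * x) := by
      rw [← hao o hol, Real.exp_sub, Real.exp_sub, Real.exp_log hx]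
      have h2 : Real.exp (((l - o : ℕ) : ℝ) * Real.log 2) = 2 ^ (l - o) := by
        rw [mul_comm, Real.exp_mul, Real.exp_log (by norm_num), Real.rpow_natCast]
      have h3 : Real.exp ((o : ℝ) * Real.log 3) = 3 ^ o := by
        rw [mul_comm, Real.exp_mul, Real.exp_log (by norm_num), Real.rpow_natCast]
      rw [h2, h3, div_div]
    simp only [h1, zpow_natCast]
    field_simp
  have hS := RR_sumL hL0 (ν := ν) hA (X := X) (k := l) (by
      have := (abs_le.1 hX).1
      linarith) (by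
      have := (abs_le.1 hX).2
      linarith)
  rw [hq2, hq] at hS
  set I1 : ℝ := ∫ r, thL L6 (X - r / L6) ∂ν with hI1
  set I2 : ℝ := ∫ r, Real.exp ((X - r / L6 - l) * L6) ∂ν with hI2
  have hI20 : 0 ≤ I2 := integral_nonneg fun _ => (Real.exp_pos _).le
  have hI2le : I2 ≤ m * Real.exp (A - ((l : ℝ) - K * Real.sqrt l) / 3 * L6) := by
    have h1 : I2 ≤ ∫ r, Real.exp (A - ((l : ℝ) - K * Real.sqrt l) / 3 * L6) ∂ν := by
      apply integral_mono_ae (integrable_of_supp hA (by fun_prop)) (integrable_const _)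
      rw [Filter.EventuallyLE, ae_iff]
      refine measure_mono_null (t := (Set.Icc (-A) A)ᶜ) ?_ hA
      intro r hr hr'
      apply hr
      apply Real.exp_le_exp.2
      have h2 : (X - r / L6 - l) * L6 = (X - l) * L6 - r := by
        field_simp
        ring
      rw [h2]
      have h3 : X - l ≤ -(((l : ℝ) - K * Real.sqrt l) / 3) := by
        have := (abs_le.1 hX).2
        linarith
      have h4 := mul_le_mul_of_nonneg_right h3 hL0.le
      linarith [hr'.1]
    rw [integral_const, smul_eq_mul] at h1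
    exact h1
  -- the error
  set D : ℕ → ℝ := fun o => V o - κ * Real.sqrt (3 / 2) * RR ν ((X - o) * L6) * G with hD
  have hdec : Real.sqrt l / x * CW s F x l - 6 / 5 * Real.sqrt (3 / 2) * κ * G * I1
      = (∑ o ∈ range (l + 1), D o * Real.exp ((X - o) * L6)) - κ * Real.sqrt (3 / 2) * G * (1 / 5 * I2) := by
    have h1 : ∑ o ∈ range (l + 1), D o * Real.exp ((X - o) * L6) =
        (∑ o ∈ range (l + 1), V o * Real.exp ((X - o) * L6)) -
          κ * Real.sqrt (3 / 2) * G * ∑ o ∈ range (l + 1), RR ν ((X - o) * L6) * Real.exp ((X - o) * L6) := by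
      rw [Finset.mul_sum, ← Finset.sum_sub_distrib]
      apply sum_congr rfl
      intro o _
      simp only [hD]
      ring
    rw [h1, hW, hS]
    ring
  rw [hdec]
  have hC0 : 0 ≤ C := by rw [hC]; positivity
  have hlogl : 0 ≤ Real.log l := Real.log_nonneg hlR
  have hDle : |∑ o ∈ range (l + 1), D o * Real.exp ((X - o) * L6)| ≤
      (2 * ε1 + κ * M * (C * ((Real.log l + A + 1) / Real.sqrt l))) * (6 / 5 * Real.exp A)
      + (Real.sqrt l * Real.exp A + 2 * (κ * M)) * (6 / 5 * Real.exp (-Real.log l)) := by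
    refine (Finset.abs_sum_le_sum_abs _ _).trans ?_
    have h1 : ∀ o ∈ range (l + 1), |D o * Real.exp ((X - o) * L6)| ≤
        (if (X - o) * L6 ≤ A then (2 * ε1 + κ * M * (C * ((Real.log l + A + 1) / Real.sqrt l))) *
          Real.exp ((X - o) * L6) else 0)
        + (if (X - o) * L6 ≤ -Real.log l then (Real.sqrt l * Real.exp A + 2 * (κ * M)) *
          Real.exp ((X - o) * L6) else 0) := by
      intro o ho
      have hol : o ≤ l := Nat.lt_succ_iff.1 (mem_range.1 ho)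
      have h2 := coreC hs hA0 hA hAl hK hε1pos.le e8 hk1 (by linarith) rfl (by linarith) e6 hC hX hol M hRM
      rw [abs_mul, abs_of_pos (Real.exp_pos ((X - o) * L6))]
      refine (mul_le_mul_of_nonneg_right h2 (Real.exp_pos _).le).trans (le_of_eq ?_)
      rw [← hL6def, ← hκ, add_mul, ite_mul, ite_mul, zero_mul]
    refine (Finset.sum_le_sum h1).trans ?_
    rw [Finset.sum_add_distrib, ← Finset.sum_filter, ← Finset.sum_filter, ← Finset.mul_sum, ← Finset.mul_sum]
    have g1 := geoL hL0 X A (l + 1)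
    have g2 := geoL hL0 X (-Real.log l) (l + 1)
    rw [hq] at g1 g2
    apply add_le_add
    · exact mul_le_mul_of_nonneg_left g1 (by positivity)
    · exact mul_le_mul_of_nonneg_left g2 (by positivity)
  have hexpl : Real.exp (-Real.log l) = (l : ℝ)⁻¹ := by rw [Real.exp_neg, Real.exp_log hlpos]
  rw [hexpl] at hDle
  have q1 : 2 * ε1 * (6 / 5 * Real.exp A) ≤ ε / 4 := by
    have : 2 * ε1 * (6 / 5 * Real.exp A) = ε / 5 := by
      rw [hε1]
      field_simp
      ring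
    linarith
  have q2 : κ * M * (C * ((Real.log l + A + 1) / Real.sqrt l)) * (6 / 5 * Real.exp A) =
      κ * M * C * (6 / 5 * Real.exp A) * ((Real.log l + A + 1) / Real.sqrt l) := by ring
  have q3 : (Real.sqrt l * Real.exp A + 2 * (κ * M)) * (6 / 5 * (l : ℝ)⁻¹) =
      (Real.sqrt l * (Real.exp A * (6 / 5)) + 2 * (κ * M) * (6 / 5)) / l := by
    rw [div_eq_mul_inv]
    ring
  have q4 : 0 ≤ κ * Real.sqrt (3 / 2) * G * (1 / 5 * I2) := by positivity
  have q5 : κ * Real.sqrt (3 / 2) * G * (1 / 5 * I2) ≤ ε / 4 := by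
    calc κ * Real.sqrt (3 / 2) * G * (1 / 5 * I2) ≤ κ * 2 * 1 * (1 / 5 * (m * Real.exp (A - ((l : ℝ) - K * Real.sqrt l) / 3 * L6))) := by
          apply mul_le_mul (mul_le_mul (mul_le_mul_of_nonneg_left hs2 hκ0.le) hG1 hG0.le (by positivity)) _
            (by positivity) (by positivity)
          linarith
      _ = 2 * κ * m / 5 * Real.exp (A - ((l : ℝ) - K * Real.sqrt l) / 3 * L6) := by ring
      _ ≤ ε / 4 := e5.le
  rw [add_mul, q2, q3] at hDle
  refine (abs_sub _ _).trans ?_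
  rw [abs_of_nonneg q4]
  linarith

end Pool.Agent.Q74.SP
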