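import Pool.Agent.Q74.SP.SD2

/-! The number of odd integers up to `x` with a given number of odd terms: preparations. -/

set_option autoImplicit false

namespace Pool.Agent.Q74.SP

open Finset Filter Topology MeasureTheory

open Pool.Agent.H499R2.LT (gz gz_pos)

open Classical in
/-- number of odd positive integers `n ≤ x` for which the trajectory of `s n` has `o` odd terms before
the hit of `F` -/
noncomputable def HW (s : ℤ) (F : Finset ℤ) (x : ℝ) (o : ℕ) : ℕ :=
  ((Icc 1 ⌊x⌋₊).filter (fun n : ℕ => n % 2 = 1 ∧ Meets F (s * n) ∧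
    odds (time F (s * n)) (s * n) = o)).card

/-- odd elements of `RS` -/
def RSo (s : ℤ) (F : Finset ℤ) (k : ℕ) (o : ℤ) (a : ℝ) : Set ℤ := {x : ℤ | x ∈ RS s F k o a ∧ x % 2 = 1}

noncomputable def NRo (s : ℤ) (F : Finset ℤ) (k : ℕ) (o : ℤ) (a : ℝ) : ℝ := ((RSo s F k o a).ncard : ℝ)

theorem RS_sub {s : ℤ} (hs : s = 1 ∨ s = -1) {F : Finset ℤ} {A : ℝ}
    (hA : ∀ x, x ≠ 0 → Meets F x → |lr F x| ≤ A) (k o : ℕ) (a : ℝ) :
    RS s F k o a ⊆ (((Icc 1 ⌊2 ^ k / 3 ^ o * Real.exp A⌋₊).image (fun n : ℕ => s * (n : ℤ)) : Finset ℤ) : Set ℤ) := by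
  set B : ℝ := 2 ^ k / 3 ^ o * Real.exp A with hB
  have hB0 : 0 < B := by positivity
  have hlogB : Real.log B = k * Real.log 2 - o * Real.log 3 + A := by
    rw [hB, Real.log_mul (by positivity) (by positivity), Real.log_div (by positivity) (by positivity),
      Real.log_pow, Real.log_pow, Real.log_exp]
  rintro y ⟨h0, hm, ht, ho, ha⟩
  have hy : y ≠ 0 := by rintro rfl; simp at h0
  rw [mem_coe, mem_image]
  obtain ⟨n, hn⟩ := Int.eq_ofNat_of_zero_le h0.le
  have hyn : s * (n : ℤ) = y := by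
    have h9 : s * y = (n : ℤ) := hn
    rw [← h9]
    rcases hs with rfl | rfl <;> ring
  have hn0 : 0 < n := by
    rw [hn] at h0
    exact_mod_cast h0
  refine ⟨n, ?_, hyn⟩
  rw [mem_Icc]
  refine ⟨hn0, ?_⟩
  apply Nat.le_floor
  have hnR : (0 : ℝ) < n := by exact_mod_cast hn0
  rw [← Real.log_le_log_iff hnR hB0, hlogB]
  have h2 := (abs_le.1 (hA y hy hm)).1
  unfold lr at h2
  rw [ht, ← hyn, log_side hs] at h2
  have ho' : (odds k (s * n) : ℝ) = o := by
    rw [hyn]
    exact_mod_cast ho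
  rw [ho'] at h2
  linarith

theorem RS_fin' {s : ℤ} (hs : s = 1 ∨ s = -1) {F : Finset ℤ} {A : ℝ}
    (hA : ∀ x, x ≠ 0 → Meets F x → |lr F x| ≤ A) (k o : ℕ) (a : ℝ) : (RS s F k o a).Finite :=
  (Finset.finite_toSet _).subset (RS_sub hs hA k o a)

theorem NRo_nonneg (s : ℤ) (F : Finset ℤ) (k : ℕ) (o : ℤ) (a : ℝ) : 0 ≤ NRo s F k o a := by
  unfold NRo
  exact Nat.cast_nonneg _

theorem NRo_le {s : ℤ} (hs : s = 1 ∨ s = -1) {F : Finset ℤ} {A : ℝ}
    (hA : ∀ x, x ≠ 0 → Meets F x → |lr F x| ≤ A) (k o : ℕ) (a : ℝ) :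
    NRo s F k o a ≤ NR s F k o a := by
  unfold NRo NR
  have h1 : RSo s F k o a ⊆ RS s F k o a := fun x hx => hx.1
  exact_mod_cast Set.ncard_le_ncard h1 (RS_fin' hs hA k o a)

/-- doubling -/
theorem double {F : Finset ℤ} {y : ℤ} (hF : 2 * y ∉ F) :
    (Meets F (2 * y) ↔ Meets F y) ∧ (Meets F y → time F (2 * y) = time F y + 1 ∧
      odds (time F (2 * y)) (2 * y) = odds (time F y) y) := by
  have hT : T^[1] (2 * y) = y := by
    rw [Function.iterate_one]
    unfold T
    rw [if_pos (by omega)]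
    omega
  have hno : ∀ i < 1, T^[i] (2 * y) ∉ F := by
    intro i hi
    have : i = 0 := by omega
    subst this
    exact hF
  have hm : Meets F (2 * y) ↔ Meets F y := by rw [meets_add hno, hT]
  refine ⟨hm, fun hmy => ?_⟩
  have hm2 := hm.2 hmy
  have t1 := time_add hno hm2
  have o1 := odds_time_add hno hm2
  rw [hT] at t1 o1
  refine ⟨by omega, ?_⟩
  rw [o1]
  have h2 : odds 1 (2 * y) = 0 := by
    unfold odds
    rw [card_eq_zero, filter_eq_empty_iff]
    intro i hi
    have : i = 0 := by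
      rw [mem_range] at hi
      omega
    subst this
    simp
  rw [h2, zero_add]

/-- the even elements of a level -/
theorem exists_kF {s : ℤ} (hs : s = 1 ∨ s = -1) (F : Finset ℤ) {A : ℝ}
    (hA : ∀ x, x ≠ 0 → Meets F x → |lr F x| ≤ A) :
    ∃ kF : ℕ, 1 ≤ kF ∧ ∀ (k o : ℕ) (a : ℝ), kF ≤ k →
      NRo s F k o a = NR s F k o a - NR s F (k - 1 : ℕ) o a := by
  classical
  refine ⟨1 + ∑ f ∈ F, (time F (f / 2) + 1), by omega, fun k o a hk => ?_⟩
  have hk1 : 1 ≤ k := by omega
  have hlogeq : ∀ y : ℤ, y ≠ 0 → ∀ j : ℕ, ∀ p : ℕ, 1 ≤ j →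
      (j : ℝ) * Real.log 2 - p * Real.log 3 - Real.log ((2 * y : ℤ) : ℝ)
        = ((j - 1 : ℕ) : ℝ) * Real.log 2 - p * Real.log 3 - Real.log (y : ℝ) := by
    intro y hy j p hj
    have hyR : (y : ℝ) ≠ 0 := by exact_mod_cast hy
    push_cast [Nat.cast_sub hj]
    rw [Real.log_mul (by norm_num) hyR]
    ring
  have hsplit : RS s F k o a = RSo s F k o a ∪ (fun y : ℤ => 2 * y) '' RS s F (k - 1 : ℕ) o a := by
    ext x
    constructor
    · intro hx
      by_cases hodd : x % 2 = 1
      · exact Or.inl ⟨hx, hodd⟩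
      · right
        have hx2 : x = 2 * (x / 2) := by omega
        set y := x / 2 with hy
        obtain ⟨h0, hm, ht, ho, ha⟩ := hx
        have hxF : 2 * y ∉ F := by
          intro hmem
          rw [← hx2] at hmem
          have : time F x = 0 := by
            unfold time
            rw [Nat.sInf_eq_zero]
            exact Or.inl hmem
          omega
        have hy0 : y ≠ 0 := by
          intro h
          rw [hx2, h] at h0
          simp at h0
        rw [hx2] at hm ht ho ha h0
        obtain ⟨d1, d2⟩ := double hxF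
        have hmy := d1.1 hm
        obtain ⟨d3, d4⟩ := d2 hmy
        refine ⟨y, ⟨?_, hmy, by omega, ?_, ?_⟩, hx2.symm⟩
        · rcases hs with rfl | rfl <;> omega
        · have h7 : time F y = k - 1 := by omega
          rw [← h7, ← d4, ht]
          exact ho
        · have h7 : time F y = k - 1 := by omega
          unfold lr at ha ⊢
          rw [d4, ht, h7, hlogeq y hy0 k _ hk1] at ha
          rw [h7]
          exact ha
    · rintro (hx | ⟨y, hy, rfl⟩)
      · exact hx.1
      · obtain ⟨h0, hm, ht, ho, ha⟩ := hy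
        have hy0 : y ≠ 0 := by
          rintro rfl
          simp at h0
        have hyF : 2 * y ∉ F := by
          intro hmem
          have h1 := Finset.single_le_sum (f := fun f : ℤ => time F (f / 2) + 1) (fun f _ => Nat.zero_le _) hmem
          have h2 : 2 * y / 2 = y := by omega
          rw [h2] at h1
          omega
        obtain ⟨d1, d2⟩ := double hyF
        obtain ⟨d3, d4⟩ := d2 hm
        have h8 : time F (2 * y) = k := by omega
        change 2 * y ∈ RS s F k o a
        refine ⟨?_, d1.2 hm, h8, ?_, ?_⟩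
        · rcases hs with rfl | rfl <;> omega
        · rw [h8] at d4
          rw [d4, ht]
          exact ho
        · unfold lr at ha ⊢
          rw [d4, h8, hlogeq y hy0 k _ hk1, ht]
          rw [ht] at ha
          exact ha
  have hdis : Disjoint (RSo s F k o a) ((fun y : ℤ => 2 * y) '' RS s F (k - 1 : ℕ) o a) := by
    rw [Set.disjoint_left]
    rintro x hx ⟨y, -, rfl⟩
    have := hx.2
    simp only at this
    omega
  have hfin := RS_fin' hs hA k o a
  have h1 : (RS s F k o a).ncard = (RSo s F k o a).ncard + (RS s F (k - 1 : ℕ) o a).ncard := by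
    rw [hsplit, Set.ncard_union_eq hdis (hfin.subset fun x hx => hx.1) ((RS_fin' hs hA (k - 1) o a).image _),
      Set.ncard_image_of_injective]
    intro u v huv
    simp only at huv
    omega
  unfold NRo NR
  rw [h1]
  push_cast
  ring

open Classical in
theorem NRo_card {s : ℤ} (hs : s = 1 ∨ s = -1) (F : Finset ℤ) {x : ℝ} (hx : 0 < x) (k o : ℕ) :
    NRo s F k o (k * Real.log 2 - o * Real.log 3 - Real.log x) =
      (((Icc 1 ⌊x⌋₊).filter (fun n : ℕ => (n % 2 = 1 ∧ Meets F (s * n) ∧
        odds (time F (s * n)) (s * n) = o) ∧ time F (s * n) = k)).card : ℝ) := by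
  unfold NRo
  have h1 : RSo s F k o (k * Real.log 2 - o * Real.log 3 - Real.log x) =
      ((((Icc 1 ⌊x⌋₊).filter (fun n : ℕ => (n % 2 = 1 ∧ Meets F (s * n) ∧
        odds (time F (s * n)) (s * n) = o) ∧ time F (s * n) = k)).image
        (fun n : ℕ => s * (n : ℤ)) : Finset ℤ) : Set ℤ) := by
    ext y
    rw [mem_coe, mem_image]
    constructor
    · rintro ⟨⟨h0, hm, ht, ho, ha⟩, hodd⟩
      obtain ⟨n, hn⟩ := Int.eq_ofNat_of_zero_le h0.le
      have hyn : s * (n : ℤ) = y := by
        have h9 : s * y = (n : ℤ) := hn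
        rw [← h9]
        rcases hs with rfl | rfl <;> ring
      have hn0 : 0 < n := by
        rw [hn] at h0
        exact_mod_cast h0
      refine ⟨n, ?_, hyn⟩
      rw [mem_filter, mem_Icc, hyn]
      refine ⟨⟨hn0, ?_⟩, ⟨?_, hm, ?_⟩, ht⟩
      · apply Nat.le_floor
        have hnR : (0 : ℝ) < n := by exact_mod_cast hn0
        rw [← Real.log_le_log_iff hnR hx]
        unfold lr at ha
        rw [ht, ← hyn, log_side hs] at ha
        have ho' : (odds k (s * n) : ℝ) = o := by
          rw [hyn]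
          exact_mod_cast ho
        rw [ho'] at ha
        linarith
      · rcases hs with rfl | rfl <;> omega
      · rw [ht]
        exact_mod_cast ho
    · rintro ⟨n, hn, rfl⟩
      rw [mem_filter, mem_Icc] at hn
      obtain ⟨⟨h1, h2⟩, ⟨hodd, hm, ho⟩, ht⟩ := hn
      have hnR : (0 : ℝ) < n := by exact_mod_cast h1
      have h3 : (n : ℝ) ≤ x := (Nat.le_floor_iff hx.le).1 h2
      rw [ht] at ho
      refine ⟨⟨?_, hm, ht, by exact_mod_cast ho, ?_⟩, ?_⟩
      · rcases hs with rfl | rfl <;> omega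
      · unfold lr
        rw [ht, log_side hs, ho]
        have := (Real.log_le_log_iff hnR hx).2 h3
        linarith
      · rcases hs with rfl | rfl <;> omega
  rw [h1, Set.ncard_coe_finset, card_image_of_injective]
  intro a b hab
  have h2 : s * (a : ℤ) = s * (b : ℤ) := hab
  rcases hs with rfl | rfl <;> omega

theorem HW_sum {s : ℤ} (hs : s = 1 ∨ s = -1) (F : Finset ℤ) {A : ℝ}
    (hA : ∀ x, x ≠ 0 → Meets F x → |lr F x| ≤ A) {x : ℝ} (hx : 0 < x) (o B : ℕ)
    (hB : A + o * Real.log 3 + Real.log x ≤ B * Real.log 2) :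
    (HW s F x o : ℝ) = ∑ k ∈ range (B + 1), NRo s F k o (k * Real.log 2 - o * Real.log 3 - Real.log x) := by
  classical
  rw [sum_congr rfl fun k _ => NRo_card hs F hx k o]
  unfold HW
  have h2 := card_eq_sum_card_fiberwise (s := (Icc 1 ⌊x⌋₊).filter
      (fun n : ℕ => n % 2 = 1 ∧ Meets F (s * n) ∧ odds (time F (s * n)) (s * n) = o)) (t := range (B + 1))
      (f := fun n : ℕ => time F (s * (n : ℤ))) (by
    intro n hn
    rw [mem_coe, mem_filter, mem_Icc] at hn
    obtain ⟨⟨h1, h2⟩, -, hm, ho⟩ := hn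
    have hnR : (0 : ℝ) < n := by exact_mod_cast h1
    have h3 : (n : ℝ) ≤ x := (Nat.le_floor_iff hx.le).1 h2
    have hn0 : s * (n : ℤ) ≠ 0 := by rcases hs with rfl | rfl <;> omega
    have h4 := (abs_le.1 (hA _ hn0 hm)).2
    unfold lr at h4
    rw [ho, log_side hs] at h4
    have h5 := (Real.log_le_log_iff hnR hx).2 h3
    have h6 : (time F (s * n) : ℝ) * Real.log 2 ≤ B * Real.log 2 := by linarith
    have h7 : (time F (s * n) : ℝ) ≤ B := le_of_mul_le_mul_right h6 (Real.log_pos (by norm_num))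
    have h8 : time F (s * n) ≤ B := by exact_mod_cast h7
    simp only [coe_range, Set.mem_Iio]
    omega)
  rw [h2]
  push_cast
  apply sum_congr rfl
  intro k _
  rw [filter_filter]

end Pool.Agent.Q74.SP
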