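import Pool.Agent.Q74.SP.SH1

/-! The number of odd integers up to `x` with a given number of odd terms: the inner sums and the
comparison of the Gaussian factors. -/

set_option autoImplicit false

namespace Pool.Agent.Q74.SP

open Finset Filter Topology MeasureTheory

open Pool.Agent.H499R2.LT (gz gz_pos)

/-- geometric sums, increasing -/
theorem geoD (X c : ℝ) (n : ℕ) :
    ∑ k ∈ (range n).filter (fun k : ℕ => (k - X) * Real.log 2 ≤ c), Real.exp ((k - X) * Real.log 2)
      ≤ 2 * Real.exp c := by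
  have hL : 0 < Real.log 2 := Real.log_pos (by norm_num)
  have key : ∀ n : ℕ, ∑ k ∈ (range n).filter (fun k : ℕ => (k - X) * Real.log 2 ≤ c),
      Real.exp ((k - X) * Real.log 2) ≤ min (2 * Real.exp c) (Real.exp ((n - X) * Real.log 2)) := by
    intro n
    induction n with
    | zero =>
      simp only [range_zero, filter_empty, sum_empty]
      exact le_min (by positivity) (Real.exp_pos _).le
    | succ n ih =>
      rw [range_add_one, filter_insert]
      have h3 : Real.exp (((n + 1 : ℕ) - X) * Real.log 2) = 2 * Real.exp ((n - X) * Real.log 2) := by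
        have : (((n + 1 : ℕ) : ℝ) - X) * Real.log 2 = (n - X) * Real.log 2 + Real.log 2 := by push_cast; ring
        rw [this, Real.exp_add, Real.exp_log (by norm_num)]
        ring
      have h4 := Real.exp_pos ((n - X) * Real.log 2)
      rw [h3]
      split_ifs with h
      · rw [sum_insert (by simp)]
        have h5 : Real.exp ((n - X) * Real.log 2) ≤ Real.exp c := Real.exp_le_exp.2 h
        have h6 := ih.trans (min_le_right _ _)
        apply le_min <;> linarith
      · refine ih.trans (min_le_min le_rfl (by linarith))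
  exact (key n).trans (min_le_left _ _)

/-- `2 ^ (⌊y⌋ - y)` -/
noncomputable def thD (y : ℝ) : ℝ := Real.exp ((⌊y⌋ - y) * Real.log 2)

theorem thD_pos (y : ℝ) : 0 < thD y := Real.exp_pos _

theorem thD_le (y : ℝ) : thD y ≤ 1 := by
  unfold thD
  rw [← Real.exp_zero]
  apply Real.exp_le_exp.2
  apply mul_nonpos_of_nonpos_of_nonneg _ (Real.log_nonneg (by norm_num))
  linarith [Int.floor_le y]

theorem thD_ge (y : ℝ) : 1 / 2 ≤ thD y := by
  unfold thD
  have h1 : Real.log (1 / 2) = -Real.log 2 := by
    rw [one_div, Real.log_inv]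
  rw [← Real.exp_log (show (0 : ℝ) < 1 / 2 by norm_num), h1]
  apply Real.exp_le_exp.2
  have h2 := Int.lt_floor_add_one y
  have h3 : 0 < Real.log 2 := Real.log_pos (by norm_num)
  nlinarith

theorem thD_meas : Measurable thD := by
  unfold thD
  exact Real.measurable_exp.comp (((measurable_from_top.comp Int.measurable_floor).sub measurable_id).mul_const _)

theorem thD_per (y : ℝ) (n : ℤ) : thD (y + n) = thD y := by
  unfold thD
  rw [Int.floor_add_intCast]
  push_cast
  congr 1
  ring

theorem thD_cont {y : ℝ} (hy : y ≠ ⌊y⌋) : ContinuousAt thD y := by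
  unfold thD
  have h1 : ∀ᶠ z in 𝓝 y, ⌊z⌋ = ⌊y⌋ := by
    have h2 : Set.Ioo (⌊y⌋ : ℝ) (⌊y⌋ + 1) ∈ 𝓝 y := by
      apply Ioo_mem_nhds
      · exact lt_of_le_of_ne (Int.floor_le y) (Ne.symm hy)
      · exact Int.lt_floor_add_one y
    filter_upwards [h2] with z hz
    rw [Int.floor_eq_iff]
    exact ⟨hz.1.le, hz.2⟩
  have h3 : ContinuousAt (fun z : ℝ => Real.exp ((⌊y⌋ - z) * Real.log 2)) y := by fun_prop
  refine h3.congr ?_
  filter_upwards [h1] with z hz
  rw [hz]

/-- the inner sum -/
theorem innerD {y : ℝ} {B : ℕ} (h0 : 0 ≤ y) (hB : y < B + 1) :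
    ∑ k ∈ range (B + 1), (if (k : ℝ) ≤ y then Real.exp ((k - y) * Real.log 2) else 0)
      = 2 * thD y - Real.exp (-y * Real.log 2) := by
  have hm0 : 0 ≤ ⌊y⌋ := Int.floor_nonneg.2 h0
  obtain ⟨n, hn⟩ := Int.eq_ofNat_of_zero_le hm0
  have hn' : ⌊y⌋ = (n : ℤ) := hn
  have hnB : n ≤ B := by
    have h1 : ⌊y⌋ < (B : ℤ) + 1 := Int.floor_lt.2 (by push_cast; exact hB)
    rw [hn'] at h1
    omega
  have hiff : ∀ k : ℕ, (k : ℝ) ≤ y ↔ k ≤ n := by
    intro k
    have h1 : (k : ℤ) ≤ ⌊y⌋ ↔ ((k : ℤ) : ℝ) ≤ y := Int.le_floor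
    rw [hn', Int.cast_natCast] at h1
    rw [← h1]
    exact Nat.cast_le
  have hth : thD y = Real.exp ((n - y) * Real.log 2) := by
    unfold thD
    rw [hn', Int.cast_natCast]
  have hstep : ∀ m : ℕ, Real.exp (((m + 1 : ℕ) - y) * Real.log 2) = 2 * Real.exp ((m - y) * Real.log 2) := by
    intro m
    have : (((m + 1 : ℕ) : ℝ) - y) * Real.log 2 = (m - y) * Real.log 2 + Real.log 2 := by push_cast; ring
    rw [this, Real.exp_add, Real.exp_log (by norm_num)]
    ring
  have key1 : ∀ m : ℕ, ∑ k ∈ range (m + 1), Real.exp (((k : ℝ) - y) * Real.log 2)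
      = 2 * Real.exp ((m - y) * Real.log 2) - Real.exp (-y * Real.log 2) := by
    intro m
    induction m with
    | zero =>
      rw [sum_range_one]
      push_cast
      rw [zero_sub]
      ring
    | succ m ih =>
      rw [sum_range_succ, ih, hstep]
      ring
  rw [← Finset.sum_filter, hth, ← key1 n]
  apply sum_congr _ fun _ _ => rfl
  ext k
  rw [mem_filter, mem_range, mem_range, hiff]
  omega

theorem RR_sumD {ν : Measure ℝ} [IsFiniteMeasure ν] {A : ℝ}
    (hA : ν (Set.Icc (-A) A)ᶜ = 0) {X : ℝ} {B : ℕ}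
    (h0 : 0 ≤ X - A / Real.log 2) (hB : X + A / Real.log 2 < B + 1) :
    ∑ k ∈ range (B + 1), RR ν ((k - X) * Real.log 2) * Real.exp ((k - X) * Real.log 2)
      = 2 * (∫ r, thD (X + r / Real.log 2) ∂ν)
        - ∫ r, Real.exp (-(X + r / Real.log 2) * Real.log 2) ∂ν := by
  have hL : 0 < Real.log 2 := Real.log_pos (by norm_num)
  have i1 : Integrable (fun r => thD (X + r / Real.log 2)) ν := by
    refine Integrable.of_bound (C := 1) ?_ ?_
    · exact (thD_meas.comp (measurable_const.add (measurable_id.div_const _))).aestronglyMeasurable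
    · filter_upwards with r
      rw [Real.norm_eq_abs, abs_of_pos (thD_pos _)]
      exact thD_le _
  have i2 : Integrable (fun r => Real.exp (-(X + r / Real.log 2) * Real.log 2)) ν :=
    integrable_of_supp hA (by fun_prop)
  rw [← integral_const_mul, ← integral_sub (i1.const_mul _) i2]
  have h1 : ∀ k ∈ range (B + 1), RR ν ((k - X) * Real.log 2) * Real.exp ((k - X) * Real.log 2)
      = ∫ x, (Set.Ici (((k : ℝ) - X) * Real.log 2)).indicator (fun x => Real.exp (-x)) x *
        Real.exp ((k - X) * Real.log 2) ∂ν := by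
    intro k _
    rw [RR_eq, ← integral_mul_const]
  rw [sum_congr rfl h1, ← integral_finsetSum]
  · apply integral_congr_ae
    rw [Filter.EventuallyEq, ae_iff]
    refine measure_mono_null (t := (Set.Icc (-A) A)ᶜ) ?_ hA
    intro x hx hx'
    apply hx
    have hy0 : 0 ≤ X + x / Real.log 2 := by
      have : -A / Real.log 2 ≤ x / Real.log 2 := div_le_div_of_nonneg_right hx'.1 hL.le
      rw [neg_div] at this
      linarith
    have hyB : X + x / Real.log 2 < B + 1 := by
      have : x / Real.log 2 ≤ A / Real.log 2 := div_le_div_of_nonneg_right hx'.2 hL.le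
      linarith
    rw [← innerD hy0 hyB]
    apply sum_congr rfl
    intro k _
    have hiff : (k : ℝ) ≤ X + x / Real.log 2 ↔ ((k : ℝ) - X) * Real.log 2 ≤ x := by
      rw [← le_div_iff₀ hL, sub_le_iff_le_add, add_comm]
    by_cases h : ((k : ℝ) - X) * Real.log 2 ≤ x
    · rw [Set.indicator_of_mem (Set.mem_Ici.2 h), if_pos (hiff.2 h), ← Real.exp_add]
      congr 1
      field_simp
      ring
    · rw [Set.indicator_of_notMem (fun h' => h (Set.mem_Ici.1 h')), if_neg (fun h' => h (hiff.1 h')), zero_mul]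
  · intro k _
    exact ((exp_int hA).indicator measurableSet_Ici).mul_const _

/-- the periodic factor -/
noncomputable def ThD (ν : Measure ℝ) (u : ℝ) : ℝ := ∫ r, thD ((u + r) / Real.log 2) ∂ν

theorem ThD_int {ν : Measure ℝ} [IsFiniteMeasure ν] (u : ℝ) :
    Integrable (fun r => thD ((u + r) / Real.log 2)) ν := by
  refine Integrable.of_bound (C := 1) ?_ ?_
  · exact (thD_meas.comp ((measurable_const.add measurable_id).div_const _)).aestronglyMeasurable
  · filter_upwards with r
    rw [Real.norm_eq_abs, abs_of_pos (thD_pos _)]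
    exact thD_le _

theorem ThD_le {ν : Measure ℝ} [IsFiniteMeasure ν] (u : ℝ) :
    ThD ν u ≤ ν.real Set.univ := by
  unfold ThD
  refine (integral_mono (ThD_int u) (integrable_const 1) fun r => thD_le _).trans (le_of_eq ?_)
  rw [integral_const, smul_eq_mul, mul_one]

theorem ThD_ge {ν : Measure ℝ} [IsFiniteMeasure ν] (u : ℝ) :
    ν.real Set.univ / 2 ≤ ThD ν u := by
  unfold ThD
  refine le_trans (le_of_eq ?_) (integral_mono (integrable_const (1 / 2)) (ThD_int u)
    fun r => thD_ge _)
  rw [integral_const, smul_eq_mul]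
  ring

theorem ThD_per {ν : Measure ℝ} (u : ℝ) : ThD ν (u + Real.log 2) = ThD ν u := by
  unfold ThD
  congr 1
  funext r
  have h : Real.log 2 ≠ 0 := (Real.log_pos (by norm_num)).ne'
  have h1 : (u + Real.log 2 + r) / Real.log 2 = (u + r) / Real.log 2 + ((1 : ℤ) : ℝ) := by
    push_cast
    field_simp
    ring
  rw [h1, thD_per]

theorem ThD_cont {ν : Measure ℝ} [IsFiniteMeasure ν] (hna : NoAtoms ν) :
    Continuous (ThD ν) := by
  rw [continuous_iff_continuousAt]
  intro u
  unfold ThD
  have hL : Real.log 2 ≠ 0 := (Real.log_pos (by norm_num)).ne'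
  apply continuousAt_of_dominated (bound := fun _ => 1)
  · filter_upwards with v
    exact (ThD_int v).aestronglyMeasurable
  · filter_upwards with v
    filter_upwards with r
    rw [Real.norm_eq_abs, abs_of_pos (thD_pos _)]
    exact thD_le _
  · exact integrable_const _
  · have hnull : ν (Set.range fun n : ℤ => n * Real.log 2 - u) = 0 := by
      have : (Set.range fun n : ℤ => n * Real.log 2 - u) = ⋃ n : ℤ, {n * Real.log 2 - u} := by
        ext x
        simp [eq_comm]
      rw [this, measure_iUnion_null_iff]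
      intro n
      exact hna.point _
    have h2 : ∀ᵐ r ∂ν, r ∉ Set.range fun n : ℤ => n * Real.log 2 - u := by
      rw [ae_iff]
      refine measure_mono_null (fun x hx => ?_) hnull
      exact not_not.1 hx
    filter_upwards [h2] with r hr
    have h3 : ContinuousAt thD ((u + r) / Real.log 2) := by
      apply thD_cont
      intro h4
      apply hr
      refine ⟨⌊(u + r) / Real.log 2⌋, ?_⟩
      simp only
      rw [← h4]
      field_simp
      ring
    have h4 : ContinuousAt (fun v : ℝ => (v + r) / Real.log 2) u := by fun_prop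
    exact ContinuousAt.comp (g := thD) h3 h4

/-- the comparison of the Gaussian factors -/
theorem gauss_cmpD {o j X K t r : ℝ} (ho : 1 ≤ o) (hr : r = Real.sqrt o) (hK : 0 ≤ K) (ht : 0 ≤ t)
    (htr : 1 ≤ t * r) (ht1 : t ≤ 1) (hKr : K + 1 ≤ r)
    (hv : |2 * o - X| ≤ K * r) (hjX : |X - j| ≤ t * r) :
    |2 * o - j| ≤ (K + 1) * r ∧ o ≤ j ∧
    |Real.sqrt (2 * o / j) * Real.exp (-(2 * o - j) ^ 2 / (2 * j))
      - Real.exp (-(2 * o - X) ^ 2 / (4 * o))|
      ≤ ((K + 1) + ((K + 1) ^ 3 + (2 * K + 1)) / 4) * t := by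
  have ho0 : 0 < o := by linarith
  have hr0 : 0 < r := by rw [hr]; exact Real.sqrt_pos.2 ho0
  have hrr : r * r = o := by rw [hr]; exact Real.mul_self_sqrt ho0.le
  set u := 2 * o - j with hu
  set v := 2 * o - X with hvdef
  have huv : |u - v| ≤ t * r := by
    have : u - v = X - j := by rw [hu, hvdef]; ring
    rw [this]
    exact hjX
  have hule : |u| ≤ (K + 1) * r := by
    have h1 : |u| ≤ |v| + |u - v| := by
      have := abs_add_le v (u - v)
      rwa [add_sub_cancel] at this
    have h2 : t * r ≤ r := by nlinarith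
    linarith
  have huo : |u| ≤ o := by
    have h1 : (K + 1) * r ≤ r * r := mul_le_mul_of_nonneg_right hKr hr0.le
    linarith
  have hj : j = 2 * o - u := by rw [hu]; ring
  have hoj : o ≤ j := by rw [hj]; linarith [(abs_le.1 huo).2]
  refine ⟨hule, hoj, ?_⟩
  have hj0 : 0 < j := by linarith
  -- prefactor
  have p1 : |Real.sqrt (2 * o / j) - 1| ≤ (K + 1) * t := by
    have h0 := sqrt_close (show 0 ≤ 2 * o / j by positivity) (le_refl (1 : ℝ))
    rw [Real.sqrt_one] at h0
    refine h0.trans ?_
    have h1 : 2 * o / j - 1 = u / j := by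
      rw [hu, eq_div_iff hj0.ne']
      field_simp
    rw [h1, abs_div, abs_of_pos hj0, div_le_iff₀ hj0]
    have h2 : (K + 1) * r ≤ (K + 1) * t * o := by
      rw [← hrr]
      have : (K + 1) * t * (r * r) = (K + 1) * r * (t * r) := by ring
      rw [this]
      have h3 : 0 ≤ (K + 1) * r := by positivity
      nlinarith
    have h3 : (K + 1) * t * o ≤ (K + 1) * t * j := mul_le_mul_of_nonneg_left hoj (by positivity)
    linarith
  -- the exponents
  have p2 : |Real.exp (-u ^ 2 / (2 * j)) - Real.exp (-v ^ 2 / (4 * o))|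
      ≤ (((K + 1) ^ 3 + (2 * K + 1)) / 4) * t := by
    have e1 : -u ^ 2 / (2 * j) = -(u ^ 2 / (2 * j)) := by ring
    have e2 : -v ^ 2 / (4 * o) = -(v ^ 2 / (4 * o)) := by ring
    rw [e1, e2]
    refine (exp_close (by positivity) (by positivity)).trans ?_
    have e3 : u ^ 2 / (2 * j) - v ^ 2 / (4 * o) =
        u ^ 3 / (4 * o * j) + ((u - v) * (u + v)) / (4 * o) := by
      have h7 : u ^ 2 / (2 * j) = u ^ 3 / (4 * o * j) + u ^ 2 / (4 * o) := by
        rw [div_add_div _ _ (by positivity) (by positivity), div_eq_div_iff (by positivity) (by positivity)]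
        have h8 : 2 * o = u + j := by rw [hj]; ring
        have h9 : o = (u + j) / 2 := by linarith
        rw [h9]
        ring
      rw [h7]
      field_simp
      ring
    rw [e3]
    refine (abs_add_le _ _).trans ?_
    have q1 : |u ^ 3 / (4 * o * j)| ≤ (K + 1) ^ 3 / 4 * t := by
      rw [abs_div, abs_pow, abs_of_pos (by positivity : 0 < 4 * o * j), div_le_iff₀ (by positivity)]
      have h1 : |u| ^ 3 ≤ ((K + 1) * r) ^ 3 := pow_le_pow_left₀ (abs_nonneg _) hule 3
      have h2 : ((K + 1) * r) ^ 3 ≤ (K + 1) ^ 3 * t * (o * o) := by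
        have : (K + 1) ^ 3 * t * (o * o) = (K + 1) ^ 3 * r ^ 3 * (t * r) := by rw [← hrr]; ring
        rw [this, mul_pow]
        have h3 : 0 ≤ (K + 1) ^ 3 * r ^ 3 := by positivity
        nlinarith
      have h3 : (K + 1) ^ 3 * t * (o * o) ≤ (K + 1) ^ 3 * t * (o * j) := by
        apply mul_le_mul_of_nonneg_left _ (by positivity)
        exact mul_le_mul_of_nonneg_left hoj ho0.le
      calc |u| ^ 3 ≤ (K + 1) ^ 3 * t * (o * j) := by linarith
        _ = (K + 1) ^ 3 / 4 * t * (4 * o * j) := by ring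
    have q2 : |((u - v) * (u + v)) / (4 * o)| ≤ (2 * K + 1) / 4 * t := by
      rw [abs_div, abs_mul, abs_of_pos (by positivity : 0 < 4 * o), div_le_iff₀ (by positivity)]
      have h1 : |u + v| ≤ (2 * K + 1) * r := by
        refine (abs_add_le _ _).trans ?_
        linarith
      have h2 : |u - v| * |u + v| ≤ (t * r) * ((2 * K + 1) * r) :=
        mul_le_mul huv h1 (abs_nonneg _) (by positivity)
      calc |u - v| * |u + v| ≤ (t * r) * ((2 * K + 1) * r) := h2
        _ = (2 * K + 1) / 4 * t * (4 * (r * r)) := by ring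
        _ = (2 * K + 1) / 4 * t * (4 * o) := by rw [hrr]
    have : (((K + 1) ^ 3 + (2 * K + 1)) / 4) * t = (K + 1) ^ 3 / 4 * t + (2 * K + 1) / 4 * t := by ring
    linarith
  -- together
  have hE1 : Real.exp (-u ^ 2 / (2 * j)) ≤ 1 := by
    rw [← Real.exp_zero]
    apply Real.exp_le_exp.2
    apply div_nonpos_of_nonpos_of_nonneg _ (by positivity)
    have := sq_nonneg u
    linarith
  set E := Real.exp (-u ^ 2 / (2 * j)) with hE
  set G := Real.exp (-v ^ 2 / (4 * o)) with hG
  have e4 : Real.sqrt (2 * o / j) * E - G = (Real.sqrt (2 * o / j) - 1) * E + (E - G) := by ring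
  rw [e4]
  refine (abs_add_le _ _).trans ?_
  rw [abs_mul, abs_of_pos (Real.exp_pos _)]
  have h1 : |Real.sqrt (2 * o / j) - 1| * E ≤ (K + 1) * t := by
    have := abs_nonneg (Real.sqrt (2 * o / j) - 1)
    nlinarith
  linarith

end Pool.Agent.Q74.SP
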