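import Pool.Agent.Q74.SP.SH2

/-! The number of odd integers up to `x` with a given number of odd terms: the oscillating local limit
theorem. -/

set_option autoImplicit false

namespace Pool.Agent.Q74.SP

open Finset Filter Topology MeasureTheory

open Pool.Agent.H499R2.LT (gz gz_pos)

/-- one level near the typical one -/
theorem nearH {s : ℤ} {F : Finset ℤ} {ν : Measure ℝ} [IsFiniteMeasure ν] {K ε1 : ℝ}
    (hK : 0 ≤ K) {o k1 : ℕ} (ho : 1 ≤ o)
    (hLL : ∀ (k : ℕ) (o : ℤ), k1 ≤ k → |2 * (o : ℝ) - k| ≤ (K + 1) * Real.sqrt k →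
      ∀ a : ℝ, |Real.sqrt k * (NR s F k o a * (3 : ℝ) ^ o / 2 ^ k)
        - Real.log 3 * gz 0 * RR ν a * Real.exp (-(2 * (o : ℝ) - k) ^ 2 / (2 * k))| ≤ ε1)
    (hk1 : k1 ≤ o) {t C : ℝ} (ht0 : 0 ≤ t) (htr : 1 ≤ t * Real.sqrt o) (ht1 : t ≤ 1)
    (hKr : K + 1 ≤ Real.sqrt o)
    (hC : C = (K + 1) + ((K + 1) ^ 3 + (2 * K + 1)) / 4)
    {X : ℝ} (hX : |2 * o - X| ≤ K * Real.sqrt o) {j : ℕ} (hj : |X - j| ≤ t * Real.sqrt o)
    (M : ℝ) (hM : ∀ a, RR ν a ≤ M) (a : ℝ) :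
    o ≤ j ∧ |Real.sqrt (2 * o) * (NR s F j o a * (3 : ℝ) ^ (o : ℤ) / 2 ^ j)
        - Real.log 3 * gz 0 * RR ν a * Real.exp (-(2 * o - X) ^ 2 / (4 * o))|
      ≤ 2 * ε1 + Real.log 3 * gz 0 * M * (C * t) := by
  have hoR : (1 : ℝ) ≤ o := by exact_mod_cast ho
  have ho0 : (0 : ℝ) < o := by linarith
  have hG0pos : 0 < gz 0 := gz_pos 0
  have hL3 : 0 < Real.log 3 := Real.log_pos (by norm_num)
  have hM0 : 0 ≤ M := (RR_nonneg ν 0).trans (hM 0)
  set κ : ℝ := Real.log 3 * gz 0 with hκ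
  have hκ0 : 0 < κ := by positivity
  obtain ⟨g1, g2, g3⟩ := gauss_cmpD hoR rfl hK ht0 htr ht1 hKr hX hj
  rw [← hC] at g3
  have hoj : o ≤ j := by exact_mod_cast g2
  refine ⟨hoj, ?_⟩
  have hj0 : (0 : ℝ) < j := by linarith
  have h5 : |2 * ((o : ℤ) : ℝ) - (j : ℝ)| ≤ (K + 1) * Real.sqrt (j : ℝ) := by
    rw [Int.cast_natCast]
    refine g1.trans ?_
    exact mul_le_mul_of_nonneg_left (Real.sqrt_le_sqrt g2) (by linarith)
  have h6 := hLL j o (hk1.trans hoj) h5 a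
  rw [Int.cast_natCast] at h6
  set E := Real.exp (-(2 * (o : ℝ) - j) ^ 2 / (2 * j)) with hE
  set G := Real.exp (-(2 * (o : ℝ) - X) ^ 2 / (4 * o)) with hG
  set N := NR s F j o a * (3 : ℝ) ^ (o : ℤ) / 2 ^ j with hN
  have hpre : Real.sqrt (2 * o) = Real.sqrt (2 * o / j) * Real.sqrt j := by
    rw [← Real.sqrt_mul (by positivity), div_mul_cancel₀ _ hj0.ne']
  have hpre2 : Real.sqrt (2 * (o : ℝ) / j) ≤ 2 := by
    rw [Real.sqrt_le_left (by norm_num), div_le_iff₀ hj0]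
    linarith
  have e4 : Real.sqrt (2 * o) * N - κ * RR ν a * G =
      Real.sqrt (2 * (o : ℝ) / j) * (Real.sqrt j * N - κ * RR ν a * E) +
      κ * RR ν a * (Real.sqrt (2 * (o : ℝ) / j) * E - G) := by
    rw [hpre]
    ring
  rw [e4]
  refine (abs_add_le _ _).trans (add_le_add ?_ ?_)
  · rw [abs_mul, abs_of_nonneg (Real.sqrt_nonneg _)]
    exact mul_le_mul hpre2 h6 (abs_nonneg _) (by norm_num)
  · rw [abs_mul, abs_of_nonneg (mul_nonneg hκ0.le (RR_nonneg ν a))]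
    exact mul_le_mul (mul_le_mul_of_nonneg_left (hM a) hκ0.le) g3 (abs_nonneg _) (by positivity)

theorem coreH {s : ℤ} (hs : s = 1 ∨ s = -1) {F : Finset ℤ} {ν : Measure ℝ} [IsFiniteMeasure ν] {A : ℝ}
    (hA0 : 0 ≤ A) (hA : ν (Set.Icc (-A) A)ᶜ = 0) (hAl : ∀ x, x ≠ 0 → Meets F x → |lr F x| ≤ A) {K ε1 : ℝ}
    (hK : 0 ≤ K) (h9 : 0 ≤ ε1) {o k1 kF : ℕ} (ho : 1 ≤ o)
    (hkF : ∀ (k o : ℕ) (a : ℝ), kF ≤ k → NRo s F k o a = NR s F k o a - NR s F (k - 1 : ℕ) o a)
    (hkFo : kF ≤ o)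
    (hLL : ∀ (k : ℕ) (o : ℤ), k1 ≤ k → |2 * (o : ℝ) - k| ≤ (K + 1) * Real.sqrt k →
      ∀ a : ℝ, |Real.sqrt k * (NR s F k o a * (3 : ℝ) ^ o / 2 ^ k)
        - Real.log 3 * gz 0 * RR ν a * Real.exp (-(2 * (o : ℝ) - k) ^ 2 / (2 * k))| ≤ ε1)
    (hk1 : k1 ≤ o) {t C : ℝ} (ht : t = (2 * (Real.log o + A) + 1) / Real.sqrt o) (ht1 : t ≤ 1)
    (hKr : K + 1 ≤ Real.sqrt o)
    (hC : C = (K + 1) + ((K + 1) ^ 3 + (2 * K + 1)) / 4)
    {X : ℝ} (hX : |2 * o - X| ≤ K * Real.sqrt o)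
    (k : ℕ) (M : ℝ) (hM : ∀ a, RR ν a ≤ M) :
    |Real.sqrt (2 * o) * (NRo s F k o ((k - X) * Real.log 2) * (3 : ℝ) ^ (o : ℤ) / 2 ^ k)
        - 1 / 2 * (Real.log 3 * gz 0) * RR ν ((k - X) * Real.log 2) *
          Real.exp (-(2 * o - X) ^ 2 / (4 * o))|
      ≤ (if (k - X) * Real.log 2 ≤ A then 3 / 2 * (2 * ε1 + Real.log 3 * gz 0 * M * (C * t)) else 0)
        + (if (k - X) * Real.log 2 ≤ -Real.log o then
          Real.sqrt (2 * o) * Real.exp A + Real.log 3 * gz 0 * M else 0) := by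
  have hoR : (1 : ℝ) ≤ o := by exact_mod_cast ho
  have ho0 : (0 : ℝ) < o := by linarith
  have hsq : 0 < Real.sqrt (o : ℝ) := Real.sqrt_pos.2 ho0
  have hG0pos : 0 < gz 0 := gz_pos 0
  have hL2 : 1 / 2 < Real.log 2 := by linarith [Real.log_two_gt_d9]
  have hL3 : 0 < Real.log 3 := Real.log_pos (by norm_num)
  have hlogo : 0 ≤ Real.log o := Real.log_nonneg hoR
  have hM0 : 0 ≤ M := (RR_nonneg ν 0).trans (hM 0)
  have hC0 : 0 ≤ C := by rw [hC]; positivity
  set κ : ℝ := Real.log 3 * gz 0 with hκ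
  have hκ0 : 0 < κ := by positivity
  set G := Real.exp (-(2 * (o : ℝ) - X) ^ 2 / (4 * o)) with hG
  have hG0 : 0 < G := Real.exp_pos _
  have hG1 : G ≤ 1 := by
    rw [hG, ← Real.exp_zero]
    apply Real.exp_le_exp.2
    apply div_nonpos_of_nonpos_of_nonneg _ (by positivity)
    have := sq_nonneg (2 * (o : ℝ) - X)
    linarith
  set a : ℝ := (k - X) * Real.log 2 with ha
  have ht0 : 0 ≤ t := by rw [ht]; positivity
  have hNo0 := NRo_nonneg s F k o a
  have hNole := NRo_le hs hAl k o a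
  rcases lt_or_ge A a with h1 | h1
  · have h3 : NRo s F k o a = 0 := le_antisymm (by rw [NR_zero hAl k o h1] at hNole; exact hNole) hNo0
    rw [h3, RR_zero hA h1, if_neg (not_le.2 h1)]
    have h2 : ¬ (a ≤ -Real.log o) := by
      push Not
      linarith
    rw [if_neg h2]
    simp
  rw [if_pos h1]
  rcases le_or_gt a (-Real.log o) with h2 | h2
  · rw [if_pos h2]
    have h3 : NRo s F k o a * (3 : ℝ) ^ (o : ℤ) / 2 ^ k ≤ Real.exp A := by
      refine le_trans ?_ (NR_triv hs hAl k o a)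
      apply div_le_div_of_nonneg_right _ (by positivity)
      exact mul_le_mul_of_nonneg_right hNole (by positivity)
    have h4 : 0 ≤ NRo s F k o a * (3 : ℝ) ^ (o : ℤ) / 2 ^ k := by positivity
    have h5 : Real.sqrt (2 * o) * (NRo s F k o a * (3 : ℝ) ^ (o : ℤ) / 2 ^ k) ≤ Real.sqrt (2 * o) * Real.exp A :=
      mul_le_mul_of_nonneg_left h3 (Real.sqrt_nonneg _)
    have h6 : 0 ≤ 1 / 2 * κ * RR ν a * G := by
      have := RR_nonneg ν a
      positivity
    have h7 : 1 / 2 * κ * RR ν a * G ≤ κ * M := by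
      calc 1 / 2 * κ * RR ν a * G ≤ 1 * κ * M * 1 := by
            apply mul_le_mul (mul_le_mul (mul_le_mul_of_nonneg_right (by norm_num) hκ0.le) (hM a) (RR_nonneg ν a)
              (by positivity)) hG1 hG0.le (by positivity)
        _ = κ * M := by ring
    have h8 : 0 ≤ Real.sqrt (2 * o) * (NRo s F k o a * (3 : ℝ) ^ (o : ℤ) / 2 ^ k) :=
      mul_nonneg (Real.sqrt_nonneg _) h4
    have h10 : 0 ≤ 3 / 2 * (2 * ε1 + κ * M * (C * t)) := by positivity
    rw [abs_le]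
    constructor
    · linarith [mul_nonneg (Real.sqrt_nonneg (2 * (o : ℝ))) (Real.exp_pos A).le, mul_nonneg hκ0.le hM0]
    · linarith [mul_nonneg (Real.sqrt_nonneg (2 * (o : ℝ))) (Real.exp_pos A).le, mul_nonneg hκ0.le hM0]
  · rw [if_neg (not_le.2 h2), add_zero]
    have h4 : 2 * (Real.log o + A) + 1 = t * Real.sqrt o := by rw [ht]; field_simp
    have h3 : |(k : ℝ) - X| ≤ 2 * (Real.log o + A) := by
      have h5 : |a| ≤ Real.log o + A := abs_le.2 ⟨by linarith, by linarith⟩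
      have h6 : |a| = |(k : ℝ) - X| * Real.log 2 := by rw [ha, abs_mul, abs_of_pos (by linarith : 0 < Real.log 2)]
      rw [h6] at h5
      have := abs_nonneg ((k : ℝ) - X)
      nlinarith
    have htr : 1 ≤ t * Real.sqrt o := by rw [← h4]; linarith
    have hj1 : |X - k| ≤ t * Real.sqrt o := by
      rw [abs_sub_comm, ← h4]
      linarith
    obtain ⟨hok, n1⟩ := nearH (s := s) (F := F) (ν := ν) hK ho hLL hk1 ht0 htr ht1 hKr hC hX hj1 M hM a
    have hk0 : 1 ≤ k := ho.trans hok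
    have hj2 : |X - (k - 1 : ℕ)| ≤ t * Real.sqrt o := by
      push_cast [Nat.cast_sub hk0]
      rw [← h4, show X - ((k : ℝ) - 1) = -((k : ℝ) - X) + 1 by ring]
      refine (abs_add_le _ _).trans ?_
      rw [abs_neg, abs_one]
      linarith
    obtain ⟨-, n2⟩ := nearH (s := s) (F := F) (ν := ν) hK ho hLL hk1 ht0 htr ht1 hKr hC hX hj2 M hM a
    rw [← hκ, ← hG] at n1 n2
    rw [hkF k o a (hkFo.trans hok)]
    have hp : (2 : ℝ) ^ k = 2 * 2 ^ (k - 1) := by
      conv_lhs => rw [show k = (k - 1) + 1 by omega]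
      rw [pow_succ]
      ring
    have e1 : Real.sqrt (2 * o) * ((NR s F k o a - NR s F (k - 1 : ℕ) o a) * (3 : ℝ) ^ (o : ℤ) / 2 ^ k)
        - 1 / 2 * κ * RR ν a * G =
        (Real.sqrt (2 * o) * (NR s F k o a * (3 : ℝ) ^ (o : ℤ) / 2 ^ k) - κ * RR ν a * G)
        - 1 / 2 * (Real.sqrt (2 * o) * (NR s F (k - 1 : ℕ) o a * (3 : ℝ) ^ (o : ℤ) / 2 ^ (k - 1)) - κ * RR ν a * G) := by
      rw [hp]
      field_simp
      ring
    rw [e1]
    refine (abs_sub _ _).trans ?_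
    rw [abs_mul, abs_of_pos (show (0 : ℝ) < 1 / 2 by norm_num)]
    linarith

/-- OSCILLATING LOCAL LIMIT THEOREM for the number of odd terms, odd integers -/
theorem sharpH {s : ℤ} (hs : s = 1 ∨ s = -1) {F : Finset ℤ} {ν : Measure ℝ} [IsFiniteMeasure ν] {A : ℝ}
    (hA0 : 0 ≤ A) (hA : ν (Set.Icc (-A) A)ᶜ = 0) (hAl : ∀ x, x ≠ 0 → Meets F x → |lr F x| ≤ A) (hna : NoAtoms ν)
    (hlaw : ∀ h : ℝ → ℂ, Continuous h → Tendsto (mean fun n => GG F h 0 0 (s * n)) atTop (𝓝 (∫ x, h x ∂ν)))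
    {K ε : ℝ} (hK : 0 ≤ K) (hε : 0 < ε) : ∃ o0 : ℕ, ∀ o : ℕ, o0 ≤ o → ∀ x : ℝ, 0 < x →
      |o * Real.log (4 / 3) - Real.log x| ≤ K * Real.sqrt o →
      |Real.sqrt (2 * o) / x * HW s F x o - (Real.log 3 * gz 0) *
        Real.exp (-(o * Real.log (4 / 3) - Real.log x) ^ 2 / (4 * o * Real.log 2 ^ 2)) *
        ThD ν (o * Real.log 3 + Real.log x)| ≤ ε := by
  have hG0pos : 0 < gz 0 := gz_pos 0
  have hL2 : 1 / 2 < Real.log 2 := by linarith [Real.log_two_gt_d9]
  have hL3pos : 0 < Real.log 3 := Real.log_pos (by norm_num)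
  set L2 : ℝ := Real.log 2 with hL2def
  have hL0 : 0 < L2 := by linarith
  set κ : ℝ := Real.log 3 * gz 0 with hκ
  have hκ0 : 0 < κ := by positivity
  set M : ℝ := ∫ x, Real.exp (-x) ∂ν with hM
  have hM0 : 0 ≤ M := integral_nonneg fun _ => (Real.exp_pos _).le
  have hRM : ∀ a, RR ν a ≤ M := RR_le hA
  set m : ℝ := ν.real Set.univ with hm
  have hm0 : 0 ≤ m := measureReal_nonneg
  set K2 : ℝ := 2 * K with hK2
  have hK20 : 0 ≤ K2 := by positivity
  set C : ℝ := (K2 + 1) + ((K2 + 1) ^ 3 + (2 * K2 + 1)) / 4 with hC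
  have hC0 : 0 ≤ C := by positivity
  set ε1 : ℝ := ε / 24 / Real.exp A with hε1
  have hε1pos : 0 < ε1 := by positivity
  obtain ⟨k1, hk1⟩ := LL_unif hs hA hna hlaw (K2 + 1) ε1 hε1pos
  obtain ⟨kF, hkF1, hkF⟩ := exists_kF hs F hAl
  obtain ⟨T1, T2, T3, T4⟩ := tails A K2 (2 * Real.exp A * (4 / 3)) (κ * M * (4 / 3)) (κ * m) L2 hL0
  have T1' : Tendsto (fun o : ℕ => (2 * (Real.log o + A) + 1) / Real.sqrt o) atTop (𝓝 0) := by
    have hn : Tendsto (fun k : ℕ => (k : ℝ)) atTop atTop := tendsto_natCast_atTop_atTop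
    have h2 : Tendsto (fun k : ℕ => (Real.sqrt (k : ℝ))⁻¹) atTop (𝓝 0) :=
      tendsto_inv_atTop_zero.comp (Real.tendsto_sqrt_atTop.comp hn)
    have h3 := (T1.const_mul 2).add h2
    rw [mul_zero, add_zero] at h3
    refine h3.congr fun k => ?_
    ring
  have E1 : ∀ᶠ k : ℕ in atTop, (2 * (Real.log k + A) + 1) / Real.sqrt k < 1 := T1'.eventually (gt_mem_nhds (by norm_num))
  have E2 : ∀ᶠ k : ℕ in atTop, 3 / 2 * κ * M * C * (2 * Real.exp A) * ((2 * (Real.log k + A) + 1) / Real.sqrt k) < ε / 4 := by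
    have h := T1'.const_mul (3 / 2 * κ * M * C * (2 * Real.exp A))
    rw [mul_zero] at h
    exact h.eventually (gt_mem_nhds (by positivity))
  have E3 := T2.eventually (gt_mem_nhds (show 0 < ε / 4 by positivity))
  have E4 := T3.eventually_ge_atTop (A / L2)
  have E5 := T4.eventually (gt_mem_nhds (show 0 < ε / 4 by positivity))
  have hn : Tendsto (fun k : ℕ => (k : ℝ)) atTop atTop := tendsto_natCast_atTop_atTop
  have E6 := (Real.tendsto_sqrt_atTop.comp hn).eventually_ge_atTop (K2 + 1)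
  obtain ⟨o0, ho0⟩ := eventually_atTop.1 ((((E1.and E2).and E3).and E4).and ((E5.and E6).and
    (eventually_ge_atTop (max k1 kF))))
  refine ⟨o0, fun o hoo x hx hxo => ?_⟩
  obtain ⟨⟨⟨⟨e1, e2⟩, e3⟩, e4⟩, ⟨e5, e6⟩, e7⟩ := ho0 o hoo
  simp only [Function.comp] at e6
  have hk1o : k1 ≤ o := (le_max_left _ _).trans e7
  have hkFo : kF ≤ o := (le_max_right _ _).trans e7
  have e8 : 1 ≤ o := hkF1.trans hkFo
  have hoR : (1 : ℝ) ≤ o := by exact_mod_cast e8
  have hopos : (0 : ℝ) < o := by linarith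
  have hsq : 0 < Real.sqrt (o : ℝ) := Real.sqrt_pos.2 hopos
  have hss : Real.sqrt (o : ℝ) * Real.sqrt o = o := Real.mul_self_sqrt hopos.le
  set X : ℝ := (o * Real.log 3 + Real.log x) / L2 with hXdef
  have h43 : Real.log (4 / 3) = 2 * L2 - Real.log 3 := by
    rw [Real.log_div (by norm_num) (by norm_num), show (4 : ℝ) = 2 ^ 2 by norm_num, Real.log_pow]
    push_cast
    ring
  have h2X : o * Real.log (4 / 3) - Real.log x = (2 * o - X) * L2 := by
    rw [h43, hXdef]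
    field_simp
    ring
  have hX : |2 * o - X| ≤ K2 * Real.sqrt o := by
    rw [h2X, abs_mul, abs_of_pos hL0] at hxo
    have := abs_nonneg (2 * o - X)
    rw [hK2]
    nlinarith
  rw [h2X]
  have hgauss : -((2 * o - X) * L2) ^ 2 / (4 * o * L2 ^ 2) = -(2 * o - X) ^ 2 / (4 * o) := by
    field_simp
  rw [hgauss]
  set G : ℝ := Real.exp (-(2 * o - X) ^ 2 / (4 * o)) with hG
  have hG0 : 0 < G := Real.exp_pos _
  have hG1 : G ≤ 1 := by
    rw [hG, ← Real.exp_zero]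
    apply Real.exp_le_exp.2
    apply div_nonpos_of_nonpos_of_nonneg _ (by positivity)
    have := sq_nonneg (2 * o - X)
    linarith
  have hth : ThD ν (o * Real.log 3 + Real.log x) = ∫ r, thD (X + r / L2) ∂ν := by
    unfold ThD
    congr 1
    funext r
    rw [hXdef]
    congr 1
    ring
  rw [hth]
  have hXlow : ((o : ℝ) - K2 * Real.sqrt o) / 2 ≤ X := by
    have h1 := (abs_le.1 hX).2
    have h2 : K2 * Real.sqrt o ≤ o := by
      calc K2 * Real.sqrt o ≤ Real.sqrt o * Real.sqrt o := mul_le_mul_of_nonneg_right (by linarith) hsq.le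
        _ = o := hss
    linarith
  -- the bound for the hitting times
  set B : ℕ := ⌈X + A / L2⌉₊ with hBdef
  have hB : X + A / L2 ≤ B := Nat.le_ceil _
  have hBlog : A + o * Real.log 3 + Real.log x ≤ B * L2 := by
    have h1 := mul_le_mul_of_nonneg_right hB hL0.le
    have h2 : (X + A / L2) * L2 = A + o * Real.log 3 + Real.log x := by
      rw [hXdef]
      field_simp
      ring
    linarith
  -- the sum over the hitting times
  set V : ℕ → ℝ := fun k => Real.sqrt (2 * o) * (NRo s F k o ((k - X) * L2) * (3 : ℝ) ^ (o : ℤ) / 2 ^ k) with hV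
  have hao : ∀ k : ℕ, (k : ℝ) * Real.log 2 - o * Real.log 3 - Real.log x = (k - X) * L2 := by
    intro k
    have h1 : ((k : ℝ) - X) * L2 = k * L2 - (o * Real.log 3 + Real.log x) := by
      rw [hXdef, sub_mul, div_mul_cancel₀ _ hL0.ne']
    rw [h1]
    ring
  have hW : Real.sqrt (2 * o) / x * HW s F x o = ∑ k ∈ range (B + 1), V k * Real.exp ((k - X) * L2) := by
    rw [HW_sum hs F hAl hx o B hBlog, Finset.mul_sum]
    apply sum_congr rfl
    intro k _
    rw [hao k, hV]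
    have h1 : Real.exp ((k - X) * L2) = 2 ^ k / (3 ^ o * x) := by
      rw [← hao k, Real.exp_sub, Real.exp_sub, Real.exp_log hx]
      have h2 : Real.exp ((k : ℝ) * Real.log 2) = 2 ^ k := by
        rw [mul_comm, Real.exp_mul, Real.exp_log (by norm_num), Real.rpow_natCast]
      have h3 : Real.exp ((o : ℝ) * Real.log 3) = 3 ^ o := by
        rw [mul_comm, Real.exp_mul, Real.exp_log (by norm_num), Real.rpow_natCast]
      rw [h2, h3, div_div]
    simp only [h1, zpow_natCast]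
    field_simp
  have hS := RR_sumD (ν := ν) hA (X := X) (B := B) (by
      rw [← hL2def]
      linarith) (by
      rw [← hL2def]
      linarith)
  rw [← hL2def] at hS
  set I1 : ℝ := ∫ r, thD (X + r / L2) ∂ν with hI1
  set I2 : ℝ := ∫ r, Real.exp (-(X + r / L2) * L2) ∂ν with hI2
  have hI20 : 0 ≤ I2 := integral_nonneg fun _ => (Real.exp_pos _).le
  have hI2le : I2 ≤ m * Real.exp (A - ((o : ℝ) - K2 * Real.sqrt o) / 2 * L2) := by
    have h1 : I2 ≤ ∫ r, Real.exp (A - ((o : ℝ) - K2 * Real.sqrt o) / 2 * L2) ∂ν := by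
      apply integral_mono_ae (integrable_of_supp hA (by fun_prop)) (integrable_const _)
      rw [Filter.EventuallyLE, ae_iff]
      refine measure_mono_null (t := (Set.Icc (-A) A)ᶜ) ?_ hA
      intro r hr hr'
      apply hr
      apply Real.exp_le_exp.2
      have h2 : -(X + r / L2) * L2 = -(X * L2) - r := by
        field_simp
        ring
      rw [h2]
      have h4 := mul_le_mul_of_nonneg_right hXlow hL0.le
      linarith [hr'.1]
    rw [integral_const, smul_eq_mul] at h1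
    exact h1
  -- the error
  set D : ℕ → ℝ := fun k => V k - 1 / 2 * κ * RR ν ((k - X) * L2) * G with hD
  have hdec : Real.sqrt (2 * o) / x * HW s F x o - κ * G * I1
      = (∑ k ∈ range (B + 1), D k * Real.exp ((k - X) * L2)) - κ * G * (1 / 2 * I2) := by
    have h1 : ∑ k ∈ range (B + 1), D k * Real.exp ((k - X) * L2) =
        (∑ k ∈ range (B + 1), V k * Real.exp ((k - X) * L2)) -
          1 / 2 * κ * G * ∑ k ∈ range (B + 1), RR ν ((k - X) * L2) * Real.exp ((k - X) * L2) := by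
      rw [Finset.mul_sum, ← Finset.sum_sub_distrib]
      apply sum_congr rfl
      intro k _
      simp only [hD]
      ring
    rw [h1, hW, hS]
    ring
  rw [hdec]
  have hlogo : 0 ≤ Real.log o := Real.log_nonneg hoR
  set t : ℝ := (2 * (Real.log o + A) + 1) / Real.sqrt o with ht
  have ht0 : 0 ≤ t := by positivity
  have hDle : |∑ k ∈ range (B + 1), D k * Real.exp ((k - X) * L2)| ≤
      3 / 2 * (2 * ε1 + κ * M * (C * t)) * (2 * Real.exp A)
      + (Real.sqrt (2 * o) * Real.exp A + κ * M) * (2 * Real.exp (-Real.log o)) := by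
    refine (Finset.abs_sum_le_sum_abs _ _).trans ?_
    have h1 : ∀ k ∈ range (B + 1), |D k * Real.exp ((k - X) * L2)| ≤
        (if (k - X) * L2 ≤ A then 3 / 2 * (2 * ε1 + κ * M * (C * t)) *
          Real.exp ((k - X) * L2) else 0)
        + (if (k - X) * L2 ≤ -Real.log o then (Real.sqrt (2 * o) * Real.exp A + κ * M) *
          Real.exp ((k - X) * L2) else 0) := by
      intro k _
      have h2 := coreH hs hA0 hA hAl hK20 hε1pos.le e8 hkF hkFo hk1 hk1o ht e1.le e6 hC hX k M hRM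
      rw [abs_mul, abs_of_pos (Real.exp_pos ((k - X) * L2))]
      refine (mul_le_mul_of_nonneg_right h2 (Real.exp_pos _).le).trans (le_of_eq ?_)
      rw [← hL2def, ← hκ, add_mul, ite_mul, ite_mul, zero_mul]
    refine (Finset.sum_le_sum h1).trans ?_
    rw [Finset.sum_add_distrib, ← Finset.sum_filter, ← Finset.sum_filter, ← Finset.mul_sum, ← Finset.mul_sum]
    apply add_le_add
    · exact mul_le_mul_of_nonneg_left (geoD X A (B + 1)) (by positivity)
    · exact mul_le_mul_of_nonneg_left (geoD X (-Real.log o) (B + 1)) (by positivity)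
  have hexpo : Real.exp (-Real.log o) = (o : ℝ)⁻¹ := by rw [Real.exp_neg, Real.exp_log hopos]
  rw [hexpo] at hDle
  have q1 : 3 / 2 * (2 * ε1) * (2 * Real.exp A) = ε / 4 := by
    rw [hε1]
    field_simp
    ring
  have q2 : 3 / 2 * (κ * M * (C * t)) * (2 * Real.exp A) ≤ ε / 4 := by
    have : 3 / 2 * (κ * M * (C * t)) * (2 * Real.exp A) = 3 / 2 * κ * M * C * (2 * Real.exp A) * t := by ring
    linarith
  have q3 : (Real.sqrt (2 * o) * Real.exp A + κ * M) * (2 * (o : ℝ)⁻¹) ≤ ε / 4 := by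
    have h1 : Real.sqrt (2 * o) ≤ 2 * Real.sqrt o := by
      rw [Real.sqrt_le_left (by positivity), mul_pow, Real.sq_sqrt hopos.le]
      linarith
    have h2 : (Real.sqrt (2 * o) * Real.exp A + κ * M) * (2 * (o : ℝ)⁻¹) ≤
        (Real.sqrt o * (2 * Real.exp A * (4 / 3)) + κ * M * (4 / 3)) * (3 / 2) / o := by
      have h3 : (Real.sqrt o * (2 * Real.exp A * (4 / 3)) + κ * M * (4 / 3)) * (3 / 2) / o
          = ((2 * Real.sqrt o) * Real.exp A + κ * M) * (2 * (o : ℝ)⁻¹) := by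
        rw [div_eq_mul_inv]
        ring
      rw [h3]
      apply mul_le_mul_of_nonneg_right _ (by positivity)
      have := mul_le_mul_of_nonneg_right h1 (Real.exp_pos A).le
      linarith
    linarith
  have q4 : 0 ≤ κ * G * (1 / 2 * I2) := by positivity
  have q5 : κ * G * (1 / 2 * I2) ≤ ε / 4 := by
    calc κ * G * (1 / 2 * I2) ≤ κ * 1 * (1 * (m * Real.exp (A - ((o : ℝ) - K2 * Real.sqrt o) / 2 * L2))) := by
          apply mul_le_mul (mul_le_mul_of_nonneg_left hG1 hκ0.le) _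
            (by positivity) (by positivity)
          linarith
      _ = κ * m * Real.exp (A - ((o : ℝ) - K2 * Real.sqrt o) / 2 * L2) := by ring
      _ ≤ ε / 4 := e5.le
  have hsum : 3 / 2 * (2 * ε1 + κ * M * (C * t)) * (2 * Real.exp A) =
      3 / 2 * (2 * ε1) * (2 * Real.exp A) + 3 / 2 * (κ * M * (C * t)) * (2 * Real.exp A) := by ring
  rw [hsum, q1] at hDle
  refine (abs_sub _ _).trans ?_
  rw [abs_of_nonneg q4]
  linarith

end Pool.Agent.Q74.SP
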