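import Pool.Agent.Q74.SP.SH3

/-! The Syracuse map and the hitting data of the shortcut map; law of the residues of the odd integers. -/

set_option autoImplicit false

namespace Pool.Agent.Q74.SP

open Finset Filter Topology MeasureTheory

/-- the Syracuse map -/
def Syr (x : ℤ) : ℤ := (3 * x + 1) / 2 ^ padicValInt 2 (3 * x + 1)

/-- the orbit of `x` under `Syr` meets `Z` for the first time at the index `h` -/
def Ent (Z : Finset ℤ) (h : ℕ) (x : ℤ) : Prop := Syr^[h] x ∈ Z ∧ ∀ i < h, Syr^[i] x ∉ Z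

theorem syr_spec {x : ℤ} (hx : x % 2 = 1) : ∃ v : ℕ, 1 ≤ v ∧ 3 * x + 1 = 2 ^ v * Syr x ∧ Syr x % 2 = 1 := by
  have h0 : 3 * x + 1 ≠ 0 := by omega
  refine ⟨padicValInt 2 (3 * x + 1), ?_, ?_, ?_⟩
  · by_contra h
    have h1 : padicValInt 2 (3 * x + 1) = 0 := by omega
    rw [padicValInt.eq_zero_iff] at h1
    rcases h1 with h1 | h1 | h1
    · norm_num at h1
    · exact h0 h1
    · apply h1
      omega
  · have h1 : ((2 : ℕ) : ℤ) ^ padicValInt 2 (3 * x + 1) ∣ 3 * x + 1 := padicValInt_dvd (p := 2) (3 * x + 1)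
    unfold Syr
    push_cast at h1
    exact (Int.mul_ediv_cancel' h1).symm
  · by_contra hodd
    have h2 : Syr x % 2 = 0 := by omega
    have h1 : ((2 : ℕ) : ℤ) ^ padicValInt 2 (3 * x + 1) ∣ 3 * x + 1 := padicValInt_dvd (p := 2) (3 * x + 1)
    push_cast at h1
    have h3 : (2 : ℤ) ^ (padicValInt 2 (3 * x + 1) + 1) ∣ 3 * x + 1 := by
      obtain ⟨c, hc⟩ : (2 : ℤ) ∣ Syr x := Int.dvd_of_emod_eq_zero h2
      have h4 : 3 * x + 1 = 2 ^ padicValInt 2 (3 * x + 1) * Syr x := by
        unfold Syr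
        exact (Int.mul_ediv_cancel' h1).symm
      rw [pow_succ]
      refine ⟨c, ?_⟩
      conv_lhs => rw [h4, hc]
      ring
    have h5 := (padicValInt_dvd_iff (p := 2) (padicValInt 2 (3 * x + 1) + 1) (3 * x + 1)).1 (by exact_mod_cast h3)
    rcases h5 with h5 | h5
    · exact h0 h5
    · omega

theorem T_half (y : ℤ) : T (2 * y) = y := by
  unfold T
  rw [if_pos (by omega)]
  omega

theorem T_run {x z : ℤ} {v : ℕ} (hv : 1 ≤ v) (hx : x % 2 = 1) (h : 3 * x + 1 = 2 ^ v * z) :
    ∀ i, 1 ≤ i → i ≤ v → T^[i] x = 2 ^ (v - i) * z := by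
  intro i hi
  induction i, hi using Nat.le_induction with
  | base =>
    intro _
    rw [Function.iterate_one]
    have h1 : (2 : ℤ) ^ v = 2 * 2 ^ (v - 1) := by
      conv_lhs => rw [show v = (v - 1) + 1 by omega]
      rw [pow_succ]
      ring
    unfold T
    rw [if_neg (by omega), h, h1, mul_assoc]
    omega
  | succ i hi ih =>
    intro hle
    rw [Function.iterate_succ_apply', ih (by omega)]
    have h1 : (2 : ℤ) ^ (v - i) = 2 * 2 ^ (v - (i + 1)) := by
      conv_lhs => rw [show v - i = (v - (i + 1)) + 1 by omega]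
      rw [pow_succ]
      ring
    rw [h1, mul_assoc, T_half]

/-- one Syracuse step -/
theorem syr_step {Z : Finset ℤ} (hZ : ∀ z ∈ Z, z % 2 = 1) {x : ℤ} (hx : x % 2 = 1) (hxZ : x ∉ Z) :
    (Meets Z x ↔ Meets Z (Syr x)) ∧ (Meets Z x →
      odds (time Z x) x = odds (time Z (Syr x)) (Syr x) + 1 ∧
      lr Z x = lr Z (Syr x) + Real.log |1 + 1 / (3 * (x : ℝ))|) := by
  obtain ⟨v, hv, hz, hodd⟩ := syr_spec hx
  have hrun := T_run hv hx hz
  have hTv : T^[v] x = Syr x := by
    rw [hrun v hv le_rfl, Nat.sub_self, pow_zero, one_mul]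
  have heven : ∀ i, 1 ≤ i → i < v → T^[i] x % 2 = 0 := by
    intro i h1 h2
    rw [hrun i h1 h2.le]
    have h3 : (2 : ℤ) ^ (v - i) = 2 * 2 ^ (v - i - 1) := by
      conv_lhs => rw [show v - i = (v - i - 1) + 1 by omega]
      rw [pow_succ]
      ring
    rw [h3, mul_assoc]
    omega
  have hno : ∀ i < v, T^[i] x ∉ Z := by
    intro i hi hmem
    rcases Nat.eq_zero_or_pos i with rfl | h1
    · exact hxZ hmem
    · have h2 := heven i h1 hi
      have h3 := hZ _ hmem
      omega
  have hodds : odds v x = 1 := by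
    unfold odds
    rw [card_eq_one]
    refine ⟨0, ?_⟩
    ext i
    rw [mem_filter, mem_range, mem_singleton]
    constructor
    · rintro ⟨h1, h2⟩
      by_contra h3
      have := heven i (by omega) h1
      omega
    · rintro rfl
      exact ⟨by omega, hx⟩
  have hm : Meets Z x ↔ Meets Z (Syr x) := by rw [meets_add hno, hTv]
  refine ⟨hm, fun hmx => ?_⟩
  have t1 := time_add hno hmx
  have o1 := odds_time_add hno hmx
  rw [hTv] at t1 o1
  rw [hodds] at o1
  refine ⟨by omega, ?_⟩
  have hx0 : (x : ℝ) ≠ 0 := by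
    have : x ≠ 0 := by omega
    exact_mod_cast this
  have hz0 : (Syr x : ℝ) ≠ 0 := by
    have : Syr x ≠ 0 := by omega
    exact_mod_cast this
  have hzR : 3 * (x : ℝ) + 1 = 2 ^ v * (Syr x : ℝ) := by exact_mod_cast hz
  have hlog : Real.log |1 + 1 / (3 * (x : ℝ))| = v * Real.log 2 + Real.log (Syr x : ℝ) - Real.log 3 - Real.log (x : ℝ) := by
    have h1 : 1 + 1 / (3 * (x : ℝ)) = 2 ^ v * (Syr x : ℝ) / (3 * x) := by
      rw [← hzR]
      field_simp
    rw [Real.log_abs, h1, Real.log_div (by positivity) (by positivity), Real.log_mul (by positivity) hz0,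
      Real.log_mul (by norm_num) hx0, Real.log_pow]
    ring
  unfold lr
  rw [o1, t1, hlog]
  push_cast
  ring

theorem ent_iff {Z : Finset ℤ} (hZ : ∀ z ∈ Z, z % 2 = 1) (h : ℕ) : ∀ x : ℤ, x % 2 = 1 →
    (Meets Z x ∧ odds (time Z x) x = h ↔ Ent Z h x) := by
  induction h with
  | zero =>
    intro x hx
    by_cases hxZ : x ∈ Z
    · have ht : time Z x = 0 := time_eq (k := 0) hxZ (by omega)
      rw [ht, odds_zero]
      exact ⟨fun _ => ⟨hxZ, by omega⟩, fun _ => ⟨⟨0, hxZ⟩, rfl⟩⟩
    · obtain ⟨-, h2⟩ := syr_step hZ hx hxZ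
      constructor
      · rintro ⟨hm, ho⟩
        have := (h2 hm).1
        omega
      · rintro ⟨h3, -⟩
        exact absurd h3 hxZ
  | succ h ih =>
    intro x hx
    by_cases hxZ : x ∈ Z
    · have ht : time Z x = 0 := time_eq (k := 0) hxZ (by omega)
      rw [ht, odds_zero]
      constructor
      · rintro ⟨-, h3⟩
        omega
      · rintro ⟨-, h3⟩
        exact absurd hxZ (h3 0 (by omega))
    · obtain ⟨h1, h2⟩ := syr_step hZ hx hxZ
      obtain ⟨v, -, -, hodd⟩ := syr_spec hx
      have h3 := ih (Syr x) hodd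
      have h4 : Ent Z (h + 1) x ↔ Ent Z h (Syr x) := by
        unfold Ent
        rw [Function.iterate_succ_apply]
        constructor
        · rintro ⟨g1, g2⟩
          refine ⟨g1, fun i hi => ?_⟩
          have := g2 (i + 1) (by omega)
          rwa [Function.iterate_succ_apply] at this
        · rintro ⟨g1, g2⟩
          refine ⟨g1, fun i hi => ?_⟩
          rcases i with _ | i
          · exact hxZ
          · rw [Function.iterate_succ_apply]
            exact g2 i (by omega)
      rw [h4, ← h3, h1]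
      constructor
      · rintro ⟨g1, g2⟩
        refine ⟨g1, ?_⟩
        have := (h2 (h1.2 g1)).1
        omega
      · rintro ⟨g1, g2⟩
        refine ⟨g1, ?_⟩
        have := (h2 (h1.2 g1)).1
        omega

theorem ent_lr {Z : Finset ℤ} (hZ : ∀ z ∈ Z, z % 2 = 1) (h : ℕ) : ∀ x : ℤ, x % 2 = 1 → Ent Z h x →
    lr Z x = (∑ i ∈ range h, Real.log |1 + 1 / (3 * ((Syr^[i] x : ℤ) : ℝ))|)
      - Real.log ((Syr^[h] x : ℤ) : ℝ) := by
  induction h with
  | zero =>
    intro x hx he
    have hxZ : x ∈ Z := he.1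
    have ht : time Z x = 0 := time_eq (k := 0) hxZ (by omega)
    unfold lr
    rw [ht, odds_zero, range_zero, sum_empty, Function.iterate_zero, id]
    push_cast
    ring
  | succ h ih =>
    intro x hx he
    have hxZ : x ∉ Z := he.2 0 (by omega)
    obtain ⟨h1, h2⟩ := syr_step hZ hx hxZ
    obtain ⟨v, -, -, hodd⟩ := syr_spec hx
    have hm := ((ent_iff hZ (h + 1) x hx).2 he).1
    have he' : Ent Z h (Syr x) := by
      refine ⟨by rw [← Function.iterate_succ_apply]; exact he.1, fun i hi => ?_⟩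
      rw [← Function.iterate_succ_apply]
      exact he.2 (i + 1) (by omega)
    rw [(h2 hm).2, ih (Syr x) hodd he', sum_range_succ']
    simp only [Function.iterate_succ_apply, Function.iterate_zero, id]
    ring

theorem meets_ent {Z : Finset ℤ} (hZ : ∀ z ∈ Z, z % 2 = 1) {x : ℤ} (hx : x % 2 = 1) :
    Meets Z x ↔ ∃ h, Ent Z h x := by
  constructor
  · intro hm
    exact ⟨_, (ent_iff hZ _ x hx).1 ⟨hm, rfl⟩⟩
  · rintro ⟨h, he⟩
    exact ((ent_iff hZ h x hx).2 he).1

open Classical in
/-- distribution function of the residues of the odd integers -/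
theorem law_cdf_odd {s : ℤ} (hs : s = 1 ∨ s = -1) {F : Finset ℤ} (hF : ∀ z ∈ F, z % 2 = 1)
    {ν : Measure ℝ} [IsFiniteMeasure ν] {A : ℝ}
    (hA : ν (Set.Icc (-A) A)ᶜ = 0) (hna : NoAtoms ν)
    (hlaw : ∀ h : ℝ → ℂ, Continuous h → Tendsto (mean fun n => GG F h 0 0 (s * n)) atTop (𝓝 (∫ x, h x ∂ν)))
    (a : ℝ) :
    Tendsto (fun N : ℕ => 2 / (N : ℝ) *
      (((Icc 1 N).filter (fun n : ℕ => n % 2 = 1 ∧ Meets F (s * n) ∧ a ≤ lr F (s * n))).card : ℝ))
      atTop (𝓝 (ν.real (Set.Ici a))) := by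
  have h1 := law_cdf hA hna hlaw a
  set R : ℕ → ℕ := fun N => ((Icc 1 N).filter (fun n : ℕ => Meets F (s * n) ∧ a ≤ lr F (s * n))).card with hR
  have h2 : ∀ N : ℕ, ((Icc 1 N).filter (fun n : ℕ => n % 2 = 1 ∧ Meets F (s * n) ∧ a ≤ lr F (s * n))).card
      + R (N / 2) = R N := by
    intro N
    have e1 : R (N / 2) = ((Icc 1 N).filter (fun n : ℕ => n % 2 = 0 ∧ Meets F (s * n) ∧ a ≤ lr F (s * n))).card := by
      simp only [hR]
      apply card_bij (fun n _ => 2 * n)
      · intro n hn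
        rw [mem_filter, mem_Icc] at hn ⊢
        obtain ⟨⟨g1, g2⟩, g3, g4⟩ := hn
        have hnF : 2 * (s * (n : ℤ)) ∉ F := by
          intro hmem
          have := hF _ hmem
          omega
        obtain ⟨d1, d2⟩ := double hnF
        have hc : s * ((2 * n : ℕ) : ℤ) = 2 * (s * (n : ℤ)) := by push_cast; ring
        rw [hc]
        refine ⟨⟨by omega, by omega⟩, by omega, d1.2 g3, ?_⟩
        obtain ⟨d3, d4⟩ := d2 g3
        have hn0 : s * (n : ℤ) ≠ 0 := by rcases hs with rfl | rfl <;> omega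
        have hnR : ((s * (n : ℤ) : ℤ) : ℝ) ≠ 0 := by exact_mod_cast hn0
        refine g4.trans (le_of_eq ?_)
        unfold lr
        rw [d4, d3]
        push_cast
        push_cast at hnR
        rw [Real.log_mul (by norm_num) hnR]
        ring
      · intro n _ n' _ h
        omega
      · intro n hn
        rw [mem_filter, mem_Icc] at hn
        obtain ⟨⟨g1, g2⟩, g5, g3, g4⟩ := hn
        refine ⟨n / 2, ?_, by omega⟩
        have hn2 : n = 2 * (n / 2) := by omega
        set p := n / 2 with hp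
        have hnF : 2 * (s * (p : ℤ)) ∉ F := by
          intro hmem
          have := hF _ hmem
          omega
        obtain ⟨d1, d2⟩ := double hnF
        have hc : s * (n : ℤ) = 2 * (s * (p : ℤ)) := by
          have : (n : ℤ) = 2 * (p : ℤ) := by omega
          rw [this]
          ring
        rw [hc] at g3 g4
        have g3' := d1.1 g3
        obtain ⟨d3, d4⟩ := d2 g3'
        rw [mem_filter, mem_Icc]
        refine ⟨⟨by omega, by omega⟩, g3', ?_⟩
        have hn0 : s * (p : ℤ) ≠ 0 := by rcases hs with rfl | rfl <;> omega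
        have hnR : ((s * (p : ℤ) : ℤ) : ℝ) ≠ 0 := by exact_mod_cast hn0
        refine g4.trans (le_of_eq ?_)
        unfold lr
        rw [d4, d3]
        push_cast
        push_cast at hnR
        rw [Real.log_mul (by norm_num) hnR]
        ring
    rw [e1]
    simp only [hR]
    rw [← card_union_of_disjoint]
    · congr 1
      ext n
      simp only [mem_union, mem_filter]
      constructor
      · rintro (⟨g1, -, g2⟩ | ⟨g1, -, g2⟩) <;> exact ⟨g1, g2⟩
      · rintro ⟨g1, g2⟩
        rcases Nat.mod_two_eq_zero_or_one n with h | h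
        · exact Or.inr ⟨g1, h, g2⟩
        · exact Or.inl ⟨g1, h, g2⟩
    · rw [Finset.disjoint_left]
      intro n hn hn'
      rw [mem_filter] at hn hn'
      omega
  have h3 : Tendsto (fun N : ℕ => (R (N / 2) : ℝ) / (N / 2 : ℕ)) atTop (𝓝 (ν.real (Set.Ici a))) := by
    have hd : Tendsto (fun N : ℕ => N / 2) atTop atTop := by
      apply tendsto_atTop.2
      intro b
      filter_upwards [eventually_ge_atTop (2 * b)] with N hN
      omega
    exact h1.comp hd
  have h4 : Tendsto (fun N : ℕ => 2 / (N : ℝ) * ((N / 2 : ℕ) : ℝ)) atTop (𝓝 1) := by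
    have g1 : Tendsto (fun N : ℕ => 1 - (1 : ℝ) / N) atTop (𝓝 1) := by
      have := (tendsto_one_div_atTop_nhds_zero_nat (𝕜 := ℝ)).const_sub 1
      rwa [sub_zero] at this
    refine tendsto_of_tendsto_of_tendsto_of_le_of_le' g1 tendsto_const_nhds ?_ ?_
    · filter_upwards [eventually_gt_atTop 0] with N hN
      have hNR : (0 : ℝ) < N := by exact_mod_cast hN
      have g2 : (N : ℝ) - 1 ≤ 2 * ((N / 2 : ℕ) : ℝ) := by
        have : N ≤ 2 * (N / 2) + 1 := by omega
        have : (N : ℝ) ≤ 2 * ((N / 2 : ℕ) : ℝ) + 1 := by exact_mod_cast this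
        linarith
      rw [div_mul_eq_mul_div, le_div_iff₀ hNR, sub_mul, div_mul_cancel₀ _ hNR.ne']
      linarith
    · filter_upwards [eventually_gt_atTop 0] with N hN
      have hNR : (0 : ℝ) < N := by exact_mod_cast hN
      rw [div_mul_eq_mul_div, div_le_one hNR]
      exact_mod_cast (by omega : 2 * (N / 2) ≤ N)
  have h5 := (h1.const_mul 2).sub (h4.mul h3)
  rw [one_mul, show 2 * ν.real (Set.Ici a) - ν.real (Set.Ici a) = ν.real (Set.Ici a) by ring] at h5
  refine h5.congr' ?_
  filter_upwards [eventually_ge_atTop 2] with N hN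
  have hN2 : ((N / 2 : ℕ) : ℝ) ≠ 0 := by
    have : N / 2 ≠ 0 := by omega
    exact_mod_cast this
  have h6 : (R N : ℝ) = (((Icc 1 N).filter (fun n : ℕ => n % 2 = 1 ∧ Meets F (s * n) ∧ a ≤ lr F (s * n))).card : ℝ)
      + R (N / 2) := by exact_mod_cast (h2 N).symm
  have h7 : (((Icc 1 N).filter (fun n : ℕ => Meets F (s * n) ∧ a ≤ lr F (s * n))).card : ℝ) = R N := rfl
  rw [h7, h6]
  field_simp
  ring

end Pool.Agent.Q74.SP
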