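import Mathlib

/-! Trajectories of the shortcut `3x+1` map: first hits of a finite set, sizes. -/

set_option autoImplicit false

namespace Pool.Agent.Q74.SP

open Finset Filter Topology

/-- the shortcut map -/
def T (x : ℤ) : ℤ := if x % 2 = 0 then x / 2 else (3 * x + 1) / 2

/-- number of odd terms among `x, T x, ..., T^(k-1) x` -/
def odds (k : ℕ) (x : ℤ) : ℕ := ((Finset.range k).filter fun i => T^[i] x % 2 = 1).card

/-- the trajectory of `x` meets `F` -/
def Meets (F : Finset ℤ) (x : ℤ) : Prop := ∃ k : ℕ, T^[k] x ∈ F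

/-- the first time at which the trajectory of `x` is in `F` (`0` if it does not meet `F`) -/
noncomputable def time (F : Finset ℤ) (x : ℤ) : ℕ := sInf {k : ℕ | T^[k] x ∈ F}

/-- the logarithm of `2 ^ k / (3 ^ o |x|)`, `k` the time of the first hit of `F`, `o` the number of odd
terms before -/
noncomputable def lr (F : Finset ℤ) (x : ℤ) : ℝ :=
  (time F x : ℝ) * Real.log 2 - (odds (time F x) x : ℝ) * Real.log 3 - Real.log (x : ℝ)

theorem odds_zero (x : ℤ) : odds 0 x = 0 := by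
  unfold odds
  simp

theorem odds_succ (k : ℕ) (x : ℤ) : odds (k + 1) x = odds k x + (if T^[k] x % 2 = 1 then 1 else 0) := by
  unfold odds
  rw [Finset.range_add_one, Finset.filter_insert]
  split_ifs with h
  · rw [Finset.card_insert_of_notMem (by simp)]
  · rw [add_zero]

theorem odds_add (j i : ℕ) (x : ℤ) : odds (j + i) x = odds j x + odds i (T^[j] x) := by
  induction i with
  | zero => rw [odds_zero, add_zero, add_zero]
  | succ i ih =>
    rw [← add_assoc, odds_succ, odds_succ, ih, add_assoc]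
    congr 2
    rw [Nat.add_comm, Function.iterate_add_apply]

theorem meets_add {F : Finset ℤ} {x : ℤ} {j : ℕ} (h : ∀ i < j, T^[i] x ∉ F) :
    Meets F x ↔ Meets F (T^[j] x) := by
  unfold Meets
  constructor
  · rintro ⟨k, hk⟩
    have hjk : j ≤ k := by
      by_contra hlt
      exact h k (by omega) hk
    refine ⟨k - j, ?_⟩
    rw [← Function.iterate_add_apply, Nat.sub_add_cancel hjk]
    exact hk
  · rintro ⟨k, hk⟩
    refine ⟨k + j, ?_⟩
    rw [Function.iterate_add_apply]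
    exact hk

theorem time_spec {F : Finset ℤ} {x : ℤ} (h : Meets F x) : T^[time F x] x ∈ F :=
  Nat.sInf_mem (s := {k : ℕ | T^[k] x ∈ F}) h

theorem not_mem_of_lt_time {F : Finset ℤ} {x : ℤ} {i : ℕ} (hi : i < time F x) : T^[i] x ∉ F := by
  intro h
  exact Nat.notMem_of_lt_sInf hi h

theorem time_eq {F : Finset ℤ} {x : ℤ} {k : ℕ} (h1 : T^[k] x ∈ F) (h2 : ∀ i < k, T^[i] x ∉ F) :
    time F x = k := by
  apply le_antisymm (Nat.sInf_le h1)
  by_contra hlt
  push Not at hlt
  exact h2 _ hlt (time_spec ⟨k, h1⟩)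

theorem time_add {F : Finset ℤ} {x : ℤ} {j : ℕ} (h : ∀ i < j, T^[i] x ∉ F) (hm : Meets F x) :
    time F x = j + time F (T^[j] x) := by
  have hm' := (meets_add h).1 hm
  apply time_eq
  · rw [Nat.add_comm, Function.iterate_add_apply]
    exact time_spec hm'
  · intro i hi
    rcases lt_or_ge i j with hij | hij
    · exact h i hij
    · have e : i = (i - j) + j := by omega
      rw [e, Function.iterate_add_apply]
      exact not_mem_of_lt_time (by omega)

theorem odds_time_add {F : Finset ℤ} {x : ℤ} {j : ℕ} (h : ∀ i < j, T^[i] x ∉ F) (hm : Meets F x) :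
    odds (time F x) x = odds j x + odds (time F (T^[j] x)) (T^[j] x) := by
  rw [time_add h hm, odds_add]

/-! ### Sizes -/

theorem T_ne {x : ℤ} (hx : x ≠ 0) : T x ≠ 0 := by
  unfold T
  split_ifs with h <;> omega

theorem iter_ne {x : ℤ} (hx : x ≠ 0) (i : ℕ) : T^[i] x ≠ 0 := by
  induction i with
  | zero => exact hx
  | succ i ih => rw [Function.iterate_succ_apply']; exact T_ne ih

theorem T_abs (x : ℤ) : |x| ≤ 2 * |T x| := by
  unfold T
  split_ifs with h
  · have e : x = 2 * (x / 2) := by omega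
    conv_lhs => rw [e]
    rw [abs_mul]
    norm_num
  · rcases abs_cases x with ⟨h1, h2⟩ | ⟨h1, h2⟩
    · rw [h1, abs_of_nonneg (by omega)]
      omega
    · rw [h1, abs_of_nonpos (by omega)]
      omega

theorem iter_abs (i : ℕ) (x : ℤ) : |x| ≤ 2 ^ i * |T^[i] x| := by
  induction i with
  | zero => simp
  | succ i ih =>
    rw [Function.iterate_succ_apply']
    have h := T_abs (T^[i] x)
    calc |x| ≤ 2 ^ i * |T^[i] x| := ih
      _ ≤ 2 ^ i * (2 * |T (T^[i] x)|) := by
          apply mul_le_mul_of_nonneg_left h (by positivity)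
      _ = 2 ^ (i + 1) * |T (T^[i] x)| := by ring

/-- no hit of `F` before time `t` for large `x` -/
theorem no_hit {F : Finset ℤ} {B : ℤ} (hB : ∀ f ∈ F, |f| ≤ B) {x : ℤ} {t : ℕ} (hx : B * 2 ^ t < |x|) :
    ∀ i ≤ t, T^[i] x ∉ F := by
  intro i hi hmem
  have h1 := iter_abs i x
  have h2 := hB _ hmem
  have h3 : (0 : ℤ) ≤ |T^[i] x| := abs_nonneg _
  have h4 : (2 : ℤ) ^ i ≤ 2 ^ t := pow_le_pow_right₀ (by norm_num) hi
  have h5 : 2 ^ i * |T^[i] x| ≤ 2 ^ t * B := by
    apply mul_le_mul h4 h2 h3 (by positivity)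
  linarith

theorem log_one_add {u : ℝ} (hu : |u| ≤ 1 / 3) : |Real.log (1 + u)| ≤ 3 / 2 * |u| := by
  have h1 := (abs_le.1 hu).1
  have h2 := (abs_le.1 hu).2
  have hpos : 0 < 1 + u := by linarith
  have h3 := Real.log_le_sub_one_of_pos hpos
  have h4 := Real.one_sub_inv_le_log_of_pos hpos
  have h5 : 1 - (1 + u)⁻¹ = u / (1 + u) := by field_simp; ring
  rw [h5] at h4
  rw [abs_le]
  constructor
  · refine le_trans ?_ h4
    rw [le_div_iff₀ hpos]
    rcases abs_cases u with ⟨h, h'⟩ | ⟨h, h'⟩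
    · rw [h]; nlinarith
    · rw [h]; nlinarith
  · refine h3.trans ?_
    have := le_abs_self u
    have := abs_nonneg u
    linarith

theorem log_T {x : ℤ} (hx : x ≠ 0) :
    |Real.log (T x : ℝ) - Real.log (x : ℝ) - (if x % 2 = 1 then (1 : ℕ) else 0 : ℕ) * Real.log 3 + Real.log 2|
      ≤ 1 / |(x : ℝ)| := by
  have hx' : (x : ℝ) ≠ 0 := by exact_mod_cast hx
  have hax : 0 < |(x : ℝ)| := abs_pos.2 hx'
  unfold T
  rcases Int.emod_two_eq_zero_or_one x with h | h
  · rw [if_pos h, if_neg (by omega)]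
    have e : x = 2 * (x / 2) := by omega
    have hx2 : ((x / 2 : ℤ) : ℝ) ≠ 0 := by
      have : x / 2 ≠ 0 := by omega
      exact_mod_cast this
    have e2 : Real.log (x : ℝ) = Real.log 2 + Real.log ((x / 2 : ℤ) : ℝ) := by
      have e3 : (x : ℝ) = 2 * ((x / 2 : ℤ) : ℝ) := by
        have h9 : (x : ℝ) = ((2 * (x / 2) : ℤ) : ℝ) := by rw [← e]
        rw [h9]
        push_cast
        ring_nf
      conv_lhs => rw [e3]
      rw [Real.log_mul (by norm_num) hx2]
    rw [e2]
    simp only [Nat.cast_zero, zero_mul, sub_zero]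
    rw [show Real.log ((x / 2 : ℤ) : ℝ) - (Real.log 2 + Real.log ((x / 2 : ℤ) : ℝ)) + Real.log 2 = 0 by ring,
      abs_zero]
    positivity
  · rw [if_neg (by omega), if_pos h]
    have e : 2 * ((3 * x + 1) / 2) = 3 * x + 1 := by omega
    have hne : ((3 * x + 1) / 2 : ℤ) ≠ 0 := by omega
    have hne' : (((3 * x + 1) / 2 : ℤ) : ℝ) ≠ 0 := by exact_mod_cast hne
    have e3 : 2 * (((3 * x + 1) / 2 : ℤ) : ℝ) = 3 * (x : ℝ) * (1 + 1 / (3 * x)) := by
      have h9 : ((2 * ((3 * x + 1) / 2) : ℤ) : ℝ) = ((3 * x + 1 : ℤ) : ℝ) := by rw [e]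
      rw [Int.cast_mul] at h9
      have h10 : ((2 : ℤ) : ℝ) = 2 := by norm_num
      rw [h10] at h9
      rw [h9]
      push_cast
      field_simp
    have hu : |1 / (3 * (x : ℝ))| ≤ 1 / 3 := by
      rw [abs_div, abs_one, abs_mul, abs_of_pos (by norm_num : (0 : ℝ) < 3)]
      rw [div_le_div_iff₀ (by positivity) (by norm_num)]
      have : (1 : ℝ) ≤ |(x : ℝ)| := by
        have : (1 : ℤ) ≤ |x| := Int.one_le_abs hx
        exact_mod_cast this
      linarith
    have hpos : 0 < 1 + 1 / (3 * (x : ℝ)) := by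
      have := (abs_le.1 hu).1
      linarith
    have e4 : Real.log 2 + Real.log (((3 * x + 1) / 2 : ℤ) : ℝ)
        = Real.log 3 + Real.log (x : ℝ) + Real.log (1 + 1 / (3 * x)) := by
      rw [← Real.log_mul (by norm_num) hne', e3, Real.log_mul (by positivity) hpos.ne',
        Real.log_mul (by norm_num) hx']
    have e5 : Real.log (((3 * x + 1) / 2 : ℤ) : ℝ) - Real.log (x : ℝ) - ((1 : ℕ) : ℝ) * Real.log 3 + Real.log 2
        = Real.log (1 + 1 / (3 * x)) := by
      push_cast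
      linarith
    rw [e5]
    refine (log_one_add hu).trans ?_
    rw [abs_div, abs_one, abs_mul, abs_of_pos (by norm_num : (0 : ℝ) < 3)]
    rw [show 3 / 2 * (1 / (3 * |(x : ℝ)|)) = 1 / 2 * (1 / |(x : ℝ)|) by field_simp]
    have : 0 < 1 / |(x : ℝ)| := by positivity
    linarith

/-- sizes along a trajectory -/
theorem log_path (t : ℕ) : ∀ {x : ℤ}, x ≠ 0 →
    |Real.log (T^[t] x : ℝ) - Real.log (x : ℝ) - (odds t x : ℝ) * Real.log 3 + t * Real.log 2|
      ≤ (2 ^ t - 1) / |(x : ℝ)| := by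
  induction t with
  | zero =>
    intro x hx
    rw [odds_zero]
    simp
  | succ t ih =>
    intro x hx
    have hx' : (x : ℝ) ≠ 0 := by exact_mod_cast hx
    have hax : 0 < |(x : ℝ)| := abs_pos.2 hx'
    have h1 := ih (T_ne hx)
    have h2 := log_T hx
    have h3 : odds (t + 1) x = (if x % 2 = 1 then 1 else 0) + odds t (T x) := by
      rw [Nat.add_comm, odds_add]
      congr 1
      rw [show (1 : ℕ) = 0 + 1 from rfl, odds_succ, odds_zero, zero_add]
      rfl
    rw [Function.iterate_succ_apply, h3]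
    have hT' : 0 < |((T x : ℤ) : ℝ)| := abs_pos.2 (by exact_mod_cast T_ne hx)
    have h4 : |(x : ℝ)| ≤ 2 * |((T x : ℤ) : ℝ)| := by exact_mod_cast T_abs x
    have h5 : (2 ^ t - 1 : ℝ) / |((T x : ℤ) : ℝ)| ≤ 2 * (2 ^ t - 1) / |(x : ℝ)| := by
      have h6 : (0 : ℝ) ≤ 2 ^ t - 1 := by
        have := one_le_pow₀ (by norm_num : (1 : ℝ) ≤ 2) (n := t)
        linarith
      rw [div_le_div_iff₀ hT' hax]
      nlinarith
    have e1 : Real.log (T^[t] (T x) : ℝ) - Real.log (x : ℝ)
        - (((if x % 2 = 1 then 1 else 0) + odds t (T x) : ℕ) : ℝ) * Real.log 3 + ((t + 1 : ℕ) : ℝ) * Real.log 2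
        = (Real.log (T^[t] (T x) : ℝ) - Real.log (T x : ℝ) - (odds t (T x) : ℝ) * Real.log 3 + t * Real.log 2)
          + (Real.log (T x : ℝ) - Real.log (x : ℝ) - (if x % 2 = 1 then (1 : ℕ) else 0 : ℕ) * Real.log 3
            + Real.log 2) := by
      push_cast
      ring
    rw [e1]
    refine (abs_add_le _ _).trans ?_
    refine (add_le_add (h1.trans h5) h2).trans ?_
    rw [← add_div]
    apply le_of_eq
    congr 1
    rw [pow_succ]
    ring

theorem log3_gt : (1 : ℝ) < Real.log 3 := by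
  rw [Real.lt_log_iff_exp_lt (by norm_num)]
  linarith [Real.exp_one_lt_d9]

/-- equal iterates of `x` and `3 ^ a x + b`: the numbers of odd terms differ by `a` -/
theorem odds_eq {t a : ℕ} {b x : ℤ} (hx : x ≠ 0) (h : T^[t] x = T^[t] (3 ^ a * x + b))
    (h1 : 8 * 2 ^ t ≤ |x|) (h2 : 8 * |b| ≤ |x|) : odds t x = odds t (3 ^ a * x + b) + a := by
  set x' : ℤ := 3 ^ a * x + b with hx'
  have hax : (0 : ℤ) < |x| := abs_pos.2 hx
  have h3a : (1 : ℤ) ≤ 3 ^ a := one_le_pow₀ (by norm_num)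
  have hx'1 : 7 * |x| ≤ 8 * |x'| := by
    have h3 : |3 ^ a * x| ≤ |x'| + |b| := by
      have e : 3 ^ a * x = x' + (-b) := by rw [hx']; ring
      rw [e]
      refine (abs_add_le _ _).trans ?_
      rw [abs_neg]
    rw [abs_mul, abs_of_pos (by positivity : (0 : ℤ) < 3 ^ a)] at h3
    nlinarith
  have hx'0 : x' ≠ 0 := by
    intro h0
    rw [h0, abs_zero] at hx'1
    omega
  have p1 := log_path t hx
  have p2 := log_path t hx'0
  rw [← h] at p2
  have hR : (0 : ℝ) < |(x : ℝ)| := by exact_mod_cast hax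
  have hR' : (0 : ℝ) < |(x' : ℝ)| := abs_pos.2 (by exact_mod_cast hx'0)
  have h1R : 8 * 2 ^ t ≤ |(x : ℝ)| := by exact_mod_cast h1
  have h2R : 8 * |(b : ℝ)| ≤ |(x : ℝ)| := by exact_mod_cast h2
  have hx'R : 7 * |(x : ℝ)| ≤ 8 * |(x' : ℝ)| := by exact_mod_cast hx'1
  have hxR : (x : ℝ) ≠ 0 := by exact_mod_cast hx
  have q1 : (2 ^ t - 1 : ℝ) / |(x : ℝ)| ≤ 1 / 8 := by
    rw [div_le_div_iff₀ hR (by norm_num)]
    linarith
  have q2 : (2 ^ t - 1 : ℝ) / |(x' : ℝ)| ≤ 1 / 7 := by
    rw [div_le_div_iff₀ hR' (by norm_num)]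
    linarith
  -- the logarithm of `x'`
  set u : ℝ := b / (3 ^ a * x) with hu
  have h3aR : (1 : ℝ) ≤ 3 ^ a := one_le_pow₀ (by norm_num)
  have hu1 : |u| ≤ 1 / 8 := by
    rw [hu, abs_div, abs_mul, abs_of_pos (by positivity : (0 : ℝ) < 3 ^ a),
      div_le_div_iff₀ (by positivity) (by norm_num)]
    nlinarith
  have hlog : Real.log (x' : ℝ) = a * Real.log 3 + Real.log (x : ℝ) + Real.log (1 + u) := by
    have e : (x' : ℝ) = 3 ^ a * x * (1 + u) := by
      rw [hx', hu]
      push_cast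
      field_simp
    have hpos : 0 < 1 + u := by
      have := (abs_le.1 hu1).1
      linarith
    rw [e, Real.log_mul (by positivity) hpos.ne', Real.log_mul (by positivity) hxR, Real.log_pow]
  have h5 := log_one_add (u := u) (by linarith)
  have p1' := abs_le.1 (p1.trans q1)
  have p2' := abs_le.1 (p2.trans q2)
  have h5' := abs_le.1 (h5.trans (show 3 / 2 * |u| ≤ 3 / 16 by linarith))
  rw [hlog] at p2'
  have hfin : |((odds t x : ℝ) - odds t x' - a) * Real.log 3| < Real.log 3 := by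
    have hl := log3_gt
    rw [abs_lt]
    constructor <;> nlinarith [p1'.1, p1'.2, p2'.1, p2'.2, h5'.1, h5'.2]
  have h6 : |((odds t x : ℝ) - odds t x' - a)| < 1 := by
    rw [abs_mul, abs_of_pos (by linarith [log3_gt] : (0 : ℝ) < Real.log 3)] at hfin
    by_contra hcon
    push Not at hcon
    have := log3_gt
    nlinarith
  have h7 : |(odds t x : ℤ) - odds t x' - a| < 1 := by exact_mod_cast h6
  rw [Int.abs_lt_one_iff] at h7
  omega

end Pool.Agent.Q74.SP
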