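import Pool.Agent.Q158.Pair.Main
import Pool.Agent.Q74.SP.Traj
import Pool.Agent.Q74.SP.Kro

/-! Functions which are multiplied by constants under `x ↦ 2 x` and, for almost all `x`, under
`x ↦ 3 ^ a x + b`: mean values. -/

set_option autoImplicit false

namespace Pool.Agent.Q74.SP

open Finset Filter Topology

/-- tends to zero in the mean -/
def DZ (u : ℕ → ℂ) : Prop := Tendsto (fun N : ℕ => (∑ n ∈ Icc 1 N, ‖u n‖) / N) atTop (𝓝 0)

/-- the time at the scale `N` -/
def tN (N : ℕ) : ℕ := Nat.log 2 N / 2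

theorem tN_top : Tendsto tN atTop atTop := by
  apply tendsto_atTop.2
  intro b
  filter_upwards [eventually_ge_atTop (2 ^ (2 * b))] with N hN
  unfold tN
  have h : 2 * b ≤ Nat.log 2 N := Nat.le_log_of_pow_le (by norm_num) hN
  omega

theorem tN_pow {N : ℕ} (hN : 1 ≤ N) : (2 ^ tN N) * (2 ^ tN N) ≤ N := by
  have h1 : 2 ^ Nat.log 2 N ≤ N := Nat.pow_log_le_self 2 (by omega)
  rw [← pow_add]
  refine le_trans (Nat.pow_le_pow_right (by norm_num) ?_) h1
  unfold tN
  omega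

open Classical in
/-- the exceptions at the scale `N` -/
noncomputable def bad (s : ℤ) (a : ℕ) (b : ℤ) (W : ℕ) (N : ℕ) : Finset ℕ :=
  (Icc 1 N).filter fun n => n < W * 2 ^ tN N ∨ T^[tN N] (s * n) ≠ T^[tN N] (3 ^ a * (s * n) + b)

theorem T_eq : Pool.Agent.Q158.Pair.T = T := rfl

theorem bad_card {s : ℤ} (hs : s = 1 ∨ s = -1) (a : ℕ) (b : ℤ) (W : ℕ) :
    Tendsto (fun N : ℕ => ((bad s a b W N).card : ℝ) / N) atTop (𝓝 0) := by
  classical
  obtain ⟨C, hC, hup⟩ := Pool.Agent.Q158.Pair.upper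
  set D : ℝ := C * (1 + a + √(Real.log (2 + |(b : ℝ)|))) with hD
  have hD0 : 0 ≤ D := by positivity
  have hb : ∀ᶠ N : ℕ in atTop, ((bad s a b W N).card : ℝ) / N ≤ W / (2 ^ tN N : ℝ) + D / √(tN N : ℝ) := by
    filter_upwards [tN_top.eventually (eventually_ge_atTop 1), eventually_ge_atTop 1] with N ht hN
    have hN0 : (0 : ℝ) < N := by exact_mod_cast hN
    set t := tN N with htN
    have hpow : (2 : ℕ) ^ t ≤ N := by
      have h1 := tN_pow hN
      have h2 : 1 ≤ 2 ^ t := Nat.one_le_two_pow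
      nlinarith
    -- the second part
    set A : Finset ℕ := (Icc 1 N).filter fun n => T^[t] (s * n) ≠ T^[t] (3 ^ a * (s * n) + b) with hA
    set M : ℤ := if s = 1 then 1 else -N with hM
    have hA' : (A.card : ℝ) ≤ D / √(t : ℝ) * N := by
      have h1 := hup a b t ht M N hpow
      refine le_trans ?_ h1
      have h2 : A.card ≤ Set.ncard {n : ℤ | M ≤ n ∧ n < M + N ∧
          Pool.Agent.Q158.Pair.T^[t] n ≠ Pool.Agent.Q158.Pair.T^[t] (3 ^ a * n + b)} := by
        rw [← Set.ncard_coe_finset]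
        refine Set.ncard_le_ncard_of_injOn (fun n : ℕ => s * (n : ℤ)) ?_ ?_ ?_
        · intro n hn
          rw [Finset.mem_coe, hA, mem_filter, mem_Icc] at hn
          refine ⟨?_, ?_, hn.2⟩
          · rcases hs with rfl | rfl
            · rw [hM, if_pos rfl]; omega
            · rw [hM, if_neg (by norm_num)]; omega
          · rcases hs with rfl | rfl
            · rw [hM, if_pos rfl]; omega
            · rw [hM, if_neg (by norm_num)]; omega
        · intro n _ m _ hnm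
          simp only at hnm
          rcases hs with rfl | rfl <;> omega
        · apply (Set.finite_Ico M (M + N)).subset
          rintro n ⟨h3, h4, _⟩
          exact ⟨h3, h4⟩
      exact_mod_cast h2
    have hsub : bad s a b W N ⊆ (range (W * 2 ^ t)) ∪ A := by
      intro n hn
      unfold bad at hn
      rw [mem_filter] at hn
      rw [mem_union, mem_range]
      rcases hn.2 with h | h
      · left; exact h
      · right; rw [hA, mem_filter]; exact ⟨hn.1, h⟩
    have hcard : ((bad s a b W N).card : ℝ) ≤ W * 2 ^ t + D / √(t : ℝ) * N := by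
      have h1 := (card_le_card hsub).trans (card_union_le _ _)
      rw [card_range] at h1
      have h2 : ((bad s a b W N).card : ℝ) ≤ ((W * 2 ^ t : ℕ) : ℝ) + A.card := by exact_mod_cast h1
      push_cast at h2
      linarith
    rw [div_le_iff₀ hN0]
    refine hcard.trans ?_
    rw [add_mul]
    apply add_le_add _ le_rfl
    have h3 : ((2 : ℝ) ^ t) * (2 ^ t) ≤ N := by
      have := tN_pow hN
      exact_mod_cast this
    have h4 : (0 : ℝ) < 2 ^ t := by positivity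
    rw [div_mul_eq_mul_div, le_div_iff₀ h4, mul_assoc]
    exact mul_le_mul_of_nonneg_left h3 (Nat.cast_nonneg W)
  have hlim : Tendsto (fun N : ℕ => W / (2 ^ tN N : ℝ) + D / √(tN N : ℝ)) atTop (𝓝 0) := by
    have h1 : Tendsto (fun N : ℕ => W / (2 ^ tN N : ℝ)) atTop (𝓝 0) := by
      apply tendsto_const_nhds.div_atTop
      exact (tendsto_pow_atTop_atTop_of_one_lt (by norm_num : (1 : ℝ) < 2)).comp tN_top
    have h2 : Tendsto (fun N : ℕ => D / √(tN N : ℝ)) atTop (𝓝 0) := by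
      apply tendsto_const_nhds.div_atTop
      exact Real.tendsto_sqrt_atTop.comp (tendsto_natCast_atTop_atTop.comp tN_top)
    simpa using h1.add h2
  exact squeeze_zero' (Eventually.of_forall fun N => by positivity) hb hlim

/-- a bounded sequence which is small off small sets tends to zero in the mean -/
theorem dz_of_bad {u : ℕ → ℂ} {H : ℝ} (hH : ∀ n, ‖u n‖ ≤ H)
    (h : ∀ ε : ℝ, 0 < ε → ∃ B : ℕ → Finset ℕ, Tendsto (fun N : ℕ => ((B N).card : ℝ) / N) atTop (𝓝 0) ∧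
      ∀ᶠ N : ℕ in atTop, ∀ n ∈ Icc 1 N, n ∉ B N → ‖u n‖ ≤ ε) : DZ u := by
  classical
  have hH0 : 0 ≤ H := (norm_nonneg _).trans (hH 0)
  unfold DZ
  rw [Metric.tendsto_atTop']
  intro ε hε
  obtain ⟨B, hB, hev⟩ := h (ε / 2) (by positivity)
  have h1 : ∀ᶠ N : ℕ in atTop, ((B N).card : ℝ) / N < ε / (2 * (H + 1)) :=
    hB.eventually (gt_mem_nhds (by positivity))
  obtain ⟨N0, hN0⟩ := eventually_atTop.1 ((h1.and hev).and (eventually_ge_atTop 1))
  refine ⟨N0, fun N hN => ?_⟩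
  obtain ⟨⟨h2, h3⟩, h4⟩ := hN0 N hN.le
  have hNpos : (0 : ℝ) < N := by exact_mod_cast h4
  rw [Real.dist_eq, sub_zero, abs_of_nonneg (by positivity), div_lt_iff₀ hNpos]
  have h5 : ∀ n ∈ Icc 1 N, ‖u n‖ ≤ ε / 2 + (if n ∈ B N then H else 0) := by
    intro n hn
    by_cases hnB : n ∈ B N
    · rw [if_pos hnB]
      have := hH n
      linarith
    · rw [if_neg hnB, add_zero]
      exact h3 n hn hnB
  refine lt_of_le_of_lt (sum_le_sum h5) ?_
  rw [sum_add_distrib, sum_const, Nat.card_Icc, Nat.add_sub_cancel, nsmul_eq_mul, ← sum_filter, sum_const,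
    nsmul_eq_mul]
  have h6 : (((Icc 1 N).filter fun n => n ∈ B N).card : ℝ) ≤ (B N).card := by
    exact_mod_cast card_le_card (by intro n hn; exact (mem_filter.1 hn).2)
  rw [div_lt_iff₀ hNpos] at h2
  have h7 : (((Icc 1 N).filter fun n => n ∈ B N).card : ℝ) * H ≤ (B N).card * H :=
    mul_le_mul_of_nonneg_right h6 hH0
  have h8 : ((B N).card : ℝ) * H ≤ (ε / (2 * (H + 1)) * N) * H :=
    mul_le_mul_of_nonneg_right h2.le hH0
  have h9 : (ε / (2 * (H + 1)) * N) * H < ε / 2 * N := by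
    have e1 : (ε / (2 * (H + 1)) * N) * H = ε / 2 * N * (H / (H + 1)) := by field_simp
    rw [e1]
    have h10 : H / (H + 1) < 1 := by
      rw [div_lt_one (by linarith)]
      linarith
    have : 0 < ε / 2 * N := by positivity
    nlinarith
  linarith

/-- functions which are multiplied by `e θ` under doubling and by `e (- a φ)` under `x ↦ 3 ^ a x + b` -/
structure Coc (G : ℤ → ℂ) (s : ℤ) (θ φ : ℝ) : Prop where
  bdd : ∃ H : ℝ, ∀ x, ‖G x‖ ≤ H
  two : ∃ n0 : ℕ, ∀ n : ℕ, n0 ≤ n → G (s * (2 * n)) = e θ * G (s * n)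
  aff : ∀ (a : ℕ) (b : ℤ), DZ (fun n => G (3 ^ a * (s * n) + b) - e (-(a * φ)) * G (s * n))

/-- mean values -/
noncomputable def mean (g : ℕ → ℂ) (N : ℕ) : ℂ := (∑ n ∈ Icc 1 N, g n) / N

theorem mean_norm {g : ℕ → ℂ} {H : ℝ} (hH : ∀ n, ‖g n‖ ≤ H) (N : ℕ) : ‖mean g N‖ ≤ H := by
  have hH0 : 0 ≤ H := (norm_nonneg _).trans (hH 0)
  unfold mean
  rw [norm_div, Complex.norm_natCast]
  rcases Nat.eq_zero_or_pos N with rfl | hN
  · simp [hH0]
  · have hN0 : (0 : ℝ) < N := by exact_mod_cast hN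
    rw [div_le_iff₀ hN0]
    refine (norm_sum_le _ _).trans ?_
    refine (sum_le_sum fun n _ => hH n).trans ?_
    rw [sum_const, Nat.card_Icc, Nat.add_sub_cancel, nsmul_eq_mul]
    linarith

theorem sum_three (g : ℕ → ℂ) (N : ℕ) :
    ∑ m ∈ Icc 1 (3 * N), g m = ∑ n ∈ Icc 1 N, (g (3 * n) + g (3 * n - 1) + g (3 * n - 2)) := by
  induction N with
  | zero => simp
  | succ N ih =>
    rw [sum_Icc_succ_top (by omega), ← ih, show 3 * (N + 1) = 3 * N + 1 + 1 + 1 by ring,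
      sum_Icc_succ_top (by omega), sum_Icc_succ_top (by omega), sum_Icc_succ_top (by omega)]
    rw [show 3 * N + 1 + 1 + 1 - 1 = 3 * N + 1 + 1 by omega, show 3 * N + 1 + 1 + 1 - 2 = 3 * N + 1 by omega]
    ring

theorem sum_two (g : ℕ → ℂ) (N : ℕ) :
    ∑ m ∈ Icc 1 (2 * N), g m = ∑ n ∈ Icc 1 N, (g (2 * n) + g (2 * n - 1)) := by
  induction N with
  | zero => simp
  | succ N ih =>
    rw [sum_Icc_succ_top (by omega), ← ih, show 2 * (N + 1) = 2 * N + 1 + 1 by ring,
      sum_Icc_succ_top (by omega), sum_Icc_succ_top (by omega)]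
    rw [show 2 * N + 1 + 1 - 1 = 2 * N + 1 by omega]
    ring

theorem three_step {G : ℤ → ℂ} {s : ℤ} {θ φ : ℝ} (h : Coc G s θ φ) :
    Tendsto (fun N : ℕ => mean (fun n => G (s * n)) (3 * N) - e (-φ) * mean (fun n => G (s * n)) N)
      atTop (𝓝 0) := by
  have h0 := h.aff 1 0
  have h1 := h.aff 1 (-s)
  have h2 := h.aff 1 (-(2 * s))
  have hb : ∀ N : ℕ, 1 ≤ N → ‖mean (fun n => G (s * n)) (3 * N) - e (-φ) * mean (fun n => G (s * n)) N‖ ≤
      (∑ n ∈ Icc 1 N, ‖G (3 ^ 1 * (s * n) + 0) - e (-((1 : ℕ) * φ)) * G (s * n)‖) / N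
      + (∑ n ∈ Icc 1 N, ‖G (3 ^ 1 * (s * n) + -s) - e (-((1 : ℕ) * φ)) * G (s * n)‖) / N
      + (∑ n ∈ Icc 1 N, ‖G (3 ^ 1 * (s * n) + -(2 * s)) - e (-((1 : ℕ) * φ)) * G (s * n)‖) / N := by
    intro N hN
    have hN0 : (0 : ℝ) < N := by exact_mod_cast hN
    have hNc : (N : ℂ) ≠ 0 := by exact_mod_cast (by omega : N ≠ 0)
    have e1 : mean (fun n => G (s * n)) (3 * N) - e (-φ) * mean (fun n => G (s * n)) N
        = (∑ n ∈ Icc 1 N, ((G (3 ^ 1 * (s * n) + 0) - e (-((1 : ℕ) * φ)) * G (s * n))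
          + (G (3 ^ 1 * (s * n) + -s) - e (-((1 : ℕ) * φ)) * G (s * n))
          + (G (3 ^ 1 * (s * n) + -(2 * s)) - e (-((1 : ℕ) * φ)) * G (s * n)))) / (3 * N) := by
      unfold mean
      rw [sum_three]
      have e2 : ∀ n ∈ Icc 1 N, G (s * ((3 * n : ℕ) : ℤ)) + G (s * ((3 * n - 1 : ℕ) : ℤ)) + G (s * ((3 * n - 2 : ℕ) : ℤ))
          = ((G (3 ^ 1 * (s * n) + 0) - e (-((1 : ℕ) * φ)) * G (s * n))
          + (G (3 ^ 1 * (s * n) + -s) - e (-((1 : ℕ) * φ)) * G (s * n))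
          + (G (3 ^ 1 * (s * n) + -(2 * s)) - e (-((1 : ℕ) * φ)) * G (s * n)))
          + 3 * e (-φ) * G (s * n) := by
        intro n hn
        rw [mem_Icc] at hn
        have a1 : s * ((3 * n : ℕ) : ℤ) = 3 ^ 1 * (s * n) + 0 := by push_cast; ring
        have a2 : s * ((3 * n - 1 : ℕ) : ℤ) = 3 ^ 1 * (s * n) + -s := by
          rw [Nat.cast_sub (by omega)]; push_cast; ring
        have a3 : s * ((3 * n - 2 : ℕ) : ℤ) = 3 ^ 1 * (s * n) + -(2 * s) := by
          rw [Nat.cast_sub (by omega)]; push_cast; ring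
        rw [a1, a2, a3]
        rw [show (-((1 : ℕ) * φ) : ℝ) = -φ by push_cast; ring]
        ring
      rw [sum_congr rfl e2, sum_add_distrib, ← mul_sum]
      push_cast
      field_simp
      ring
    rw [e1, norm_div]
    have e3 : ‖(3 * N : ℂ)‖ = 3 * N := by
      rw [norm_mul, Complex.norm_natCast]; norm_num
    rw [e3, ← add_div, ← add_div, ← sum_add_distrib, ← sum_add_distrib]
    rw [div_le_div_iff₀ (by positivity) hN0]
    have h5 : ‖∑ n ∈ Icc 1 N, ((G (3 ^ 1 * (s * n) + 0) - e (-((1 : ℕ) * φ)) * G (s * n))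
          + (G (3 ^ 1 * (s * n) + -s) - e (-((1 : ℕ) * φ)) * G (s * n))
          + (G (3 ^ 1 * (s * n) + -(2 * s)) - e (-((1 : ℕ) * φ)) * G (s * n)))‖ ≤
        ∑ n ∈ Icc 1 N, (‖G (3 ^ 1 * (s * n) + 0) - e (-((1 : ℕ) * φ)) * G (s * n)‖
          + ‖G (3 ^ 1 * (s * n) + -s) - e (-((1 : ℕ) * φ)) * G (s * n)‖
          + ‖G (3 ^ 1 * (s * n) + -(2 * s)) - e (-((1 : ℕ) * φ)) * G (s * n)‖) :=
      (norm_sum_le _ _).trans (sum_le_sum fun n _ => (norm_add_le _ _).trans (add_le_add (norm_add_le _ _) le_rfl))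
    have h6 : 0 ≤ ∑ n ∈ Icc 1 N, (‖G (3 ^ 1 * (s * n) + 0) - e (-((1 : ℕ) * φ)) * G (s * n)‖
          + ‖G (3 ^ 1 * (s * n) + -s) - e (-((1 : ℕ) * φ)) * G (s * n)‖
          + ‖G (3 ^ 1 * (s * n) + -(2 * s)) - e (-((1 : ℕ) * φ)) * G (s * n)‖) :=
      sum_nonneg fun n _ => by positivity
    nlinarith
  refine squeeze_zero_norm' (eventually_atTop.2 ⟨1, hb⟩) ?_
  have := (h0.add h1).add h2
  simpa using this

theorem two_step {G : ℤ → ℂ} {s : ℤ} {θ φ : ℝ} (h : Coc G s θ φ) :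
    Tendsto (fun N : ℕ => mean (fun n => G (s * n)) (2 * N) - e θ * mean (fun n => G (s * n)) N)
      atTop (𝓝 0) := by
  obtain ⟨H, hH⟩ := h.bdd
  have hH0 : 0 ≤ H := (norm_nonneg _).trans (hH 0)
  obtain ⟨n0, hn0⟩ := h.two
  have h0 := h.aff 0 (-s)
  have hlim2 : Tendsto (fun N : ℕ => (∑ n ∈ Icc 1 (2 * N), ‖G (3 ^ 0 * (s * n) + -s) - e (-((0 : ℕ) * φ)) * G (s * n)‖)
      / ((2 * N : ℕ) : ℝ)) atTop (𝓝 0) :=
    h0.comp (tendsto_id.const_mul_atTop' (by norm_num : 0 < 2))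
  have hb : ∀ N : ℕ, 1 ≤ N → ‖mean (fun n => G (s * n)) (2 * N) - e θ * mean (fun n => G (s * n)) N‖ ≤
      (2 * H * n0) / N + (∑ n ∈ Icc 1 (2 * N), ‖G (3 ^ 0 * (s * n) + -s) - e (-((0 : ℕ) * φ)) * G (s * n)‖)
      / ((2 * N : ℕ) : ℝ) := by
    intro N hN
    have hN0 : (0 : ℝ) < N := by exact_mod_cast hN
    have hNc : (N : ℂ) ≠ 0 := by exact_mod_cast (by omega : N ≠ 0)
    set u : ℕ → ℂ := fun n => G (3 ^ 0 * (s * n) + -s) - e (-((0 : ℕ) * φ)) * G (s * n) with hu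
    have e1 : mean (fun n => G (s * n)) (2 * N) - e θ * mean (fun n => G (s * n)) N
        = (∑ n ∈ Icc 1 N, (2 * (G (s * (2 * n)) - e θ * G (s * n)) + u (2 * n))) / (2 * N) := by
      unfold mean
      rw [sum_two]
      have e2 : ∀ n ∈ Icc 1 N, G (s * ((2 * n : ℕ) : ℤ)) + G (s * ((2 * n - 1 : ℕ) : ℤ))
          = (2 * (G (s * (2 * n)) - e θ * G (s * n)) + u (2 * n)) + 2 * e θ * G (s * n) := by
        intro n hn
        rw [mem_Icc] at hn
        have a1 : s * ((2 * n : ℕ) : ℤ) = s * (2 * n) := by push_cast; ring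
        have a2 : s * ((2 * n - 1 : ℕ) : ℤ) = 3 ^ 0 * (s * ((2 * n : ℕ) : ℤ)) + -s := by
          rw [Nat.cast_sub (by omega)]; push_cast; ring
        rw [hu]
        simp only
        rw [a1, a2, a1]
        rw [show (-((0 : ℕ) * φ) : ℝ) = 0 by push_cast; ring, e_zero]
        ring
      rw [sum_congr rfl e2, sum_add_distrib, ← mul_sum]
      push_cast
      field_simp
      ring
    rw [e1, norm_div]
    have e3 : ‖(2 * N : ℂ)‖ = 2 * N := by
      rw [norm_mul, Complex.norm_natCast]; norm_num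
    rw [e3, div_le_iff₀ (by positivity), add_mul]
    have e4 : 2 * H * n0 / N * (2 * N) = 4 * H * n0 := by field_simp; ring
    have e5 : (∑ n ∈ Icc 1 (2 * N), ‖u n‖) / ((2 * N : ℕ) : ℝ) * (2 * N) = ∑ n ∈ Icc 1 (2 * N), ‖u n‖ := by
      push_cast
      field_simp
    rw [e4, e5]
    refine (norm_sum_le _ _).trans ?_
    have h5 : ∀ n ∈ Icc 1 N, ‖2 * (G (s * (2 * n)) - e θ * G (s * n)) + u (2 * n)‖ ≤
        (if n < n0 then 4 * H else 0) + ‖u (2 * n)‖ := by
      intro n hn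
      refine (norm_add_le _ _).trans (add_le_add ?_ le_rfl)
      split_ifs with hlt
      · rw [norm_mul]
        have h6 : ‖G (s * (2 * n)) - e θ * G (s * n)‖ ≤ 2 * H := by
          refine (norm_sub_le _ _).trans ?_
          rw [norm_mul, norm_e, one_mul]
          linarith [hH (s * (2 * n)), hH (s * n)]
        have h7 : ‖(2 : ℂ)‖ = 2 := by norm_num
        rw [h7]
        linarith
      · rw [hn0 n (by omega), sub_self, mul_zero, norm_zero]
    refine (sum_le_sum h5).trans ?_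
    rw [sum_add_distrib]
    apply add_le_add
    · rw [← sum_filter, sum_const, nsmul_eq_mul]
      have h6 : (((Icc 1 N).filter fun n => n < n0).card : ℝ) ≤ n0 := by
        have : (Icc 1 N).filter (fun n => n < n0) ⊆ range n0 := by
          intro n hn
          rw [mem_filter] at hn
          exact mem_range.2 hn.2
        have := card_le_card this
        rw [card_range] at this
        exact_mod_cast this
      nlinarith
    · -- even terms
      rw [← sum_image (g := fun n => 2 * n) (f := fun n => ‖u n‖) (by intro a _ b _ hab; simp only at hab; omega)]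
      apply sum_le_sum_of_subset_of_nonneg
      · intro m hm
        rw [mem_image] at hm
        obtain ⟨n, hn, rfl⟩ := hm
        rw [mem_Icc] at hn ⊢
        omega
      · intro i _ _
        exact norm_nonneg _
  refine squeeze_zero_norm' (eventually_atTop.2 ⟨1, hb⟩) ?_
  have h7 : Tendsto (fun N : ℕ => (2 * H * n0) / (N : ℝ)) atTop (𝓝 0) :=
    tendsto_const_nhds.div_atTop tendsto_natCast_atTop_atTop
  simpa using h7.add hlim2

theorem step_pow {m : ℕ → ℂ} {P : ℕ} (hP : 1 ≤ P) {ψ : ℝ}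
    (h : Tendsto (fun N : ℕ => m (P * N) - e ψ * m N) atTop (𝓝 0)) (a : ℕ) :
    Tendsto (fun N : ℕ => m (P ^ a * N) - e (a * ψ) * m N) atTop (𝓝 0) := by
  induction a with
  | zero => simp [e_zero]
  | succ a ih =>
    have h1 : Tendsto (fun N : ℕ => P ^ a * N) atTop atTop :=
      tendsto_id.const_mul_atTop' (by positivity)
    have h2 := h.comp h1
    have h3 := h2.add (ih.const_mul (e ψ))
    rw [mul_zero, add_zero] at h3
    refine h3.congr fun N => ?_
    simp only [Function.comp]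
    rw [pow_succ, mul_assoc, mul_comm (P ^ a) (P * N), mul_assoc, mul_comm N (P ^ a)]
    rw [show ((a + 1 : ℕ) : ℝ) * ψ = ψ + a * ψ by push_cast; ring, e_add]
    ring

/-- mean values at neighbouring places -/
theorem mean_close {g : ℕ → ℂ} {H : ℝ} (hH : ∀ n, ‖g n‖ ≤ H) {P Q : ℕ} (hP : 1 ≤ P) (hPQ : P ≤ Q) :
    ‖mean g Q - mean g P‖ ≤ 2 * H * (1 - (P : ℝ) / Q) := by
  have hH0 : 0 ≤ H := (norm_nonneg _).trans (hH 0)
  have hP0 : (0 : ℝ) < P := by exact_mod_cast hP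
  have hQ0 : (0 : ℝ) < Q := by exact_mod_cast (by omega : 0 < Q)
  have hPQ' : (P : ℝ) ≤ Q := by exact_mod_cast hPQ
  have e1 : ∑ n ∈ Icc 1 Q, g n = ∑ n ∈ Icc 1 P, g n + ∑ n ∈ Ioc P Q, g n := by
    rw [← sum_union]
    · congr 1
      ext n
      simp only [mem_Icc, mem_union, mem_Ioc]
      omega
    · rw [disjoint_left]
      intro n hn hn'
      rw [mem_Icc] at hn
      rw [mem_Ioc] at hn'
      omega
  have e2 : mean g Q - mean g P = (∑ n ∈ Ioc P Q, g n) / Q - mean g P * (1 - (P : ℂ) / Q) := by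
    unfold mean
    have hPc : (P : ℂ) ≠ 0 := by exact_mod_cast (by omega : P ≠ 0)
    have hQc : (Q : ℂ) ≠ 0 := by exact_mod_cast (by omega : Q ≠ 0)
    rw [e1]
    field_simp
    ring
  rw [e2]
  refine (norm_sub_le _ _).trans ?_
  have h1 : ‖(∑ n ∈ Ioc P Q, g n) / Q‖ ≤ H * (1 - (P : ℝ) / Q) := by
    rw [norm_div, Complex.norm_natCast, div_le_iff₀ hQ0]
    refine (norm_sum_le _ _).trans ((sum_le_sum fun n _ => hH n).trans ?_)
    rw [sum_const, Nat.card_Ioc, nsmul_eq_mul, Nat.cast_sub hPQ]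
    apply le_of_eq
    field_simp
  have h2 : ‖mean g P * (1 - (P : ℂ) / Q)‖ ≤ H * (1 - (P : ℝ) / Q) := by
    rw [norm_mul]
    have h3 : ‖(1 - (P : ℂ) / Q)‖ = 1 - (P : ℝ) / Q := by
      have : (1 - (P : ℂ) / Q) = ((1 - (P : ℝ) / Q : ℝ) : ℂ) := by push_cast; ring
      rw [this, Complex.norm_real, Real.norm_eq_abs, abs_of_nonneg]
      rw [sub_nonneg, div_le_one hQ0]
      exact hPQ'
    rw [h3]
    apply mul_le_mul_of_nonneg_right (mean_norm hH P)
    rw [sub_nonneg, div_le_one hQ0]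
    exact hPQ'
  linarith

end Pool.Agent.Q74.SP
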